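import Pool.Agent.H70.WB.BL
import Pool.Agent.H70.WX.Cls
import Pool.Agent.H70.WP.OP2

/-!
# [H70 WB All] Chains whose first equations imply `A z = z D`, `A, D` conjugate words in `x, y`
-/

set_option autoImplicit false

namespace Pool.Agent.H70.WE

variable {α : Type}

theorem prim_root {β : Type} : ∀ (N : ℕ) (A : List β), A.length ≤ N → A ≠ [] →
    ∃ (C : List β) (m : ℕ), 1 ≤ m ∧ A = pow C m ∧ Prim C := by
  intro N
  induction N with
  | zero =>
    intro A hA h0
    exact absurd (List.eq_nil_of_length_eq_zero (by omega)) h0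
  | succ N ih =>
    intro A hA h0
    by_cases hp : Prim A
    · exact ⟨A, 1, le_rfl, (pow_one'' A).symm, hp⟩
    · unfold Prim at hp
      push Not at hp
      obtain ⟨w, m, hm, he⟩ := hp
      have hw : w ≠ [] := by
        rintro rfl
        rw [pow_nil] at he
        exact h0 he
      have hwpos : 0 < w.length := List.length_pos_iff.2 hw
      have hl := congrArg List.length he
      rw [pow_length] at hl
      have h1 : 2 * w.length ≤ m * w.length := Nat.mul_le_mul_right _ hm
      obtain ⟨C, m', hm', hC, hCp⟩ := ih w (by omega) hw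
      refine ⟨C, m' * m, Nat.mul_pos hm' (by omega), ?_, hCp⟩
      rw [pow_mul', ← hC, he]

/-- rotations of a power -/
theorem rot_pow {β : Type} (w : List β) (m : ℕ) (hm : 1 ≤ m) : ∀ (N : ℕ) (s t : List β), s.length ≤ N →
    s ++ t = pow w m → ∃ w1 w2 : List β, w = w1 ++ w2 ∧ t ++ s = pow (w2 ++ w1) m := by
  intro N
  induction N with
  | zero =>
    intro s t hs h
    have h1 : s = [] := List.eq_nil_of_length_eq_zero (by omega)
    subst h1
    exact ⟨[], w, rfl, by simpa using h⟩
  | succ N ih =>
    intro s t hs h
    obtain ⟨m', rfl⟩ : ∃ m', m = m' + 1 := ⟨m - 1, by omega⟩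
    have hw : pow w (m' + 1) = w ++ pow w m' := by rw [Nat.add_comm, pow_add', pow_one'']
    have hw' : pow w (m' + 1) = pow w m' ++ w := by rw [pow_add', pow_one'']
    rcases List.eq_nil_or_concat w with hw0 | ⟨w0, c, hw0⟩
    · subst hw0
      rw [pow_nil] at h
      have h1 := List.append_eq_nil_iff.1 h
      exact ⟨[], [], rfl, by rw [h1.1, h1.2, List.append_nil, pow_nil]⟩
    have hwpos : 0 < w.length := by rw [hw0]; simp
    rcases Nat.lt_or_ge s.length w.length with hlt | hge
    · have h1 : s <+: w := by
        apply List.prefix_of_prefix_length_le (l₃ := pow w (m' + 1)) _ _ hlt.le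
        · exact ⟨t, h⟩
        · exact ⟨pow w m', hw.symm⟩
      obtain ⟨w2, hw2⟩ := h1
      refine ⟨s, w2, hw2.symm, ?_⟩
      have h2 : t = w2 ++ pow w m' := by
        rw [hw] at h
        nth_rewrite 1 [← hw2] at h
        rw [List.append_assoc] at h
        exact List.append_cancel_left h
      have hconj : ∀ N : ℕ, pow (w2 ++ s) (N + 1) = w2 ++ pow (s ++ w2) N ++ s := by
        intro N
        induction N with
        | zero => rw [pow_one'', pow_zero', List.append_nil]
        | succ N ih =>
          rw [pow_add' _ (N + 1) 1, ih, pow_one'', pow_add' _ N 1, pow_one'']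
          simp only [List.append_assoc]
      rw [hconj, h2, hw2]
    · have h1 : w <+: s := by
        apply List.prefix_of_prefix_length_le (l₃ := pow w (m' + 1)) _ _ hge
        · exact ⟨pow w m', hw.symm⟩
        · exact ⟨t, h⟩
      obtain ⟨s', hs'⟩ := h1
      have h2 : s' ++ t = pow w m' := by
        rw [← hs', hw, List.append_assoc] at h
        exact List.append_cancel_left h
      have h3 : s' ++ (t ++ w) = pow w (m' + 1) := by
        rw [hw', ← h2, List.append_assoc]
      have hl : s'.length ≤ N := by
        have : s.length = w.length + s'.length := by rw [← hs', List.length_append]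
        omega
      obtain ⟨w1, w2, h4, h5⟩ := ih s' (t ++ w) hl h3
      refine ⟨w1, w2, h4, ?_⟩
      rw [← hs', ← h5, List.append_assoc]

/-- roots of conjugate powers are conjugate, with the same conjugator -/
theorem root_conj {m : ℕ} (hm : 1 ≤ m) : ∀ (N : ℕ) (c c' z : List α), z.length ≤ N → c.length = c'.length →
    pow c m ++ z = z ++ pow c' m → c ++ z = z ++ c' := by
  intro N
  obtain ⟨m', rfl⟩ : ∃ m', m = m' + 1 := ⟨m - 1, by omega⟩
  have hw : ∀ w : List α, pow w (m' + 1) = w ++ pow w m' := fun w => by
    rw [Nat.add_comm, pow_add', pow_one'']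
  have hconj : ∀ (w2 s : List α) (N : ℕ), pow (w2 ++ s) (N + 1) = w2 ++ pow (s ++ w2) N ++ s := by
    intro w2 s N
    induction N with
    | zero => rw [pow_one'', pow_zero', List.append_nil]
    | succ N ih =>
      rw [pow_add' _ (N + 1) 1, ih, pow_one'', pow_add' _ N 1, pow_one'']
      simp only [List.append_assoc]
  have hroot : ∀ u v : List α, u.length = v.length → pow u (m' + 1) = pow v (m' + 1) → u = v := by
    intro u v hl h
    rw [hw, hw] at h
    exact (List.append_inj h hl).1
  induction N with
  | zero =>
    intro c c' z hz hl h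
    have h1 : z = [] := List.eq_nil_of_length_eq_zero (by omega)
    subst h1
    rw [List.append_nil, List.nil_append] at h ⊢
    exact hroot c c' hl h
  | succ N ih =>
    intro c c' z hz hl h
    rcases Nat.eq_zero_or_pos c.length with h0 | h0
    · have h1 : c = [] := List.eq_nil_of_length_eq_zero h0
      have h2 : c' = [] := List.eq_nil_of_length_eq_zero (by omega)
      rw [h1, h2, List.nil_append, List.append_nil]
    rcases Nat.lt_or_ge z.length c.length with hlt | hge
    · have h1 : z <+: c := by
        apply List.prefix_of_prefix_length_le (l₃ := pow c (m' + 1) ++ z) _ _ hlt.le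
        · rw [h]
          exact ⟨_, rfl⟩
        · rw [hw, List.append_assoc]
          exact ⟨_, rfl⟩
      obtain ⟨s, hs⟩ := h1
      subst hs
      have h2 : z ++ pow (s ++ z) (m' + 1) = z ++ pow c' (m' + 1) := by
        rw [← h, hconj s z m', hw]
        simp only [List.append_assoc]
      have h3 := hroot (s ++ z) c' (by rw [← hl, List.length_append, List.length_append, Nat.add_comm])
        (List.append_cancel_left h2)
      rw [← h3, List.append_assoc]
    · have h1 : c <+: z := by
        apply List.prefix_of_prefix_length_le (l₃ := pow c (m' + 1) ++ z) _ _ hge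
        · rw [hw, List.append_assoc]
          exact ⟨_, rfl⟩
        · rw [h]
          exact ⟨_, rfl⟩
      obtain ⟨z1, hz1⟩ := h1
      subst hz1
      have h2 : pow c (m' + 1) ++ z1 = z1 ++ pow c' (m' + 1) := by
        have h3 : c ++ (pow c (m' + 1) ++ z1) = c ++ (z1 ++ pow c' (m' + 1)) := by
          have h4 : c ++ pow c (m' + 1) = pow c (m' + 1) ++ c := by
            have h5 : pow c (1 + (m' + 1)) = pow c ((m' + 1) + 1) := by rw [Nat.add_comm]
            rwa [pow_add', pow_add' c (m' + 1) 1, pow_one''] at h5
          rw [← List.append_assoc, h4, List.append_assoc, h, List.append_assoc]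
        exact List.append_cancel_left h3
      have hl1 : z1.length ≤ N := by
        rw [List.length_append] at hz
        omega
      have h3 := ih c c' z1 hl1 hl h2
      rw [h3, ← List.append_assoc, ← h3, List.append_assoc]

/-- the Boolean word of a word in `x, y` -/
def tob (U : List (Fin 3)) : List Bool := U.map fun c => decide (c = 0)

theorem bval_tob (h : Fin 3 → List α) (U : List (Fin 3)) (hU : (2 : Fin 3) ∉ U) :
    val h U = bval (h 0) (h 1) (tob U) := by
  induction U with
  | nil => rfl
  | cons c U ih =>
    have h1 : tob (c :: U) = decide (c = 0) :: tob U := rfl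
    have h2 : (2 : Fin 3) ∉ U := fun hm => hU (List.mem_cons_of_mem _ hm)
    rw [h1, bval_cons, ← ih h2, val_cons']
    congr 1
    fin_cases c
    · rfl
    · rfl
    · exact absurd List.mem_cons_self hU

theorem tob_prim {C : List (Fin 3)} (hC2 : (2 : Fin 3) ∉ C) (hC : Prim C) : Prim (tob C) := by
  intro w m hm he
  apply hC (w.map fun b => if b then (0 : Fin 3) else 1) m hm
  have h1 : (tob C).map (fun b => if b then (0 : Fin 3) else 1) = C := by
    unfold tob
    rw [List.map_map]
    conv_rhs => rw [← List.map_id C]
    apply List.map_congr_left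
    intro c hc
    fin_cases c
    · rfl
    · rfl
    · exact absurd hc hC2
  rw [← h1, he]
  unfold pow
  rw [List.map_flatten, List.map_replicate]

theorem tob_count {C : List (Fin 3)} (hC2 : (2 : Fin 3) ∉ C) :
    (tob C).count true = C.count 0 ∧ (tob C).count false = C.count 1 := by
  induction C with
  | nil => exact ⟨rfl, rfl⟩
  | cons c C ih =>
    have h2 : (2 : Fin 3) ∉ C := fun hm => hC2 (List.mem_cons_of_mem _ hm)
    have h1 : tob (c :: C) = decide (c = 0) :: tob C := rfl
    obtain ⟨i1, i2⟩ := ih h2
    rw [h1]
    fin_cases c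
    · simp [i1, i2]
    · simp [i1, i2]
    · exact absurd List.mem_cons_self hC2

theorem conj_all {n r : ℕ} {A U V : List (Fin 3)} (hA2 : (2 : Fin 3) ∉ A) (hA : A ≠ []) (hUV : A = U ++ V)
    {E : Fin n → List (Fin 3) × List (Fin 3)} (hE : Decreasing α n E)
    (hr : ∀ h : Fin 3 → List α, (∀ i : Fin n, i.val < r → Solves h (E i)) →
      Solves h (A ++ [2], [2] ++ V ++ U)) : n ≤ r + 6 := by
  obtain ⟨C, m, hm, hAC, hC⟩ := prim_root _ A le_rfl hA
  obtain ⟨C1, C2, hC12, hVU⟩ := rot_pow C m hm _ U V le_rfl (hUV ▸ hAC)
  have hC2 : (2 : Fin 3) ∉ C := fun hh => hA2 (by rw [hAC]; exact mem_pow (by omega) hh)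
  have hCne : C ≠ [] := by
    rintro rfl
    rw [pow_nil] at hAC
    exact hA hAC
  have hn1 : (2 : Fin 3) ∉ C1 := fun hh => hC2 (hC12 ▸ List.mem_append_left _ hh)
  have hn2 : (2 : Fin 3) ∉ C2 := fun hh => hC2 (hC12 ▸ List.mem_append_right _ hh)
  have hcnt : ∀ c : Fin 3, (C2 ++ C1).count c = C.count c := by
    intro c
    rw [hC12, List.count_append, Nat.add_comm, ← List.count_append]
  have hr' : ∀ h : Fin 3 → List α, (∀ i : Fin n, i.val < r → Solves h (E i)) →
      Solves h (C ++ [2], [2] ++ C2 ++ C1) := by
    intro h hh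
    have h1 : val h (A ++ [2]) = val h ([2] ++ V ++ U) := hr h hh
    rw [List.append_assoc, val_append, val_append, hVU, hAC, val_pow, val_pow] at h1
    show val h (C ++ [2]) = val h ([2] ++ C2 ++ C1)
    rw [List.append_assoc, val_append, val_append h [2]]
    refine root_conj hm _ _ _ _ le_rfl ?_ h1
    rw [hC12, val_append, val_append, List.length_append, List.length_append, Nat.add_comm]
  by_cases hsp : ∃ c : Fin 3, c ≠ 2 ∧ C.count c ≤ 1
  · obtain ⟨c, hc, hcc⟩ := hsp
    have hF : NPB (C ++ [2], [2] ++ C2 ++ C1) := by
      have hc2 : ([2] : List (Fin 3)).count c = 0 := by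
        rw [List.count_eq_zero]
        simpa using hc
      refine npb_class _ c 2 hc ?_ ?_ ?_ ?_ ?_
      · intro he
        obtain ⟨d, C', hd⟩ := List.exists_cons_of_ne_nil hCne
        have he' : C ++ [2] = [2] ++ C2 ++ C1 := he
        rw [hd, List.append_assoc, List.cons_append, List.singleton_append, List.cons_eq_cons] at he'
        exact hC2 (by rw [hd, he'.1]; exact List.mem_cons_self)
      · show (C ++ [2]).count c ≤ 1
        rw [List.count_append, hc2]
        omega
      · show (C ++ [2]).count 2 ≤ 1
        rw [List.count_append, List.count_eq_zero.2 hC2]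
        simp
      · show ([2] ++ C2 ++ C1).count c ≤ 1
        rw [List.append_assoc, List.count_append, hc2, hcnt]
        omega
      · show ([2] ++ C2 ++ C1).count 2 ≤ 1
        rw [List.append_assoc, List.count_append, hcnt, List.count_eq_zero.2 hC2]
        simp
    exact npb_bound hF hE hr'
  · push Not at hsp
    have h0 := hsp 0 (by decide)
    have h1 := hsp 1 (by decide)
    have hnQ : (2 : Fin 3) ∉ (if C2 = [] then [] else C1) := by
      split_ifs
      · exact List.not_mem_nil
      · exact hn1
    refine fam_bound (P := C) (Q := if C2 = [] then [] else C1) hC2 hnQ hE (fun h hh hn => ?_)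
    refine fam_rt hC2 (List.count_pos_iff.1 (by omega)) (List.count_pos_iff.1 (by omega)) hC12 h hn ?_ (hr' h hh)
    intro hxy w k hk
    rw [bval_tob h C hC2]
    obtain ⟨c1, c2⟩ := tob_count hC2
    exact bl (h 0) (h 1) hxy (tob C) (tob_prim hC2 hC) (by omega) (by omega) w k hk

end Pool.Agent.H70.WE
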