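import Pool.Agent.H70.WB.Defs

/-!
# [H70 WB Dec] Decoding from the right

The last letters of `x` and `y` differ. Induction on `U` from the right (`List.reverseRecOn`, or reverse everything): if both `U, U'` are
nonempty, their last letters agree (last letters of the two sides), cancel; if both are empty: `s = s'`, and the last
letter gives `c = d`; if `U = []`, `U' = U'' ++ [e]`: `c = e` by the last letter, but `|s| ≤ |h(c)| < |s'| + |bval U''| + |h(e)|`.
-/

set_option autoImplicit false

namespace Pool.Agent.H70.WE

private theorem dec_snoc {α : Type} (l : List α) (h : l ≠ []) : ∃ u a, l = u ++ [a] :=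
  ⟨l.dropLast, l.getLast h, (List.dropLast_append_getLast h).symm⟩

private theorem dec_last {α : Type} {x y : List α}
    (hl : ∀ (u v : List α) (e f : α), x = u ++ [e] → y = v ++ [f] → e ≠ f)
    (e f : Bool) (P Q : List α) (a : α) (h1 : (if e then x else y) = P ++ [a])
    (h2 : (if f then x else y) = Q ++ [a]) : e = f := by
  cases e <;> cases f
  · rfl
  · exact absurd rfl (hl Q P a a (by simpa using h2) (by simpa using h1))
  · exact absurd rfl (hl P Q a a (by simpa using h1) (by simpa using h2))
  · rfl

private theorem dec_ne {α : Type} {x y : List α} (hx : x ≠ []) (hy : y ≠ []) (e : Bool) :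
    (if e then x else y) ≠ [] := by
  cases e
  · simpa using hy
  · simpa using hx

private theorem dec_bval_snoc {α : Type} (x y : List α) (V : List Bool) (e : Bool) :
    bval x y (V ++ [e]) = bval x y V ++ (if e then x else y) := by
  rw [bval_append, bval_cons, bval_nil, List.append_nil]

private theorem dec_empty {α : Type} {x y : List α} (hx : x ≠ []) (hy : y ≠ [])
    (hl : ∀ (u v : List α) (e f : α), x = u ++ [e] → y = v ++ [f] → e ≠ f)
    {s s' : List α} {c : Bool} {V : List Bool} {e : Bool} (hs' : s' ≠ [])
    (hsc : s <:+ (if c then x else y))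
    (he : s = s' ++ bval x y (V ++ [e])) : False := by
  obtain ⟨t, ht⟩ := hsc
  obtain ⟨w, b, hw⟩ := dec_snoc _ (dec_ne hx hy e)
  have hc : c = e := by
    refine dec_last hl c e (t ++ (s' ++ (bval x y V ++ w))) w b ?_ hw
    rw [← ht, he, dec_bval_snoc, hw]
    simp only [List.append_assoc]
  subst hc
  have h1 := congrArg List.length ht
  have h2 := congrArg List.length he
  rw [dec_bval_snoc] at h2
  simp only [List.length_append] at h1 h2
  have h3 : 0 < s'.length := List.length_pos_of_ne_nil hs'
  omega

theorem dec_inj {α : Type} {x y : List α} (hx : x ≠ []) (hy : y ≠ [])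
    (hl : ∀ (u v : List α) (e f : α), x = u ++ [e] → y = v ++ [f] → e ≠ f)
    {s s' : List α} {c d : Bool} {U U' : List Bool} (hs : s ≠ []) (hs' : s' ≠ [])
    (hsc : s <:+ (if c then x else y)) (hsd : s' <:+ (if d then x else y))
    (he : s ++ bval x y U = s' ++ bval x y U') : s = s' ∧ c = d ∧ U = U' := by
  induction U using List.reverseRecOn generalizing U' with
  | nil =>
    rcases List.eq_nil_or_concat U' with rfl | ⟨V, e, rfl⟩
    · rw [bval_nil, List.append_nil, List.append_nil] at he
      subst he
      obtain ⟨s0, a, h0⟩ := dec_snoc s hs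
      obtain ⟨t, ht⟩ := hsc
      obtain ⟨t', ht'⟩ := hsd
      refine ⟨rfl, dec_last hl c d (t ++ s0) (t' ++ s0) a ?_ ?_, rfl⟩
      · rw [← ht, h0, List.append_assoc]
      · rw [← ht', h0, List.append_assoc]
    · exfalso
      rw [bval_nil, List.append_nil, List.concat_eq_append] at he
      exact dec_empty hx hy hl hs' hsc he
  | append_singleton V c' ih =>
    rcases List.eq_nil_or_concat U' with rfl | ⟨V', e, rfl⟩
    · exfalso
      rw [bval_nil, List.append_nil] at he
      exact dec_empty hx hy hl hs hsd he.symm
    · rw [List.concat_eq_append] at he ⊢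
      rw [dec_bval_snoc, dec_bval_snoc] at he
      obtain ⟨w, b, hw⟩ := dec_snoc _ (dec_ne hx hy c')
      obtain ⟨w', b', hw'⟩ := dec_snoc _ (dec_ne hx hy e)
      have h1 : (s ++ (bval x y V ++ w)) ++ [b] = (s' ++ (bval x y V' ++ w')) ++ [b'] := by
        rw [hw, hw'] at he
        simpa only [List.append_assoc] using he
      have h2 : b = b' := by
        have := List.append_inj_right' h1 rfl
        simpa using this
      subst h2
      have h3 : c' = e := dec_last hl c' e w w' b hw hw'
      subst h3
      rw [← List.append_assoc, ← List.append_assoc] at he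
      obtain ⟨h4, h5, h6⟩ := ih (List.append_cancel_right he)
      exact ⟨h4, h5, by rw [h6]⟩

end Pool.Agent.H70.WE
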