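import Pool.Agent.H70.WB.Defs

/-!
# [H70 WB Lcp] Longest common prefix of `x y` and `y x`; conjugation

`lcp_lemma`: `z` = longest common prefix of `x y` and `y x` (`|z| < |x y|`), `a, b` the next letters. `z` and `x z` are prefixes of `x y x`, so `z` is
a prefix of `x z`; likewise of `y z`; so by induction `z` is a prefix of `bval x y U ++ z` for all `U`. `z a` is a prefix of `x y`, so of
`x y x`, as is `x z`, and `|z a| ≤ |x z|`: `z a` is a prefix of `x z`, which is a prefix of `x ++ bval x y U ++ z`. The same for `y` (`y x y`).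
`conj_last`: the mirror image: `σ` = longest common suffix of `x y` and `y x` is a suffix of `σ x` and of `σ y`, so `σ x = x' σ`, `σ y = y' σ`; and
`σ x y = x' y' σ`, `σ y x = y' x' σ` have the longest common suffix `σ` (since `|σ| < |x y|`), so the last letters of `y'` and `x'` differ.
`conj_bval`: induction on `U`. `conj_power`: `σ B = B' σ`, `B = ρ^k` implies `B' = ρ'^k`: induction on `|σ|`; if `|σ| ≥ |B'|`, cancel `B'`; otherwise
`B' = σ τ`, `B = τ σ`, and `conj_pow'` (WP/OP2.lean).
-/

set_option autoImplicit false

namespace Pool.Agent.H70.WE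

variable {α : Type}

private theorem diff_pt : ∀ (u v : List α), u.length = v.length → u ≠ v →
    ∃ (z : List α) (a b : α) (u' v' : List α), a ≠ b ∧ u = z ++ a :: u' ∧ v = z ++ b :: v' := by
  intro u
  induction u with
  | nil =>
    intro v hl hne
    exact absurd (List.eq_nil_of_length_eq_zero hl.symm).symm hne
  | cons c u ih =>
    intro v hl hne
    cases v with
    | nil => simp at hl
    | cons d v =>
      by_cases hcd : c = d
      · subst hcd
        obtain ⟨z, a, b, u', v', hab, hu, hv⟩ := ih v (by simpa using hl) (fun h => hne (by rw [h]))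
        exact ⟨c :: z, a, b, u', v', hab, by rw [hu]; rfl, by rw [hv]; rfl⟩
      · exact ⟨[], c, d, u, v, hcd, rfl, rfl⟩

theorem lcp_lemma (x y : List α) (h : x ++ y ≠ y ++ x) : ∃ (z : List α) (a b : α), a ≠ b ∧
    (∀ U : List Bool, z ++ [a] <+: bval x y (true :: U) ++ z) ∧
    ∀ U : List Bool, z ++ [b] <+: bval x y (false :: U) ++ z := by
  have hx : 0 < x.length := by
    rcases Nat.eq_zero_or_pos x.length with h0 | h0
    · exact absurd (by rw [List.eq_nil_of_length_eq_zero h0]; simp) h
    · exact h0
  have hy : 0 < y.length := by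
    rcases Nat.eq_zero_or_pos y.length with h0 | h0
    · exact absurd (by rw [List.eq_nil_of_length_eq_zero h0]; simp) h
    · exact h0
  obtain ⟨z, a, b, u', v', hab, hu, hv⟩ := diff_pt (x ++ y) (y ++ x) (by simp [Nat.add_comm]) h
  have za : z ++ [a] <+: x ++ y := ⟨u', by rw [hu]; simp⟩
  have zb : z ++ [b] <+: y ++ x := ⟨v', by rw [hv]; simp⟩
  have z1 : z <+: x ++ y := (List.prefix_append z [a]).trans za
  have z2 : z <+: y ++ x := (List.prefix_append z [b]).trans zb
  have xz : x ++ z <+: x ++ y ++ x := by
    rw [List.append_assoc]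
    exact (List.prefix_append_right_inj x).2 z2
  have yz : y ++ z <+: y ++ x ++ y := by
    rw [List.append_assoc]
    exact (List.prefix_append_right_inj y).2 z1
  have px : z ++ [a] <+: x ++ z :=
    List.prefix_of_prefix_length_le (za.trans (List.prefix_append _ _)) xz (by simp; omega)
  have py : z ++ [b] <+: y ++ z :=
    List.prefix_of_prefix_length_le (zb.trans (List.prefix_append _ _)) yz (by simp; omega)
  have hz : ∀ U : List Bool, z <+: bval x y U ++ z := by
    intro U
    induction U with
    | nil => rw [bval_nil]; exact List.prefix_refl z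
    | cons c U ih =>
      rw [bval_cons, List.append_assoc]
      cases c with
      | true =>
        exact ((List.prefix_append z [a]).trans px).trans ((List.prefix_append_right_inj x).2 ih)
      | false =>
        exact ((List.prefix_append z [b]).trans py).trans ((List.prefix_append_right_inj y).2 ih)
  refine ⟨z, a, b, hab, fun U => ?_, fun U => ?_⟩
  · rw [bval_cons, List.append_assoc]
    exact px.trans ((List.prefix_append_right_inj x).2 (hz U))
  · rw [bval_cons, List.append_assoc]
    exact py.trans ((List.prefix_append_right_inj y).2 (hz U))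

theorem conj_last (x y : List α) (h : x ++ y ≠ y ++ x) : ∃ σ x' y' : List α, σ ++ x = x' ++ σ ∧
    σ ++ y = y' ++ σ ∧ x' ++ y' ≠ y' ++ x' ∧
    ∀ (u v : List α) (e f : α), x' = u ++ [e] → y' = v ++ [f] → e ≠ f := by
  obtain ⟨z, a, b, u', v', hab, hu, hv⟩ := diff_pt (x ++ y).reverse (y ++ x).reverse
    (by simp [Nat.add_comm]) (fun hh => h (List.reverse_injective hh))
  have hu1 : x ++ y = u'.reverse ++ ([a] ++ z.reverse) := by
    have := congrArg List.reverse hu
    rw [List.reverse_reverse] at this
    rw [this]
    simp
  have hv1 : y ++ x = v'.reverse ++ ([b] ++ z.reverse) := by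
    have := congrArg List.reverse hv
    rw [List.reverse_reverse] at this
    rw [this]
    simp
  generalize z.reverse = σ at hu1 hv1
  have sa : [a] ++ σ <:+ x ++ y := ⟨u'.reverse, hu1.symm⟩
  have sb : [b] ++ σ <:+ y ++ x := ⟨v'.reverse, hv1.symm⟩
  have s1 : σ <:+ x ++ y := (List.suffix_append [a] σ).trans sa
  have s2 : σ <:+ y ++ x := (List.suffix_append [b] σ).trans sb
  have sx : σ ++ x <:+ x ++ y ++ x := by
    obtain ⟨t, ht⟩ := s1
    exact ⟨t, by rw [← List.append_assoc, ht]⟩
  have sy : σ ++ y <:+ y ++ x ++ y := by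
    obtain ⟨t, ht⟩ := s2
    exact ⟨t, by rw [← List.append_assoc, ht]⟩
  have bx : [b] ++ σ <:+ x ++ y ++ x := by
    rw [List.append_assoc]
    exact sb.trans (List.suffix_append x _)
  have ay : [a] ++ σ <:+ y ++ x ++ y := by
    rw [List.append_assoc]
    exact sa.trans (List.suffix_append y _)
  obtain ⟨x', hx'⟩ : σ <:+ σ ++ x :=
    List.suffix_of_suffix_length_le ((List.suffix_append [b] σ).trans bx) sx (by simp)
  obtain ⟨y', hy'⟩ : σ <:+ σ ++ y :=
    List.suffix_of_suffix_length_le ((List.suffix_append [a] σ).trans ay) sy (by simp)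
  refine ⟨σ, x', y', hx'.symm, hy'.symm, ?_, ?_⟩
  · intro hc
    apply h
    have h1 : σ ++ (x ++ y) = x' ++ y' ++ σ := by
      rw [← List.append_assoc, ← hx', List.append_assoc, ← hy', List.append_assoc]
    have h2 : σ ++ (y ++ x) = y' ++ x' ++ σ := by
      rw [← List.append_assoc, ← hy', List.append_assoc, ← hx', List.append_assoc]
    rw [← hc, ← h1] at h2
    exact (List.append_cancel_left h2).symm
  · intro u v e f hxe hyf hef
    have e1 : [e] ++ σ <:+ x ++ y ++ x := by
      refine List.IsSuffix.trans ?_ sx
      exact ⟨u, by rw [← List.append_assoc, ← hxe, hx']⟩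
    have f1 : [f] ++ σ <:+ y ++ x ++ y := by
      refine List.IsSuffix.trans ?_ sy
      exact ⟨v, by rw [← List.append_assoc, ← hyf, hy']⟩
    have e2 : [e] ++ σ = [b] ++ σ :=
      (List.suffix_of_suffix_length_le e1 bx (by simp)).eq_of_length (by simp)
    have f2 : [f] ++ σ = [a] ++ σ :=
      (List.suffix_of_suffix_length_le f1 ay (by simp)).eq_of_length (by simp)
    have e3 : e = b := by simpa using e2
    have f3 : f = a := by simpa using f2
    exact hab (by rw [← f3, ← e3, hef])

theorem conj_bval {σ x y x' y' : List α} (hx : σ ++ x = x' ++ σ) (hy : σ ++ y = y' ++ σ) (U : List Bool) :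
    σ ++ bval x y U = bval x' y' U ++ σ := by
  induction U with
  | nil => simp [bval_nil]
  | cons c U ih =>
    rw [bval_cons, bval_cons]
    cases c with
    | true =>
      simp only [if_true]
      rw [← List.append_assoc, hx, List.append_assoc, ih, List.append_assoc]
    | false =>
      simp only [Bool.false_eq_true, if_false]
      rw [← List.append_assoc, hy, List.append_assoc, ih, List.append_assoc]

theorem conj_power {σ B B' ρ : List α} {k : ℕ} (h : σ ++ B = B' ++ σ) (hB : B = pow ρ k) :
    ∃ ρ' : List α, B' = pow ρ' k := by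
  have hlen : B.length = B'.length := by
    have := congrArg List.length h
    simp only [List.length_append] at this
    omega
  rcases Nat.eq_zero_or_pos B'.length with h0 | h0
  · exact ⟨[], by rw [List.eq_nil_of_length_eq_zero h0, pow_nil]⟩
  induction hN : σ.length using Nat.strong_induction_on generalizing σ with
  | _ N ih =>
    rcases Nat.lt_or_ge σ.length B'.length with hlt | hge
    · obtain ⟨τ, hτ⟩ : σ <+: B' :=
        List.prefix_of_prefix_length_le (List.prefix_append σ B) (h ▸ List.prefix_append B' σ) hlt.le
      have h1 : B = τ ++ σ := by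
        rw [← hτ, List.append_assoc] at h
        exact List.append_cancel_left h
      obtain ⟨w', hw, _⟩ := conj_pow' (s := τ) (t := σ) (h1.symm.trans hB)
      exact ⟨w', by rw [← hτ, hw]⟩
    · obtain ⟨σ1, hσ⟩ : B' <+: σ :=
        List.prefix_of_prefix_length_le (h ▸ List.prefix_append B' σ) (List.prefix_append σ B) hge
      have h1 : σ1 ++ B = B' ++ σ1 := by
        have h2 : B' ++ (σ1 ++ B) = B' ++ σ := by rw [← List.append_assoc, hσ, h]
        rw [List.append_cancel_left h2, hσ]
      refine ih σ1.length ?_ h1 rfl
      rw [← hN, ← hσ, List.length_append]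
      omega

end Pool.Agent.H70.WE
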