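import Pool.Agent.H70.WB.Defs

/-!
# [H70 WB Node] Branching nodes of the rotations of `ρ`

Let `V1 = (c :: U) ++ true :: V1'`. `bval V1` is a rotation of `bval W = ρ^k`, so `bval V1 = ρ1^k` with `Rot ρ ρ1` (prove a rotation version of
`conj_pow`, WP/OP2.lean: `s ++ t = pow w m → ∃ w', Rot w w' ∧ t ++ s = pow w' m`). For large `M`, with `G = true :: V1' ++ V1^M`:
`bval (V1^(M+1)) = h(c) bval U bval G` and `z a` is a prefix of `bval G ++ z` (hypothesis `hz1`), so of `bval G` when `|bval G| > |z|`
(`k ≥ 1`, `ρ ≠ []` because `bval V1 ≠ []`: if `x = []` then `x y = y x`; use `hne`). Drop the part of `h(c)` in front of `s`: `s bval U z a` is a prefix of a power of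
a rotation `ρ1'` of `ρ1`; in the same way `s bval U z b` is a prefix of a power of a rotation `ρ2'` of `ρ`. If
`|s bval U z| ≥ |ρ|` then `ρ1' = ρ2'` and `a = b`. So `|s bval U z| < |ρ|`, and `s bval U z a` is a prefix of `ρ1'`, `s bval U z b` of `ρ2'`.
-/

set_option autoImplicit false

namespace Pool.Agent.H70.WE

private theorem nd_pow_one {β : Type} (w : List β) : pow w 1 = w := by
  unfold pow
  simp

private theorem nd_pow_succ {β : Type} (w : List β) (K : ℕ) : pow w (K + 1) = w ++ pow w K := by
  rw [Nat.add_comm, pow_add', nd_pow_one]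

private theorem nd_rot {β : Type} (X Y : List β) : ∀ M : ℕ, pow (X ++ Y) (M + 1) = X ++ pow (Y ++ X) M ++ Y := by
  intro M
  induction M with
  | zero => rw [Nat.zero_add, nd_pow_one, pow_zero', List.append_nil]
  | succ M ih =>
    rw [pow_add' _ (M + 1) 1, ih, nd_pow_one, pow_add' _ M 1, nd_pow_one]
    simp only [List.append_assoc]

private theorem nd_bval_pow {α : Type} (x y : List α) (V : List Bool) : ∀ M : ℕ,
    bval x y (pow V M) = pow (bval x y V) M := by
  intro M
  induction M with
  | zero => rfl
  | succ M ih => rw [nd_pow_succ, nd_pow_succ, bval_append, ih]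

private theorem nd_get {β : Type} (ρ : List β) : ∀ (K j : ℕ), j < K * ρ.length →
    (pow ρ K)[j]? = ρ[j % ρ.length]? := by
  intro K
  induction K with
  | zero =>
    intro j hj
    rw [Nat.zero_mul] at hj
    omega
  | succ K ih =>
    intro j hj
    rw [nd_pow_succ]
    rcases Nat.lt_or_ge j ρ.length with h | h
    · rw [List.getElem?_append_left h, Nat.mod_eq_of_lt h]
    · rw [List.getElem?_append_right h, ih (j - ρ.length) (by rw [Nat.add_mul, Nat.one_mul] at hj; omega),
        ← Nat.mod_eq_sub_mod h]

/-- a letter of a factor of a power -/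
private theorem nd_fac {β : Type} {ρ P v Q : List β} {K : ℕ} (h : P ++ v ++ Q = pow ρ K) {i : ℕ} (hi : i < v.length) :
    v[i]? = ρ[(P.length + i) % ρ.length]? := by
  have hl := congrArg List.length h
  rw [List.length_append, List.length_append, pow_length] at hl
  rw [← nd_get ρ K (P.length + i) (by omega), ← h, List.append_assoc,
    List.getElem?_append_right (Nat.le_add_right _ _), Nat.add_sub_cancel_left, List.getElem?_append_left hi]

private theorem nd_last {β : Type} {ρ P u Q : List β} {a : β} {K : ℕ} (h : P ++ (u ++ [a]) ++ Q = pow ρ K)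
    (hn : ρ.length ≤ u.length) : u[u.length - ρ.length]? = some a := by
  have hpos : 0 < ρ.length := by
    rcases Nat.eq_zero_or_pos ρ.length with h0 | h0
    · have h1 := List.eq_nil_of_length_eq_zero h0
      have hl := congrArg List.length h
      rw [h1, pow_nil] at hl
      simp at hl
    · exact h0
  have h1 := nd_fac h (i := u.length) (by simp)
  have h2 := nd_fac h (i := u.length - ρ.length) (by rw [List.length_append, List.length_singleton]; omega)
  have h3 : (P.length + u.length) % ρ.length = (P.length + (u.length - ρ.length)) % ρ.length := by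
    rw [Nat.mod_eq_sub_mod (by omega : ρ.length ≤ P.length + u.length)]
    congr 1
    omega
  rw [h3, ← h2, List.getElem?_append_left (by omega : u.length - ρ.length < u.length)] at h1
  rw [← h1, List.getElem?_append_right le_rfl, Nat.sub_self]
  rfl

private theorem nd_pre {β : Type} {ρ P v Q : List β} {K : ℕ} (h : P ++ v ++ Q = pow ρ K)
    (hn : v.length ≤ ρ.length) : v <+: ρ.rotate P.length := by
  rw [List.prefix_iff_eq_take]
  apply List.ext_getElem?
  intro i
  rcases Nat.lt_or_ge i v.length with hi | hi
  · rw [List.getElem?_take_of_lt hi, List.getElem?_rotate (by omega), nd_fac h hi, Nat.add_comm]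
  · rw [List.getElem?_eq_none hi, List.getElem?_eq_none]
    rw [List.length_take]
    exact (min_le_left _ _).trans hi

private theorem nd_isRot {β : Type} (ρ : List β) (m : ℕ) : Rot ρ (ρ.rotate m) :=
  ⟨ρ.take (m % ρ.length), ρ.drop (m % ρ.length), (List.take_append_drop _ _).symm,
    List.rotate_eq_drop_append_take_mod⟩

private theorem nd_main {α : Type} {x y ρ z : List α} {a : α} {W : List Bool} {k : ℕ} {d : Bool}
    (hd : (if d then x else y) ≠ []) (hW : bval x y W = pow ρ k)
    (hz : ∀ U : List Bool, z ++ [a] <+: bval x y (d :: U) ++ z) {c : Bool} {U V : List Bool}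
    (hV : Rot W V) (h1 : (c :: U) ++ [d] <+: V) {s : List α} (hs : s <:+ (if c then x else y)) :
    ∃ (K : ℕ) (P Q : List α), P ++ (s ++ bval x y U ++ z ++ [a]) ++ Q = pow ρ K := by
  obtain ⟨X, Y, hWX, hVY⟩ := hV
  obtain ⟨V', hV'⟩ := h1
  obtain ⟨p, hp⟩ := hs
  -- the long tail
  have hlen : 1 ≤ (bval x y V).length := by
    rw [← hV', bval_append, bval_append, List.length_append, List.length_append]
    have h2 : bval x y [d] = (if d then x else y) := by
      rw [bval_cons, bval_nil, List.append_nil]
    rw [h2]
    have h3 : 0 < (if d then x else y).length := List.length_pos_iff.2 hd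
    omega
  have hM : z.length + 1 ≤ (bval x y (pow V (z.length + 1))).length := by
    rw [nd_bval_pow, pow_length]
    exact Nat.le_mul_of_pos_right _ hlen
  have hG : z ++ [a] <+: bval x y (d :: (V' ++ pow V (z.length + 1))) := by
    refine List.prefix_of_prefix_length_le (hz _) (List.prefix_append _ _) ?_
    rw [bval_cons, bval_append, List.length_append, List.length_append, List.length_append, List.length_singleton]
    omega
  obtain ⟨Q', hQ'⟩ := hG
  have hV2 : pow V (z.length + 2) = c :: (U ++ d :: (V' ++ pow V (z.length + 1))) := by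
    rw [nd_pow_succ]
    nth_rewrite 1 [← hV']
    simp
  have hb : bval x y (pow V (z.length + 2)) = p ++ (s ++ bval x y U ++ z ++ [a]) ++ Q' := by
    rw [hV2, bval_cons, bval_append, ← hQ', ← hp]
    simp only [List.append_assoc]
  refine ⟨k * (z.length + 3), bval x y X ++ p, Q' ++ bval x y Y, ?_⟩
  have hfin : pow ρ (k * (z.length + 3)) = bval x y X ++ bval x y (pow V (z.length + 2)) ++ bval x y Y := by
    rw [pow_mul', ← hW, ← nd_bval_pow, hWX, nd_rot, bval_append, bval_append, hVY]
  rw [hfin, hb]
  simp only [List.append_assoc]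

theorem node {α : Type} {x y ρ z : List α} {a b : α} {W : List Bool} {k : ℕ} (hk : 1 ≤ k)
    (hne : x ++ y ≠ y ++ x) (hW : bval x y W = pow ρ k) (hab : a ≠ b)
    (hz1 : ∀ U : List Bool, z ++ [a] <+: bval x y (true :: U) ++ z)
    (hz2 : ∀ U : List Bool, z ++ [b] <+: bval x y (false :: U) ++ z) {c : Bool} {U V1 V2 : List Bool}
    (hV1 : Rot W V1) (hV2 : Rot W V2) (h1 : (c :: U) ++ [true] <+: V1) (h2 : (c :: U) ++ [false] <+: V2)
    {s : List α} (hs : s <:+ (if c then x else y)) :
    (∃ R, Rot ρ R ∧ s ++ bval x y U ++ z ++ [a] <+: R) ∧ ∃ R, Rot ρ R ∧ s ++ bval x y U ++ z ++ [b] <+: R := by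
  have _ := hk
  have hx : x ≠ [] := by
    rintro rfl
    exact hne (by simp)
  have hy : y ≠ [] := by
    rintro rfl
    exact hne (by simp)
  obtain ⟨K1, P1, Q1, e1⟩ := nd_main (d := true) (by simpa using hx) hW hz1 hV1 h1 hs
  obtain ⟨K2, P2, Q2, e2⟩ := nd_main (d := false) (by simpa using hy) hW hz2 hV2 h2 hs
  have hlt : (s ++ bval x y U ++ z).length < ρ.length := by
    by_contra hcon
    have hcon' := Nat.not_lt.1 hcon
    have f1 := nd_last e1 hcon'
    have f2 := nd_last e2 hcon'
    rw [f1] at f2
    exact hab (Option.some.inj f2)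
  exact ⟨⟨_, nd_isRot ρ _, nd_pre e1 (by rw [List.length_append, List.length_singleton]; omega)⟩,
    ⟨_, nd_isRot ρ _, nd_pre e2 (by rw [List.length_append, List.length_singleton]; omega)⟩⟩

end Pool.Agent.H70.WE
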