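import Pool.Agent.H70.WB.Defs

/-!
# [H70 WB RotC] Counting rotations

`rot_card`: the rotations `W.rotate j`, `j < |W|`, `W[j] = c`. They are different: `W.rotate i = W.rotate j`, `i < j < |W|`, gives `X Y = Y X` for
`W = X Y` (or a rotation of `W`), `X, Y ≠ []`, so `W` is a proper power (`comm_pow` in WE/Wd.lean, `conj_pow'` in WP/OP2.lean).
`rot_fin`: the rotations of `ρ` form a set of at most `|ρ|` words (`ρ ≠ []`) of length `|ρ|`.
-/

set_option autoImplicit false

namespace Pool.Agent.H70.WE

private theorem rc_count (c : Bool) (W : List Bool) :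
    ((Finset.range W.length).filter (fun j => W[j]? = some c)).card = W.count c := by
  induction W using List.reverseRecOn with
  | nil => simp
  | append_singleton W a ih =>
    have h1 : (Finset.range W.length).filter (fun j => (W ++ [a])[j]? = some c) =
        (Finset.range W.length).filter (fun j => W[j]? = some c) := by
      apply Finset.filter_congr
      intro j hj
      rw [Finset.mem_range] at hj
      rw [List.getElem?_append_left hj]
    have h2 : (W ++ [a]).length = W.length + 1 := by simp
    have h3 : (W ++ [a])[W.length]? = some a := by simp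
    rw [h2, Finset.range_add_one, Finset.filter_insert, h3, List.count_append, h1]
    by_cases hac : a = c
    · rw [if_pos (by rw [hac]), Finset.card_insert_of_notMem (by simp), ih, hac]
      simp
    · rw [if_neg (by simpa using hac), ih]
      simp [hac]

private theorem rc_prim {W : List Bool} (hW : Prim W) (d : ℕ) (hd0 : 0 < d) (hd : d < W.length)
    (h : W.rotate d = W) : False := by
  rw [List.rotate_eq_drop_append_take hd.le] at h
  have hW2 : W.take d ++ W.drop d = W := List.take_append_drop d W
  obtain ⟨w, a, b, ha, hb⟩ := comm_pow (W.take d) (W.drop d) (by rw [h, hW2])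
  have ha0 : a ≠ 0 := by
    rintro rfl
    have h1 := congrArg List.length ha
    rw [List.length_take, List.replicate_zero, List.flatten_nil, List.length_nil] at h1
    omega
  have hb0 : b ≠ 0 := by
    rintro rfl
    have h1 := congrArg List.length hb
    rw [List.length_drop, List.replicate_zero, List.flatten_nil, List.length_nil] at h1
    omega
  refine hW w (a + b) (by omega) ?_
  rw [← hW2, ha, hb]
  unfold pow
  rw [List.replicate_add, List.flatten_append]

private theorem rc_inj {W : List Bool} (hW : Prim W) (i j : ℕ) (hij : i < j) (hj : j < W.length)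
    (h : W.rotate i = W.rotate j) : False := by
  apply rc_prim hW (j - i) (by omega) (by omega)
  apply List.rotate_injective i
  show (W.rotate (j - i)).rotate i = W.rotate i
  rw [List.rotate_rotate, h]
  congr 1
  omega

theorem rot_card {W : List Bool} (hW : Prim W) (c : Bool) : ∃ S : Finset (List Bool), S.card = W.count c ∧
    ∀ V ∈ S, Rot W V ∧ ∃ V' : List Bool, V = c :: V' := by
  classical
  refine ⟨((Finset.range W.length).filter (fun j => W[j]? = some c)).image (fun j => W.rotate j), ?_, ?_⟩
  · rw [Finset.card_image_of_injOn, rc_count]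
    intro i hi j hj hij
    simp only [Finset.coe_filter, Finset.mem_range, Set.mem_ofPred_eq] at hi hj
    rcases lt_trichotomy i j with h | h | h
    · exact (rc_inj hW i j h hj.1 hij).elim
    · exact h
    · exact (rc_inj hW j i h hi.1 hij.symm).elim
  · intro V hV
    rw [Finset.mem_image] at hV
    obtain ⟨j, hj, rfl⟩ := hV
    rw [Finset.mem_filter, Finset.mem_range] at hj
    obtain ⟨hj1, hj2⟩ := hj
    have e1 : W.rotate j = W.drop j ++ W.take j := List.rotate_eq_drop_append_take hj1.le
    refine ⟨⟨W.take j, W.drop j, (List.take_append_drop j W).symm, e1⟩, ?_⟩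
    have e2 : W[j] = c := by
      rw [List.getElem?_eq_getElem hj1] at hj2
      exact Option.some.inj hj2
    refine ⟨W.drop (j + 1) ++ W.take j, ?_⟩
    show W.rotate j = c :: (W.drop (j + 1) ++ W.take j)
    rw [e1, List.drop_eq_getElem_cons hj1, e2]
    rfl

theorem rot_fin {β : Type} {ρ : List β} (hρ : ρ ≠ []) : ∃ S : Finset (List β), S.card ≤ ρ.length ∧ S.Nonempty ∧
    (∀ R ∈ S, R.length = ρ.length) ∧ ∀ R, Rot ρ R → R ∈ S := by
  classical
  have h0 : 0 < ρ.length := List.length_pos_iff.mpr hρ
  refine ⟨(Finset.range ρ.length).image (fun j => ρ.rotate j), ?_, ?_, ?_, ?_⟩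
  · refine le_trans Finset.card_image_le ?_
    rw [Finset.card_range]
  · exact ⟨ρ.rotate 0, Finset.mem_image.mpr ⟨0, Finset.mem_range.mpr h0, rfl⟩⟩
  · intro R hR
    rw [Finset.mem_image] at hR
    obtain ⟨j, -, rfl⟩ := hR
    exact List.length_rotate ρ j
  · rintro R ⟨X, Y, hXY, rfl⟩
    rw [Finset.mem_image]
    by_cases hY : Y = []
    · refine ⟨0, Finset.mem_range.mpr h0, ?_⟩
      show ρ.rotate 0 = Y ++ X
      rw [List.rotate_zero, hXY, hY]
      simp
    · refine ⟨X.length, ?_, ?_⟩
      · have := List.length_pos_iff.mpr hY
        rw [Finset.mem_range, hXY, List.length_append]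
        omega
      · show ρ.rotate X.length = Y ++ X
        rw [hXY, List.rotate_append_length_eq]

end Pool.Agent.H70.WE
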