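import Pool.Agent.H70.WB.Trie
import Pool.Agent.H70.WB.Lcp
import Pool.Agent.H70.WB.Dec
import Pool.Agent.H70.WB.Node
import Pool.Agent.H70.WB.RotC

/-!
# [H70 WB BL] Codes of two words preserve primitive words with at least two letters of each kind
-/

set_option autoImplicit false

namespace Pool.Agent.H70.WE

variable {α : Type}

theorem length_bval (x y : List α) (U : List Bool) :
    (bval x y U).length = U.count true * x.length + U.count false * y.length := by
  induction U with
  | nil => simp [bval_nil]
  | cons c U ih =>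
    rw [bval_cons, List.length_append, ih]
    cases c
    · simp
      ring
    · simp
      ring

theorem rot_length {β : Type} {W V : List β} (h : Rot W V) : V.length = W.length := by
  obtain ⟨X, Y, hW, hV⟩ := h
  rw [hW, hV, List.length_append, List.length_append, Nat.add_comm]

theorem bl_core {x y : List α} (h : x ++ y ≠ y ++ x)
    (hl : ∀ (u v : List α) (e f : α), x = u ++ [e] → y = v ++ [f] → e ≠ f)
    {W : List Bool} (hW : Prim W) {ρ : List α} {k : ℕ} (hk : 1 ≤ k) (hρ : ρ ≠ [])
    (hB : bval x y W = pow ρ k) :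
    (W.count true - 1) * x.length + (W.count false - 1) * y.length + 1 ≤ ρ.length := by
  classical
  obtain ⟨z, a, b, hab, hz1, hz2⟩ := lcp_lemma x y h
  obtain ⟨SR, hSR, hSRne, hSRl, hSRm⟩ := rot_fin hρ
  have hx : x ≠ [] := by
    rintro rfl
    simp at h
  have hy : y ≠ [] := by
    rintro rfl
    simp at h
  have hT : ∀ c : Bool, ∃ T : Finset (List Bool), W.count c ≤ T.card + 1 ∧ ∀ t ∈ T, ∃ U V1 V2 : List Bool,
      t = c :: U ∧ Rot W V1 ∧ Rot W V2 ∧ (c :: U) ++ [true] <+: V1 ∧ (c :: U) ++ [false] <+: V2 := by
    intro c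
    obtain ⟨S, hS, hS2⟩ := rot_card hW c
    obtain ⟨T, hT, hT2⟩ := trie_lower W.length S (fun v hv => rot_length (hS2 v hv).1)
    refine ⟨T, by omega, fun t ht => ?_⟩
    obtain ⟨⟨v1, hv1, p1⟩, v2, hv2, p2⟩ := hT2 t ht
    obtain ⟨r1, w1, e1⟩ := hS2 v1 hv1
    obtain ⟨r2, w2, e2⟩ := hS2 v2 hv2
    cases t with
    | nil =>
      exfalso
      rw [e1] at p1
      rw [e2] at p2
      rw [List.nil_append, List.cons_prefix_cons] at p1 p2
      have := p1.1.trans p2.1.symm
      simp at this
    | cons d U =>
      have hd : d = c := by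
        rw [e1, List.cons_append, List.cons_prefix_cons] at p1
        exact p1.1
      subst hd
      exact ⟨U, v1, v2, rfl, r1, r2, p1, p2⟩
  choose T hTc hTn using hT
  set H : Bool → List α := fun c => if c then x else y with hH
  set f : Bool → List Bool × ℕ → List α := fun c p => (H c).drop p.2 ++ bval x y p.1.tail ++ z with hf
  set K : Bool → Finset (List α) := fun c => (T c ×ˢ Finset.range (H c).length).image (f c) with hK
  have hinj : ∀ (c d : Bool) (p q : List Bool × ℕ), p ∈ T c ×ˢ Finset.range (H c).length →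
      q ∈ T d ×ˢ Finset.range (H d).length → f c p = f d q → c = d ∧ p = q := by
    intro c d p q hp hq he
    obtain ⟨t, i⟩ := p
    obtain ⟨t', j⟩ := q
    rw [Finset.mem_product, Finset.mem_range] at hp hq
    obtain ⟨U, -, -, hU, -⟩ := hTn c t hp.1
    obtain ⟨U', -, -, hU', -⟩ := hTn d t' hq.1
    change (H c).drop i ++ bval x y t.tail ++ z = (H d).drop j ++ bval x y t'.tail ++ z at he
    have he' := List.append_cancel_right he
    subst hU hU'
    have hi : i < (H c).length := hp.2
    have hj : j < (H d).length := hq.2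
    have hs : (H c).drop i ≠ [] := by
      rw [Ne, List.drop_eq_nil_iff]
      omega
    have hs' : (H d).drop j ≠ [] := by
      rw [Ne, List.drop_eq_nil_iff]
      omega
    obtain ⟨k1, k2, k3⟩ := dec_inj hx hy hl hs hs' (List.drop_suffix i (H c)) (List.drop_suffix j (H d)) he'
    subst k2
    refine ⟨rfl, ?_⟩
    have h4 := congrArg List.length k1
    rw [List.length_drop, List.length_drop] at h4
    have h5 : i = j := by omega
    have h6 : U = U' := k3
    rw [h5, h6]
  have hcard : ∀ c : Bool, (K c).card = (T c).card * (H c).length := by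
    intro c
    rw [hK]
    show ((T c ×ˢ Finset.range (H c).length).image (f c)).card = _
    rw [Finset.card_image_of_injOn, Finset.card_product, Finset.card_range]
    intro p hp q hq he
    exact (hinj c c p q hp hq he).2
  have hdis : Disjoint (K true) (K false) := by
    rw [Finset.disjoint_left]
    intro w hw hw'
    obtain ⟨p, hp, e1⟩ := Finset.mem_image.1 hw
    obtain ⟨q, hq, e2⟩ := Finset.mem_image.1 hw'
    have := (hinj true false p q hp hq (e1.trans e2.symm)).1
    simp at this
  have hbr : ∀ c : Bool, ∀ w ∈ K c, (∃ R ∈ SR, w ++ [a] <+: R) ∧ ∃ R ∈ SR, w ++ [b] <+: R := by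
    intro c w hw
    obtain ⟨⟨t, i⟩, hp, e1⟩ := Finset.mem_image.1 hw
    rw [Finset.mem_product, Finset.mem_range] at hp
    obtain ⟨U, V1, V2, hU, r1, r2, p1, p2⟩ := hTn c t hp.1
    change (H c).drop i ++ bval x y t.tail ++ z = w at e1
    subst hU
    obtain ⟨⟨R1, hR1, q1⟩, R2, hR2, q2⟩ := node hk h hB hab hz1 hz2 r1 r2 p1 p2 (List.drop_suffix i (H c))
    rw [← e1]
    exact ⟨⟨R1, hSRm R1 hR1, q1⟩, R2, hSRm R2 hR2, q2⟩
  have hup := trie_upper ρ.length SR (K true ∪ K false) hSRl (fun w hw => by
    rcases Finset.mem_union.1 hw with hw | hw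
    · exact ⟨a, b, hab, hbr true w hw⟩
    · exact ⟨a, b, hab, hbr false w hw⟩) hSRne
  rw [Finset.card_union_of_disjoint hdis, hcard, hcard] at hup
  have e1 : (W.count true - 1) * x.length ≤ (T true).card * (H true).length := by
    have : W.count true - 1 ≤ (T true).card := by
      have := hTc true
      omega
    exact Nat.mul_le_mul_right _ this
  have e2 : (W.count false - 1) * y.length ≤ (T false).card * (H false).length := by
    have : W.count false - 1 ≤ (T false).card := by
      have := hTc false
      omega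
    exact Nat.mul_le_mul_right _ this
  omega

/-- `x, y` not commuting, `W` primitive with at least two letters of each kind: `bval x y W` is primitive -/
theorem bl (x y : List α) (h : x ++ y ≠ y ++ x) (W : List Bool) (hW : Prim W) (h1 : 2 ≤ W.count true)
    (h2 : 2 ≤ W.count false) : Prim (bval x y W) := by
  intro w m hm he
  obtain ⟨σ, x', y', hx', hy', hne, hl⟩ := conj_last x y h
  obtain ⟨ρ, hρ⟩ := conj_power (conj_bval hx' hy' W) he
  have hxpos : 0 < x'.length := by
    rcases Nat.eq_zero_or_pos x'.length with h0 | h0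
    · exfalso
      apply hne
      rw [List.eq_nil_of_length_eq_zero h0, List.nil_append, List.append_nil]
    · exact h0
  have hlen := congrArg List.length hρ
  rw [length_bval, pow_length] at hlen
  have hρne : ρ ≠ [] := by
    rintro rfl
    rw [List.length_nil, Nat.mul_zero] at hlen
    have := Nat.mul_pos (by omega : 0 < W.count true) hxpos
    omega
  have hcore := bl_core hne hl hW (by omega : 1 ≤ m) hρne hρ
  have e1 : 2 * ρ.length ≤ m * ρ.length := Nat.mul_le_mul_right _ hm
  obtain ⟨n1, hn1⟩ : ∃ n1, W.count true = n1 + 2 := ⟨W.count true - 2, by omega⟩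
  obtain ⟨n2, hn2⟩ : ∃ n2, W.count false = n2 + 2 := ⟨W.count false - 2, by omega⟩
  rw [hn1, hn2] at hcore hlen
  have k1 : n1 + 2 - 1 = n1 + 1 := by omega
  have k2 : n2 + 2 - 1 = n2 + 1 := by omega
  rw [k1, k2] at hcore
  generalize x'.length = X at *
  generalize y'.length = Y at *
  nlinarith [Nat.zero_le (n1 * X), Nat.zero_le (n2 * Y)]

end Pool.Agent.H70.WE
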