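import Pool.Agent.H70.WB.Nu

/-!
# [H70 WB Bas] `C⁻¹ A` not a power of a basis element
-/

set_option autoImplicit false

namespace Pool.Agent.H70.WE

open Pool.Agent.H93.TW

variable {α : Type}

/-- the value of a Boolean word in a group -/
def sv {G : Type} [Group G] (π κ : G) (U : List Bool) : G := (U.map fun b => if b then π else κ).prod

theorem sv_cons {G : Type} [Group G] (π κ : G) (b : Bool) (U : List Bool) :
    sv π κ (b :: U) = (if b then π else κ) * sv π κ U := by
  unfold sv
  rw [List.map_cons, List.prod_cons]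

theorem sv_append {G : Type} [Group G] (π κ : G) (U V : List Bool) : sv π κ (U ++ V) = sv π κ U * sv π κ V := by
  unfold sv
  rw [List.map_append, List.prod_append]

theorem sv_mem {G : Type} [Group G] (π κ : G) (U : List Bool) : sv π κ U ∈ Subgroup.closure {π, κ} := by
  induction U with
  | nil => exact Subgroup.one_mem _
  | cons b U ih =>
    rw [sv_cons]
    refine Subgroup.mul_mem _ ?_ ih
    cases b
    · exact Subgroup.subset_closure (by simp)
    · exact Subgroup.subset_closure (by simp)

theorem sv_mem_one {G : Type} [Group G] (π κ : G) (K : Subgroup G) (c : Bool) (hc : (if c then π else κ) ∈ K)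
    (U : List Bool) (hU : (!c) ∉ U) : sv π κ U ∈ K := by
  induction U with
  | nil => exact Subgroup.one_mem _
  | cons b U ih =>
    rw [sv_cons]
    refine Subgroup.mul_mem _ ?_ (ih (fun hh => hU (List.mem_cons_of_mem _ hh)))
    have hb : b = c := by
      by_contra hne
      apply hU
      have : b = !c := by cases b <;> cases c <;> simp_all
      rw [← this]
      exact List.mem_cons_self
    rw [hb]
    exact hc

/-- a word with at most one letter `b` is a member of a generating pair -/
theorem sparse_gen {G : Type} [Group G] (π κ : G) (htop : Subgroup.closure {π, κ} = ⊤) (R : List Bool)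
    (hR : Prim R) (b : Bool) (hb : R.count b ≤ 1) : ∃ κ' : G, Subgroup.closure {sv π κ R, κ'} = ⊤ := by
  have htop' : ∀ K : Subgroup G, (if b then π else κ) ∈ K → (if (!b) then π else κ) ∈ K → K = ⊤ := by
    intro K h1 h2
    rw [eq_top_iff, ← htop, Subgroup.closure_le]
    rintro g (rfl | rfl)
    · cases b
      · exact h2
      · exact h1
    · cases b
      · exact h1
      · exact h2
  rcases Nat.lt_or_ge (R.count b) 1 with h0 | h0
  · have h1 : R.count true = 0 ∨ R.count false = 0 := by
      cases b
      · exact Or.inr (by omega)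
      · exact Or.inl (by omega)
    obtain ⟨c, hc⟩ := prim_single hR h1
    have hcb : c = !b := by
      by_contra hne
      have h2 : c = b := by cases b <;> cases c <;> simp_all
      rw [hc, h2] at h0
      simp at h0
    refine ⟨if b then π else κ, htop' _ (Subgroup.subset_closure (by simp)) ?_⟩
    apply Subgroup.subset_closure
    left
    rw [hc, hcb]
    simp [sv]
  · have hmem : b ∈ R := List.count_pos_iff.1 h0
    obtain ⟨U1, U2, hU⟩ := List.append_of_mem hmem
    have hcnt : U1.count b = 0 ∧ U2.count b = 0 := by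
      rw [hU, List.count_append, List.count_cons_self] at hb
      omega
    have hU1 : (!(!b)) ∉ U1 := by
      rw [Bool.not_not]
      exact List.count_eq_zero.1 hcnt.1
    have hU2 : (!(!b)) ∉ U2 := by
      rw [Bool.not_not]
      exact List.count_eq_zero.1 hcnt.2
    refine ⟨if (!b) then π else κ, ?_⟩
    have hk : (if (!b) then π else κ) ∈ Subgroup.closure {sv π κ R, if (!b) then π else κ} :=
      Subgroup.subset_closure (by simp)
    refine htop' _ ?_ hk
    have hr : sv π κ R ∈ Subgroup.closure {sv π κ R, if (!b) then π else κ} :=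
      Subgroup.subset_closure (by simp)
    have m1 := sv_mem_one π κ _ (!b) hk U1 hU1
    have m2 := sv_mem_one π κ _ (!b) hk U2 hU2
    have h3 : (if b then π else κ) = (sv π κ U1)⁻¹ * sv π κ R * (sv π κ U2)⁻¹ := by
      rw [hU, sv_append, sv_cons]
      group
    rw [h3]
    exact Subgroup.mul_mem _ (Subgroup.mul_mem _ (Subgroup.inv_mem _ m1) hr) (Subgroup.inv_mem _ m2)

theorem phi_sv {h : Fin 3 → List α} {p q : List α} {π κ : FreeGroup (Fin 2)} (hπ : phi h π = io p)
    (hκ : phi h κ = io q) (U : List Bool) : phi h (sv π κ U) = io (bval p q U) := by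
  induction U with
  | nil =>
    show phi h 1 = io []
    rw [map_one, io_nil]
  | cons b U ih =>
    rw [sv_cons, map_mul, ih, bval_cons, io_append]
    congr 1
    cases b
    · exact hκ
    · exact hπ

theorem npb_bas {A B C D : List (Fin 3)} (hA : (2 : Fin 3) ∉ A) (hB : (2 : Fin 3) ∉ B) (hC : (2 : Fin 3) ∉ C)
    (hD : (2 : Fin 3) ∉ D) (hbal : ∀ c : Fin 3, (A ++ B).count c = (C ++ D).count c)
    (h0 : C.count 0 < A.count 0) (h1 : C.count 1 < A.count 1)
    (hb : ∀ (ρ κ : FreeGroup (Fin 2)) (m : ℕ), Subgroup.closure {ρ, κ} = ⊤ → (fw C)⁻¹ * fw A ≠ ρ ^ m) :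
    NPB (A ++ [2] ++ B, C ++ [2] ++ D) := by
  refine npb_uni hA hB hC hD (fun α h hs hn => ?_)
  have heq : val h A ++ h 2 ++ val h B = val h C ++ h 2 ++ val h D := by
    have h3 : val h (A ++ [2] ++ B) = val h (C ++ [2] ++ D) := hs
    rw [val_append, val_append, val_append, val_append, val_one'] at h3
    exact h3
  have hlt : (val h C).length < (val h A).length := by
    rw [length_val h hA, length_val h hC]
    have e0 : (C.count 0 + 1) * (h 0).length ≤ A.count 0 * (h 0).length := Nat.mul_le_mul_right _ h0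
    have e1 : (C.count 1 + 1) * (h 1).length ≤ A.count 1 * (h 1).length := Nat.mul_le_mul_right _ h1
    rw [Nat.add_mul, Nat.one_mul] at e0 e1
    have e2 : 0 < (h 0).length + (h 1).length := by
      rcases Nat.eq_zero_or_pos ((h 0).length + (h 1).length) with h2 | h2
      · exfalso
        apply hn
        refine ⟨h 2, fun c => ?_⟩
        fin_cases c
        · exact ⟨0, List.eq_nil_of_length_eq_zero (by show (h 0).length = 0; omega)⟩
        · exact ⟨0, List.eq_nil_of_length_eq_zero (by show (h 1).length = 0; omega)⟩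
        · exact ⟨1, (pow_one'' (h 2)).symm⟩
      · exact h2
    omega
  have hxy : h 0 ++ h 1 ≠ h 1 ++ h 0 := fun hc => hn (comm_per hA hB hC hD hc hlt heq)
  refine ⟨hxy, hlt, ?_⟩
  obtain ⟨p, q, P, Q, X2, Y2, S, T, m, hpq, hm, hR, hx2, hy2, hP, hQ, hCP, hPz, clp, clq⟩ :=
    type_data hA hB hC hD hbal hxy hlt heq
  have hcl3 : Subgroup.closure {io (h 0), io (h 1)} ≤ (phi h).range := by
    rw [Subgroup.closure_le]
    rintro g (rfl | rfl)
    · exact ⟨FreeGroup.of 0, phi_0 h⟩
    · exact ⟨FreeGroup.of 1, phi_1 h⟩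
  obtain ⟨π, hπ⟩ := hcl3 clp
  obtain ⟨κ, hκ⟩ := hcl3 clq
  have hinj := phi_inj hxy
  have hPf : (fw C)⁻¹ * fw A = (sv π κ (S ++ T)) ^ m := by
    apply hinj
    rw [map_mul, map_inv, phi_fw hC, phi_fw hA, ← hCP, io_append, map_pow, phi_sv hπ hκ, ← io_pow, ← bval_pow,
      ← hP]
    group
  have htop : Subgroup.closure {π, κ} = ⊤ := by
    rw [eq_top_iff, ← FreeGroup.closure_range_of, Subgroup.closure_le]
    rintro g ⟨i, rfl⟩
    fin_cases i
    · have e : FreeGroup.of (0 : Fin 2) = sv π κ X2 := by
        apply hinj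
        rw [phi_0, phi_sv hπ hκ, ← hx2]
      show FreeGroup.of (0 : Fin 2) ∈ _
      rw [e]
      exact sv_mem π κ X2
    · have e : FreeGroup.of (1 : Fin 2) = sv π κ Y2 := by
        apply hinj
        rw [phi_1, phi_sv hπ hκ, ← hy2]
      show FreeGroup.of (1 : Fin 2) ∈ _
      rw [e]
      exact sv_mem π κ Y2
  have hrich : ∀ b : Bool, 2 ≤ (S ++ T).count b := by
    intro b
    by_contra hcon
    obtain ⟨κ', hκ'⟩ := sparse_gen π κ htop (S ++ T) hR b (by omega)
    exact hb _ κ' m hκ' hPf
  have hbl := bl p q hpq (S ++ T) hR (hrich true) (hrich false)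
  have hz : bval p q (S ++ T) ++ h 2 = h 2 ++ bval p q (T ++ S) := by
    rw [hP, hQ, bval_pow, bval_pow] at hPz
    refine root_conj hm _ _ _ _ le_rfl ?_ hPz
    rw [bval_append, bval_append, List.length_append, List.length_append, Nat.add_comm]
  have hc : (h 2 ++ bval p q T) ++ bval p q (S ++ T) = bval p q (S ++ T) ++ (h 2 ++ bval p q T) := by
    rw [← List.append_assoc, hz, bval_append, bval_append]
    simp only [List.append_assoc]
  obtain ⟨w, k, j, hk, hj⟩ := comm_pow _ _ hc
  change h 2 ++ bval p q T = pow w k at hk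
  change bval p q (S ++ T) = pow w j at hj
  have hj1 : j = 1 := by
    rcases Nat.lt_or_ge j 2 with h2 | h2
    · rcases Nat.eq_zero_or_pos j with h3 | h3
      · exfalso
        rw [h3, pow_zero'] at hj
        exact prim_ne hbl hj
      · omega
    · exact absurd hj (hbl w j h2)
  rw [hj1, pow_one''] at hj
  have hio := congrArg io hk
  rw [io_append, io_pow, ← hj] at hio
  have hio2 : io (h 2) = io (bval p q (S ++ T)) ^ k * (io (bval p q T))⁻¹ := by
    rw [← hio]
    group
  have hcl2 : Subgroup.closure {io p, io q} ≤ Subgroup.closure {io (h 0), io (h 1)} := by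
    rw [Subgroup.closure_le]
    rintro g (rfl | rfl)
    · exact clp
    · exact clq
  apply hcl2
  rw [hio2]
  exact Subgroup.mul_mem _ (Subgroup.pow_mem _ (bval_mem p q _) k) (Subgroup.inv_mem _ (bval_mem p q T))

end Pool.Agent.H70.WE
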