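import Pool.Agent.H70.WB.Defs

/-!
# [H70 WB Fams] Chains which reach finitely many one-parameter families
-/

set_option autoImplicit false

namespace Pool.Agent.H70.WE

variable {α : Type}

/-- `h` is in the family of `P` and `W`, at the parameter `i`: for some `p, q` which do not commute `h(c)` is the
value of the word `W c` in `p, q` and `T = P^i` (the letter `none` of `W c`) -/
def InFam (P : List Bool) (W : Fin 3 → List (Option Bool)) (h : Fin 3 → List α) (i : ℕ) : Prop :=
  ∃ p q : List α, p ++ q ≠ q ++ p ∧ ∀ c : Fin 3, h c = bval p q (evP P i (W c))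

theorem evP_flatMap {β : Type} (P : List β) (i : ℕ) (W : Fin 3 → List (Option β)) (U : List (Fin 3)) :
    evP P i (U.flatMap W) = U.flatMap (fun c => evP P i (W c)) := by
  unfold evP
  rw [List.flatMap_assoc]

theorem bval_inj {p q : List α} (h : p ++ q ≠ q ++ p) {U V : List Bool} (he : bval p q U = bval p q V) : U = V := by
  by_contra hne
  exact h (rel_comm p q U V hne he)

theorem solves_inFam {P : List Bool} {W : Fin 3 → List (Option Bool)} {h : Fin 3 → List α} {i : ℕ}
    (hf : InFam P W h i) (F : List (Fin 3) × List (Fin 3)) :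
    Solves h F ↔ evP P i (F.1.flatMap W) = evP P i (F.2.flatMap W) := by
  obtain ⟨p, q, hpq, hW⟩ := hf
  have key : ∀ U : List (Fin 3), val h U = bval p q (evP P i (U.flatMap W)) := by
    intro U
    rw [evP_flatMap]
    unfold val bval
    rw [List.flatMap_assoc]
    congr 1
    funext c
    exact hW c
  unfold Solves
  rw [key, key]
  exact ⟨fun e => bval_inj hpq e, fun e => by rw [e]⟩

theorem fams_four {P : List Bool} {W : Fin 3 → List (Option Bool)}
    (E : Fin 4 → List (Fin 3) × List (Fin 3)) (h : Fin 4 → Fin 3 → List α) (t : Fin 4 → ℕ)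
    (hf : ∀ i, InFam P W (h i) (t i)) (hs : ∀ i j, j < i → Solves (h i) (E j)) (hne : ∀ i, ¬ Solves (h i) (E i)) :
    False := by
  have hT := fun i => solves_inFam (hf i)
  have hdist : ∀ i j, i < j → t i ≠ t j := by
    intro i j hij e
    have h1 := (hT j (E i)).1 (hs j i hij)
    rw [← e] at h1
    exact hne i ((hT i (E i)).2 h1)
  have e1 := (hT 1 (E 0)).1 (hs 1 0 (by decide))
  have e2 := (hT 2 (E 0)).1 (hs 2 0 (by decide))
  have e3 := (hT 3 (E 0)).1 (hs 3 0 (by decide))
  have d12 := hdist 1 2 (by decide)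
  have d13 := hdist 1 3 (by decide)
  have d23 := hdist 2 3 (by decide)
  have two : ∀ a b : ℕ, 1 ≤ a → 1 ≤ b → a ≠ b → evP P a ((E 0).1.flatMap W) = evP P a ((E 0).2.flatMap W) →
      evP P b ((E 0).1.flatMap W) = evP P b ((E 0).2.flatMap W) →
      evP P (t 0) ((E 0).1.flatMap W) = evP P (t 0) ((E 0).2.flatMap W) := by
    intro a b ha hb hab h1 h2
    rcases lt_or_gt_of_ne hab with h | h
    · exact two_pos_pow P ha h _ _ h1 h2 _
    · exact two_pos_pow P hb h _ _ h2 h1 _
  have key : evP P (t 0) ((E 0).1.flatMap W) = evP P (t 0) ((E 0).2.flatMap W) := by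
    rcases Nat.eq_zero_or_pos (t 1) with h1 | h1
    · exact two (t 2) (t 3) (by omega) (by omega) d23 e2 e3
    · rcases Nat.eq_zero_or_pos (t 2) with h2 | h2
      · exact two (t 1) (t 3) h1 (by omega) d13 e1 e3
      · exact two (t 1) (t 2) h1 h2 d12 e1 e2
  exact hne 0 ((hT 0 (E 0)).2 key)

theorem fams_bound {n r k : ℕ} {E : Fin n → List (Fin 3) × List (Fin 3)} (P : Fin k → List Bool)
    (W : Fin k → Fin 3 → List (Option Bool)) (hE : Decreasing α n E)
    (hr : ∀ h : Fin 3 → List α, (∀ i : Fin n, i.val < r → Solves h (E i)) → ¬ Per h →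
      ∃ (j : Fin k) (i : ℕ), InFam (P j) (W j) h i) : n ≤ r + 3 * k + 3 := by
  classical
  choose h hs hne using hE
  let S1 : Finset (Fin n) := Finset.univ.filter (fun i => r ≤ i.val ∧ Per (h i))
  let S2 : Fin k → Finset (Fin n) := fun j => Finset.univ.filter (fun i => ∃ t, InFam (P j) (W j) (h i) t)
  let S0 : Finset (Fin n) := Finset.univ.filter (fun i => i.val < r)
  have c1 : S1.card ≤ 3 := by
    apply card_le
    intro e he hm
    have := per_bound (fun i => E (e i)) (fun i => h (e i)) (fun i => (Finset.mem_filter.1 (hm i)).2.2)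
      (fun i j hij => hs (e i) (e j) (he hij)) (fun i => hne (e i))
    omega
  have c2 : ∀ j, (S2 j).card ≤ 3 := by
    intro j
    apply card_le
    intro e he hm
    have hex : ∀ i : Fin 4, ∃ t : ℕ, InFam (P j) (W j) (h (e i)) t := fun i => (Finset.mem_filter.1 (hm i)).2
    choose t ht using hex
    exact fams_four (fun i => E (e i)) (fun i => h (e i)) t ht
      (fun i j hij => hs (e i) (e j) (he hij)) (fun i => hne (e i))
  have c0 : S0.card ≤ r := by
    have h1 : S0.card ≤ (Finset.range r).card := by
      apply Finset.card_le_card_of_injOn (fun i : Fin n => i.val)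
      · intro i hi
        have := (Finset.mem_filter.1 hi).2
        simpa using this
      · intro i _ j _ hij
        exact Fin.ext hij
    simpa using h1
  have c3 : (Finset.univ.biUnion S2).card ≤ 3 * k := by
    refine Finset.card_biUnion_le.trans ?_
    refine (Finset.sum_le_sum (fun j _ => c2 j)).trans ?_
    rw [Finset.sum_const, Finset.card_univ, Fintype.card_fin, smul_eq_mul, Nat.mul_comm]
  have hU : (Finset.univ : Finset (Fin n)) ⊆ S0 ∪ (S1 ∪ Finset.univ.biUnion S2) := by
    intro i _
    by_cases hi : i.val < r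
    · exact Finset.mem_union_left _ (Finset.mem_filter.2 ⟨Finset.mem_univ _, hi⟩)
    · have hi' : r ≤ i.val := not_lt.1 hi
      apply Finset.mem_union_right
      by_cases hp : Per (h i)
      · exact Finset.mem_union_left _ (Finset.mem_filter.2 ⟨Finset.mem_univ _, hi', hp⟩)
      · obtain ⟨j, t, ht⟩ := hr (h i) (fun j hj => hs i j (Fin.lt_def.2 (lt_of_lt_of_le hj hi'))) hp
        exact Finset.mem_union_right _ (Finset.mem_biUnion.2 ⟨j, Finset.mem_univ _,
          Finset.mem_filter.2 ⟨Finset.mem_univ _, t, ht⟩⟩)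
  have h1 := Finset.card_le_card hU
  have h2 := Finset.card_union_le S0 (S1 ∪ Finset.univ.biUnion S2)
  have h3 := Finset.card_union_le S1 (Finset.univ.biUnion S2)
  rw [Finset.card_univ, Fintype.card_fin] at h1
  omega

end Pool.Agent.H70.WE
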