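import Pool.Agent.H70.WB.Npj
import Pool.Agent.H70.WB.Fams

/-!
# [H70 WB Fv] Formal values in the free group on `x, y`
-/

set_option autoImplicit false

namespace Pool.Agent.H70.WE

open Pool.Agent.H93.TW

variable {α : Type}

/-- formal value of a word: `x ↦ of 0`, `y ↦ of 1`, `z ↦ ζ` -/
def fval (ζ : FreeGroup (Fin 2)) (U : List (Fin 3)) : FreeGroup (Fin 2) :=
  (U.map ![FreeGroup.of 0, FreeGroup.of 1, ζ]).prod

/-- the element of the free group on `x, y` given by a word in `x, y` -/
def fw (U : List (Fin 3)) : FreeGroup (Fin 2) := fval 1 U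

/-- the homomorphism `x ↦ h x`, `y ↦ h y` -/
def phi (h : Fin 3 → List α) : FreeGroup (Fin 2) →* FreeGroup α := FreeGroup.lift ![io (h 0), io (h 1)]

theorem phi_0 (h : Fin 3 → List α) : phi h (FreeGroup.of 0) = io (h 0) := by
  unfold phi
  rw [FreeGroup.lift_apply_of]
  rfl

theorem phi_1 (h : Fin 3 → List α) : phi h (FreeGroup.of 1) = io (h 1) := by
  unfold phi
  rw [FreeGroup.lift_apply_of]
  rfl

theorem phi_inj {h : Fin 3 → List α} (hxy : h 0 ++ h 1 ≠ h 1 ++ h 0) : Function.Injective (phi h) :=
  fg_inj _ _ (fun e => hxy (io_inj (by rw [io_append, io_append]; exact e)))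

theorem fval_cons (ζ : FreeGroup (Fin 2)) (c : Fin 3) (U : List (Fin 3)) :
    fval ζ (c :: U) = (![FreeGroup.of 0, FreeGroup.of 1, ζ] : Fin 3 → FreeGroup (Fin 2)) c * fval ζ U := by
  unfold fval
  rw [List.map_cons, List.prod_cons]

theorem io_val_phi {h : Fin 3 → List α} {ζ : FreeGroup (Fin 2)} (hz : phi h ζ = io (h 2)) (U : List (Fin 3)) :
    io (val h U) = phi h (fval ζ U) := by
  induction U with
  | nil =>
    show io [] = phi h 1
    rw [io_nil, map_one]
  | cons c U ih =>
    rw [val_cons', io_append, ih, fval_cons, map_mul]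
    congr 1
    fin_cases c
    · exact (phi_0 h).symm
    · exact (phi_1 h).symm
    · exact hz.symm

theorem phi_fw {h : Fin 3 → List α} {G : List (Fin 3)} (hG : (2 : Fin 3) ∉ G) : phi h (fw G) = io (val h G) := by
  unfold fw
  induction G with
  | nil =>
    show phi h 1 = io []
    rw [io_nil, map_one]
  | cons c U ih =>
    rw [val_cons', io_append, fval_cons, map_mul, ih (fun hh => hG (List.mem_cons_of_mem _ hh))]
    congr 1
    fin_cases c
    · exact phi_0 h
    · exact phi_1 h
    · exact absurd List.mem_cons_self hG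

theorem solves_phi {h : Fin 3 → List α} {ζ : FreeGroup (Fin 2)} (hxy : h 0 ++ h 1 ≠ h 1 ++ h 0)
    (hz : phi h ζ = io (h 2)) (F : List (Fin 3) × List (Fin 3)) : Solves h F ↔ fval ζ F.1 = fval ζ F.2 := by
  constructor
  · intro hs
    apply phi_inj hxy
    rw [← io_val_phi hz, ← io_val_phi hz]
    exact congrArg io hs
  · intro hs
    show val h F.1 = val h F.2
    apply io_inj
    rw [io_val_phi hz, io_val_phi hz, hs]

theorem val_congr {h h' : Fin 3 → List α} {U : List (Fin 3)} (hU : (2 : Fin 3) ∉ U) (h0 : h 0 = h' 0)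
    (h1 : h 1 = h' 1) : val h U = val h' U := by
  induction U with
  | nil => rfl
  | cons c U ih =>
    rw [val_cons', val_cons', ih (fun hh => hU (List.mem_cons_of_mem _ hh))]
    congr 1
    fin_cases c
    · exact h0
    · exact h1
    · exact absurd List.mem_cons_self hU

/-- four words `v^e z0` with the same `x0, y0` cannot be the last unknowns of a chain -/
theorem same_xy {v x0 y0 z0 : List α} {e : Fin 4 → ℕ} (E : Fin 4 → List (Fin 3) × List (Fin 3))
    (hs : ∀ i j, j < i → Solves (![x0, y0, pow v (e i) ++ z0] : Fin 3 → List α) (E j))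
    (hne : ∀ i, ¬ Solves (![x0, y0, pow v (e i) ++ z0] : Fin 3 → List α) (E i)) : False := by
  set W : Fin 3 → List (Option α) := ![x0.map some, y0.map some, none :: z0.map some] with hW
  have hval : ∀ (n : ℕ) (U : List (Fin 3)), val (![x0, y0, pow v n ++ z0] : Fin 3 → List α) U =
      evP v n (U.flatMap W) := by
    intro n U
    unfold val evP
    rw [List.flatMap_assoc]
    congr 1
    funext c
    fin_cases c
    · exact (evP_some v n x0).symm
    · exact (evP_some v n y0).symm
    · show pow v n ++ z0 = evP v n (none :: z0.map some)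
      have h1 : evP v n (none :: z0.map some) = pow v n ++ evP v n (z0.map some) := by
        unfold evP
        rw [List.flatMap_cons]
      rw [h1, evP_some]
  have hT : ∀ (n : ℕ) (F : List (Fin 3) × List (Fin 3)), Solves (![x0, y0, pow v n ++ z0] : Fin 3 → List α) F ↔
      evP v n (F.1.flatMap W) = evP v n (F.2.flatMap W) := by
    intro n F
    unfold Solves
    rw [hval, hval]
  have hdist : ∀ i j, i < j → e i ≠ e j := by
    intro i j hij he
    have h1 := hs j i hij
    rw [← he] at h1
    exact hne i h1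
  have e1 := (hT _ _).1 (hs 1 0 (by decide))
  have e2 := (hT _ _).1 (hs 2 0 (by decide))
  have e3 := (hT _ _).1 (hs 3 0 (by decide))
  have d12 := hdist 1 2 (by decide)
  have d13 := hdist 1 3 (by decide)
  have d23 := hdist 2 3 (by decide)
  have two : ∀ a b : ℕ, 1 ≤ a → 1 ≤ b → a ≠ b → evP v a ((E 0).1.flatMap W) = evP v a ((E 0).2.flatMap W) →
      evP v b ((E 0).1.flatMap W) = evP v b ((E 0).2.flatMap W) →
      evP v (e 0) ((E 0).1.flatMap W) = evP v (e 0) ((E 0).2.flatMap W) := by
    intro a b ha hb hab h1 h2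
    rcases lt_or_gt_of_ne hab with h | h
    · exact two_pos_pow v ha h _ _ h1 h2 _
    · exact two_pos_pow v hb h _ _ h2 h1 _
  have key : evP v (e 0) ((E 0).1.flatMap W) = evP v (e 0) ((E 0).2.flatMap W) := by
    rcases Nat.eq_zero_or_pos (e 1) with h1 | h1
    · exact two (e 2) (e 3) (by omega) (by omega) d23 e2 e3
    · rcases Nat.eq_zero_or_pos (e 2) with h2 | h2
      · exact two (e 1) (e 3) h1 (by omega) d13 e1 e3
      · exact two (e 1) (e 2) h1 h2 d12 e1 e2
  exact hne 0 ((hT _ _).2 key)

end Pool.Agent.H70.WE
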