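import Pool.Agent.H70.WB.Cr
import Pool.Agent.H70.WB.Fv

/-!
# [H70 WB Cj3] `D B⁻¹` or `C⁻¹ A` conjugate to `s⁻¹ r^e`
-/

set_option autoImplicit false

namespace Pool.Agent.H70.WE

private def tt : Fin 3 → Fin 2 := ![0, 1, 0]

private def pz (U : List (Fin 3)) : List (Fin 2 × Bool) := U.map fun c => (tt c, true)

private theorem tt_inj {a b : Fin 3} (ha : a ≠ 2) (hb : b ≠ 2) (h : tt a = tt b) : a = b := by
  revert ha hb h
  unfold tt
  revert a b
  decide

private theorem pz_append (U W : List (Fin 3)) : pz (U ++ W) = pz U ++ pz W := List.map_append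

private theorem pz_replicate (e : ℕ) (r : Fin 3) : pz (List.replicate e r) = List.replicate e (tt r, true) := by
  unfold pz
  rw [List.map_replicate]

private theorem fw_pz {U : List (Fin 3)} (hU : (2 : Fin 3) ∉ U) : fw U = FreeGroup.mk (pz U) := by
  induction U with
  | nil => rfl
  | cons c U ih =>
    have h1 := ih (fun hh => hU (List.mem_cons_of_mem _ hh))
    unfold fw at h1 ⊢
    rw [fval_cons, h1]
    have h2 : (![FreeGroup.of 0, FreeGroup.of 1, 1] : Fin 3 → FreeGroup (Fin 2)) c =
        FreeGroup.mk [(tt c, true)] := by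
      fin_cases c
      · rfl
      · rfl
      · exact absurd List.mem_cons_self hU
    rw [h2, FreeGroup.mul_mk]
    rfl

private theorem pz_inj {U W : List (Fin 3)} (hU : (2 : Fin 3) ∉ U) (hW : (2 : Fin 3) ∉ W) (h : pz U = pz W) :
    U = W := by
  induction U generalizing W with
  | nil =>
    cases W with
    | nil => rfl
    | cons d W => cases h
  | cons c U ih =>
    cases W with
    | nil => cases h
    | cons d W =>
      have h1 : (tt c, true) :: pz U = (tt d, true) :: pz W := h
      rw [List.cons.injEq] at h1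
      have h2 := ih (fun hh => hU (List.mem_cons_of_mem _ hh)) (fun hh => hW (List.mem_cons_of_mem _ hh)) h1.2
      have h3 := tt_inj (fun hh => hU (by rw [hh]; exact List.mem_cons_self))
        (fun hh => hW (by rw [hh]; exact List.mem_cons_self)) (congrArg Prod.fst h1.1)
      rw [h2, h3]

private theorem pz_pos {U : List (Fin 3)} : ∀ x ∈ pz U, x.2 = true := by
  intro x hx
  obtain ⟨c, -, rfl⟩ := List.mem_map.1 hx
  rfl

private theorem inv_neg {L : List (Fin 2 × Bool)} (h : ∀ x ∈ L, x.2 = true) : ∀ x ∈ FreeGroup.invRev L, x.2 = false := by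
  intro x hx
  unfold FreeGroup.invRev at hx
  rw [List.mem_reverse, List.mem_map] at hx
  obtain ⟨y, hy, rfl⟩ := hx
  rw [h y hy]
  rfl

/-- number of negative letters -/
private def ng (L : List (Fin 2 × Bool)) : ℕ := L.countP fun x => !x.2

private theorem ng_append (L M : List (Fin 2 × Bool)) : ng (L ++ M) = ng L + ng M := List.countP_append

private theorem ng_pos {L : List (Fin 2 × Bool)} (h : ∀ x ∈ L, x.2 = true) : ng L = 0 := by
  unfold ng
  rw [List.countP_eq_zero]
  intro x hx
  rw [h x hx]
  decide

private theorem ng_neg {L : List (Fin 2 × Bool)} (h : ∀ x ∈ L, x.2 = false) : ng L = L.length := by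
  unfold ng
  rw [List.countP_eq_length]
  intro x hx
  rw [h x hx]
  rfl

private theorem ng_inv (v : List (Fin 2 × Bool)) : ng (FreeGroup.invRev v) + ng v = v.length := by
  induction v with
  | nil => rfl
  | cons a v ih =>
    rw [FreeGroup.invRev_cons, ng_append]
    have h1 : ng (a :: v) = ng [a] + ng v := ng_append [a] v
    have h2 : ng (FreeGroup.invRev [a]) + ng [a] = 1 := by
      obtain ⟨i, b⟩ := a
      cases b <;> rfl
    rw [h1, List.length_cons]
    omega

private theorem rest {a b : Fin 2 × Bool} (hb : b.2 = true) {e : ℕ} {m : Fin 2 × Bool} {M' : List (Fin 2 × Bool)}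
    (hm : m.2 = false) (h : (m :: M').Perm (a :: List.replicate e b)) : m = a ∧ M' = List.replicate e b := by
  have h1 : m ∈ a :: List.replicate e b := h.subset List.mem_cons_self
  have h2 : m = a := by
    rcases List.mem_cons.1 h1 with h3 | h3
    · exact h3
    · rw [List.eq_of_mem_replicate h3, hb] at hm
      cases hm
  subst h2
  exact ⟨rfl, List.perm_replicate.1 ((List.perm_cons m).1 h)⟩

private theorem left_core {a b : Fin 2 × Bool} (ha : a.2 = false) (hb : b.2 = true) {e : ℕ}
    {N P v M : List (Fin 2 × Bool)} (hN : ∀ x ∈ N, x.2 = false) (hP : ∀ x ∈ P, x.2 = true)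
    (hM : M.Perm (a :: List.replicate e b)) (h : N ++ P = FreeGroup.invRev v ++ M ++ v) :
    N = FreeGroup.invRev v ++ [a] ∧ P = List.replicate e b ++ v := by
  have c1 : ng M = 1 := by
    have h1 : ng M = ng (a :: List.replicate e b) := hM.countP_eq _
    have h2 : ng (a :: List.replicate e b) = ng [a] + ng (List.replicate e b) := ng_append [a] _
    have h3 : ng (List.replicate e b) = 0 := ng_pos fun x hx => by rw [List.eq_of_mem_replicate hx, hb]
    have h4 : ng [a] = 1 := ng_neg (L := [a]) fun x hx => by rw [List.mem_singleton.1 hx, ha]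
    omega
  have c2 : N.length = v.length + 1 := by
    have h1 := congrArg ng h
    rw [ng_append, ng_append, ng_append, ng_neg hN, ng_pos hP, c1] at h1
    have h2 := ng_inv v
    omega
  cases M with
  | nil => cases c1
  | cons m M' =>
    have h1 : N ++ P = (FreeGroup.invRev v ++ [m]) ++ (M' ++ v) := by
      rw [h]
      simp only [List.append_assoc, List.cons_append, List.nil_append]
    have h2 := List.append_inj h1 (by
      rw [List.length_append, FreeGroup.invRev_length, c2]
      rfl)
    have h3 : m.2 = false := hN m (by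
      rw [h2.1]
      exact List.mem_append_right _ (List.mem_singleton.2 rfl))
    obtain ⟨h4, h5⟩ := rest hb h3 hM
    rw [h4, h5] at h2
    exact h2

private theorem right_core {a b : Fin 2 × Bool} (ha : a.2 = false) (hb : b.2 = true) {e : ℕ}
    {N P v M : List (Fin 2 × Bool)} (hN : ∀ x ∈ N, x.2 = false) (hP : ∀ x ∈ P, x.2 = true)
    (hM : M.Perm (a :: List.replicate e b)) (h : P ++ N = FreeGroup.invRev v ++ M ++ v) :
    P = FreeGroup.invRev v ++ List.replicate e b ∧ N = a :: v := by
  have c1 : ng M = 1 := by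
    have h1 : ng M = ng (a :: List.replicate e b) := hM.countP_eq _
    have h2 : ng (a :: List.replicate e b) = ng [a] + ng (List.replicate e b) := ng_append [a] _
    have h3 : ng (List.replicate e b) = 0 := ng_pos fun x hx => by rw [List.eq_of_mem_replicate hx, hb]
    have h4 : ng [a] = 1 := ng_neg (L := [a]) fun x hx => by rw [List.mem_singleton.1 hx, ha]
    omega
  have c2 : N.length = v.length + 1 := by
    have h1 := congrArg ng h
    rw [ng_append, ng_append, ng_append, ng_neg hN, ng_pos hP, c1] at h1
    have h2 := ng_inv v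
    omega
  rcases List.eq_nil_or_concat M with rfl | ⟨M', m, rfl⟩
  · cases c1
  · have h1 : P ++ N = (FreeGroup.invRev v ++ M') ++ (m :: v) := by
      rw [h]
      simp only [List.append_assoc, List.cons_append, List.nil_append, List.concat_eq_append]
    have h2 := List.append_inj' h1 (by
      rw [List.length_cons, c2])
    have h3 : m.2 = false := hN m (by
      rw [h2.2]
      exact List.mem_cons_self)
    have hM' : (m :: M').Perm (a :: List.replicate e b) := by
      refine List.Perm.trans ?_ hM
      rw [List.concat_eq_append]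
      exact (List.perm_append_singleton m M').symm
    obtain ⟨h4, h5⟩ := rest hb h3 hM'
    rw [h4, h5] at h2
    exact h2

private theorem red_const {b : Bool} {L : List (Fin 2 × Bool)} (h : ∀ x ∈ L, x.2 = b) : FreeGroup.IsReduced L := by
  unfold FreeGroup.IsReduced
  induction L with
  | nil => exact List.isChain_nil
  | cons c U ih =>
    cases U with
    | nil => exact List.isChain_singleton _
    | cons d U =>
      refine List.isChain_cons_cons.2 ⟨fun _ => ?_, ih fun x hx => h x (List.mem_cons_of_mem _ hx)⟩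
      rw [h c List.mem_cons_self, h d (List.mem_cons_of_mem _ List.mem_cons_self)]

private theorem red_left {A C : List (Fin 3)} (hA : (2 : Fin 3) ∉ A) (hC : (2 : Fin 3) ∉ C)
    (hf : ∀ (c : Fin 3) (A' C' : List (Fin 3)), ¬ (A = c :: A' ∧ C = c :: C')) :
    FreeGroup.IsReduced (FreeGroup.invRev (pz C) ++ pz A) := by
  refine List.isChain_append.2 ⟨red_const (inv_neg pz_pos), red_const pz_pos, ?_⟩
  intro x hx y hy h1
  cases C with
  | nil => cases hx
  | cons c C' =>
    cases A with
    | nil => cases hy
    | cons a A' =>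
      have e1 : FreeGroup.invRev (pz (c :: C')) = FreeGroup.invRev (pz C') ++ [(tt c, false)] :=
        FreeGroup.invRev_cons
      rw [e1, List.getLast?_append_of_ne_nil _ (by simp)] at hx
      have e2 : x = (tt c, false) := by
        have h2 : [(tt c, false)].getLast? = some (tt c, false) := rfl
        rw [h2, Option.mem_some_iff] at hx
        exact hx.symm
      have e3 : y = (tt a, true) := by
        have h2 : (pz (a :: A')).head? = some (tt a, true) := rfl
        rw [h2, Option.mem_some_iff] at hy
        exact hy.symm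
      rw [e2, e3] at h1
      have h3 := tt_inj (fun hh => hC (by rw [hh]; exact List.mem_cons_self))
        (fun hh => hA (by rw [hh]; exact List.mem_cons_self)) h1
      exact absurd ⟨rfl, by rw [h3]⟩ (hf a A' C')

private theorem red_right {B D : List (Fin 3)} (hB : (2 : Fin 3) ∉ B) (hD : (2 : Fin 3) ∉ D)
    (hl : ∀ (c : Fin 3) (B' D' : List (Fin 3)), ¬ (B = B' ++ [c] ∧ D = D' ++ [c])) :
    FreeGroup.IsReduced (pz D ++ FreeGroup.invRev (pz B)) := by
  refine List.isChain_append.2 ⟨red_const pz_pos, red_const (inv_neg pz_pos), ?_⟩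
  intro x hx y hy h1
  rcases List.eq_nil_or_concat B with rfl | ⟨B', b, rfl⟩
  · cases hy
  rcases List.eq_nil_or_concat D with rfl | ⟨D', d, rfl⟩
  · cases hx
  rw [List.concat_eq_append] at *
  have e1 : FreeGroup.invRev (pz (B' ++ [b])) = (tt b, false) :: FreeGroup.invRev (pz B') := by
    rw [pz_append, FreeGroup.invRev_append]
    rfl
  rw [pz_append, List.getLast?_append_of_ne_nil _ (by simp [pz])] at hx
  have e2 : x = (tt d, true) := by
    have h2 : (pz [d]).getLast? = some (tt d, true) := rfl
    rw [h2, Option.mem_some_iff] at hx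
    exact hx.symm
  have e3 : y = (tt b, false) := by
    rw [e1] at hy
    have h2 : ((tt b, false) :: FreeGroup.invRev (pz B')).head? = some (tt b, false) := rfl
    rw [h2, Option.mem_some_iff] at hy
    exact hy.symm
  rw [e2, e3] at h1
  have h3 := tt_inj (fun hh => hD (by rw [hh]; exact List.mem_append_right _ List.mem_cons_self))
    (fun hh => hB (by rw [hh]; exact List.mem_append_right _ List.mem_cons_self)) h1
  exact absurd ⟨rfl, by rw [h3, List.concat_eq_append]⟩ (hl b B' D')

private theorem cyc_w {r s : Fin 3} (hrs : r ≠ s) (hr : r ≠ 2) (hs : s ≠ 2) {e : ℕ} (he : 1 ≤ e) :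
    FreeGroup.IsCyclicallyReduced ((tt s, false) :: List.replicate e (tt r, true)) := by
  have hne : tt s ≠ tt r := fun h => hrs (tt_inj hr hs h.symm)
  obtain ⟨k, rfl⟩ : ∃ k, e = k + 1 := ⟨e - 1, by omega⟩
  refine ⟨?_, ?_⟩
  · rw [List.replicate_succ]
    refine List.isChain_cons_cons.2 ⟨fun h => absurd h hne, ?_⟩
    rw [← List.replicate_succ]
    exact red_const (b := true) fun x hx => by rw [List.eq_of_mem_replicate hx]
  · intro a ha b hb h
    rw [List.replicate_succ', ← List.cons_append, List.getLast?_append_of_ne_nil _ (by simp)] at ha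
    have e1 : a = (tt r, true) := by
      have h2 : [(tt r, true)].getLast? = some (tt r, true) := rfl
      rw [h2, Option.mem_some_iff] at ha
      exact ha.symm
    have e2 : b = (tt s, false) := by
      rw [List.head?_cons, Option.mem_some_iff] at hb
      exact hb.symm
    rw [e1, e2] at h
    exact absurd h.symm hne

private theorem w_eq (s r : Fin 3) (e : ℕ) : FreeGroup.invRev (pz [s]) ++ pz (List.replicate e r) =
    (tt s, false) :: List.replicate e (tt r, true) := by
  rw [pz_replicate]
  rfl

private theorem not_mem_rep {r : Fin 3} (hr : r ≠ 2) (e : ℕ) : (2 : Fin 3) ∉ List.replicate e r := fun h =>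
  hr (List.eq_of_mem_replicate h).symm

/-- `invRev (pos C) ++ pos A = invRev v ++ w' ++ v`, `w'` a rotation of `s⁻¹ r^e` (cyclically reduced, `r ≠ s`); negative letters come
first, so `w' = s⁻¹ r^e`, `v` is positive: `v = pos κ`. -/
theorem cj_left3 {r s : Fin 3} (hrs : r ≠ s) (hr : r ≠ 2) (hs : s ≠ 2) {e : ℕ} (he : 1 ≤ e) {A C : List (Fin 3)}
    (hA : (2 : Fin 3) ∉ A) (hC : (2 : Fin 3) ∉ C)
    (hf : ∀ (c : Fin 3) (A' C' : List (Fin 3)), ¬ (A = c :: A' ∧ C = c :: C'))
    (h : IsConj ((fw [s])⁻¹ * fw (List.replicate e r)) ((fw C)⁻¹ * fw A)) :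
    ∃ κ : List (Fin 3), A = List.replicate e r ++ κ ∧ C = [s] ++ κ := by
  rw [fw_pz (U := [s]) (fun h => hs (List.mem_singleton.1 h).symm), fw_pz (not_mem_rep hr e), fw_pz hC, fw_pz hA,
    FreeGroup.inv_mk, FreeGroup.mul_mk, FreeGroup.inv_mk, FreeGroup.mul_mk, w_eq] at h
  obtain ⟨X, Y, v, h1, h2⟩ := cr (cyc_w hrs hr hs he) (by simp) h
  rw [FreeGroup.toWord_mk, FreeGroup.IsReduced.reduce_eq (red_left hA hC hf)] at h2
  have hp : (Y ++ X).Perm ((tt s, false) :: List.replicate e (tt r, true)) := by
    rw [h1]
    exact List.perm_append_comm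
  obtain ⟨h3, h4⟩ := left_core rfl rfl (inv_neg pz_pos) pz_pos hp h2
  have h5 : pz C = (tt s, true) :: v := by
    have h6 := congrArg FreeGroup.invRev h3
    rw [FreeGroup.invRev_invRev, FreeGroup.invRev_append, FreeGroup.invRev_invRev] at h6
    exact h6
  cases C with
  | nil => cases h5
  | cons c κ =>
    have h6 : (tt c, true) :: pz κ = (tt s, true) :: v := h5
    rw [List.cons.injEq] at h6
    have hκ : (2 : Fin 3) ∉ κ := fun hh => hC (List.mem_cons_of_mem _ hh)
    have h7 : c = s := tt_inj (fun hh => hC (by rw [hh]; exact List.mem_cons_self)) hs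
      (congrArg Prod.fst h6.1)
    refine ⟨κ, ?_, by rw [h7]; rfl⟩
    apply pz_inj hA
    · intro hh
      rcases List.mem_append.1 hh with h8 | h8
      · exact not_mem_rep hr e h8
      · exact hκ h8
    · rw [h4, ← h6.2, pz_append, pz_replicate]

/-- `pos D ++ invRev (pos B) = invRev v ++ w' ++ v`; positive letters come first, so `w' = r^e s⁻¹`, `v` is negative. -/
theorem cj_right3 {r s : Fin 3} (hrs : r ≠ s) (hr : r ≠ 2) (hs : s ≠ 2) {e : ℕ} (he : 1 ≤ e) {B D : List (Fin 3)}
    (hB : (2 : Fin 3) ∉ B) (hD : (2 : Fin 3) ∉ D)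
    (hl : ∀ (c : Fin 3) (B' D' : List (Fin 3)), ¬ (B = B' ++ [c] ∧ D = D' ++ [c]))
    (h : IsConj ((fw [s])⁻¹ * fw (List.replicate e r)) (fw D * (fw B)⁻¹)) :
    ∃ μ : List (Fin 3), D = μ ++ List.replicate e r ∧ B = μ ++ [s] := by
  rw [fw_pz (U := [s]) (fun h => hs (List.mem_singleton.1 h).symm), fw_pz (not_mem_rep hr e), fw_pz hB, fw_pz hD,
    FreeGroup.inv_mk, FreeGroup.mul_mk, FreeGroup.inv_mk, FreeGroup.mul_mk, w_eq] at h
  obtain ⟨X, Y, v, h1, h2⟩ := cr (cyc_w hrs hr hs he) (by simp) h
  rw [FreeGroup.toWord_mk, FreeGroup.IsReduced.reduce_eq (red_right hB hD hl)] at h2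
  have hp : (Y ++ X).Perm ((tt s, false) :: List.replicate e (tt r, true)) := by
    rw [h1]
    exact List.perm_append_comm
  obtain ⟨h3, h4⟩ := right_core rfl rfl (inv_neg pz_pos) pz_pos hp h2
  have h5 : pz B = FreeGroup.invRev v ++ [(tt s, true)] := by
    have h6 := congrArg FreeGroup.invRev h4
    rw [FreeGroup.invRev_invRev, FreeGroup.invRev_cons] at h6
    exact h6
  rcases List.eq_nil_or_concat B with rfl | ⟨μ, c, rfl⟩
  · exact absurd (congrArg List.length h5) (by simp [pz])
  · rw [List.concat_eq_append] at *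
    rw [pz_append] at h5
    have h6 := List.append_inj' h5 rfl
    have hc : c ≠ 2 := fun hh => hB (by rw [hh]; exact List.mem_append_right _ List.mem_cons_self)
    have h7 : c = s := tt_inj hc hs (congrArg Prod.fst (List.cons.inj h6.2).1)
    refine ⟨μ, ?_, by rw [h7]⟩
    apply pz_inj hD
    · intro hh
      rcases List.mem_append.1 hh with h8 | h8
      · exact hB (List.mem_append_left _ h8)
      · exact not_mem_rep hr e h8
    · rw [h3, ← h6.1, pz_append, pz_replicate]

end Pool.Agent.H70.WE
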