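import Pool.Agent.H70.WB.Cj

/-!
# [H70 WB CjG] `D B⁻¹` conjugate to a cyclically reduced `C0⁻¹ A0`
-/

set_option autoImplicit false

namespace Pool.Agent.H70.WE

private def cjc (c : Fin 3) : Fin 2 := if c = 1 then 1 else 0

private def cjb (l : Fin 2 × Bool) : Fin 3 := if l.1 = 1 then 1 else 0

/-- the positive word of a list of letters -/
private def cjp (U : List (Fin 3)) : List (Fin 2 × Bool) := U.map fun c => (cjc c, true)

private theorem cjp_mk {U : List (Fin 3)} (hU : (2 : Fin 3) ∉ U) : fw U = FreeGroup.mk (cjp U) := by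
  induction U with
  | nil => rfl
  | cons c U ih =>
    have h1 := ih (fun hh => hU (List.mem_cons_of_mem _ hh))
    have h2 : fw (c :: U) = (![FreeGroup.of 0, FreeGroup.of 1, 1] : Fin 3 → FreeGroup (Fin 2)) c * fw U :=
      fval_cons 1 c U
    have h3 : cjp (c :: U) = [(cjc c, true)] ++ cjp U := rfl
    rw [h2, h1, h3, ← FreeGroup.mul_mk]
    congr 1
    fin_cases c
    · rfl
    · rfl
    · exact absurd List.mem_cons_self hU

private theorem cjp_back {U : List (Fin 3)} (hU : (2 : Fin 3) ∉ U) : (cjp U).map cjb = U := by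
  induction U with
  | nil => rfl
  | cons c U ih =>
    have h1 := ih (fun hh => hU (List.mem_cons_of_mem _ hh))
    have h3 : (cjp (c :: U)).map cjb = cjb (cjc c, true) :: (cjp U).map cjb := rfl
    rw [h3, h1]
    congr 1
    fin_cases c
    · rfl
    · rfl
    · exact absurd List.mem_cons_self hU

private theorem cjp_inj {U V : List (Fin 3)} (hU : (2 : Fin 3) ∉ U) (hV : (2 : Fin 3) ∉ V) (h : cjp U = cjp V) :
    U = V := by
  rw [← cjp_back hU, ← cjp_back hV, h]

private theorem cjp_append (U V : List (Fin 3)) : cjp (U ++ V) = cjp U ++ cjp V := List.map_append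

private theorem cjp_true {U : List (Fin 3)} {l : Fin 2 × Bool} (h : l ∈ cjp U) : l.2 = true := by
  obtain ⟨c, _, rfl⟩ := List.mem_map.1 h
  rfl

private theorem cj_mem_invRev {β : Type} {L : List (β × Bool)} {l : β × Bool} :
    l ∈ FreeGroup.invRev L ↔ (l.1, !l.2) ∈ L := by
  unfold FreeGroup.invRev
  rw [List.mem_reverse, List.mem_map]
  constructor
  · rintro ⟨a, ha, rfl⟩
    simpa using ha
  · intro h
    exact ⟨_, h, by simp⟩

private theorem cj_false {U : List (Fin 3)} {l : Fin 2 × Bool} (h : l ∈ FreeGroup.invRev (cjp U)) : l.2 = false := by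
  have h1 := cjp_true (cj_mem_invRev.1 h)
  simpa using h1

private theorem cj_const_red {β : Type} {b : Bool} (L : List (β × Bool)) (h : ∀ l ∈ L, l.2 = b) :
    FreeGroup.IsReduced L := by
  induction L with
  | nil => exact FreeGroup.IsReduced.nil
  | cons a L ih =>
    cases L with
    | nil => exact FreeGroup.IsReduced.singleton
    | cons c L =>
      refine FreeGroup.isReduced_cons_cons.2 ⟨fun _ => ?_, ih fun l hl => h l (List.mem_cons_of_mem _ hl)⟩
      rw [h a List.mem_cons_self, h c (List.mem_cons_of_mem _ List.mem_cons_self)]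

private theorem cjp_cyc (U : List (Fin 3)) : FreeGroup.IsCyclicallyReduced (cjp U) := by
  refine ⟨cj_const_red (cjp U) (b := true) fun l hl => cjp_true hl, fun a ha b hb _ => ?_⟩
  rw [cjp_true (List.mem_of_getLast? ha), cjp_true (List.mem_of_head? hb)]

/-- two splittings of a word by sign agree -/
private theorem cj_split {β : Type} {b : Bool} {P Q P' Q' : List (β × Bool)} (hP : ∀ l ∈ P, l.2 = b)
    (hQ : ∀ l ∈ Q, l.2 = !b) (hP' : ∀ l ∈ P', l.2 = b) (hQ' : ∀ l ∈ Q', l.2 = !b) (h : P ++ Q = P' ++ Q') :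
    P = P' ∧ Q = Q' := by
  have f1 : ∀ L : List (β × Bool), (∀ l ∈ L, l.2 = b) → L.filter (fun l => l.2 == b) = L := by
    intro L hL
    rw [List.filter_eq_self]
    intro l hl
    rw [hL l hl]
    exact beq_self_eq_true b
  have f2 : ∀ L : List (β × Bool), (∀ l ∈ L, l.2 = !b) → L.filter (fun l => l.2 == b) = [] := by
    intro L hL
    rw [List.filter_eq_nil_iff]
    intro l hl
    rw [hL l hl]
    cases b <;> decide
  have h1 : (P ++ Q).filter (fun l => l.2 == b) = (P' ++ Q').filter (fun l => l.2 == b) := by rw [h]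
  rw [List.filter_append, List.filter_append, f1 P hP, f2 Q hQ, f1 P' hP', f2 Q' hQ', List.append_nil,
    List.append_nil] at h1
  subst h1
  exact ⟨rfl, List.append_cancel_left h⟩

/-- a word sorted by sign: letters before a letter of sign `b` have sign `b` -/
private theorem cj_before {β : Type} {b : Bool} {P Q R S T : List (β × Bool)} (hP : ∀ l ∈ P, l.2 = b)
    (hQ : ∀ l ∈ Q, l.2 = !b) (hS : S ≠ []) (hSb : ∀ l ∈ S, l.2 = b) (h : P ++ Q = R ++ S ++ T) :
    ∀ l ∈ R, l.2 = b := by
  have hp : (P ++ Q).Pairwise fun x y => y.2 = b → x.2 = b := by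
    rw [List.pairwise_append]
    refine ⟨?_, ?_, ?_⟩
    · exact List.pairwise_of_forall_mem_list fun x hx y _ _ => hP x hx
    · refine List.pairwise_of_forall_mem_list fun x _ y hy hyb => ?_
      rw [hQ y hy] at hyb
      cases b <;> exact absurd hyb (by decide)
    · exact fun x hx y _ _ => hP x hx
  rw [h, List.append_assoc, List.pairwise_append] at hp
  intro l hl
  obtain ⟨s, S', rfl⟩ := List.exists_cons_of_ne_nil hS
  exact hp.2.2 l hl s (List.mem_append_left _ List.mem_cons_self) (hSb s List.mem_cons_self)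

/-- letters after a letter of the second sign have that sign -/
private theorem cj_after {β : Type} {b : Bool} {P Q R S T : List (β × Bool)} (hP : ∀ l ∈ P, l.2 = !b)
    (hQ : ∀ l ∈ Q, l.2 = b) (hS : S ≠ []) (hSb : ∀ l ∈ S, l.2 = b) (h : P ++ Q = R ++ S ++ T) :
    ∀ l ∈ T, l.2 = b := by
  have hp : (P ++ Q).Pairwise fun x y => x.2 = b → y.2 = b := by
    rw [List.pairwise_append]
    refine ⟨?_, ?_, ?_⟩
    · refine List.pairwise_of_forall_mem_list fun x hx y _ hxb => ?_
      rw [hP x hx] at hxb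
      cases b <;> exact absurd hxb (by decide)
    · exact List.pairwise_of_forall_mem_list fun x _ y hy _ => hQ y hy
    · exact fun x _ y hy _ => hQ y hy
  rw [h, List.pairwise_append] at hp
  intro l hl
  obtain ⟨s, S', rfl⟩ := List.exists_cons_of_ne_nil hS
  exact hp.2.2 s (List.mem_append_right _ List.mem_cons_self) l hl (hSb s List.mem_cons_self)

private theorem cj_inv_sign {β : Type} {b : Bool} {L : List (β × Bool)} (h : ∀ l ∈ L, l.2 = b) :
    ∀ l ∈ FreeGroup.invRev L, l.2 = !b := by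
  intro l hl
  have h1 := h _ (cj_mem_invRev.1 hl)
  rw [← h1]
  simp

private theorem cj_eq_map {X Y : List (Fin 2 × Bool)} {U : List (Fin 3)} (h : cjp U = X ++ Y) :
    ∃ X' Y', U = X' ++ Y' ∧ cjp X' = X ∧ cjp Y' = Y := by
  obtain ⟨X', Y', h1, h2, h3⟩ := List.map_eq_append_iff.1 h
  exact ⟨X', Y', h1, h2, h3⟩

private theorem cj_getLast {B : List (Fin 3)} {a : Fin 2 × Bool} (h : a ∈ (cjp B).getLast?) :
    ∃ B' c, B = B' ++ [c] ∧ a = (cjc c, true) := by
  rcases List.eq_nil_or_concat B with rfl | ⟨B', c, rfl⟩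
  · cases h
  · refine ⟨B', c, List.concat_eq_append, ?_⟩
    rw [List.concat_eq_append, cjp_append] at h
    have h2 : cjp [c] = [(cjc c, true)] := rfl
    rw [h2, List.getLast?_append, List.getLast?_singleton, Option.some_or, Option.mem_some] at h
    exact h.symm

private theorem cj_head {B : List (Fin 3)} {a : Fin 2 × Bool} (h : a ∈ (cjp B).head?) :
    ∃ B' c, B = c :: B' ∧ a = (cjc c, true) := by
  cases B with
  | nil => cases h
  | cons c B' =>
    refine ⟨B', c, rfl, ?_⟩
    have h2 : cjp (c :: B') = (cjc c, true) :: cjp B' := rfl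
    rw [h2, List.head?_cons, Option.mem_some] at h
    exact h.symm

private theorem cjc_inj {c d : Fin 3} (hc : c ≠ 2) (hd : d ≠ 2) (h : cjc c = cjc d) : c = d := by
  fin_cases c <;> fin_cases d <;> first | rfl | exact absurd rfl hc | exact absurd rfl hd | exact absurd h (by decide)

/-- As `cj_right3`: `invRev (pos C0) ++ pos A0` is cyclically reduced (`hf0`, `hl0`); `pos D ++ invRev (pos B) = invRev v ++ w' ++ v`, `w'` a rotation of it; positive letters
come first, so `w' = pos A0 ++ invRev (pos C0)` (a rotation which splits one of the two blocks has a negative letter before a positive one), `v` is negative, `invRev v = pos μ`. -/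
theorem cj_rightG {A0 C0 B D : List (Fin 3)} (hA0 : (2 : Fin 3) ∉ A0) (hC0 : (2 : Fin 3) ∉ C0) (hB : (2 : Fin 3) ∉ B)
    (hD : (2 : Fin 3) ∉ D) (nA : A0 ≠ []) (nC : C0 ≠ [])
    (hf0 : ∀ (c : Fin 3) (A' C' : List (Fin 3)), ¬ (A0 = c :: A' ∧ C0 = c :: C'))
    (hl0 : ∀ (c : Fin 3) (A' C' : List (Fin 3)), ¬ (A0 = A' ++ [c] ∧ C0 = C' ++ [c]))
    (hl : ∀ (c : Fin 3) (B' D' : List (Fin 3)), ¬ (B = B' ++ [c] ∧ D = D' ++ [c]))
    (h : IsConj ((fw C0)⁻¹ * fw A0) (fw D * (fw B)⁻¹)) :
    ∃ μ : List (Fin 3), D = μ ++ A0 ∧ B = μ ++ C0 := by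
  obtain ⟨N, hN⟩ : ∃ N, N = FreeGroup.invRev (cjp C0) := ⟨_, rfl⟩
  obtain ⟨P, hP⟩ : ∃ P, P = cjp A0 := ⟨_, rfl⟩
  have hNf : ∀ l ∈ N, l.2 = false := fun l hl => cj_false (hN ▸ hl)
  have hPt : ∀ l ∈ P, l.2 = true := fun l hl => cjp_true (hP ▸ hl)
  have hP0 : P ≠ [] := fun e => nA (List.map_eq_nil_iff.1 (hP ▸ e))
  have hN0 : N ≠ [] := by
    intro e
    apply nC
    have e1 : FreeGroup.invRev N = [] := by rw [e]; rfl
    rw [hN, FreeGroup.invRev_invRev] at e1
    exact List.map_eq_nil_iff.1 e1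
  have hNlast : ∀ a ∈ N.getLast?, ∃ c C', C0 = c :: C' ∧ (a.1, !a.2) = (cjc c, true) := by
    intro a ha
    have ha' : (a.1, !a.2) ∈ (cjp C0).head? := by
      have e1 : FreeGroup.invRev (cjp C0) = ((cjp C0).map fun g : Fin 2 × Bool => (g.1, !g.2)).reverse := rfl
      rw [hN, e1, List.getLast?_reverse, List.head?_map, Option.mem_def, Option.map_eq_some_iff] at ha
      obtain ⟨g, hg, rfl⟩ := ha
      rw [Option.mem_def, hg]
      simp
    obtain ⟨C', c', hC', hc'⟩ := cj_head ha'
    exact ⟨c', C', hC', hc'⟩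
  have hNhead : ∀ a ∈ N.head?, ∃ c C', C0 = C' ++ [c] ∧ (a.1, !a.2) = (cjc c, true) := by
    intro a ha
    have ha' : (a.1, !a.2) ∈ (cjp C0).getLast? := by
      have e1 : FreeGroup.invRev (cjp C0) = ((cjp C0).map fun g : Fin 2 × Bool => (g.1, !g.2)).reverse := rfl
      rw [hN, e1, List.head?_reverse, List.getLast?_map, Option.mem_def, Option.map_eq_some_iff] at ha
      obtain ⟨g, hg, rfl⟩ := ha
      rw [Option.mem_def, hg]
      simp
    obtain ⟨C', c', hC', hc'⟩ := cj_getLast ha'
    exact ⟨c', C', hC', hc'⟩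
  have hNP : FreeGroup.IsReduced (N ++ P) := by
    unfold FreeGroup.IsReduced
    rw [List.isChain_append]
    refine ⟨cj_const_red N (b := false) hNf, cj_const_red P (b := true) hPt, ?_⟩
    intro a ha b hb hab
    exfalso
    rw [hP] at hb
    obtain ⟨A', c, hA', rfl⟩ := cj_head hb
    obtain ⟨c', C', hC', hc'⟩ := hNlast a ha
    have e2 : cjc c' = cjc c := by
      have := congrArg Prod.fst hc'
      exact this.symm.trans hab
    have e3 : c' = c := cjc_inj (fun e => hC0 (by rw [hC', e]; simp)) (fun e => hA0 (by rw [hA', e]; simp)) e2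
    exact hf0 c A' C' ⟨hA', by rw [hC', e3]⟩
  have hcyc : FreeGroup.IsCyclicallyReduced (N ++ P) := by
    refine ⟨hNP, fun a ha b hb hab => ?_⟩
    exfalso
    rw [List.getLast?_append_of_ne_nil N hP0, hP] at ha
    rw [List.head?_append_of_ne_nil N hN0] at hb
    obtain ⟨A', c, hA', rfl⟩ := cj_getLast ha
    obtain ⟨c', C', hC', hc'⟩ := hNhead b hb
    have e2 : cjc c = cjc c' := by
      have := congrArg Prod.fst hc'
      exact hab.trans this
    have e3 : c = c' := cjc_inj (fun e => hA0 (by rw [hA', e]; simp)) (fun e => hC0 (by rw [hC', e]; simp)) e2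
    exact hl0 c A' C' ⟨hA', by rw [hC', e3]⟩
  have hu0 : N ++ P ≠ [] := fun e => hP0 (List.append_eq_nil_iff.1 e).2
  have hmk : (fw C0)⁻¹ * fw A0 = FreeGroup.mk (N ++ P) := by
    rw [cjp_mk hC0, cjp_mk hA0, FreeGroup.inv_mk, FreeGroup.mul_mk, hN, hP]
  rw [hmk] at h
  obtain ⟨X, Y, v, h1, h2⟩ := cr hcyc hu0 h
  have hred : FreeGroup.IsReduced (cjp D ++ FreeGroup.invRev (cjp B)) := by
    unfold FreeGroup.IsReduced
    rw [List.isChain_append]
    refine ⟨cj_const_red (cjp D) (b := true) fun l hl => cjp_true hl,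
      cj_const_red (FreeGroup.invRev (cjp B)) (b := false) fun l hl => cj_false hl, ?_⟩
    intro a ha b hb hab
    exfalso
    obtain ⟨D', c, hD', rfl⟩ := cj_getLast ha
    have hb' : (b.1, !b.2) ∈ (cjp B).getLast? := by
      have e1 : FreeGroup.invRev (cjp B) = ((cjp B).map fun g : Fin 2 × Bool => (g.1, !g.2)).reverse := rfl
      rw [e1, List.head?_reverse, List.getLast?_map, Option.mem_def, Option.map_eq_some_iff] at hb
      obtain ⟨g, hg, rfl⟩ := hb
      rw [Option.mem_def, hg]
      simp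
    obtain ⟨B', c', hB', hc'⟩ := cj_getLast hb'
    have e2 : cjc c = cjc c' := by
      have := congrArg Prod.fst hc'
      exact hab.trans this
    have e3 : c = c' := cjc_inj (fun e => hD (by rw [hD', e]; simp)) (fun e => hB (by rw [hB', e]; simp)) e2
    exact hl c B' D' ⟨by rw [hB', e3], hD'⟩
  have h3 : (fw D * (fw B)⁻¹).toWord = cjp D ++ FreeGroup.invRev (cjp B) := by
    rw [cjp_mk hD, cjp_mk hB, FreeGroup.inv_mk, FreeGroup.mul_mk, FreeGroup.toWord_mk, hred.reduce_eq]
  rw [h3] at h2
  have hDt : ∀ l ∈ cjp D, l.2 = true := fun l hl => cjp_true hl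
  have hBf : ∀ l ∈ FreeGroup.invRev (cjp B), l.2 = false := fun l hl => cj_false hl
  -- the rotation is the one which exchanges the two blocks
  have hXY : X = N ∧ Y = P := by
    rcases List.append_eq_append_iff.1 h1 with ⟨Z, hZ1, hZ2⟩ | ⟨Z, hZ1, hZ2⟩
    · -- `X = N ++ Z`, `P = Z ++ Y`
      have hZ : Z = [] := by
        by_contra hne
        have h4 : cjp D ++ FreeGroup.invRev (cjp B) = (FreeGroup.invRev v ++ Y ++ N) ++ Z ++ v := by
          rw [h2, hZ1]; simp only [List.append_assoc]
        have h5 := cj_before (b := true) hDt hBf hne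
          (fun l hl => hPt l (by rw [hZ2]; exact List.mem_append_left _ hl)) h4
        obtain ⟨a, N', rfl⟩ := List.exists_cons_of_ne_nil hN0
        have h6 := h5 a (List.mem_append_right _ List.mem_cons_self)
        have h7 := hNf a List.mem_cons_self
        rw [h6] at h7
        exact absurd h7 (by decide)
      subst hZ
      exact ⟨by rw [hZ1, List.append_nil], by rw [hZ2, List.nil_append]⟩
    · -- `N = X ++ Z`, `Y = Z ++ P`
      have hZ : Z = [] := by
        by_contra hne
        have h4 : cjp D ++ FreeGroup.invRev (cjp B) = (FreeGroup.invRev v ++ Z) ++ P ++ (X ++ v) := by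
          rw [h2, hZ2]; simp only [List.append_assoc]
        have h5 := cj_before (b := true) hDt hBf hP0 hPt h4
        obtain ⟨a, Z', rfl⟩ := List.exists_cons_of_ne_nil hne
        have h6 := h5 a (List.mem_append_right _ List.mem_cons_self)
        have h7 := hNf a (by rw [hZ1]; exact List.mem_append_right _ List.mem_cons_self)
        rw [h6] at h7
        exact absurd h7 (by decide)
      subst hZ
      exact ⟨by rw [hZ1, List.append_nil], by rw [hZ2, List.nil_append]⟩
  obtain ⟨rfl, rfl⟩ := hXY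
  have h4 : cjp D ++ FreeGroup.invRev (cjp B) = FreeGroup.invRev v ++ Y ++ (X ++ v) := by
    rw [h2]; simp only [List.append_assoc]
  have hvt : ∀ l ∈ FreeGroup.invRev v, l.2 = true := cj_before (b := true) hDt hBf hP0 hPt h4
  have hvf : ∀ l ∈ v, l.2 = false := by
    have := cj_inv_sign hvt
    rwa [FreeGroup.invRev_invRev] at this
  obtain ⟨h5, h6⟩ := cj_split (b := true) hDt hBf
    (fun l hl => (List.mem_append.1 hl).elim (hvt l) (hPt l))
    (fun l hl => (List.mem_append.1 hl).elim (hNf l) (hvf l)) h4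
  obtain ⟨μ, A', h7, h8, h9⟩ := cj_eq_map h5
  have hA'2 : (2 : Fin 3) ∉ A' := fun hh => hD (by rw [h7]; exact List.mem_append_right _ hh)
  have hμ2 : (2 : Fin 3) ∉ μ := fun hh => hD (by rw [h7]; exact List.mem_append_left _ hh)
  have hA'A : A' = A0 := cjp_inj hA'2 hA0 (by rw [h9, hP])
  refine ⟨μ, by rw [h7, hA'A], ?_⟩
  apply cjp_inj hB ?_ ?_
  · simp only [List.mem_append, not_or]
    exact ⟨hμ2, hC0⟩
  · rw [cjp_append, h8]
    have h10 := congrArg FreeGroup.invRev h6
    rw [FreeGroup.invRev_invRev, FreeGroup.invRev_append, hN, FreeGroup.invRev_invRev] at h10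
    exact h10

end Pool.Agent.H70.WE
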