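import Pool.Agent.H70.WB.RotC

/-!
# [H70 WB RotD] Rotations of two primitive words

`rot_symm`, `rot_trans`: e.g. through `List.rotate` / `List.IsRotated`. `conj_rot`: `A z = z D` implies that `D` is a rotation of `A` (induction on
`|z|`: if `|z| ≥ |A|`, `A ≠ []`, `z = A z'`, cancel; otherwise `A = z s`, `D = s z`). `rot_card2`: the sets `S, S'` of `rot_card` for `W`
and `W'`, and the images under `V ↦ pow V |W'|` and `V ↦ pow V |W|`: all these words have length `|W| |W'|`; a power of a rotation is a rotation of the power;
two of them which are equal have roots which commute (`rel_comm` in WE/Wd.lean), so the primitive roots are equal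
(`comm_pow`; a rotation of a primitive word is primitive); equal roots from the two sets would give `Rot W W'`.
-/

set_option autoImplicit false

namespace Pool.Agent.H70.WE

private theorem rd_pow_succ {β : Type} (w : List β) (n : ℕ) : pow w (n + 1) = w ++ pow w n := by
  rw [Nat.add_comm, pow_add']
  congr 1
  simp [pow]

private theorem rd_pow_move {β : Type} (X Y : List β) : ∀ n : ℕ, pow (X ++ Y) n ++ X = X ++ pow (Y ++ X) n := by
  intro n
  induction n with
  | zero => simp [pow]
  | succ n ih =>
    rw [rd_pow_succ, rd_pow_succ, List.append_assoc, ih]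
    simp only [List.append_assoc]

private theorem rd_prim {β : Type} {W V : List β} (hW : Prim W) (h : Rot W V) : Prim V := by
  obtain ⟨X, Y, hW1, hV⟩ := h
  intro w m hm hVw
  obtain ⟨w', hw', _⟩ := conj_pow' (s := Y) (t := X) (hV.symm.trans hVw)
  exact hW w' m hm (hW1.trans hw')

private theorem rd_ne {β : Type} {W : List β} (hW : Prim W) : 1 ≤ W.length := by
  rcases Nat.eq_zero_or_pos W.length with h | h
  · have h1 : W = [] := List.length_eq_zero_iff.mp h
    exact (hW [] 2 le_rfl (by rw [h1, pow_nil])).elim
  · exact h

private theorem rd_inj {β : Type} {n : ℕ} (hn : 1 ≤ n) {V V' : List β} (hl : V.length = V'.length)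
    (h : pow V n = pow V' n) : V = V' := by
  obtain ⟨k, rfl⟩ : ∃ k, n = k + 1 := ⟨n - 1, by omega⟩
  rw [rd_pow_succ, rd_pow_succ] at h
  exact (List.append_inj h hl).1

private theorem rd_len {β : Type} {W V : List β} (h : Rot W V) : V.length = W.length := by
  obtain ⟨X, Y, rfl, rfl⟩ := h
  rw [List.length_append, List.length_append, Nat.add_comm]

theorem rot_symm {β : Type} {W V : List β} (h : Rot W V) : Rot V W := by
  obtain ⟨X, Y, h1, h2⟩ := h
  exact ⟨Y, X, h2, h1⟩

theorem rot_trans {β : Type} {W V V' : List β} (h : Rot W V) (h' : Rot V V') : Rot W V' := by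
  obtain ⟨X, Y, rfl, rfl⟩ := h
  obtain ⟨X', Y', h1, rfl⟩ := h'
  rcases List.append_eq_append_iff.mp h1 with ⟨a, h2, h3⟩ | ⟨a, h2, h3⟩
  · exact ⟨a, Y' ++ Y, by rw [h3, List.append_assoc], by rw [h2, List.append_assoc]⟩
  · exact ⟨X ++ X', a, by rw [h2, List.append_assoc], by rw [h3, List.append_assoc]⟩

private theorem rd_conj {β : Type} : ∀ (N : ℕ) (A z D : List β), z.length ≤ N → A ++ z = z ++ D → Rot A D := by
  intro N
  induction N with
  | zero =>
    intro A z D hN h
    have hz : z = [] := List.length_eq_zero_iff.mp (by omega)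
    rw [hz, List.append_nil, List.nil_append] at h
    exact ⟨A, [], by rw [List.append_nil], by rw [h, List.nil_append]⟩
  | succ N ih =>
    intro A z D hN h
    rcases List.append_eq_append_iff.mp h with ⟨a, h2, h3⟩ | ⟨a, h2, h3⟩
    · by_cases hA : A = []
      · have hD : D = [] := by
          rw [hA, List.nil_append] at h
          have h4 := congrArg List.length h
          rw [List.length_append] at h4
          exact List.length_eq_zero_iff.mp (by omega)
        exact ⟨[], [], by rw [hA, List.append_nil], by rw [hD, List.append_nil]⟩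
      · have hA1 : 1 ≤ A.length := List.length_pos_iff.mpr hA
        refine ih A a D ?_ (h2.symm.trans h3)
        have h4 := congrArg List.length h2
        rw [List.length_append] at h4
        omega
    · exact ⟨z, a, h2, h3⟩

theorem conj_rot {β : Type} {A z D : List β} (h : A ++ z = z ++ D) : Rot A D :=
  rd_conj z.length A z D le_rfl h

private theorem rd_rot_pow {β : Type} {W V : List β} (h : Rot W V) (n : ℕ) : Rot (pow W n) (pow V n) := by
  obtain ⟨X, Y, rfl, rfl⟩ := h
  exact conj_rot (rd_pow_move X Y n)

private theorem rd_prim_pow {β : Type} {V w : List β} {i : ℕ} (hV : Prim V) (h : V = pow w i) : V = w := by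
  have hi : i = 1 := by
    rcases Nat.lt_or_ge i 2 with h1 | h1
    · rcases Nat.lt_or_ge i 1 with h2 | h2
      · have h3 : i = 0 := by omega
        rw [h3, pow_zero'] at h
        have h4 := rd_ne hV
        rw [h, List.length_nil] at h4
        omega
      · omega
    · exact (hV w i h1 h).elim
  rw [h, hi]
  simp [pow]

theorem rot_card2 {W W' : List Bool} (hW : Prim W) (hW' : Prim W') (hn : ¬ Rot W W') (c : Bool) :
    ∃ S : Finset (List Bool), S.card = W.count c + W'.count c ∧
    ∀ V ∈ S, V.length = W.length * W'.length ∧ (Rot (pow W W'.length) V ∨ Rot (pow W' W.length) V) ∧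
      ∃ V' : List Bool, V = c :: V' := by
  classical
  obtain ⟨S, hS, hS2⟩ := rot_card hW c
  obtain ⟨S', hS', hS2'⟩ := rot_card hW' c
  have hl := rd_ne hW
  have hl' := rd_ne hW'
  refine ⟨S.image (fun V => pow V W'.length) ∪ S'.image (fun V => pow V W.length), ?_, ?_⟩
  · rw [Finset.card_union_of_disjoint, Finset.card_image_of_injOn, Finset.card_image_of_injOn, hS, hS']
    · intro V hV V' hV' h
      exact rd_inj hl ((rd_len (hS2' V hV).1).trans (rd_len (hS2' V' hV').1).symm) h
    · intro V hV V' hV' h
      exact rd_inj hl' ((rd_len (hS2 V hV).1).trans (rd_len (hS2 V' hV').1).symm) h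
    · rw [Finset.disjoint_left]
      intro U hU hU'
      obtain ⟨V, hV, rfl⟩ := Finset.mem_image.mp hU
      obtain ⟨V', hV', h⟩ := Finset.mem_image.mp hU'
      have hr := (hS2 V hV).1
      have hr' := (hS2' V' hV').1
      have hc : V ++ V' = V' ++ V := by
        refine rel_comm V V' (List.replicate W'.length true) (List.replicate W.length false) ?_ ?_
        · intro h1
          obtain ⟨k, hk⟩ : ∃ k, W'.length = k + 1 := ⟨W'.length - 1, by omega⟩
          obtain ⟨j, hj⟩ : ∃ j, W.length = j + 1 := ⟨W.length - 1, by omega⟩
          rw [hk, hj, List.replicate_succ, List.replicate_succ] at h1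
          simp at h1
        · have e1 : ∀ n : ℕ, (List.replicate n true).flatMap (fun c => if c then V else V') = pow V n := by
            intro n
            simp [pow, List.flatMap]
          have e2 : ∀ n : ℕ, (List.replicate n false).flatMap (fun c => if c then V else V') = pow V' n := by
            intro n
            simp [pow, List.flatMap]
          rw [e1, e2]
          exact h.symm
      obtain ⟨w, a, b, ha, hb⟩ := comm_pow V V' hc
      have h1 : V = w := rd_prim_pow (rd_prim hW hr) ha
      have h2 : V' = w := rd_prim_pow (rd_prim hW' hr') hb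
      rw [h1] at hr
      rw [h2] at hr'
      exact hn (rot_trans hr (rot_symm hr'))
  · intro U hU
    rcases Finset.mem_union.mp hU with hU | hU
    · obtain ⟨V, hV, rfl⟩ := Finset.mem_image.mp hU
      obtain ⟨hr, V', hV'⟩ := hS2 V hV
      refine ⟨?_, Or.inl (rd_rot_pow hr _), ?_⟩
      · show (pow V W'.length).length = _
        rw [pow_length, rd_len hr, Nat.mul_comm]
      · obtain ⟨k, hk⟩ : ∃ k, W'.length = k + 1 := ⟨W'.length - 1, by omega⟩
        refine ⟨V' ++ pow V k, ?_⟩
        show pow V W'.length = _
        rw [hk, rd_pow_succ]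
        nth_rw 1 [hV']
        rfl
    · obtain ⟨V, hV, rfl⟩ := Finset.mem_image.mp hU
      obtain ⟨hr, V', hV'⟩ := hS2' V hV
      refine ⟨?_, Or.inr (rd_rot_pow hr _), ?_⟩
      · show (pow V W.length).length = _
        rw [pow_length, rd_len hr]
      · obtain ⟨k, hk⟩ : ∃ k, W.length = k + 1 := ⟨W.length - 1, by omega⟩
        refine ⟨V' ++ pow V k, ?_⟩
        show pow V W.length = _
        rw [hk, rd_pow_succ]
        nth_rw 1 [hV']
        rfl

end Pool.Agent.H70.WE
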