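import Pool.Agent.H70.WB.All
import Pool.Agent.H70.WB.Node2
import Pool.Agent.H70.WB.RotD

/-!
# [H70 WB Core2] Conjugate values of primitive words

`x, y` not commuting, `W, W'` primitive words in two letters, not conjugate, powers of whose values are conjugate: then
`W, W'` are the two letters.
-/

set_option autoImplicit false

namespace Pool.Agent.H70.WE

variable {α : Type}

theorem core2 {x y : List α} (h : x ++ y ≠ y ++ x)
    (hl : ∀ (u v : List α) (e f : α), x = u ++ [e] → y = v ++ [f] → e ≠ f)
    {W W' : List Bool} (hW : Prim W) (hW' : Prim W') (hn : ¬ Rot W W') {ρ ρ' : List α} {k k' : ℕ}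
    (hρ : ρ ≠ []) (hB : bval x y W = pow ρ k) (hB' : bval x y W' = pow ρ' k') (hρρ : Rot ρ ρ') :
    (W.count true + W'.count true - 1) * x.length + (W.count false + W'.count false - 1) * y.length + 1 ≤
      ρ.length := by
  classical
  obtain ⟨z, a, b, hab, hz1, hz2⟩ := lcp_lemma x y h
  obtain ⟨SR, hSR, hSRne, hSRl, hSRm⟩ := rot_fin hρ
  have hx : x ≠ [] := by
    rintro rfl
    simp at h
  have hy : y ≠ [] := by
    rintro rfl
    simp at h
  have hbp : ∀ (V : List Bool) (M : ℕ), bval x y (pow V M) = pow (bval x y V) M := by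
    intro V M
    induction M with
    | zero => rfl
    | succ M ih => rw [pow_add', pow_add', bval_append, ih, pow_one'', pow_one'']
  have hP : bval x y (pow W W'.length) = pow ρ (k * W'.length) := by
    rw [hbp, hB, pow_mul']
  have hP' : bval x y (pow W' W.length) = pow ρ' (k' * W.length) := by
    rw [hbp, hB', pow_mul']
  have hT : ∀ c : Bool, ∃ T : Finset (List Bool), W.count c + W'.count c ≤ T.card + 1 ∧
      ∀ t ∈ T, ∃ U V1 V2 : List Bool,
      t = c :: U ∧ (Rot (pow W W'.length) V1 ∨ Rot (pow W' W.length) V1) ∧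
      (Rot (pow W W'.length) V2 ∨ Rot (pow W' W.length) V2) ∧
      (c :: U) ++ [true] <+: V1 ∧ (c :: U) ++ [false] <+: V2 := by
    intro c
    obtain ⟨S, hS, hS2⟩ := rot_card2 hW hW' hn c
    obtain ⟨T, hT, hT2⟩ := trie_lower (W.length * W'.length) S (fun v hv => (hS2 v hv).1)
    refine ⟨T, by omega, fun t ht => ?_⟩
    obtain ⟨⟨v1, hv1, p1⟩, v2, hv2, p2⟩ := hT2 t ht
    obtain ⟨-, r1, w1, e1⟩ := hS2 v1 hv1
    obtain ⟨-, r2, w2, e2⟩ := hS2 v2 hv2
    cases t with
    | nil =>
      exfalso
      rw [e1] at p1
      rw [e2] at p2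
      rw [List.nil_append, List.cons_prefix_cons] at p1 p2
      have := p1.1.trans p2.1.symm
      simp at this
    | cons d U =>
      have hd : d = c := by
        rw [e1, List.cons_append, List.cons_prefix_cons] at p1
        exact p1.1
      subst hd
      exact ⟨U, v1, v2, rfl, r1, r2, p1, p2⟩
  choose T hTc hTn using hT
  set H : Bool → List α := fun c => if c then x else y with hH
  set f : Bool → List Bool × ℕ → List α := fun c p => (H c).drop p.2 ++ bval x y p.1.tail ++ z with hf
  set K : Bool → Finset (List α) := fun c => (T c ×ˢ Finset.range (H c).length).image (f c) with hK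
  have hinj : ∀ (c d : Bool) (p q : List Bool × ℕ), p ∈ T c ×ˢ Finset.range (H c).length →
      q ∈ T d ×ˢ Finset.range (H d).length → f c p = f d q → c = d ∧ p = q := by
    intro c d p q hp hq he
    obtain ⟨t, i⟩ := p
    obtain ⟨t', j⟩ := q
    rw [Finset.mem_product, Finset.mem_range] at hp hq
    obtain ⟨U, -, -, hU, -⟩ := hTn c t hp.1
    obtain ⟨U', -, -, hU', -⟩ := hTn d t' hq.1
    change (H c).drop i ++ bval x y t.tail ++ z = (H d).drop j ++ bval x y t'.tail ++ z at he
    have he' := List.append_cancel_right he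
    subst hU hU'
    have hi : i < (H c).length := hp.2
    have hj : j < (H d).length := hq.2
    have hs : (H c).drop i ≠ [] := by
      rw [Ne, List.drop_eq_nil_iff]
      omega
    have hs' : (H d).drop j ≠ [] := by
      rw [Ne, List.drop_eq_nil_iff]
      omega
    obtain ⟨k1, k2, k3⟩ := dec_inj hx hy hl hs hs' (List.drop_suffix i (H c)) (List.drop_suffix j (H d)) he'
    subst k2
    refine ⟨rfl, ?_⟩
    have h4 := congrArg List.length k1
    rw [List.length_drop, List.length_drop] at h4
    have h5 : i = j := by omega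
    have h6 : U = U' := k3
    rw [h5, h6]
  have hcard : ∀ c : Bool, (K c).card = (T c).card * (H c).length := by
    intro c
    rw [hK]
    show ((T c ×ˢ Finset.range (H c).length).image (f c)).card = _
    rw [Finset.card_image_of_injOn, Finset.card_product, Finset.card_range]
    intro p hp q hq he
    exact (hinj c c p q hp hq he).2
  have hdis : Disjoint (K true) (K false) := by
    rw [Finset.disjoint_left]
    intro w hw hw'
    obtain ⟨p, hp, e1⟩ := Finset.mem_image.1 hw
    obtain ⟨q, hq, e2⟩ := Finset.mem_image.1 hw'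
    have := (hinj true false p q hp hq (e1.trans e2.symm)).1
    simp at this
  have hbr : ∀ c : Bool, ∀ w ∈ K c, (∃ R ∈ SR, w ++ [a] <+: R) ∧ ∃ R ∈ SR, w ++ [b] <+: R := by
    intro c w hw
    obtain ⟨⟨t, i⟩, hp, e1⟩ := Finset.mem_image.1 hw
    rw [Finset.mem_product, Finset.mem_range] at hp
    obtain ⟨U, V1, V2, hU, r1, r2, p1, p2⟩ := hTn c t hp.1
    change (H c).drop i ++ bval x y t.tail ++ z = w at e1
    subst hU
    obtain ⟨⟨R1, hR1, q1⟩, R2, hR2, q2⟩ := node2 h hP hP' hρρ hab hz1 hz2 r1 r2 p1 p2 (List.drop_suffix i (H c))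
    rw [← e1]
    exact ⟨⟨R1, hSRm R1 hR1, q1⟩, R2, hSRm R2 hR2, q2⟩
  have hup := trie_upper ρ.length SR (K true ∪ K false) hSRl (fun w hw => by
    rcases Finset.mem_union.1 hw with hw | hw
    · exact ⟨a, b, hab, hbr true w hw⟩
    · exact ⟨a, b, hab, hbr false w hw⟩) hSRne
  rw [Finset.card_union_of_disjoint hdis, hcard, hcard] at hup
  have e1 : (W.count true + W'.count true - 1) * x.length ≤ (T true).card * (H true).length := by
    have : W.count true + W'.count true - 1 ≤ (T true).card := by
      have := hTc true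
      omega
    exact Nat.mul_le_mul_right _ this
  have e2 : (W.count false + W'.count false - 1) * y.length ≤ (T false).card * (H false).length := by
    have : W.count false + W'.count false - 1 ≤ (T false).card := by
      have := hTc false
      omega
    exact Nat.mul_le_mul_right _ this
  omega

theorem rot_refl {β : Type} (W : List β) : Rot W W := ⟨[], W, rfl, by simp⟩

theorem prim_ne {β : Type} {W : List β} (h : Prim W) : W ≠ [] := by
  rintro rfl
  exact h [] 2 le_rfl (pow_nil 2).symm

/-- a rotation of a primitive word is primitive -/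
theorem prim_rot {β : Type} {W V : List β} (hW : Prim W) (h : Rot W V) : Prim V := by
  intro w m hm he
  obtain ⟨X, Y, h1, h2⟩ := h
  rw [h2] at he
  obtain ⟨w1, w2, -, h3⟩ := rot_pow w m (by omega) _ Y X le_rfl he
  exact hW _ m hm (h1.trans h3)

/-- a primitive word without one of the letters is a letter -/
theorem prim_single {W : List Bool} (hW : Prim W) (h : W.count true = 0 ∨ W.count false = 0) :
    ∃ c : Bool, W = [c] := by
  have key : ∀ c : Bool, W.count c = 0 → ∃ c : Bool, W = [c] := by
    intro c hc
    have h1 : W = List.replicate W.length (!c) := by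
      rw [List.eq_replicate_iff]
      refine ⟨rfl, fun d hd => ?_⟩
      by_contra hne
      have h2 : d = c := by
        cases d <;> cases c <;> simp_all
      rw [h2] at hd
      exact List.count_eq_zero.1 hc hd
    have h2 : W = pow [!c] W.length := by
      conv_lhs => rw [h1]
      unfold pow
      rw [List.flatten_replicate_singleton]
    have h3 : 0 < W.length := List.length_pos_iff.2 (prim_ne hW)
    rcases Nat.lt_or_ge W.length 2 with h4 | h4
    · refine ⟨!c, ?_⟩
      have h5 : W.length = 1 := by omega
      rw [h1, h5]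
      rfl
    · exact absurd h2 (hW [!c] W.length h4)
  rcases h with h | h
  · exact key true h
  · exact key false h

/-- a root of a power of a primitive word is a power of it -/
theorem root_of_prim {u ρ : List α} (hρ : Prim ρ) {m N : ℕ} (hm : 1 ≤ m) (h : pow u m = pow ρ N) :
    ∃ k : ℕ, u = pow ρ k := by
  have hc : u ++ ρ = ρ ++ u := by
    have hf : ∀ (b : Bool) (M : ℕ), (List.replicate M b).flatMap (fun c => if c then u else ρ) =
        pow (if b then u else ρ) M := by
      intro b M
      induction M with
      | zero => rfl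
      | succ M ih =>
        rw [List.replicate_succ, List.flatMap_cons, ih, Nat.add_comm M 1, pow_add', pow_one'']
    refine rel_comm u ρ (List.replicate m true) (List.replicate N false) ?_ ?_
    · intro he
      obtain ⟨m', rfl⟩ : ∃ m', m = m' + 1 := ⟨m - 1, by omega⟩
      have h1 : true ∈ List.replicate N false := by
        rw [← he]
        simp
      rw [List.mem_replicate] at h1
      simp at h1
    · rw [hf, hf]
      simpa using h
  obtain ⟨w, i, j, hu, hr⟩ := comm_pow _ _ hc
  change u = pow w i at hu
  change ρ = pow w j at hr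
  have hj : j = 1 := by
    rcases Nat.lt_or_ge j 2 with h2 | h2
    · rcases Nat.eq_zero_or_pos j with h3 | h3
      · exfalso
        rw [h3, pow_zero'] at hr
        exact prim_ne hρ hr
      · omega
    · exact absurd hr (hρ w j h2)
  rw [hj, pow_one''] at hr
  exact ⟨i, by rw [hr]; exact hu⟩

theorem conj_code {x y z : List α} (h : x ++ y ≠ y ++ x) {W W' : List Bool} (hW : Prim W) (hW' : Prim W')
    {m m' : ℕ} (hm : 1 ≤ m) (hm' : 1 ≤ m') (he : pow (bval x y W) m ++ z = z ++ pow (bval x y W') m') :
    Rot W W' ∨ ∃ c d : Bool, c ≠ d ∧ W = [c] ∧ W' = [d] := by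
  by_contra hcon
  push Not at hcon
  obtain ⟨hn, hsing⟩ := hcon
  obtain ⟨σ, x', y', hx', hy', hne, hl⟩ := conj_last x y h
  -- conjugate the powers
  have hpc : ∀ (u v : List α) (M : ℕ), σ ++ u = v ++ σ → σ ++ pow u M = pow v M ++ σ := by
    intro u v M huv
    induction M with
    | zero => rw [pow_zero', pow_zero', List.append_nil, List.nil_append]
    | succ M ih =>
      rw [pow_add', pow_one'', pow_add' v, pow_one'', ← List.append_assoc, ih, List.append_assoc, huv,
        List.append_assoc]
  have r1 : Rot (pow (bval x' y' W) m) (pow (bval x y W) m) := by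
    have h1 := conj_bval hx' hy' W
    exact conj_rot (hpc _ _ m h1).symm
  have r2 : Rot (pow (bval x' y' W') m') (pow (bval x y W') m') := by
    have h1 := conj_bval hx' hy' W'
    exact conj_rot (hpc _ _ m' h1).symm
  have r3 : Rot (pow (bval x' y' W) m) (pow (bval x' y' W') m') :=
    rot_trans r1 (rot_trans (conj_rot he) (rot_symm r2))
  have hx'pos : 0 < x'.length := by
    rcases Nat.eq_zero_or_pos x'.length with h0 | h0
    · exfalso
      apply hne
      rw [List.eq_nil_of_length_eq_zero h0, List.nil_append, List.append_nil]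
    · exact h0
  have hy'pos : 0 < y'.length := by
    rcases Nat.eq_zero_or_pos y'.length with h0 | h0
    · exfalso
      apply hne
      rw [List.eq_nil_of_length_eq_zero h0, List.nil_append, List.append_nil]
    · exact h0
  have hbne : ∀ V : List Bool, V ≠ [] → bval x' y' V ≠ [] := by
    intro V hV h0
    obtain ⟨c, V', rfl⟩ := List.exists_cons_of_ne_nil hV
    rw [bval_cons] at h0
    have h1 := (List.append_eq_nil_iff.1 h0).1
    cases c
    · have : y' = [] := by simpa using h1
      rw [this] at hy'pos
      simp at hy'pos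
    · have : x' = [] := by simpa using h1
      rw [this] at hx'pos
      simp at hx'pos
  obtain ⟨ρ, k, hk, hρ, hρp⟩ := prim_root _ (bval x' y' W) le_rfl (hbne W (prim_ne hW))
  rw [hρ, ← pow_mul'] at r3
  obtain ⟨X, Y, hX, hY⟩ := r3
  obtain ⟨w1, w2, hw, h3⟩ := rot_pow ρ (k * m) (Nat.mul_pos hk hm) _ X Y le_rfl hX.symm
  have hρρ : Rot ρ (w2 ++ w1) := ⟨w1, w2, hw, rfl⟩
  have hρ'p : Prim (w2 ++ w1) := prim_rot hρp hρρ
  rw [← hY] at h3
  obtain ⟨k', hk'⟩ := root_of_prim hρ'p hm' h3
  have hk'pos : 1 ≤ k' := by
    rcases Nat.eq_zero_or_pos k' with h0 | h0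
    · exfalso
      rw [h0, pow_zero'] at hk'
      exact hbne W' (prim_ne hW') hk'
    · exact h0
  have hcore := core2 hne hl hW hW' hn (prim_ne hρp) hρ hk' hρρ
  have hl1 := congrArg List.length hρ
  have hl2 := congrArg List.length hk'
  rw [length_bval, pow_length] at hl1 hl2
  rw [rot_length hρρ] at hl2
  have e1 : ρ.length ≤ k * ρ.length := Nat.le_mul_of_pos_left _ hk
  have e2 : ρ.length ≤ k' * ρ.length := Nat.le_mul_of_pos_left _ hk'pos
  have key : (W.count true = 0 ∨ W.count false = 0) ∧ (W'.count true = 0 ∨ W'.count false = 0) := by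
    generalize W.count true = p at *
    generalize W.count false = q at *
    generalize W'.count true = p' at *
    generalize W'.count false = q' at *
    generalize x'.length = a at *
    generalize y'.length = b at *
    have main : 1 ≤ p + p' → 1 ≤ q + q' → ρ.length + p * a + q * b + 1 ≤ ρ.length + (a + b) ∧
        p' * a + q' * b + 1 ≤ a + b := by
      intro hp hq
      obtain ⟨P, hP⟩ : ∃ P, p + p' = P + 1 := ⟨p + p' - 1, by omega⟩
      obtain ⟨Q, hQ⟩ : ∃ Q, q + q' = Q + 1 := ⟨q + q' - 1, by omega⟩
      have k1 : p + p' - 1 = P := by omega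
      have k2 : q + q' - 1 = Q := by omega
      rw [k1, k2] at hcore
      have k3 : p * a + p' * a = P * a + a := by rw [← Nat.add_mul, hP, Nat.add_mul, Nat.one_mul]
      have k4 : q * b + q' * b = Q * b + b := by rw [← Nat.add_mul, hQ, Nat.add_mul, Nat.one_mul]
      constructor
      · omega
      · omega
    constructor
    · by_contra hc
      push Not at hc
      have h1 := (main (by omega) (by omega)).1
      have h2 : a ≤ p * a := Nat.le_mul_of_pos_left _ (Nat.pos_of_ne_zero hc.1)
      have h3 : b ≤ q * b := Nat.le_mul_of_pos_left _ (Nat.pos_of_ne_zero hc.2)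
      omega
    · by_contra hc
      push Not at hc
      have h1 := (main (by omega) (by omega)).2
      have h2 : a ≤ p' * a := Nat.le_mul_of_pos_left _ (Nat.pos_of_ne_zero hc.1)
      have h3 : b ≤ q' * b := Nat.le_mul_of_pos_left _ (Nat.pos_of_ne_zero hc.2)
      omega
  obtain ⟨c, hc⟩ := prim_single hW key.1
  obtain ⟨d, hd⟩ := prim_single hW' key.2
  by_cases hcd : c = d
  · apply hn
    rw [hc, hd, hcd]
    exact rot_refl _
  · exact hsing c d hcd hc hd

end Pool.Agent.H70.WE
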