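import Mathlib

/-!
# [H70 WB Cr] Conjugates of a cyclically reduced word
-/

set_option autoImplicit false

namespace Pool.Agent.H70.WE

open FreeGroup

private theorem cr_rot {β : Type} {w w' : List (β × Bool)} (h : w.IsRotated w') :
    ∃ X Y : List (β × Bool), w = X ++ Y ∧ w' = Y ++ X := by
  obtain ⟨n, hn, rfl⟩ := List.isRotated_iff_mod.1 h
  exact ⟨w.take n, w.drop n, (List.take_append_drop n w).symm, List.rotate_eq_drop_append_take hn⟩

private theorem cr_mid {β : Type} {A B C L : List (β × Bool)} (h : FreeGroup.IsReduced L)
    (e : A ++ B ++ C = L) : FreeGroup.IsReduced B := by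
  subst e
  have h1 : FreeGroup.IsReduced (A ++ B) := List.IsChain.left_of_append h
  exact List.IsChain.right_of_append h1

private theorem cr_red {β : Type} {w w' : List (β × Bool)} (hw : IsCyclicallyReduced w)
    (h : w.IsRotated w') : FreeGroup.IsReduced w' := by
  obtain ⟨X, Y, rfl, rfl⟩ := cr_rot h
  have h1 := (hw.flatten_replicate 2).isReduced
  refine cr_mid (A := X) (C := Y) h1 ?_
  simp [List.replicate_succ]

private theorem cr_inv {β : Type} (a : β × Bool) : mk [(a.1, !a.2)] = (mk [a])⁻¹ := by
  rw [inv_mk]
  rfl

private theorem cr_conj {β : Type} (v w' : List (β × Bool)) :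
    mk (invRev v ++ w' ++ v) = (mk v)⁻¹ * mk w' * mk v := by
  rw [← mul_mk, ← mul_mk, inv_mk]

private theorem cr_ind {β : Type} [DecidableEq β] {w : List (β × Bool)}
    (hw : IsCyclicallyReduced w) (hne : w ≠ []) (L : List (β × Bool)) :
    ∃ w' v : List (β × Bool), w.IsRotated w' ∧ FreeGroup.IsReduced (invRev v ++ w' ++ v) ∧
      (mk L)⁻¹ * mk w * mk L = mk (invRev v ++ w' ++ v) := by
  induction L using List.reverseRecOn with
  | nil =>
    refine ⟨w, [], List.IsRotated.refl w, ?_, ?_⟩
    · simpa [invRev] using hw.isReduced
    · rw [cr_conj]
  | append_singleton L a ih =>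
    obtain ⟨w', v, hr, hred, heq⟩ := ih
    have hg : (mk (L ++ [a]))⁻¹ * mk w * mk (L ++ [a]) =
        (mk [a])⁻¹ * ((mk v)⁻¹ * mk w' * mk v) * mk [a] := by
      have e1 : (mk v)⁻¹ * mk w' * mk v = (mk L)⁻¹ * mk w * mk L := by rw [heq, cr_conj]
      rw [e1, ← mul_mk]
      group
    rw [hg]
    have hw' : w' ≠ [] := by
      rintro rfl
      exact hne (List.isRotated_nil_iff.1 hr)
    rcases List.eq_nil_or_concat v with rfl | ⟨v', b, hv⟩
    · have hone : mk ([] : List (β × Bool)) = 1 := rfl
      rw [hone, inv_one, one_mul, mul_one]
      obtain ⟨w'', z, hz⟩ : ∃ w'' z, w' = w'' ++ [z] := by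
        rcases List.eq_nil_or_concat w' with h | ⟨w'', z, h⟩
        · exact absurd h hw'
        · exact ⟨w'', z, by rw [h, List.concat_eq_append]⟩
      by_cases hza : z = (a.1, !a.2)
      · have hrot : w.IsRotated (z :: w'') := by
          refine hr.trans ?_
          rw [hz]
          exact List.isRotated_append
        refine ⟨z :: w'', [], hrot, ?_, ?_⟩
        · simpa [invRev] using cr_red hw hrot
        · have e2 : z :: w'' = [z] ++ w'' := rfl
          rw [cr_conj, hone, inv_one, one_mul, mul_one, hz, e2, ← mul_mk, ← mul_mk, hza, cr_inv]
          group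
      · obtain ⟨f, w₃, hf⟩ := List.exists_cons_of_ne_nil hw'
        by_cases hfa : f = a
        · have hrot : w.IsRotated (w₃ ++ [f]) := by
            refine hr.trans ?_
            rw [hf, ← List.singleton_append]
            exact List.isRotated_append
          refine ⟨w₃ ++ [f], [], hrot, ?_, ?_⟩
          · simpa [invRev] using cr_red hw hrot
          · have e2 : f :: w₃ = [f] ++ w₃ := rfl
            rw [cr_conj, hone, inv_one, one_mul, mul_one, hf, e2, ← mul_mk, ← mul_mk, hfa]
            group
        · refine ⟨w', [a], hr, ?_, ?_⟩
          · have h1 : FreeGroup.IsReduced w' := cr_red hw hr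
            have h2 : invRev [a] = [(a.1, !a.2)] := rfl
            rw [h2]
            unfold FreeGroup.IsReduced at h1 ⊢
            rw [List.isChain_append, List.isChain_append]
            refine ⟨⟨by simp, h1, ?_⟩, by simp, ?_⟩
            · intro x hx y hy
              have hx' : x = (a.1, !a.2) := by simpa using hx.symm
              have hy' : y = f := by
                rw [hf] at hy
                simpa using hy.symm
              rw [hx', hy']
              intro h3
              by_contra h4
              apply hfa
              refine Prod.ext h3.symm ?_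
              revert h4
              cases f.2 <;> cases a.2 <;> simp
            · intro x hx y hy
              have hx' : x = z := by
                rw [hz, ← List.append_assoc, List.getLast?_append] at hx
                simpa using hx.symm
              have hy' : y = a := by simpa using hy.symm
              rw [hx', hy']
              intro h3
              by_contra h4
              apply hza
              refine Prod.ext h3 ?_
              revert h4
              cases z.2 <;> cases a.2 <;> simp
          · rw [cr_conj]
    · rw [List.concat_eq_append] at hv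
      subst hv
      by_cases hb : b = (a.1, !a.2)
      · refine ⟨w', v', hr, ?_, ?_⟩
        · refine cr_mid (A := [(b.1, !b.2)]) (C := [b]) hred ?_
          simp [invRev]
        · rw [cr_conj, ← mul_mk, hb, cr_inv]
          group
      · refine ⟨w', v' ++ [b] ++ [a], hr, ?_, ?_⟩
        · have h2 : invRev (v' ++ [b] ++ [a]) ++ w' ++ (v' ++ [b] ++ [a]) =
              [(a.1, !a.2)] ++ (invRev (v' ++ [b]) ++ w' ++ (v' ++ [b])) ++ [a] := by
            simp [invRev]
          rw [h2]
          obtain ⟨M, hM⟩ : ∃ M, M = invRev (v' ++ [b]) ++ w' ++ (v' ++ [b]) := ⟨_, rfl⟩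
          rw [← hM] at hred ⊢
          have hhead : M.head? = some (b.1, !b.2) := by
            rw [hM]
            simp [invRev]
          have hlast : ([(a.1, !a.2)] ++ M).getLast? = some b := by
            rw [hM, ← List.append_assoc, ← List.append_assoc, List.getLast?_append]
            simp
          unfold FreeGroup.IsReduced at hred ⊢
          rw [List.isChain_append, List.isChain_append]
          refine ⟨⟨by simp, hred, ?_⟩, by simp, ?_⟩
          · intro x hx y hy
            have hx' : x = (a.1, !a.2) := by simpa using hx.symm
            have hy' : y = (b.1, !b.2) := by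
              rw [hhead] at hy
              simpa using hy.symm
            rw [hx', hy']
            intro h3
            by_contra h4
            apply hb
            refine Prod.ext h3.symm ?_
            revert h4
            cases b.2 <;> cases a.2 <;> simp
          · intro x hx y hy
            have hx' : x = b := by
              rw [hlast] at hx
              simpa using hx.symm
            have hy' : y = a := by simpa using hy.symm
            rw [hx', hy']
            intro h3
            by_contra h4
            apply hb
            refine Prod.ext h3 ?_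
            revert h4
            cases b.2 <;> cases a.2 <;> simp
        · rw [cr_conj]
          simp only [← mul_mk]
          group

/-- A conjugate of a cyclically reduced word `w` is `v⁻¹ w' v`, reduced as written, with `w'` a rotation of `w`. Proof: choose `v` reduced with
`g = v⁻¹ w' v`, `w' = Y ++ X` a rotation of `w`, and `|v|` minimal (exists: `IsConj`, `X = []`). If `v = (c, b) :: v'` and the last letter of `w'` is `(c, !b)`,
then `w' = w'' ++ [(c, !b)]` and `g = v'⁻¹ ((c, !b) :: w'') v'`: shorter. If the first letter of `w'` is `(c, b)` (it cancels with the last letter of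
`v⁻¹`), `w' = (c, b) :: w''`, `g = v'⁻¹ (w'' ++ [(c, b)]) v'`: shorter. Rotations of cyclically reduced words are reduced. So
`invRev v ++ w' ++ v` is reduced (`w' ≠ []`), and it is `g.toWord`. -/
theorem cr {β : Type} [DecidableEq β] {w : List (β × Bool)} (hw : FreeGroup.IsCyclicallyReduced w) (hne : w ≠ [])
    {g : FreeGroup β} (h : IsConj (FreeGroup.mk w) g) : ∃ X Y v : List (β × Bool), w = X ++ Y ∧
      g.toWord = FreeGroup.invRev v ++ (Y ++ X) ++ v := by
  obtain ⟨c, hc⟩ := isConj_iff.1 h
  obtain ⟨w', v, hr, hred, heq⟩ := cr_ind hw hne (c⁻¹).toWord
  obtain ⟨X, Y, hX, hY⟩ := cr_rot hr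
  refine ⟨X, Y, v, hX, ?_⟩
  rw [← hY, ← hc]
  rw [mk_toWord, inv_inv] at heq
  rw [heq, toWord_mk, hred.reduce_eq]

end Pool.Agent.H70.WE
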