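import Pool.Agent.H70.WE.FGInj

/-!
# [H70 WB Cyc] Centralizers in free groups

`cyc_pair`: two commuting elements are powers of one element: the closure `H` of `{a, b}` is a free group (Nielsen-Schreier in Mathlib: `subgroupIsFreeOfIsFree`, as in
FGInj.lean) and commutative, so its set of free generators has at most one element (two different free generators do not commute: map to a non commutative group, or compare
`FreeGroup.of x * FreeGroup.of y` and `of y * of x` as reduced words), so `H` is cyclic.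
`comm_trans`: `P = s^i = t^k`, `a = s^j`, `b = t^l` by `cyc_pair`, `i, k ≠ 0`; if `s t ≠ t s` then `s, t` are free generators (`fg_inj`), but `s^i = t^k`: contradiction (for example
the homomorphism `FreeGroup (Fin 2) → Multiplicative ℤ` which counts the first generator). So `s t = t s` and `a b = b a`.
`cent_cyc`: the closure of `{P} ∪ {δ i}` is commutative by `comm_trans` (all these elements commute with `P ≠ 1`), and cyclic as in `cyc_pair` (do the Nielsen-Schreier part for a set of pairwise commuting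
elements).
-/

set_option autoImplicit false

namespace Pool.Agent.H70.WE

private theorem not_comm_of {X : Type} {x y : X} (h : x ≠ y) :
    FreeGroup.of x * FreeGroup.of y ≠ FreeGroup.of y * FreeGroup.of x := by
  classical
  intro h1
  have h2 := congrArg (FreeGroup.lift (fun z : X =>
    if z = x then (Equiv.swap (0 : Fin 3) 1 : Equiv.Perm (Fin 3)) else Equiv.swap (1 : Fin 3) 2)) h1
  rw [map_mul, map_mul, FreeGroup.lift_apply_of, FreeGroup.lift_apply_of, if_pos rfl, if_neg h.symm] at h2
  revert h2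
  decide

private theorem pow_of_sub {X : Type} [Subsingleton X] (r : FreeGroup X)
    (hr : ∀ x : X, FreeGroup.of x = r) (v : FreeGroup X) : ∃ n : ℤ, v = r ^ n := by
  induction v using FreeGroup.induction_on with
  | C1 => exact ⟨0, by rw [zpow_zero]⟩
  | of x => exact ⟨1, by rw [zpow_one, hr x]⟩
  | inv_of x h => exact ⟨-1, by rw [zpow_neg_one, hr x]⟩
  | mul v w hv hw =>
    obtain ⟨m, hm⟩ := hv
    obtain ⟨n, hn⟩ := hw
    exact ⟨m + n, by rw [zpow_add, ← hm, ← hn]⟩

private theorem comm_sub {α : Type} (H : Subgroup (FreeGroup α))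
    (hH : ∀ x ∈ H, ∀ y ∈ H, x * y = y * x) : ∃ ρ : FreeGroup α, ∀ x ∈ H, ∃ n : ℤ, x = ρ ^ n := by
  classical
  let e := IsFreeGroup.toFreeGroup (G := H)
  have hs : Subsingleton (IsFreeGroup.Generators H) := by
    refine ⟨fun x y => ?_⟩
    by_contra hne
    apply not_comm_of hne
    have h1 : e.symm (FreeGroup.of x) * e.symm (FreeGroup.of y) =
        e.symm (FreeGroup.of y) * e.symm (FreeGroup.of x) :=
      Subtype.ext (hH _ (e.symm (FreeGroup.of x)).2 _ (e.symm (FreeGroup.of y)).2)
    rw [← map_mul, ← map_mul] at h1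
    exact e.symm.injective h1
  obtain ⟨r, hr⟩ : ∃ r : FreeGroup (IsFreeGroup.Generators H),
      ∀ x : IsFreeGroup.Generators H, FreeGroup.of x = r := by
    rcases isEmpty_or_nonempty (IsFreeGroup.Generators H) with h | ⟨⟨x⟩⟩
    · exact ⟨1, fun x => (h.false x).elim⟩
    · exact ⟨FreeGroup.of x, fun y => by rw [Subsingleton.elim y x]⟩
  refine ⟨(e.symm r : H), fun x hx => ?_⟩
  obtain ⟨n, hn⟩ := pow_of_sub r hr (e ⟨x, hx⟩)
  refine ⟨n, ?_⟩
  have h2 : (⟨x, hx⟩ : H) = (e.symm r) ^ n := by
    rw [← map_zpow, ← hn, MulEquiv.symm_apply_apply]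
  have h3 := congrArg Subtype.val h2
  rw [Subgroup.coe_zpow] at h3
  exact h3

theorem cyc_pair {α : Type} (a b : FreeGroup α) (h : a * b = b * a) :
    ∃ (ρ : FreeGroup α) (m n : ℤ), a = ρ ^ m ∧ b = ρ ^ n := by
  have h0 : Subgroup.closure ({a, b} : Set (FreeGroup α)) ≤ Subgroup.centralizer ({a, b} : Set (FreeGroup α)) := by
    rw [Subgroup.closure_le]
    intro x hx
    rw [SetLike.mem_coe, Subgroup.mem_centralizer_iff]
    intro y hy
    rcases hx with rfl | hx <;> rcases hy with rfl | hy
    · rfl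
    · rw [Set.mem_singleton_iff] at hy
      rw [hy]
      exact h.symm
    · rw [Set.mem_singleton_iff] at hx
      rw [hx]
      exact h
    · rw [Set.mem_singleton_iff] at hx hy
      rw [hx, hy]
  obtain ⟨ρ, hρ⟩ := comm_sub (Subgroup.closure ({a, b} : Set (FreeGroup α))) (by
    intro x hx y hy
    have h1 := Subgroup.closure_le_centralizer_centralizer _ hy
    rw [Subgroup.mem_centralizer_iff] at h1
    exact h1 x (h0 hx))
  obtain ⟨m, hm⟩ := hρ a (Subgroup.subset_closure (Set.mem_insert _ _))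
  obtain ⟨n, hn⟩ := hρ b (Subgroup.subset_closure (Set.mem_insert_of_mem _ rfl))
  exact ⟨ρ, m, n, hm, hn⟩

theorem comm_trans {α : Type} {P a b : FreeGroup α} (hP : P ≠ 1) (ha : a * P = P * a) (hb : b * P = P * b) :
    a * b = b * a := by
  obtain ⟨s, j, i, h1, h2⟩ := cyc_pair a P ha
  obtain ⟨t, l, k, h3, h4⟩ := cyc_pair b P hb
  by_cases hst : s * t = t * s
  · have h5 : Commute s t := hst
    rw [h1, h3]
    exact h5.zpow_zpow j l
  · exfalso
    have h6 := fg_inj s t hst
    have h7 : (FreeGroup.of 0 : FreeGroup (Fin 2)) ^ i = FreeGroup.of 1 ^ k := by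
      apply h6
      rw [map_zpow, map_zpow, FreeGroup.lift_apply_of, FreeGroup.lift_apply_of]
      show s ^ i = t ^ k
      rw [← h2, ← h4]
    have h8 := congrArg (FreeGroup.lift ![Multiplicative.ofAdd (1 : ℤ), 1]) h7
    rw [map_zpow, map_zpow, FreeGroup.lift_apply_of, FreeGroup.lift_apply_of] at h8
    have h9 : (Multiplicative.ofAdd (1 : ℤ)) ^ i = (1 : Multiplicative ℤ) ^ k := h8
    rw [one_zpow] at h9
    have h10 : i * 1 = 0 := h9
    rw [mul_one] at h10
    apply hP
    rw [h2, h10, zpow_zero]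

theorem cent_cyc {α : Type} {P : FreeGroup α} (hP : P ≠ 1) (δ : Fin 4 → FreeGroup α)
    (hδ : ∀ i, δ i * P = P * δ i) :
    ∃ (ρ : FreeGroup α) (m : ℤ) (n : Fin 4 → ℤ), P = ρ ^ m ∧ ∀ i, δ i = ρ ^ n i := by
  have hc : ∀ x : FreeGroup α, x ∈ Subgroup.centralizer ({P} : Set (FreeGroup α)) ↔ x * P = P * x := by
    intro x
    rw [Subgroup.mem_centralizer_iff]
    constructor
    · intro h
      exact (h P rfl).symm
    · intro h y hy
      rw [Set.mem_singleton_iff] at hy
      rw [hy]
      exact h.symm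
  obtain ⟨ρ, hρ⟩ := comm_sub (Subgroup.centralizer ({P} : Set (FreeGroup α))) (by
    intro x hx y hy
    exact comm_trans hP ((hc x).1 hx) ((hc y).1 hy))
  obtain ⟨m, hm⟩ := hρ P ((hc P).2 rfl)
  choose n hn using fun i => hρ (δ i) ((hc _).2 (hδ i))
  exact ⟨ρ, m, n, hm, hn⟩

end Pool.Agent.H70.WE
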