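import Pool.Agent.H70.WP.OP2

/-!
# [H70 WB Defs] Primitive words in a code of two words: definitions

PLAN (theorem of Barbin-Le Rest and Le Rest, proof by counting branchings). `x, y` words which do not commute, `W` a
primitive word over `{true, false}` (`true ↦ x`, `false ↦ y`) with at least two `true` and two `false`. Then
`bval x y W` is primitive. Suppose `bval x y W = ρ^k`, `k ≥ 2`, `n = |ρ|`. After a conjugation the last letters of `x` and `y`
differ (Lcp.lean). The rotations of `W` which start with `c` are `count c W` different words, so they have
`count c W - 1` branching nodes `t = c U` (Trie.lean); for every node and every nonempty suffix `s` of `h(c)` the word `s h(U) z`, `z` the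
longest common prefix of `x y` and `y x`, is a branching node of the set of the rotations of `ρ` (Node.lean), different for
different `(t, s)` (Dec.lean); that set has at most `n - 1` branching nodes (Trie.lean). So
`(count true W - 1) |x| + (count false W - 1) |y| + 1 ≤ n = (count true W |x| + count false W |y|) / k`: contradiction.
-/

set_option autoImplicit false

namespace Pool.Agent.H70.WE

/-- the value of a word in two letters -/
def bval {α : Type} (x y : List α) (U : List Bool) : List α := U.flatMap (fun c => if c then x else y)

theorem bval_nil {α : Type} (x y : List α) : bval x y [] = [] := rfl

theorem bval_cons {α : Type} (x y : List α) (c : Bool) (U : List Bool) :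
    bval x y (c :: U) = (if c then x else y) ++ bval x y U := by
  unfold bval
  rw [List.flatMap_cons]

theorem bval_append {α : Type} (x y : List α) (U V : List Bool) :
    bval x y (U ++ V) = bval x y U ++ bval x y V := by
  unfold bval
  rw [List.flatMap_append]

/-- `W` is not a proper power (in particular not empty) -/
def Prim {β : Type} (W : List β) : Prop := ∀ (w : List β) (m : ℕ), 2 ≤ m → W ≠ pow w m

/-- `V` is a rotation of `W` -/
def Rot {β : Type} (W V : List β) : Prop := ∃ X Y : List β, W = X ++ Y ∧ V = Y ++ X

end Pool.Agent.H70.WE
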