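import Pool.Agent.H70.WB.Defs

/-!
# [H70 WB Euc] Prefixes of products of `x` and `y` when the ratio of the lengths is fixed

`euc_left`: strong induction on `s + t` (for all `A, C`), inside induction on `C` (or on `|A| + |C|`):
* `C = []`: `X = [true]`, `Y = [false]`, `W = A`, `s' = s`, `t' = t`.
* `A = []`, `C ≠ []`: no `x, y` (`x, y ≠ []` because `x y ≠ y x`); anything.
* same first letter: cancel it.
* `A = true :: A'`, `C = false :: C'`: `x ⋯ = y ⋯`. If `t < s` then `|y| < |x|` (`t |x| = s |y|`, `y ≠ []`), `x = y x'`, `x' y ≠ y x'`, `t |x'| = (s - t) |y|`; apply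
  the hypothesis for `(s - t, t)` to the images of `A, C` under `true ↦ [false, true]`, `false ↦ [false]` (as `cd_...` or `key` in WE/Wd.lean), which gives `X', Y', W`; take
  `X = Y' ++ X'`, `Y = Y'`. If `s < t` then `y = x y'`, `(t - s) |x| = s |y'|`, the hypothesis for `(s, t - s)`. If `s = t` then `|x| = |y|`, `x = y`: no `x, y`.
* `A = false :: A'`, `C = true :: C'`: the same two subcases.
`euc_right`: reverse everything: `(bval x y U).reverse = bval x.reverse y.reverse U.reverse`.
-/

set_option autoImplicit false

namespace Pool.Agent.H70.WE

private theorem euc_comp {α : Type} (p q : List α) (X Y : List Bool) (U : List Bool) :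
    bval p q (bval X Y U) = bval (bval p q X) (bval p q Y) U := by
  induction U with
  | nil => rfl
  | cons c U ih =>
    rw [bval_cons, bval_append, ih, bval_cons]
    cases c <;> rfl

private theorem euc_one {α : Type} (x y : List α) (c : Bool) : bval x y [c] = if c then x else y := by
  rw [bval_cons, bval_nil, List.append_nil]

/-- different first letters: one of `x`, `y` is a prefix of the other -/
private theorem euc_cmp {α : Type} {x y P : List α} {c a : Bool} {C A : List Bool} (hne : a ≠ c)
    (h : bval x y (c :: C) ++ P = bval x y (a :: A)) : ∃ R S : List α, x ++ R = y ++ S := by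
  rw [bval_cons, bval_cons, List.append_assoc] at h
  cases a <;> cases c
  · exact absurd rfl hne
  · exact ⟨_, _, by simpa using h⟩
  · exact ⟨_, _, by simpa using h.symm⟩
  · exact absurd rfl hne

private theorem euc_pre {α : Type} {x y R S : List α} (h : x ++ R = y ++ S) (hl : y.length ≤ x.length) :
    ∃ x' : List α, x = y ++ x' := by
  have h1 : y <+: x := by
    apply List.prefix_of_prefix_length_le (l₃ := x ++ R) _ _ hl
    · exact ⟨S, h.symm⟩
    · exact ⟨R, rfl⟩
  obtain ⟨x', hx'⟩ := h1
  exact ⟨x', hx'.symm⟩

private theorem euc_pos {α : Type} {x y : List α} (h : x ++ y ≠ y ++ x) : 0 < x.length ∧ 0 < y.length := by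
  constructor
  · rcases Nat.eq_zero_or_pos x.length with h0 | h0
    · exfalso
      apply h
      rw [List.eq_nil_of_length_eq_zero h0]
      simp
    · exact h0
  · rcases Nat.eq_zero_or_pos y.length with h0 | h0
    · exfalso
      apply h
      rw [List.eq_nil_of_length_eq_zero h0]
      simp
    · exact h0

private theorem euc_aux (N : ℕ) : ∀ s t : ℕ, s + t ≤ N → 1 ≤ s → 1 ≤ t → ∀ C A : List Bool,
    ∃ (X Y W : List Bool) (s' t' : ℕ),
    1 ≤ s' ∧ 1 ≤ t' ∧ ∀ (α : Type) (x y P : List α), x ++ y ≠ y ++ x → t * x.length = s * y.length →
      bval x y C ++ P = bval x y A → ∃ p q : List α, p ++ q ≠ q ++ p ∧ t' * p.length = s' * q.length ∧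
        x = bval p q X ∧ y = bval p q Y ∧ P = bval p q W := by
  induction N with
  | zero =>
    intro s t hN hs
    omega
  | succ N ih =>
    intro s t hN hs ht C
    induction C with
    | nil =>
      intro A
      refine ⟨[true], [false], A, s, t, hs, ht, fun α x y P hxy hl h => ⟨x, y, hxy, hl, ?_, ?_, ?_⟩⟩
      · rw [euc_one]; rfl
      · rw [euc_one]; rfl
      · rw [bval_nil, List.nil_append] at h
        exact h
    | cons c C' ihC =>
      intro A
      cases A with
      | nil =>
        refine ⟨[true], [false], [], 1, 1, le_refl 1, le_refl 1, fun α x y P hxy hl h => ?_⟩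
        exfalso
        have hp := euc_pos hxy
        rw [bval_nil, bval_cons] at h
        have h1 := congrArg List.length h
        rw [List.length_append, List.length_append, List.length_nil] at h1
        have h2 : 0 < (if c = true then x else y).length := by
          cases c
          · exact hp.2
          · exact hp.1
        omega
      | cons a A' =>
        by_cases hac : a = c
        · obtain ⟨X, Y, W, s', t', hs', ht', hh⟩ := ihC A'
          refine ⟨X, Y, W, s', t', hs', ht', fun α x y P hxy hl h => hh α x y P hxy hl ?_⟩
          rw [hac, bval_cons, bval_cons, List.append_assoc] at h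
          exact List.append_cancel_left h
        · rcases Nat.lt_trichotomy s t with hst | hst | hst
          · -- `y = x y'`
            obtain ⟨X, Y, W, s', t', hs', ht', hh⟩ := ih s (t - s) (by omega) hs (by omega)
              (bval [true] [true, false] (c :: C')) (bval [true] [true, false] (a :: A'))
            refine ⟨X, X ++ Y, W, s', t', hs', ht', fun α x y P hxy hl h => ?_⟩
            obtain ⟨R, S, hRS⟩ := euc_cmp hac h
            have hp := euc_pos hxy
            have hlen : x.length ≤ y.length := by
              by_contra hcon
              have h1 : s * y.length < s * x.length := Nat.mul_lt_mul_of_pos_left (by omega) hs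
              have h2 : s * x.length ≤ t * x.length := Nat.mul_le_mul_right _ hst.le
              omega
            obtain ⟨y', rfl⟩ := euc_pre hRS.symm hlen
            have hb : ∀ U : List Bool, bval x y' (bval [true] [true, false] U) = bval x (x ++ y') U := by
              intro U
              rw [euc_comp, euc_one, bval_cons, euc_one]
              rfl
            obtain ⟨p, q, h1, h2, h3, h4, h5⟩ := hh α x y' P (by
                intro hcon
                apply hxy
                rw [List.append_assoc, ← hcon]) (by
                rw [List.length_append, Nat.mul_add] at hl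
                rw [Nat.sub_mul]
                omega) (by rw [hb, hb]; exact h)
            refine ⟨p, q, h1, h2, h3, ?_, h5⟩
            rw [bval_append, ← h3, ← h4]
          · -- `|x| = |y|`
            refine ⟨[true], [false], [], 1, 1, le_refl 1, le_refl 1, fun α x y P hxy hl h => ?_⟩
            exfalso
            obtain ⟨R, S, hRS⟩ := euc_cmp hac h
            rw [hst] at hl
            have h1 : x.length = y.length := Nat.eq_of_mul_eq_mul_left (by omega) hl
            have h2 := List.append_inj_left hRS h1
            apply hxy
            rw [h2]
          · -- `x = y x'`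
            obtain ⟨X, Y, W, s', t', hs', ht', hh⟩ := ih (s - t) t (by omega) (by omega) ht
              (bval [false, true] [false] (c :: C')) (bval [false, true] [false] (a :: A'))
            refine ⟨Y ++ X, Y, W, s', t', hs', ht', fun α x y P hxy hl h => ?_⟩
            obtain ⟨R, S, hRS⟩ := euc_cmp hac h
            have hp := euc_pos hxy
            have hlen : y.length ≤ x.length := by
              by_contra hcon
              have h1 : t * x.length < t * y.length := Nat.mul_lt_mul_of_pos_left (by omega) ht
              have h2 : t * y.length ≤ s * y.length := Nat.mul_le_mul_right _ hst.le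
              omega
            obtain ⟨x', rfl⟩ := euc_pre hRS hlen
            have hb : ∀ U : List Bool, bval x' y (bval [false, true] [false] U) = bval (y ++ x') y U := by
              intro U
              rw [euc_comp, euc_one, bval_cons, euc_one]
              rfl
            obtain ⟨p, q, h1, h2, h3, h4, h5⟩ := hh α x' y P (by
                intro hcon
                apply hxy
                rw [List.append_assoc, hcon]) (by
                rw [List.length_append, Nat.mul_add] at hl
                rw [Nat.sub_mul]
                omega) (by rw [hb, hb]; exact h)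
            refine ⟨p, q, h1, h2, ?_, h4, h5⟩
            rw [bval_append, ← h3, ← h4]

theorem euc_left (s t : ℕ) (hs : 1 ≤ s) (ht : 1 ≤ t) (A C : List Bool) : ∃ (X Y W : List Bool) (s' t' : ℕ),
    1 ≤ s' ∧ 1 ≤ t' ∧ ∀ (α : Type) (x y P : List α), x ++ y ≠ y ++ x → t * x.length = s * y.length →
      bval x y C ++ P = bval x y A → ∃ p q : List α, p ++ q ≠ q ++ p ∧ t' * p.length = s' * q.length ∧
        x = bval p q X ∧ y = bval p q Y ∧ P = bval p q W :=
  euc_aux (s + t) s t le_rfl hs ht C A

private theorem euc_rev {α : Type} (x y : List α) (U : List Bool) :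
    (bval x y U).reverse = bval x.reverse y.reverse U.reverse := by
  induction U with
  | nil => rfl
  | cons c U ih =>
    rw [bval_cons, List.reverse_append, ih, List.reverse_cons, bval_append, euc_one]
    cases c <;> rfl

theorem euc_right (s t : ℕ) (hs : 1 ≤ s) (ht : 1 ≤ t) (D B : List Bool) : ∃ (X Y W : List Bool) (s' t' : ℕ),
    1 ≤ s' ∧ 1 ≤ t' ∧ ∀ (α : Type) (x y Q : List α), x ++ y ≠ y ++ x → t * x.length = s * y.length →
      Q ++ bval x y B = bval x y D → ∃ p q : List α, p ++ q ≠ q ++ p ∧ t' * p.length = s' * q.length ∧
        x = bval p q X ∧ y = bval p q Y ∧ Q = bval p q W := by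
  obtain ⟨X, Y, W, s', t', hs', ht', hh⟩ := euc_left s t hs ht D.reverse B.reverse
  refine ⟨X.reverse, Y.reverse, W.reverse, s', t', hs', ht', fun α x y Q hxy hl h => ?_⟩
  obtain ⟨p, q, h1, h2, h3, h4, h5⟩ := hh α x.reverse y.reverse Q.reverse (by
      rw [← List.reverse_append, ← List.reverse_append]
      intro hcon
      exact hxy (List.reverse_injective hcon).symm) (by rwa [List.length_reverse, List.length_reverse]) (by
      rw [← euc_rev, ← euc_rev, ← List.reverse_append, h])
  refine ⟨p.reverse, q.reverse, ?_, by rwa [List.length_reverse, List.length_reverse], ?_, ?_, ?_⟩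
  · rw [← List.reverse_append, ← List.reverse_append]
    intro hcon
    exact h1 (List.reverse_injective hcon).symm
  · rw [← euc_rev, ← h3, List.reverse_reverse]
  · rw [← euc_rev, ← h4, List.reverse_reverse]
  · rw [← euc_rev, ← h5, List.reverse_reverse]

end Pool.Agent.H70.WE
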