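import Pool.Agent.H70.WB.Euc
import Pool.Agent.H70.WE.Typ

/-!
# [H70 WB EucG] Euclid with the groups

The same proofs as in Euc.lean (copy them, or strengthen the induction there and keep the old statements as corollaries); in addition `p, q` are in the
subgroup generated by `x` and `y`: in the step `x = y x'` one has `io x' = (io y)⁻¹ * io x` (`io_append` in H93/TH/FG.lean; `open Pool.Agent.H93.TW`), and the closure of `{io x', io y}` is
contained in the closure of `{io x, io y}` (`Subgroup.closure_le`). For `euc_right_g` reverse: or repeat the proof on the other side (`x = x' y`,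
`io x' = io x * (io y)⁻¹`); there is no need to use the reversal of the free group.
-/

set_option autoImplicit false

namespace Pool.Agent.H70.WE

open Pool.Agent.H93.TW

private theorem euc_comp {α : Type} (p q : List α) (X Y : List Bool) (U : List Bool) :
    bval p q (bval X Y U) = bval (bval p q X) (bval p q Y) U := by
  induction U with
  | nil => rfl
  | cons c U ih =>
    rw [bval_cons, bval_append, ih, bval_cons]
    cases c <;> rfl

private theorem euc_one {α : Type} (x y : List α) (c : Bool) : bval x y [c] = if c then x else y := by
  rw [bval_cons, bval_nil, List.append_nil]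

/-- different first letters: one of `x`, `y` is a prefix of the other -/
private theorem euc_cmp {α : Type} {x y P : List α} {c a : Bool} {C A : List Bool} (hne : a ≠ c)
    (h : bval x y (c :: C) ++ P = bval x y (a :: A)) : ∃ R S : List α, x ++ R = y ++ S := by
  rw [bval_cons, bval_cons, List.append_assoc] at h
  cases a <;> cases c
  · exact absurd rfl hne
  · exact ⟨_, _, by simpa using h⟩
  · exact ⟨_, _, by simpa using h.symm⟩
  · exact absurd rfl hne

private theorem euc_pre {α : Type} {x y R S : List α} (h : x ++ R = y ++ S) (hl : y.length ≤ x.length) :
    ∃ x' : List α, x = y ++ x' := by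
  have h1 : y <+: x := by
    apply List.prefix_of_prefix_length_le (l₃ := x ++ R) _ _ hl
    · exact ⟨S, h.symm⟩
    · exact ⟨R, rfl⟩
  obtain ⟨x', hx'⟩ := h1
  exact ⟨x', hx'.symm⟩

private theorem euc_pos {α : Type} {x y : List α} (h : x ++ y ≠ y ++ x) : 0 < x.length ∧ 0 < y.length := by
  constructor
  · rcases Nat.eq_zero_or_pos x.length with h0 | h0
    · exfalso
      apply h
      rw [List.eq_nil_of_length_eq_zero h0]
      simp
    · exact h0
  · rcases Nat.eq_zero_or_pos y.length with h0 | h0
    · exfalso
      apply h
      rw [List.eq_nil_of_length_eq_zero h0]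
      simp
    · exact h0

private theorem euc_aux (N : ℕ) : ∀ s t : ℕ, s + t ≤ N → 1 ≤ s → 1 ≤ t → ∀ C A : List Bool,
    ∃ (X Y W : List Bool) (s' t' : ℕ),
    1 ≤ s' ∧ 1 ≤ t' ∧ ∀ (α : Type) (x y P : List α), x ++ y ≠ y ++ x → t * x.length = s * y.length →
      bval x y C ++ P = bval x y A → ∃ p q : List α, p ++ q ≠ q ++ p ∧ t' * p.length = s' * q.length ∧
        x = bval p q X ∧ y = bval p q Y ∧ P = bval p q W ∧
        io p ∈ Subgroup.closure {io x, io y} ∧ io q ∈ Subgroup.closure {io x, io y} := by
  induction N with
  | zero =>
    intro s t hN hs
    omega
  | succ N ih =>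
    intro s t hN hs ht C
    induction C with
    | nil =>
      intro A
      refine ⟨[true], [false], A, s, t, hs, ht, fun α x y P hxy hl h => ⟨x, y, hxy, hl, ?_, ?_, ?_,
        Subgroup.subset_closure (by simp), Subgroup.subset_closure (by simp)⟩⟩
      · rw [euc_one]; rfl
      · rw [euc_one]; rfl
      · rw [bval_nil, List.nil_append] at h
        exact h
    | cons c C' ihC =>
      intro A
      cases A with
      | nil =>
        refine ⟨[true], [false], [], 1, 1, le_refl 1, le_refl 1, fun α x y P hxy hl h => ?_⟩
        exfalso
        have hp := euc_pos hxy
        rw [bval_nil, bval_cons] at h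
        have h1 := congrArg List.length h
        rw [List.length_append, List.length_append, List.length_nil] at h1
        have h2 : 0 < (if c = true then x else y).length := by
          cases c
          · exact hp.2
          · exact hp.1
        omega
      | cons a A' =>
        by_cases hac : a = c
        · obtain ⟨X, Y, W, s', t', hs', ht', hh⟩ := ihC A'
          refine ⟨X, Y, W, s', t', hs', ht', fun α x y P hxy hl h => hh α x y P hxy hl ?_⟩
          rw [hac, bval_cons, bval_cons, List.append_assoc] at h
          exact List.append_cancel_left h
        · rcases Nat.lt_trichotomy s t with hst | hst | hst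
          · -- `y = x y'`
            obtain ⟨X, Y, W, s', t', hs', ht', hh⟩ := ih s (t - s) (by omega) hs (by omega)
              (bval [true] [true, false] (c :: C')) (bval [true] [true, false] (a :: A'))
            refine ⟨X, X ++ Y, W, s', t', hs', ht', fun α x y P hxy hl h => ?_⟩
            obtain ⟨R, S, hRS⟩ := euc_cmp hac h
            have hp := euc_pos hxy
            have hlen : x.length ≤ y.length := by
              by_contra hcon
              have h1 : s * y.length < s * x.length := Nat.mul_lt_mul_of_pos_left (by omega) hs
              have h2 : s * x.length ≤ t * x.length := Nat.mul_le_mul_right _ hst.le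
              omega
            obtain ⟨y', rfl⟩ := euc_pre hRS.symm hlen
            have hb : ∀ U : List Bool, bval x y' (bval [true] [true, false] U) = bval x (x ++ y') U := by
              intro U
              rw [euc_comp, euc_one, bval_cons, euc_one]
              rfl
            obtain ⟨p, q, h1, h2, h3, h4, h5, h6, h7⟩ := hh α x y' P (by
                intro hcon
                apply hxy
                rw [List.append_assoc, ← hcon]) (by
                rw [List.length_append, Nat.mul_add] at hl
                rw [Nat.sub_mul]
                omega) (by rw [hb, hb]; exact h)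
            have hcl : Subgroup.closure {io x, io y'} ≤ Subgroup.closure {io x, io (x ++ y')} := by
              rw [Subgroup.closure_le]
              have m1 : io x ∈ Subgroup.closure {io x, io (x ++ y')} := Subgroup.subset_closure (by simp)
              have m2 : io (x ++ y') ∈ Subgroup.closure {io x, io (x ++ y')} := Subgroup.subset_closure (by simp)
              rintro g (hg | hg)
              · rw [hg]
                exact m1
              · rw [Set.mem_singleton_iff] at hg
                have e : io y' = (io x)⁻¹ * io (x ++ y') := by rw [io_append]; group
                rw [hg, e]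
                exact Subgroup.mul_mem _ (Subgroup.inv_mem _ m1) m2
            refine ⟨p, q, h1, h2, h3, ?_, h5, hcl h6, hcl h7⟩
            rw [bval_append, ← h3, ← h4]
          · -- `|x| = |y|`
            refine ⟨[true], [false], [], 1, 1, le_refl 1, le_refl 1, fun α x y P hxy hl h => ?_⟩
            exfalso
            obtain ⟨R, S, hRS⟩ := euc_cmp hac h
            rw [hst] at hl
            have h1 : x.length = y.length := Nat.eq_of_mul_eq_mul_left (by omega) hl
            have h2 := List.append_inj_left hRS h1
            apply hxy
            rw [h2]
          · -- `x = y x'`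
            obtain ⟨X, Y, W, s', t', hs', ht', hh⟩ := ih (s - t) t (by omega) (by omega) ht
              (bval [false, true] [false] (c :: C')) (bval [false, true] [false] (a :: A'))
            refine ⟨Y ++ X, Y, W, s', t', hs', ht', fun α x y P hxy hl h => ?_⟩
            obtain ⟨R, S, hRS⟩ := euc_cmp hac h
            have hp := euc_pos hxy
            have hlen : y.length ≤ x.length := by
              by_contra hcon
              have h1 : t * x.length < t * y.length := Nat.mul_lt_mul_of_pos_left (by omega) ht
              have h2 : t * y.length ≤ s * y.length := Nat.mul_le_mul_right _ hst.le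
              omega
            obtain ⟨x', rfl⟩ := euc_pre hRS hlen
            have hb : ∀ U : List Bool, bval x' y (bval [false, true] [false] U) = bval (y ++ x') y U := by
              intro U
              rw [euc_comp, euc_one, bval_cons, euc_one]
              rfl
            obtain ⟨p, q, h1, h2, h3, h4, h5, h6, h7⟩ := hh α x' y P (by
                intro hcon
                apply hxy
                rw [List.append_assoc, hcon]) (by
                rw [List.length_append, Nat.mul_add] at hl
                rw [Nat.sub_mul]
                omega) (by rw [hb, hb]; exact h)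
            have hcl : Subgroup.closure {io x', io y} ≤ Subgroup.closure {io (y ++ x'), io y} := by
              rw [Subgroup.closure_le]
              have m1 : io (y ++ x') ∈ Subgroup.closure {io (y ++ x'), io y} := Subgroup.subset_closure (by simp)
              have m2 : io y ∈ Subgroup.closure {io (y ++ x'), io y} := Subgroup.subset_closure (by simp)
              rintro g (hg | hg)
              · have e : io x' = (io y)⁻¹ * io (y ++ x') := by rw [io_append]; group
                rw [hg, e]
                exact Subgroup.mul_mem _ (Subgroup.inv_mem _ m2) m1
              · rw [Set.mem_singleton_iff] at hg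
                rw [hg]
                exact m2
            refine ⟨p, q, h1, h2, ?_, h4, h5, hcl h6, hcl h7⟩
            rw [bval_append, ← h3, ← h4]

theorem euc_left_g (s t : ℕ) (hs : 1 ≤ s) (ht : 1 ≤ t) (A C : List Bool) : ∃ (X Y W : List Bool) (s' t' : ℕ),
    1 ≤ s' ∧ 1 ≤ t' ∧ ∀ (α : Type) (x y P : List α), x ++ y ≠ y ++ x → t * x.length = s * y.length →
      bval x y C ++ P = bval x y A → ∃ p q : List α, p ++ q ≠ q ++ p ∧ t' * p.length = s' * q.length ∧
        x = bval p q X ∧ y = bval p q Y ∧ P = bval p q W ∧
        io p ∈ Subgroup.closure {io x, io y} ∧ io q ∈ Subgroup.closure {io x, io y} :=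
  euc_aux (s + t) s t le_rfl hs ht C A

private theorem euc_rev {α : Type} (x y : List α) (U : List Bool) :
    (bval x y U).reverse = bval x.reverse y.reverse U.reverse := by
  induction U with
  | nil => rfl
  | cons c U ih =>
    rw [bval_cons, List.reverse_append, ih, List.reverse_cons, bval_append, euc_one]
    cases c <;> rfl

/-- the automorphism which inverts the generators -/
private def euc_th (α : Type) : FreeGroup α →* FreeGroup α := FreeGroup.lift fun c => (FreeGroup.of c)⁻¹

private theorem euc_io_rev {α : Type} (w : List α) : io w.reverse = (euc_th α (io w))⁻¹ := by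
  induction w with
  | nil => rw [List.reverse_nil, io_nil, map_one, inv_one]
  | cons c w ih =>
    rw [List.reverse_cons, io_append, ih, io_cons c [], io_nil, mul_one, io_cons c w, map_mul, euc_th, FreeGroup.lift_apply_of,
      mul_inv_rev, inv_inv]

private theorem euc_cl {α : Type} {x y p : List α} (h : io p ∈ Subgroup.closure {io x.reverse, io y.reverse}) :
    io p.reverse ∈ Subgroup.closure {io x, io y} := by
  rw [euc_io_rev]
  apply Subgroup.inv_mem
  have h1 : euc_th α (io p) ∈ (Subgroup.closure {io x.reverse, io y.reverse}).map (euc_th α) := ⟨io p, h, rfl⟩
  rw [MonoidHom.map_closure, Set.image_pair] at h1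
  refine (Subgroup.closure_le _).2 ?_ h1
  have e : ∀ z : List α, euc_th α (io z.reverse) = (io z)⁻¹ := by
    intro z
    have h2 := euc_io_rev z.reverse
    rw [List.reverse_reverse] at h2
    rw [h2, inv_inv]
  rintro g (hg | hg)
  · rw [hg, e]
    exact Subgroup.inv_mem _ (Subgroup.subset_closure (by simp))
  · rw [Set.mem_singleton_iff] at hg
    rw [hg, e]
    exact Subgroup.inv_mem _ (Subgroup.subset_closure (by simp))

theorem euc_right_g (s t : ℕ) (hs : 1 ≤ s) (ht : 1 ≤ t) (D B : List Bool) : ∃ (X Y W : List Bool) (s' t' : ℕ),
    1 ≤ s' ∧ 1 ≤ t' ∧ ∀ (α : Type) (x y Q : List α), x ++ y ≠ y ++ x → t * x.length = s * y.length →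
      Q ++ bval x y B = bval x y D → ∃ p q : List α, p ++ q ≠ q ++ p ∧ t' * p.length = s' * q.length ∧
        x = bval p q X ∧ y = bval p q Y ∧ Q = bval p q W ∧
        io p ∈ Subgroup.closure {io x, io y} ∧ io q ∈ Subgroup.closure {io x, io y} := by
  obtain ⟨X, Y, W, s', t', hs', ht', hh⟩ := euc_left_g s t hs ht D.reverse B.reverse
  refine ⟨X.reverse, Y.reverse, W.reverse, s', t', hs', ht', fun α x y Q hxy hl h => ?_⟩
  obtain ⟨p, q, h1, h2, h3, h4, h5, h6, h7⟩ := hh α x.reverse y.reverse Q.reverse (by
      rw [← List.reverse_append, ← List.reverse_append]
      intro hcon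
      exact hxy (List.reverse_injective hcon).symm) (by rwa [List.length_reverse, List.length_reverse]) (by
      rw [← euc_rev, ← euc_rev, ← List.reverse_append, h])
  refine ⟨p.reverse, q.reverse, ?_, by rwa [List.length_reverse, List.length_reverse], ?_, ?_, ?_,
    euc_cl h6, euc_cl h7⟩
  · rw [← List.reverse_append, ← List.reverse_append]
    intro hcon
    exact h1 (List.reverse_injective hcon).symm
  · rw [← euc_rev, ← h3, List.reverse_reverse]
  · rw [← euc_rev, ← h4, List.reverse_reverse]
  · rw [← euc_rev, ← h5, List.reverse_reverse]

end Pool.Agent.H70.WE
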