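import Pool.Agent.H70.WB.Fv

/-!
# [H70 WB Fd] Heights and Fox derivatives: definitions
-/

set_option autoImplicit false

namespace Pool.Agent.H70.WE

/-- Laurent polynomials with integer coefficients -/
abbrev Lam : Type := LaurentPolynomial ℤ

/-- the homomorphism with values `ω i` on the free generators -/
noncomputable def ht (ω : Fin 2 → ℤ) : FreeGroup (Fin 2) →* Multiplicative ℤ :=
  FreeGroup.lift (fun i => Multiplicative.ofAdd (ω i))

/-- the same, with values in `ℤ` -/
noncomputable def hz (ω : Fin 2 → ℤ) (g : FreeGroup (Fin 2)) : ℤ := Multiplicative.toAdd (ht ω g)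

/-- exponent sum of the generator `i` -/
noncomputable def ex (i : Fin 2) (g : FreeGroup (Fin 2)) : ℤ := hz (Pi.single i 1) g

/-- the heights of the occurrences of `s`, when every `s` adds `γ` and every other letter adds `β` -/
def hts (β γ : ℤ) (s : Fin 3) : List (Fin 3) → ℤ → List ℤ
  | [], _ => []
  | c :: U, n => if c = s then n :: hts β γ s U (n + γ) else hts β γ s U (n + β)

end Pool.Agent.H70.WE
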