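import Pool.Agent.H70.WB.All
import Pool.Agent.H70.WB.RotD

/-!
# [H70 WB XM] The equation `x^m z = z y^m'`

`cop_conj` (`m, m'` coprime): if `x = []` then `y = []` (lengths): `X = Y = []`. Otherwise `x = ρ^a`, `ρ` primitive (`prim_root`, WB/All.lean);
`y^m'` is a rotation of `x^m = ρ^(a m)` (`conj_rot`), so `y^m' = ρ'^(a m)`, `ρ'` a rotation of `ρ` (`rot_pow`, WB/All.lean), primitive; `y` and `ρ'` commute
(`rel_comm`, WE/Wd.lean), so `y = ρ'^b` (`comm_pow`), `b m' = a m`, `a = m' s`, `b = m s`; `X = ρ^s`, `Y = ρ'^s`, and `X^(m m') z = z Y^(m m')` gives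
`X z = z Y` (`root_conj`, WB/All.lean).
`npb_xm`: by `root_conj` (common factor of `m, m'`) and `cop_conj` a solution is `x = X^m'`, `y = Y^m`, `X z = z Y`; the morphism `h' = ![X, Y, z]` solves
`([0, 2], [2, 1])` (`npb_class` in WX/Cls.lean gives its NPB) and the equations `E j` after the substitution `0 ↦ 0^m'`, `1 ↦ 1^m`; if `h'` is periodic, so
is `h`. (`NPB.mono` reduces to coprime `m, m'`.) `npb_xm'`: rename (`NPB.ren` in WX/Defs.lean with `Equiv.swap 0 1`).
-/

set_option autoImplicit false

namespace Pool.Agent.H70.WE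

private theorem xm_prim {β : Type} {W V : List β} (hW : Prim W) (h : Rot W V) : Prim V := by
  obtain ⟨X, Y, hW1, hV⟩ := h
  intro w m hm hVw
  obtain ⟨w', hw', _⟩ := conj_pow' (s := Y) (t := X) (hV.symm.trans hVw)
  exact hW w' m hm (hW1.trans hw')

private theorem xm_ne {β : Type} {W : List β} (hW : Prim W) : 1 ≤ W.length := by
  rcases Nat.eq_zero_or_pos W.length with h | h
  · have h1 : W = [] := List.length_eq_zero_iff.mp h
    exact (hW [] 2 le_rfl (by rw [h1, pow_nil])).elim
  · exact h

private theorem xm_prim_pow {β : Type} {V w : List β} {i : ℕ} (hV : Prim V) (h : V = pow w i) : V = w := by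
  have hi : i = 1 := by
    rcases Nat.lt_or_ge i 2 with h1 | h1
    · rcases Nat.lt_or_ge i 1 with h2 | h2
      · have h3 : i = 0 := by omega
        rw [h3, pow_zero'] at h
        have h4 := xm_ne hV
        rw [h, List.length_nil] at h4
        omega
      · omega
    · exact (hV w i h1 h).elim
  rw [h, hi]
  simp [pow]

theorem cop_conj {α : Type} {x y z : List α} {m m' : ℕ} (hm : 1 ≤ m) (hm' : 1 ≤ m') (hc : Nat.Coprime m m')
    (h : pow x m ++ z = z ++ pow y m') : ∃ X Y : List α, x = pow X m' ∧ y = pow Y m ∧ X ++ z = z ++ Y := by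
  have hlen : m * x.length = m' * y.length := by
    have h1 := congrArg List.length h
    rw [List.length_append, List.length_append, pow_length, pow_length] at h1
    omega
  rcases eq_or_ne x [] with hx | hx
  · subst hx
    have hy : y = [] := by
      rw [List.length_nil, Nat.mul_zero] at hlen
      rcases Nat.mul_eq_zero.1 hlen.symm with h1 | h1
      · omega
      · exact List.length_eq_zero_iff.1 h1
    subst hy
    exact ⟨[], [], (pow_nil m').symm, (pow_nil m).symm, by rw [List.nil_append, List.append_nil]⟩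
  obtain ⟨ρ, a, ha, hxρ, hρ⟩ := prim_root _ x le_rfl hx
  obtain ⟨P, Q, hPQ, hQP⟩ := conj_rot h
  rw [hxρ, ← pow_mul'] at hPQ
  obtain ⟨w1, w2, hw, hw'⟩ := rot_pow ρ (a * m) (Nat.mul_pos ha hm) _ P Q le_rfl hPQ.symm
  have hρ' : Prim (w2 ++ w1) := xm_prim hρ ⟨w1, w2, hw, rfl⟩
  have hl : (w2 ++ w1).length = ρ.length := by
    rw [hw, List.length_append, List.length_append, Nat.add_comm]
  generalize w2 ++ w1 = ρ' at hw' hρ' hl
  have hy : pow y m' = pow ρ' (a * m) := hQP.trans hw'
  have hcomm : y ++ ρ' = ρ' ++ y := by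
    refine rel_comm y ρ' (List.replicate m' true) (List.replicate (a * m) false) ?_ ?_
    · intro h1
      obtain ⟨k, hk⟩ : ∃ k, m' = k + 1 := ⟨m' - 1, by omega⟩
      obtain ⟨j, hj⟩ : ∃ j, a * m = j + 1 := ⟨a * m - 1, by
        have := Nat.mul_pos ha hm
        omega⟩
      rw [hk, hj, List.replicate_succ, List.replicate_succ] at h1
      simp at h1
    · have e1 : ∀ n : ℕ, (List.replicate n true).flatMap (fun c => if c then y else ρ') = pow y n := by
        intro n
        simp [pow, List.flatMap]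
      have e2 : ∀ n : ℕ, (List.replicate n false).flatMap (fun c => if c then y else ρ') = pow ρ' n := by
        intro n
        simp [pow, List.flatMap]
      rw [e1, e2]
      exact hy
  obtain ⟨w, b, j, hyb, hρj⟩ := comm_pow y ρ' hcomm
  have hw1 : ρ' = w := xm_prim_pow hρ' hρj
  have hyb' : y = pow ρ' b := by rw [hw1]; exact hyb
  have hba : b * m' = a * m := by
    rw [hyb', ← pow_mul'] at hy
    have h1 := congrArg List.length hy
    rw [pow_length, pow_length] at h1
    exact Nat.eq_of_mul_eq_mul_right (xm_ne hρ') h1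
  have hdvd : m' ∣ a := by
    apply hc.symm.dvd_of_dvd_mul_right (n := m)
    exact ⟨b, by rw [← hba, Nat.mul_comm]⟩
  obtain ⟨s, hs⟩ := hdvd
  have hb : b = s * m := by
    rw [hs, Nat.mul_comm b m', Nat.mul_assoc] at hba
    exact Nat.eq_of_mul_eq_mul_left hm' hba
  have hX : x = pow (pow ρ s) m' := by rw [← pow_mul', hxρ, hs, Nat.mul_comm]
  have hY : y = pow (pow ρ' s) m := by rw [← pow_mul', hyb', hb]
  refine ⟨pow ρ s, pow ρ' s, hX, hY, ?_⟩
  refine root_conj (m := m * m') (Nat.mul_pos hm hm') _ _ _ z le_rfl (by rw [pow_length, pow_length, hl]) ?_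
  rw [pow_mul' (pow ρ' s) m m', ← hY, Nat.mul_comm m m', pow_mul' (pow ρ s) m' m, ← hX]
  exact h

private theorem xm_rep {α : Type} (h : Fin 3 → List α) (n : ℕ) (c : Fin 3) :
    val h (List.replicate n c) = pow (h c) n := by
  induction n with
  | zero => rfl
  | succ n ih => rw [List.replicate_succ, val_cons', ih, Nat.add_comm n 1, pow_add', pow_one'']

private theorem xm_one {α : Type} (h : Fin 3 → List α) (c : Fin 3) : val h [c] = h c := by
  rw [val_cons', val_nil', List.append_nil]

private theorem solves_xm {α : Type} (h : Fin 3 → List α) (m m' : ℕ) :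
    Solves h (List.replicate m 0 ++ [2], [2] ++ List.replicate m' 1) ↔
      pow (h 0) m ++ h 2 = h 2 ++ pow (h 1) m' := by
  show val h (List.replicate m 0 ++ [2]) = val h ([2] ++ List.replicate m' 1) ↔ _
  rw [val_append, val_append, xm_rep, xm_rep, xm_one]

private theorem npb_base : NPB ([0, 2], [2, 1]) :=
  npb_class _ 0 1 (by decide) (by decide) (by decide) (by decide) (by decide) (by decide)

private def sb (m m' : ℕ) (c : Fin 3) : List (Fin 3) :=
  if c = 0 then List.replicate m' 0 else if c = 1 then List.replicate m 1 else [2]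

private theorem val_sb {α : Type} (m m' : ℕ) (h h' : Fin 3 → List α) (h0 : h 0 = pow (h' 0) m')
    (h1 : h 1 = pow (h' 1) m) (h2 : h 2 = h' 2) (U : List (Fin 3)) :
    val h' (U.flatMap (sb m m')) = val h U := by
  induction U with
  | nil => rfl
  | cons c U ih =>
    rw [List.flatMap_cons, val_append, ih, val_cons']
    congr 1
    fin_cases c
    · show val h' (List.replicate m' 0) = h 0
      rw [xm_rep, h0]
    · show val h' (List.replicate m 1) = h 1
      rw [xm_rep, h1]
    · show val h' [2] = h 2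
      rw [xm_one, h2]

private theorem npb_cop (m m' : ℕ) (hm : 1 ≤ m) (hm' : 1 ≤ m') (hc : Nat.Coprime m m') :
    NPB (List.replicate m 0 ++ [2], [2] ++ List.replicate m' 1) := by
  intro α E h h1 h2 h3 h4
  have hX : ∀ i, ∃ X Y : List α, h i 0 = pow X m' ∧ h i 1 = pow Y m ∧ X ++ h i 2 = h i 2 ++ Y :=
    fun i => cop_conj hm hm' hc ((solves_xm (h i) m m').1 (h2 i))
  choose X Y hX0 hY0 hXY using hX
  have hval : ∀ i U, val (![X i, Y i, h i 2] : Fin 3 → List α) (U.flatMap (sb m m')) = val (h i) U :=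
    fun i U => val_sb m m' (h i) ![X i, Y i, h i 2] (hX0 i) (hY0 i) rfl U
  refine npb_base α (fun j => ((E j).1.flatMap (sb m m'), (E j).2.flatMap (sb m m')))
    (fun i => ![X i, Y i, h i 2]) ?_ ?_ ?_ ?_
  · rintro i ⟨w, hw⟩
    refine h1 i ⟨w, fun c => ?_⟩
    obtain ⟨n0, hn0⟩ := hw 0
    obtain ⟨n1, hn1⟩ := hw 1
    obtain ⟨n2, hn2⟩ := hw 2
    fin_cases c
    · refine ⟨n0 * m', ?_⟩
      show h i 0 = pow w (n0 * m')
      rw [pow_mul', hX0 i]
      exact congrArg (fun u => pow u m') hn0
    · refine ⟨n1 * m, ?_⟩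
      show h i 1 = pow w (n1 * m)
      rw [pow_mul', hY0 i]
      exact congrArg (fun u => pow u m) hn1
    · exact ⟨n2, hn2⟩
  · intro i
    show val (![X i, Y i, h i 2] : Fin 3 → List α) [0, 2] = val (![X i, Y i, h i 2] : Fin 3 → List α) [2, 1]
    rw [val_cons', xm_one, val_cons', xm_one]
    exact hXY i
  · intro i j hij
    show val (![X i, Y i, h i 2] : Fin 3 → List α) _ = val (![X i, Y i, h i 2] : Fin 3 → List α) _
    rw [hval, hval]
    exact h3 i j hij
  · intro i hi
    apply h4 i
    change val (![X i, Y i, h i 2] : Fin 3 → List α) _ = val (![X i, Y i, h i 2] : Fin 3 → List α) _ at hi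
    rw [hval, hval] at hi
    exact hi

theorem npb_xm (m m' : ℕ) (hm : 1 ≤ m) (hm' : 1 ≤ m') :
    NPB (List.replicate m 0 ++ [2], [2] ++ List.replicate m' 1) := by
  have hg : 0 < Nat.gcd m m' := Nat.gcd_pos_of_pos_left _ hm
  obtain ⟨k, k', hcop, hk, hk'⟩ := Nat.exists_coprime m m'
  generalize Nat.gcd m m' = g at hg hk hk'
  have hk1 : 1 ≤ k := by
    rcases Nat.eq_zero_or_pos k with h0 | h0
    · rw [h0] at hk
      omega
    · exact h0
  have hk1' : 1 ≤ k' := by
    rcases Nat.eq_zero_or_pos k' with h0 | h0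
    · rw [h0] at hk'
      omega
    · exact h0
  refine (npb_cop k k' hk1 hk1' hcop).mono (fun α h hh => ?_)
  rw [solves_xm] at hh ⊢
  rw [hk, hk', pow_mul', pow_mul'] at hh
  refine root_conj hg _ _ _ (h 2) le_rfl ?_ hh
  have h1 := congrArg List.length hh
  rw [List.length_append, List.length_append, pow_length (pow (h 0) k) g, pow_length (pow (h 1) k') g] at h1
  have h2 : g * (pow (h 0) k).length = g * (pow (h 1) k').length := by omega
  exact Nat.eq_of_mul_eq_mul_left hg h2

theorem npb_xm' (m m' : ℕ) (hm : 1 ≤ m) (hm' : 1 ≤ m') :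
    NPB (List.replicate m 1 ++ [2], [2] ++ List.replicate m' 0) := by
  have h := (npb_xm m m' hm hm').ren (Equiv.swap 0 1)
  have e : ren (Equiv.swap 0 1) (List.replicate m 0 ++ [2], [2] ++ List.replicate m' 1) =
      (List.replicate m 1 ++ [2], [2] ++ List.replicate m' 0) := by
    unfold ren
    simp only [List.map_append, List.map_replicate, List.map_cons, List.map_nil, Equiv.swap_apply_left,
      Equiv.swap_apply_right]
    rfl
  rw [e] at h
  exact h

end Pool.Agent.H70.WE
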