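import Pool.Agent.H70.WB.Core2
import Pool.Agent.H70.WB.XM

/-!
# [H70 WB Fin2] Chains whose first equations imply `A z = z D`, `A, D` words in `x, y`, not both empty
-/

set_option autoImplicit false

namespace Pool.Agent.H70.WE

variable {α : Type}

theorem tob_inj {U V : List (Fin 3)} (hU : (2 : Fin 3) ∉ U) (hV : (2 : Fin 3) ∉ V) (h : tob U = tob V) : U = V := by
  have hb : ∀ W : List (Fin 3), (2 : Fin 3) ∉ W → (tob W).map (fun b => if b then (0 : Fin 3) else 1) = W := by
    intro W hW
    unfold tob
    rw [List.map_map]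
    conv_rhs => rw [← List.map_id W]
    apply List.map_congr_left
    intro c hc
    fin_cases c
    · rfl
    · rfl
    · exact absurd hc hW
  rw [← hb U hU, ← hb V hV, h]

/-- a rotation of the Boolean words is a rotation of the words -/
theorem tob_rot {U V : List (Fin 3)} (hU : (2 : Fin 3) ∉ U) (hV : (2 : Fin 3) ∉ V) (h : Rot (tob U) (tob V)) :
    Rot U V := by
  obtain ⟨X, Y, h1, h2⟩ := h
  have h3 : U.take X.length ++ U.drop X.length = U := List.take_append_drop _ _
  have h4 : tob (U.take X.length) = X := by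
    unfold tob at h1 ⊢
    rw [List.map_take, h1, List.take_left]
  have h5 : tob (U.drop X.length) = Y := by
    unfold tob at h1 ⊢
    rw [List.map_drop, h1, List.drop_left]
  refine ⟨U.take X.length, U.drop X.length, h3.symm, ?_⟩
  apply tob_inj hV
  · intro hh
    rcases List.mem_append.1 hh with hh | hh
    · exact hU (List.mem_of_mem_drop hh)
    · exact hU (List.mem_of_mem_take hh)
  · rw [h2]
    unfold tob at h4 h5 ⊢
    rw [List.map_append, h4, h5]

theorem tob_single {U : List (Fin 3)} (hU : (2 : Fin 3) ∉ U) {c : Bool} (h : tob U = [c]) :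
    U = [if c then 0 else 1] := by
  apply tob_inj hU
  · cases c <;> decide
  · rw [h]
    cases c <;> rfl

/-- a value is empty: `x y = y x` -/
theorem xy_of_nil {h : Fin 3 → List α} {W : List (Fin 3)} (hW2 : (2 : Fin 3) ∉ W) (hW : W ≠ [])
    (he : val h W = []) : Solves h ([0, 1], [1, 0]) := by
  obtain ⟨c, W', rfl⟩ := List.exists_cons_of_ne_nil hW
  rw [val_cons'] at he
  have h1 := (List.append_eq_nil_iff.1 he).1
  show val h [0, 1] = val h [1, 0]
  simp only [val_cons', val_nil', List.append_nil]
  fin_cases c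
  · change h 0 = [] at h1
    rw [h1, List.nil_append, List.append_nil]
  · change h 1 = [] at h1
    rw [h1, List.nil_append, List.append_nil]
  · exact absurd List.mem_cons_self hW2

theorem conj_eq {n r : ℕ} {A D : List (Fin 3)} (hA2 : (2 : Fin 3) ∉ A) (hD2 : (2 : Fin 3) ∉ D)
    (hAD : A ++ D ≠ []) {E : Fin n → List (Fin 3) × List (Fin 3)} (hE : Decreasing α n E)
    (hr : ∀ h : Fin 3 → List α, (∀ i : Fin n, i.val < r → Solves h (E i)) →
      Solves h (A ++ [2], [2] ++ D)) : n ≤ r + 6 := by
  have hr1 : ∀ h : Fin 3 → List α, (∀ i : Fin n, i.val < r → Solves h (E i)) →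
      val h A ++ h 2 = h 2 ++ val h D := by
    intro h hh
    have h1 : val h (A ++ [2]) = val h ([2] ++ D) := hr h hh
    rw [val_append, val_append, val_one'] at h1
    exact h1
  have hlen : ∀ h : Fin 3 → List α, (∀ i : Fin n, i.val < r → Solves h (E i)) →
      (val h A).length = (val h D).length := by
    intro h hh
    have h1 := congrArg List.length (hr1 h hh)
    rw [List.length_append, List.length_append] at h1
    omega
  by_cases hA : A = []
  · have hD : D ≠ [] := by
      intro hD
      apply hAD
      rw [hA, hD]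
      rfl
    refine npb_bound npb_xy hE (fun h hh => xy_of_nil hD2 hD ?_)
    apply List.eq_nil_of_length_eq_zero
    rw [← hlen h hh, hA]
    rfl
  by_cases hD : D = []
  · refine npb_bound npb_xy hE (fun h hh => xy_of_nil hA2 hA ?_)
    apply List.eq_nil_of_length_eq_zero
    rw [hlen h hh, hD]
    rfl
  obtain ⟨C, m, hm, hAC, hC⟩ := prim_root _ A le_rfl hA
  obtain ⟨C', m', hm', hDC, hC'⟩ := prim_root _ D le_rfl hD
  have hC2 : (2 : Fin 3) ∉ C := fun hh => hA2 (by rw [hAC]; exact mem_pow (by omega) hh)
  have hC'2 : (2 : Fin 3) ∉ C' := fun hh => hD2 (by rw [hDC]; exact mem_pow (by omega) hh)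
  have hrep : ∀ (c : Fin 3) (M : ℕ), pow [c] M = List.replicate M c := by
    intro c M
    unfold pow
    rw [List.flatten_replicate_singleton]
  -- conjugate words
  by_cases hcase : Rot C C' ∧ m = m'
  · obtain ⟨⟨C1, C2, h1, h2⟩, h3⟩ := hcase
    subst h3
    obtain ⟨M, rfl⟩ : ∃ M, m = M + 1 := ⟨m - 1, by omega⟩
    have hconj : ∀ N : ℕ, pow (C2 ++ C1) (N + 1) = C2 ++ pow (C1 ++ C2) N ++ C1 := by
      intro N
      induction N with
      | zero => rw [pow_one'', pow_zero', List.append_nil]
      | succ N ih =>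
        rw [pow_add' _ (N + 1) 1, ih, pow_one'', pow_add' _ N 1, pow_one'']
        simp only [List.append_assoc]
    have hUV : A = C1 ++ (C2 ++ pow (C1 ++ C2) M) := by
      rw [hAC, h1, Nat.add_comm M 1, pow_add', pow_one'', List.append_assoc]
    refine conj_all hA2 hA hUV hE (fun h hh => ?_)
    have h4 := hr h hh
    rw [hDC, h2, hconj] at h4
    simpa only [List.append_assoc] using h4
  -- two powers of letters
  by_cases h01 : C = [0] ∧ C' = [1]
  · refine npb_bound (npb_xm m m' hm hm') hE (fun h hh => ?_)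
    have h4 := hr h hh
    rwa [hAC, hDC, h01.1, h01.2, hrep, hrep] at h4
  by_cases h10 : C = [1] ∧ C' = [0]
  · refine npb_bound (npb_xm' m m' hm hm') hE (fun h hh => ?_)
    have h4 := hr h hh
    rwa [hAC, hDC, h10.1, h10.2, hrep, hrep] at h4
  -- otherwise `x y = y x`
  refine npb_bound npb_xy hE (fun h hh => ?_)
  by_contra hxy
  have hxy' : h 0 ++ h 1 ≠ h 1 ++ h 0 := by
    intro h5
    apply hxy
    show val h [0, 1] = val h [1, 0]
    simpa only [val_cons', val_nil', List.append_nil] using h5
  have h4 := hr1 h hh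
  have hl4 := hlen h hh
  rw [hAC, hDC, val_pow, val_pow] at h4 hl4
  rw [bval_tob h C hC2, bval_tob h C' hC'2] at h4
  rcases conj_code hxy' (tob_prim hC2 hC) (tob_prim hC'2 hC') hm hm' h4 with h5 | ⟨c, d, hcd, h5, h6⟩
  · have h7 := tob_rot hC2 hC'2 h5
    apply hcase
    refine ⟨h7, ?_⟩
    obtain ⟨C1, C2, h8, h9⟩ := h7
    have h10 : (val h C).length = (val h C').length := by
      rw [h8, h9, val_append, val_append, List.length_append, List.length_append, Nat.add_comm]
    rw [pow_length, pow_length, ← h10] at hl4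
    have h11 : 0 < (val h C).length := by
      rcases Nat.eq_zero_or_pos (val h C).length with h0 | h0
      · exact absurd (xy_of_nil hC2 (prim_ne hC) (List.eq_nil_of_length_eq_zero h0)) hxy
      · exact h0
    exact Nat.eq_of_mul_eq_mul_right h11 hl4
  · have e1 := tob_single hC2 h5
    have e2 := tob_single hC'2 h6
    cases c <;> cases d
    · exact hcd rfl
    · exact h10 ⟨by simpa using e1, by simpa using e2⟩
    · exact h01 ⟨by simpa using e1, by simpa using e2⟩
    · exact hcd rfl

end Pool.Agent.H70.WE
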