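import Pool.Agent.H70.WB.Lng
import Pool.Agent.H70.WB.Fin2

/-!
# [H70 WB Lngc] First equations all solutions of which have `x y = y x`
-/

set_option autoImplicit false

namespace Pool.Agent.H70.WE

/-- both unknowns `x` and `y` occur in `W` -/
def Both (W : List (Fin 3)) : Prop := (0 : Fin 3) ∈ W ∧ (1 : Fin 3) ∈ W

theorem tob_both {W : List (Fin 3)} (h : Both W) : true ∈ tob W ∧ false ∈ tob W := by
  constructor
  · exact List.mem_map.2 ⟨0, h.1, rfl⟩
  · exact List.mem_map.2 ⟨1, h.2, rfl⟩

theorem tob_first {A C : List (Fin 3)} (hA : (2 : Fin 3) ∉ A) (hC : (2 : Fin 3) ∉ C)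
    (hf : ∀ (c : Fin 3) (A' C' : List (Fin 3)), ¬ (A = c :: A' ∧ C = c :: C')) :
    ∀ (c : Bool) (A' C' : List Bool), ¬ (tob A = c :: A' ∧ tob C = c :: C') := by
  rintro c A' C' ⟨h1, h2⟩
  cases A with
  | nil => cases h1
  | cons a A1 =>
    cases C with
    | nil => cases h2
    | cons b C1 =>
      have e1 : tob (a :: A1) = decide (a = 0) :: tob A1 := rfl
      have e2 : tob (b :: C1) = decide (b = 0) :: tob C1 := rfl
      rw [e1, List.cons_eq_cons] at h1
      rw [e2, List.cons_eq_cons] at h2
      have h3 : decide (a = 0) = decide (b = 0) := h1.1.trans h2.1.symm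
      have ha : a ≠ 2 := fun hh => hA (by rw [hh]; exact List.mem_cons_self)
      have hb : b ≠ 2 := fun hh => hC (by rw [hh]; exact List.mem_cons_self)
      have h4 : (a = 0) ↔ (b = 0) := by simpa using h3
      have h5 : a = b := by omega
      exact hf a A1 C1 ⟨rfl, by rw [h5]⟩

theorem tob_last {B D : List (Fin 3)} (hB : (2 : Fin 3) ∉ B) (hD : (2 : Fin 3) ∉ D)
    (hf : ∀ (c : Fin 3) (B' D' : List (Fin 3)), ¬ (B = B' ++ [c] ∧ D = D' ++ [c])) :
    ∀ (c : Bool) (B' D' : List Bool), ¬ (tob B = B' ++ [c] ∧ tob D = D' ++ [c]) := by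
  rintro c B' D' ⟨h1, h2⟩
  rcases List.eq_nil_or_concat B with hB0 | ⟨B1, b, hB0⟩
  · rw [hB0] at h1
    simp [tob] at h1
  rcases List.eq_nil_or_concat D with hD0 | ⟨D1, d, hD0⟩
  · rw [hD0] at h2
    simp [tob] at h2
  rw [List.concat_eq_append] at hB0 hD0
  have e1 : tob B = tob B1 ++ [decide (b = 0)] := by rw [hB0]; simp [tob]
  have e2 : tob D = tob D1 ++ [decide (d = 0)] := by rw [hD0]; simp [tob]
  rw [e1] at h1
  rw [e2] at h2
  have h3 := (List.append_inj' h1 rfl).2
  have h4 := (List.append_inj' h2 rfl).2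
  have h5 : decide (b = 0) = decide (d = 0) := by
    rw [List.singleton_inj] at h3 h4
    exact h3.trans h4.symm
  have hb : b ≠ 2 := fun hh => hB (by rw [hB0, hh]; simp)
  have hd : d ≠ 2 := fun hh => hD (by rw [hD0, hh]; simp)
  have h6 : (b = 0) ↔ (d = 0) := by simpa using h5
  have h7 : b = d := by omega
  exact hf b B1 D1 ⟨hB0, by rw [hD0, h7]⟩

/-- `A U B = C V D`, words `A, B, C, D` in `x, y`; `A, C` do not begin with the same letter, `B, D` do not end with
the same letter -/
theorem npb_long {A B C D U V : List (Fin 3)} (hA : (2 : Fin 3) ∉ A) (hB : (2 : Fin 3) ∉ B) (hC : (2 : Fin 3) ∉ C)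
    (hD : (2 : Fin 3) ∉ D) (hf : ∀ (c : Fin 3) (A' C' : List (Fin 3)), ¬ (A = c :: A' ∧ C = c :: C'))
    (hl : ∀ (c : Fin 3) (B' D' : List (Fin 3)), ¬ (B = B' ++ [c] ∧ D = D' ++ [c]))
    (hlong : (Both A ∧ Both C) ∨ (Both B ∧ Both D) ∨ (U.Perm V ∧ (Both A ∨ Both D) ∧ (Both C ∨ Both B))) :
    NPB (A ++ U ++ B, C ++ V ++ D) := by
  refine npb_xy.mono (fun α h hh => ?_)
  by_contra hcon
  have hxy : h 0 ++ h 1 ≠ h 1 ++ h 0 := by
    intro h5
    apply hcon
    show val h [0, 1] = val h [1, 0]
    simpa only [val_cons', val_nil', List.append_nil] using h5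
  have heq : val h A ++ val h U ++ val h B = val h C ++ val h V ++ val h D := by
    have h3 : val h (A ++ U ++ B) = val h (C ++ V ++ D) := hh
    rw [val_append, val_append, val_append, val_append] at h3
    exact h3
  have hf' : ∀ (c : Fin 3) (C' A' : List (Fin 3)), ¬ (C = c :: C' ∧ A = c :: A') := fun c C' A' ⟨h1, h2⟩ =>
    hf c A' C' ⟨h2, h1⟩
  have hl' : ∀ (c : Fin 3) (D' B' : List (Fin 3)), ¬ (D = D' ++ [c] ∧ B = B' ++ [c]) := fun c D' B' ⟨h1, h2⟩ =>
    hl c B' D' ⟨h2, h1⟩
  -- the four facts
  have fC : Both C → (val h A).length < (val h C).length := by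
    intro hb
    rw [bval_tob h A hA, bval_tob h C hC] at heq ⊢
    refine long_lt (S := val h U ++ val h B) (T := val h V ++ val h D) hxy (tob_both hb).1 (tob_both hb).2
      (tob_first hA hC hf) ?_
    simpa only [List.append_assoc] using heq
  have fA : Both A → (val h C).length < (val h A).length := by
    intro hb
    rw [bval_tob h A hA, bval_tob h C hC] at heq ⊢
    refine long_lt (S := val h V ++ val h D) (T := val h U ++ val h B) hxy (tob_both hb).1 (tob_both hb).2
      (tob_first hC hA hf') ?_
    simpa only [List.append_assoc] using heq.symm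
  have fB : Both B → (val h D).length < (val h B).length := by
    intro hb
    rw [bval_tob h B hB, bval_tob h D hD] at heq ⊢
    exact long_lt_right (S := val h C ++ val h V) (T := val h A ++ val h U) hxy (tob_both hb).1 (tob_both hb).2
      (tob_last hD hB hl') heq.symm
  have fD : Both D → (val h B).length < (val h D).length := by
    intro hb
    rw [bval_tob h B hB, bval_tob h D hD] at heq ⊢
    exact long_lt_right (S := val h A ++ val h U) (T := val h C ++ val h V) hxy (tob_both hb).1 (tob_both hb).2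
      (tob_last hB hD hl) heq
  rcases hlong with ⟨h1, h2⟩ | ⟨h1, h2⟩ | ⟨hp, h1, h2⟩
  · have := fA h1
    have := fC h2
    omega
  · have := fB h1
    have := fD h2
    omega
  · have hUV : (val h U).length = (val h V).length := by
      unfold val
      rw [List.length_flatMap, List.length_flatMap]
      exact (hp.map _).sum_eq
    have hlen := congrArg List.length heq
    simp only [List.length_append] at hlen
    rcases h1 with h1 | h1 <;> rcases h2 with h2 | h2
    · have := fA h1
      have := fC h2
      omega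
    · have := fA h1
      have := fB h2
      omega
    · have := fD h1
      have := fC h2
      omega
    · have := fD h1
      have := fB h2
      omega

end Pool.Agent.H70.WE
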