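import Pool.Agent.H70.WB.Bas
import Pool.Agent.H70.WB.Lngc

/-!
# [H70 WB Fin3] Chains whose first equations imply `A z B = C z D`
-/

set_option autoImplicit false

namespace Pool.Agent.H70.WE

/-- Conditions on the words `A, B, C, D` in `x, y` of the equation `A z B = C z D`:
* `B` and `C` are empty, `A` and `D` are not both empty;
* `C⁻¹ A` and `D B⁻¹` are not conjugate in the free group on `x, y`;
* `A` contains more `x` and more `y` than `C`, and `C⁻¹ A` is not a power of an element which generates the free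
  group on `x, y` together with some other element;
* the equation is `U V (G z H) = (G z H) V U` and `U V` is not a power of a word in which `x` or `y` occurs at most
  once;
* `A, C` do not begin with the same letter, `B, D` do not end with the same letter, both `x` and `y` occur in `A` or in
  `D`, and both occur in `C` or in `B`. -/
def Tame (A B C D : List (Fin 3)) : Prop :=
  (B = [] ∧ C = [] ∧ A ++ D ≠ []) ∨
  (¬ IsConj ((fw C)⁻¹ * fw A) (fw D * (fw B)⁻¹)) ∨
  (C.count 0 < A.count 0 ∧ C.count 1 < A.count 1 ∧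
    ∀ (ρ κ : FreeGroup (Fin 2)) (m : ℕ), Subgroup.closure {ρ, κ} = ⊤ → (fw C)⁻¹ * fw A ≠ ρ ^ m) ∨
  (∃ U V G H : List (Fin 3), A = U ++ V ++ G ∧ B = H ∧ C = G ∧ D = H ++ V ++ U ∧ Rich (U ++ V)) ∨
  ((∀ (c : Fin 3) (A' C' : List (Fin 3)), ¬ (A = c :: A' ∧ C = c :: C')) ∧
    (∀ (c : Fin 3) (B' D' : List (Fin 3)), ¬ (B = B' ++ [c] ∧ D = D' ++ [c])) ∧
    (Both A ∨ Both D) ∧ (Both C ∨ Both B))

theorem npb_tame {A B C D : List (Fin 3)} (hA : (2 : Fin 3) ∉ A) (hB : (2 : Fin 3) ∉ B) (hC : (2 : Fin 3) ∉ C)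
    (hD : (2 : Fin 3) ∉ D) (h : Tame A B C D) : NPB (A ++ [2] ++ B, C ++ [2] ++ D) := by
  rcases h with ⟨h1, h2, h3⟩ | hn | ⟨h0, h1, hn⟩ | ⟨U, V, G, H, e1, e2, e3, e4, hR⟩ | ⟨hf, hl, h1, h2⟩
  · have h4 := npb_conj hA hD h3
    rw [h1, h2, List.append_nil, List.nil_append]
    exact h4
  · by_cases hb : ∀ c : Fin 3, (A ++ B).count c = (C ++ D).count c
    · exact npb_nc hA hB hC hD hb hn
    · push Not at hb
      exact npb_unbal hA hB hC hD hb
  · by_cases hb : ∀ c : Fin 3, (A ++ B).count c = (C ++ D).count c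
    · exact npb_bas hA hB hC hD hb h0 h1 hn
    · push Not at hb
      exact npb_unbal hA hB hC hD hb
  · have hUV : (2 : Fin 3) ∉ U ++ V := fun hh => hA (e1 ▸ List.mem_append_left _ hh)
    have hG : (2 : Fin 3) ∉ G := e3 ▸ hC
    have hH : (2 : Fin 3) ∉ H := e2 ▸ hB
    have h4 := npb_tw hUV hG hH rfl hR
    rw [e1, e2, e3, e4]
    simpa only [List.append_assoc] using h4
  · exact npb_long hA hB hC hD hf hl (Or.inr (Or.inr ⟨List.Perm.refl _, h1, h2⟩))

theorem tame_bound {α : Type} {n r : ℕ} {E : Fin n → List (Fin 3) × List (Fin 3)} {A B C D : List (Fin 3)}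
    (hE : Decreasing α n E) (hA : (2 : Fin 3) ∉ A) (hB : (2 : Fin 3) ∉ B) (hC : (2 : Fin 3) ∉ C)
    (hD : (2 : Fin 3) ∉ D) (h : Tame A B C D)
    (hr : ∀ h : Fin 3 → List α, (∀ i : Fin n, i.val < r → Solves h (E i)) →
      Solves h (A ++ [2] ++ B, C ++ [2] ++ D)) : n ≤ r + 6 :=
  npb_bound (npb_tame hA hB hC hD h) hE hr

end Pool.Agent.H70.WE
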