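import Pool.Agent.H70.WB.Fx

/-!
# [H70 WB Fin5] Chains whose first equations imply `A z B = C z D`
-/

set_option autoImplicit false

namespace Pool.Agent.H70.WE

open Pool.Agent.H93.TW

/-- `W u^k z u^(l+e) = u^(e+k) z u^l W`, where `{u, s} = {x, y}`, `W` starts and ends with `s`, contains `s` at least
twice and `u` at most `e` times -/
def Exc1 (A B C D : List (Fin 3)) : Prop :=
  ∃ (u s : Fin 3) (e k l : ℕ) (W : List (Fin 3)), u ≠ s ∧ u ≠ 2 ∧ s ≠ 2 ∧ 1 ≤ e ∧ (∃ V, W = s :: V) ∧
    (∃ V, W = V ++ [s]) ∧ 2 ≤ W.count s ∧ W.count u ≤ e ∧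
    A = W ++ List.replicate k u ∧ B = List.replicate l u ++ List.replicate e u ∧
    C = List.replicate e u ++ List.replicate k u ∧ D = List.replicate l u ++ W

/-- up to the order of the sides and up to a common first part `G` and a common last part `H` -/
def Exc (A B C D : List (Fin 3)) : Prop :=
  ∃ G H A' B' C' D' : List (Fin 3), A = G ++ A' ∧ B = B' ++ H ∧ C = G ++ C' ∧ D = D' ++ H ∧
    (Exc1 A' B' C' D' ∨ Exc1 C' D' A' B')

theorem red_main' {A B C D : List (Fin 3)} (hA : (2 : Fin 3) ∉ A) (hB : (2 : Fin 3) ∉ B)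
    (hC : (2 : Fin 3) ∉ C) (hD : (2 : Fin 3) ∉ D) (nA : A ≠ []) (nB : B ≠ []) (nC : C ≠ [])
    (hf : ∀ (c : Fin 3) (A' C' : List (Fin 3)), ¬ (A = c :: A' ∧ C = c :: C'))
    (hl : ∀ (c : Fin 3) (B' D' : List (Fin 3)), ¬ (B = B' ++ [c] ∧ D = D' ++ [c]))
    (hPQ : IsConj ((fw C)⁻¹ * fw A) (fw D * (fw B)⁻¹)) (bC : ¬ Both C) (bB : ¬ Both B) :
    NPB (A ++ [2] ++ B, C ++ [2] ++ D) ∨ Exc1 A B C D := by
  obtain ⟨r, hr, eC⟩ := one_kind hC nC bC
  obtain ⟨u, hu, eB⟩ := one_kind hB nB bB
  obtain ⟨c, hc⟩ : ∃ c, c = C.length := ⟨_, rfl⟩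
  obtain ⟨b, hb⟩ : ∃ b, b = B.length := ⟨_, rfl⟩
  rw [← hc] at eC
  rw [← hb] at eB
  have hc1 : 1 ≤ c := by
    rw [hc]
    exact List.length_pos_iff.2 nC
  obtain ⟨s, A1, eA⟩ := List.exists_cons_of_ne_nil nA
  have hs : s ≠ 2 := fun h => hA (by rw [eA, h]; exact List.mem_cons_self)
  have hrs : r ≠ s := by
    rintro rfl
    obtain ⟨c', rfl⟩ : ∃ c', c = c' + 1 := ⟨c - 1, by omega⟩
    exact hf r A1 (List.replicate c' r) ⟨eA, by rw [eC, List.replicate_succ]⟩
  obtain ⟨A', k, e1, e2⟩ := cut_last r A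
  have hA'2 : (2 : Fin 3) ∉ A' := fun hh => hA (by rw [e1]; exact List.mem_append_left _ hh)
  have hA's : ∃ V, A' = s :: V := by
    cases A' with
    | nil =>
      exfalso
      rw [List.nil_append, eA] at e1
      cases k with
      | zero => simp at e1
      | succ k =>
        rw [List.replicate_succ, List.cons.injEq] at e1
        exact hrs e1.1.symm
    | cons x V =>
      rw [eA, List.cons_append, List.cons.injEq] at e1
      exact ⟨V, by rw [e1.1]⟩
  have hA'l : ∃ V, A' = V ++ [s] := by
    have hne : A' ≠ [] := by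
      obtain ⟨V, rfl⟩ := hA's
      simp
    obtain ⟨V, x, hx⟩ : ∃ V x, A' = V ++ [x] := ⟨A'.dropLast, A'.getLast hne, (List.dropLast_append_getLast hne).symm⟩
    have hx2 : x ≠ 2 := fun h => hA'2 (by rw [hx, h]; simp)
    have hxr : x ≠ r := fun h => e2 V (by rw [hx, h])
    have hxs : x = s := by
      rcases rs_cases hrs hr hs with ⟨f1, f2⟩ | ⟨f1, f2⟩ <;> rw [f1] at hxr <;> rw [f2] <;> revert hx2 hxr <;>
        clear * - <;> fin_cases x <;> decide
    exact ⟨V, by rw [hx, hxs]⟩
  rcases Nat.lt_or_ge k c with hk | hk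
  · obtain ⟨e, rfl⟩ : ∃ e, c = e + k := ⟨c - k, by omega⟩
    have he : 1 ≤ e := by omega
    have hconj : IsConj ((fw (List.replicate e r))⁻¹ * fw A') ((fw C)⁻¹ * fw A) := by
      rw [isConj_iff]
      refine ⟨(fw (List.replicate k r))⁻¹, ?_⟩
      rw [eC, e1, List.replicate_add, fw_append, fw_append]
      group
    obtain ⟨e', rfl⟩ : ∃ e', e = e' + 1 := ⟨e - 1, by omega⟩
    obtain ⟨μ, m1, m2⟩ := cj_rightG (A0 := A') (C0 := List.replicate (e' + 1) r) hA'2 (not_mem_rep hr _) hB hD
      (by obtain ⟨V, hV⟩ := hA's; rw [hV]; simp) (by simp)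
      (by
        rintro x V V' ⟨g1, g2⟩
        obtain ⟨V0, hV0⟩ := hA's
        rw [hV0, List.cons.injEq] at g1
        rw [List.replicate_succ, List.cons.injEq] at g2
        exact hrs (g2.1.trans g1.1.symm))
      (by
        rintro x V V' ⟨g1, g2⟩
        obtain ⟨V0, hV0⟩ := hA'l
        rw [hV0] at g1
        rw [List.replicate_succ'] at g2
        have g3 := (List.append_inj' g1 rfl).2
        have g4 := (List.append_inj' g2 rfl).2
        simp only [List.cons.injEq, and_true] at g3 g4
        exact hrs (g4.trans g3.symm))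
      hl (hconj.trans hPQ)
    have hμ : μ = List.replicate μ.length r := by
      have hru : r = u := by
        have h3 : r ∈ B := by
          rw [m2]
          exact List.mem_append_right _ (by simp)
        rw [eB] at h3
        exact List.eq_of_mem_replicate h3
      refine List.eq_replicate_of_mem (fun x hx => ?_)
      have h3 : x ∈ B := by
        rw [m2]
        exact List.mem_append_left _ hx
      rw [eB] at h3
      rw [hru]
      exact List.eq_of_mem_replicate h3
    have hrep : List.replicate (e' + 1 + k) r = List.replicate (e' + 1) r ++ List.replicate k r := by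
      rw [List.replicate_append_replicate]
    have hB' : B = List.replicate μ.length r ++ List.replicate (e' + 1) r := by
      rw [m2]
      exact congrArg (· ++ List.replicate (e' + 1) r) hμ
    have hD' : D = List.replicate μ.length r ++ A' := by
      rw [m1]
      exact congrArg (· ++ A') hμ
    have hC' : C = List.replicate (e' + 1) r ++ List.replicate k r := by
      rw [eC, hrep]
    by_cases hcnt : 2 ≤ A'.count s ∧ A'.count r ≤ e' + 1
    · exact Or.inr ⟨r, s, e' + 1, k, μ.length, A', hrs, hr, hs, by omega, hA's, hA'l, hcnt.1, hcnt.2, e1, hB', hC', hD'⟩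
    · left
      have ns : 1 ≤ A'.count s := by
        obtain ⟨V, hV⟩ := hA's
        rw [hV]
        exact List.count_pos_iff.2 List.mem_cons_self
      have nr : (List.replicate (e' + 1) r).count s = 0 := by
        rw [List.count_eq_zero]
        intro hh
        exact hrs (List.eq_of_mem_replicate hh).symm
      have nrk : ∀ k, (List.replicate k r).count s = 0 := by
        intro k
        rw [List.count_eq_zero]
        intro hh
        exact hrs (List.eq_of_mem_replicate hh).symm
      by_cases hs2 : 2 ≤ A'.count s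
      · have hr2 : e' + 1 < A'.count r := by
          by_contra hcon
          exact hcnt ⟨hs2, by omega⟩
        have hrmem : r ∈ A' := List.count_pos_iff.1 (by omega)
        have hnb := (nonb_r2 hrs hr hs (e := e' + 1) (by omega) hA'2 hA's hA'l (Or.inl hrmem)).conj hconj
        have hgt : C.count r < A.count r ∧ C.count s < A.count s := by
          rw [hC', e1, List.count_append, List.count_append, List.count_append, List.count_append, nrk, nrk,
            List.count_replicate_self, List.count_replicate_self]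
          omega
        by_cases hbal : ∀ c : Fin 3, (A ++ B).count c = (C ++ D).count c
        · rcases rs_cases hrs hr hs with ⟨f1, f2⟩ | ⟨f1, f2⟩
          · rw [f1, f2] at hgt
            exact npb_bas hA hB hC hD hbal hgt.1 hgt.2 hnb
          · rw [f1, f2] at hgt
            exact npb_bas hA hB hC hD hbal hgt.2 hgt.1 hnb
        · push Not at hbal
          exact npb_unbal hA hB hC hD hbal
      · -- `s` once on each side
        have c2 : ∀ U : List (Fin 3), (2 : Fin 3) ∉ U → U.count 2 = 0 := fun U hU => List.count_eq_zero.2 hU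
        have c3 : ([2] : List (Fin 3)).count s = 0 := by
          rw [List.count_eq_zero]
          simpa using hs
        refine npb_two hs ?_ ?_ ?_ ?_ ?_
        · intro h0
          rw [eA, hC', List.replicate_succ] at h0
          simp only [List.cons_append, List.cons.injEq] at h0
          exact hrs h0.1.symm
        · rw [hB', e1, List.count_append, List.count_append, List.count_append, List.count_append, nrk, nrk, nrk, c3]
          omega
        · rw [List.count_append, List.count_append, c2 _ hA, c2 _ hB]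
          simp
        · rw [hC', hD', List.count_append, List.count_append, List.count_append, List.count_append, nrk, nrk, nrk, c3]
          omega
        · rw [List.count_append, List.count_append, c2 _ hC, c2 _ hD]
          simp
  · obtain ⟨k', rfl⟩ : ∃ k', k = k' + c := ⟨k - c, by omega⟩
    left
    refine posi_npb hA hB hC hD ⟨A' ++ List.replicate k' r, ?_, ?_, Or.inl ?_⟩
    · rw [List.mem_append]
      rintro (h | h)
      · exact hA'2 h
      · exact not_mem_rep hr _ h
    · obtain ⟨V, hV⟩ := hA's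
      rw [hV]
      simp
    · rw [isConj_iff]
      refine ⟨fw C, ?_⟩
      rw [e1, eC, List.replicate_add, ← List.append_assoc, fw_append]
      group

theorem red_all' {A B C D : List (Fin 3)} (hA : (2 : Fin 3) ∉ A) (hB : (2 : Fin 3) ∉ B)
    (hC : (2 : Fin 3) ∉ C) (hD : (2 : Fin 3) ∉ D) (hne : A ++ [2] ++ B ≠ C ++ [2] ++ D)
    (hf : ∀ (c : Fin 3) (A' C' : List (Fin 3)), ¬ (A = c :: A' ∧ C = c :: C'))
    (hl : ∀ (c : Fin 3) (B' D' : List (Fin 3)), ¬ (B = B' ++ [c] ∧ D = D' ++ [c])) :
    NPB (A ++ [2] ++ B, C ++ [2] ++ D) ∨ Exc1 A B C D ∨ Exc1 C D A B := by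
  by_cases hbal : ∀ c : Fin 3, (A ++ B).count c = (C ++ D).count c
  swap
  · push Not at hbal
    exact Or.inl (npb_unbal hA hB hC hD hbal)
  by_cases hPQ : IsConj ((fw C)⁻¹ * fw A) (fw D * (fw B)⁻¹)
  swap
  · exact Or.inl (npb_nc hA hB hC hD hbal hPQ)
  have one_of : ∀ P : FreeGroup (Fin 2), IsConj (1 : FreeGroup (Fin 2)) P → P = 1 := by
    intro P hP
    obtain ⟨c, hc⟩ := isConj_iff.1 hP
    rw [← hc]
    group
  by_cases nA : A = []
  · by_cases nC : C = []
    · exfalso
      rw [nA, nC, fw_nil, inv_one, mul_one] at hPQ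
      have h1 := one_of _ hPQ
      have h2 : fw D = fw B := mul_inv_eq_one.1 h1
      have h3 := fw_inj hD hB h2
      apply hne
      rw [nA, nC, h3]
    · left
      refine posi_npb hA hB hC hD ⟨C, hC, nC, Or.inr ?_⟩
      rw [nA, fw_nil, mul_one, inv_inv]
  by_cases nC : C = []
  · left
    refine posi_npb hA hB hC hD ⟨A, hA, nA, Or.inl ?_⟩
    rw [nC, fw_nil, inv_one, one_mul]
  by_cases nB : B = []
  · by_cases nD : D = []
    · exfalso
      rw [nB, nD, fw_nil, inv_one, mul_one] at hPQ
      have h1 := one_of _ hPQ.symm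
      have h2 : fw C = fw A := inv_mul_eq_one.1 h1
      have h3 := fw_inj hC hA h2
      apply hne
      rw [nB, nD, h3]
    · left
      refine posi_npb hA hB hC hD ⟨D, hD, nD, Or.inl ?_⟩
      rw [nB, fw_nil, inv_one, mul_one] at hPQ
      exact hPQ
  by_cases nD : D = []
  · left
    refine posi_npb hA hB hC hD ⟨B, hB, nB, Or.inr ?_⟩
    rw [nD, fw_nil, one_mul] at hPQ
    obtain ⟨c, hc⟩ := isConj_iff.1 hPQ
    rw [isConj_iff]
    refine ⟨c, ?_⟩
    have h1 := congrArg (fun g => g⁻¹) hc
    simp only [inv_inv] at h1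
    rw [← h1]
    group
  by_cases hb1 : Both C ∨ Both B
  · by_cases hb2 : Both A ∨ Both D
    · exact Or.inl (npb_long hA hB hC hD hf hl (Or.inr (Or.inr ⟨List.Perm.refl _, hb2, hb1⟩)))
    · push Not at hb2
      have hQP : IsConj ((fw A)⁻¹ * fw C) (fw B * (fw D)⁻¹) := by
        obtain ⟨c, hc⟩ := isConj_iff.1 hPQ
        rw [isConj_iff]
        refine ⟨c, ?_⟩
        have h1 := congrArg (fun g => g⁻¹) hc
        simp only [mul_inv_rev, inv_inv] at h1
        rw [← h1]
        group
      rcases red_main' hC hD hA hB nC nD nA (fun c A' C' ⟨g1, g2⟩ => hf c C' A' ⟨g2, g1⟩)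
        (fun c B' D' ⟨g1, g2⟩ => hl c D' B' ⟨g2, g1⟩) hQP hb2.1 hb2.2 with h | h
      · exact Or.inl h.swap
      · exact Or.inr (Or.inr h)
  · push Not at hb1
    rcases red_main' hA hB hC hD nA nB nC hf hl hPQ hb1.1 hb1.2 with h | h
    · exact Or.inl h
    · exact Or.inr (Or.inl h)

theorem once_npb : ∀ (N : ℕ) (A B C D : List (Fin 3)), A.length + B.length ≤ N → (2 : Fin 3) ∉ A →
    (2 : Fin 3) ∉ B → (2 : Fin 3) ∉ C → (2 : Fin 3) ∉ D → A ++ [2] ++ B ≠ C ++ [2] ++ D →
    NPB (A ++ [2] ++ B, C ++ [2] ++ D) ∨ Exc A B C D := by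
  have base : ∀ (A B C D : List (Fin 3)), (2 : Fin 3) ∉ A →
      (2 : Fin 3) ∉ B → (2 : Fin 3) ∉ C → (2 : Fin 3) ∉ D → A ++ [2] ++ B ≠ C ++ [2] ++ D →
      (∀ (c : Fin 3) (A' C' : List (Fin 3)), ¬ (A = c :: A' ∧ C = c :: C')) →
      (∀ (c : Fin 3) (B' D' : List (Fin 3)), ¬ (B = B' ++ [c] ∧ D = D' ++ [c])) →
      NPB (A ++ [2] ++ B, C ++ [2] ++ D) ∨ Exc A B C D := by
    intro A B C D hA hB hC hD hne hf hl
    rcases red_all' hA hB hC hD hne hf hl with h | h | h
    · exact Or.inl h
    · exact Or.inr ⟨[], [], A, B, C, D, rfl, (List.append_nil _).symm, rfl, (List.append_nil _).symm, Or.inl h⟩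
    · exact Or.inr ⟨[], [], A, B, C, D, rfl, (List.append_nil _).symm, rfl, (List.append_nil _).symm, Or.inr h⟩
  intro N
  induction N with
  | zero =>
    intro A B C D hN hA hB hC hD hne
    have hA0 : A = [] := List.eq_nil_of_length_eq_zero (by omega)
    have hB0 : B = [] := List.eq_nil_of_length_eq_zero (by omega)
    refine base A B C D hA hB hC hD hne ?_ ?_
    · rintro c A' C' ⟨h1, -⟩
      rw [hA0] at h1
      cases h1
    · rintro c B' D' ⟨h1, -⟩
      rw [hB0] at h1
      have := congrArg List.length h1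
      simp at this
  | succ N ih =>
    intro A B C D hN hA hB hC hD hne
    by_cases h1 : ∃ (c : Fin 3) (A' C' : List (Fin 3)), A = c :: A' ∧ C = c :: C'
    · obtain ⟨c, A', C', rfl, rfl⟩ := h1
      rcases ih A' B C' D (by simp only [List.length_cons] at hN; omega) (fun hh => hA (List.mem_cons_of_mem _ hh)) hB
        (fun hh => hC (List.mem_cons_of_mem _ hh)) hD (by
          intro h2
          apply hne
          simp only [List.cons_append, h2]) with h | h
      · exact Or.inl (h.mono (fun α h hh => solves_head hh))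
      · obtain ⟨G, H, A1, B1, C1, D1, g1, g2, g3, g4, g5⟩ := h
        exact Or.inr ⟨c :: G, H, A1, B1, C1, D1, by rw [g1]; rfl, g2, by rw [g3]; rfl, g4, g5⟩
    by_cases h2 : ∃ (c : Fin 3) (B' D' : List (Fin 3)), B = B' ++ [c] ∧ D = D' ++ [c]
    · obtain ⟨c, B', D', rfl, rfl⟩ := h2
      rcases ih A B' C D' (by simp only [List.length_append, List.length_singleton] at hN; omega) hA
        (fun hh => hB (List.mem_append_left _ hh)) hC (fun hh => hD (List.mem_append_left _ hh)) (by
          intro h3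
          apply hne
          rw [← List.append_assoc, ← List.append_assoc, h3]) with h | h
      · exact Or.inl (h.mono (fun α h hh => solves_last hh))
      · obtain ⟨G, H, A1, B1, C1, D1, g1, g2, g3, g4, g5⟩ := h
        exact Or.inr ⟨G, H ++ [c], A1, B1, C1, D1, g1, by rw [g2, List.append_assoc], g3,
          by rw [g4, List.append_assoc], g5⟩
    exact base A B C D hA hB hC hD hne (fun c A' C' hh => h1 ⟨c, A', C', hh⟩) (fun c B' D' hh => h2 ⟨c, B', D', hh⟩)

theorem once_bound {α : Type} {n r : ℕ} {E : Fin n → List (Fin 3) × List (Fin 3)} {A B C D : List (Fin 3)}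
    (hE : Decreasing α n E) (hA : (2 : Fin 3) ∉ A) (hB : (2 : Fin 3) ∉ B) (hC : (2 : Fin 3) ∉ C)
    (hD : (2 : Fin 3) ∉ D) (hne : A ++ [2] ++ B ≠ C ++ [2] ++ D)
    (hr : ∀ h : Fin 3 → List α, (∀ i : Fin n, i.val < r → Solves h (E i)) →
      Solves h (A ++ [2] ++ B, C ++ [2] ++ D)) : n ≤ r + 12 ∧ (¬ Exc A B C D → n ≤ r + 6) := by
  refine ⟨three_bound (once_three _ A B C D le_rfl hA hB hC hD hne) hE hr, fun hx => ?_⟩
  rcases once_npb _ A B C D le_rfl hA hB hC hD hne with h | h
  · exact npb_bound h hE hr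
  · exact absurd h hx

end Pool.Agent.H70.WE
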