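import Pool.Agent.H70.WB.Fin5

/-!
# [H70 WB Fin6] Chains whose first equations imply an equation in which an unknown occurs at most once on each side
-/

set_option autoImplicit false

namespace Pool.Agent.H70.WE

open Pool.Agent.H93.TW

theorem npb_zero {A C : List (Fin 3)} (hA : (2 : Fin 3) ∉ A) (hC : (2 : Fin 3) ∉ C) (hne : A ≠ C) : NPB (A, C) := by
  refine npb_xy.mono (fun α h hh => ?_)
  by_contra hcon
  have hxy : h 0 ++ h 1 ≠ h 1 ++ h 0 := by
    intro h5
    apply hcon
    show val h [0, 1] = val h [1, 0]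
    simpa only [val_cons', val_nil', List.append_nil] using h5
  have h2 : val h A = val h C := hh
  rw [bval_tob h A hA, bval_tob h C hC] at h2
  exact hne (tob_inj hA hC (bval_inj hxy h2))

theorem npb_one {A B C : List (Fin 3)} (hA : (2 : Fin 3) ∉ A) (hB : (2 : Fin 3) ∉ B) (hC : (2 : Fin 3) ∉ C) :
    NPB (A ++ [2] ++ B, C) := by
  intro α E h k1 k2 k3 k4
  have heq : ∀ i, val (h i) A ++ h i 2 ++ val (h i) B = val (h i) C := by
    intro i
    have h3 : val (h i) (A ++ [2] ++ B) = val (h i) C := k2 i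
    rw [val_append, val_append, val_one'] at h3
    exact h3
  have hxy : ∀ i, h i 0 ++ h i 1 ≠ h i 1 ++ h i 0 := by
    intro i hc
    apply k1 i
    obtain ⟨w, a, b, h0, h1⟩ := comm_pow _ _ hc
    change h i 0 = pow w a at h0
    change h i 1 = pow w b at h1
    have h3 := heq i
    rw [val_pow_of_comm h0 h1 hA, val_pow_of_comm h0 h1 hB, val_pow_of_comm h0 h1 hC] at h3
    obtain ⟨n, hn⟩ := mid_pow h3
    refine ⟨w, fun d => ?_⟩
    fin_cases d
    · exact ⟨a, h0⟩
    · exact ⟨b, h1⟩
    · exact ⟨n, hn⟩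
  have hζ : ∀ i, phi (h i) ((fw A)⁻¹ * fw C * (fw B)⁻¹) = io (h i 2) := by
    intro i
    have h3 := congrArg io (heq i)
    rw [io_append, io_append] at h3
    rw [map_mul, map_mul, map_inv, map_inv, phi_fw hA, phi_fw hB, phi_fw hC, ← h3]
    group
  have h5 := (solves_phi (F := E 0) (hxy 1) (hζ 1)).1 (k3 1 0 (by decide))
  exact k4 0 ((solves_phi (F := E 0) (hxy 0) (hζ 0)).2 h5)

theorem split_one {U : List (Fin 3)} (h : U.count 2 ≤ 1) :
    (2 : Fin 3) ∉ U ∨ ∃ A B : List (Fin 3), (2 : Fin 3) ∉ A ∧ (2 : Fin 3) ∉ B ∧ U = A ++ [2] ++ B := by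
  by_cases hU : (2 : Fin 3) ∈ U
  · right
    obtain ⟨A, B, hAB⟩ := List.append_of_mem hU
    rw [hAB, List.count_append, List.count_cons_self] at h
    exact ⟨A, B, List.count_eq_zero.1 (by omega), List.count_eq_zero.1 (by omega), by rw [hAB]; simp⟩
  · exact Or.inl hU

theorem z_three {α : Type} {F : List (Fin 3) × List (Fin 3)} (hne : F.1 ≠ F.2) (h1 : F.1.count 2 ≤ 1)
    (h2 : F.2.count 2 ≤ 1) : Three α F := by
  obtain ⟨U, V⟩ := F
  simp only at hne h1 h2
  rcases split_one h1 with hU | ⟨A, B, hA, hB, rfl⟩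
  · rcases split_one h2 with hV | ⟨C, D, hC, hD, rfl⟩
    · exact (npb_zero hU hV hne).three
    · exact (npb_one hC hD hU).swap.three
  · rcases split_one h2 with hV | ⟨C, D, hC, hD, rfl⟩
    · exact (npb_one hA hB hV).three
    · exact once_three _ A B C D le_rfl hA hB hC hD hne

theorem val_map' {α : Type} (g : Fin 3 → List α) (σ : Fin 3 → Fin 3) (U : List (Fin 3)) :
    val g (U.map σ) = val (fun c => g (σ c)) U := by
  unfold val
  rw [List.flatMap_map]

/-- some unknown `c` occurs at most once on each side -/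
theorem any_bound {α : Type} {n r : ℕ} {E : Fin n → List (Fin 3) × List (Fin 3)} {F : List (Fin 3) × List (Fin 3)}
    (c : Fin 3) (hE : Decreasing α n E) (hne : F.1 ≠ F.2) (h1 : F.1.count c ≤ 1) (h2 : F.2.count c ≤ 1)
    (hr : ∀ h : Fin 3 → List α, (∀ i : Fin n, i.val < r → Solves h (E i)) → Solves h F) : n ≤ r + 12 := by
  obtain ⟨σ, hσ⟩ : ∃ σ : Equiv.Perm (Fin 3), σ = Equiv.swap c 2 := ⟨_, rfl⟩
  have hσc : σ c = 2 := by rw [hσ, Equiv.swap_apply_left]
  have hσσ : ∀ d, σ (σ d) = d := by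
    intro d
    rw [hσ, Equiv.swap_apply_self]
  have hcnt : ∀ U : List (Fin 3), (U.map σ).count 2 = U.count c := by
    intro U
    rw [← hσc]
    exact List.count_map_of_injective U σ σ.injective c
  refine three_bound (α := α) (F := (F.1.map σ, F.2.map σ)) (E := fun i => ((E i).1.map σ, (E i).2.map σ))
    (z_three ?_ ?_ ?_) ?_ ?_
  · intro h
    exact hne (List.map_injective_iff.2 σ.injective h)
  · show (F.1.map σ).count 2 ≤ 1
    rw [hcnt]
    exact h1
  · show (F.2.map σ).count 2 ≤ 1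
    rw [hcnt]
    exact h2
  · intro i
    obtain ⟨h, hs, hn⟩ := hE i
    have hg : ∀ U : List (Fin 3), val (fun d => h (σ d)) (U.map σ) = val h U := by
      intro U
      rw [val_map']
      congr 1
      funext d
      rw [hσσ]
    refine ⟨fun d => h (σ d), fun j hj => ?_, fun hh => hn ?_⟩
    · show val _ ((E j).1.map σ) = val _ ((E j).2.map σ)
      rw [hg, hg]
      exact hs j hj
    · have h3 : val (fun d => h (σ d)) ((E i).1.map σ) = val (fun d => h (σ d)) ((E i).2.map σ) := hh
      rw [hg, hg] at h3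
      exact h3
  · intro g hg
    show val g (F.1.map σ) = val g (F.2.map σ)
    rw [val_map', val_map']
    refine hr (fun d => g (σ d)) (fun i hi => ?_)
    have h3 : val g ((E i).1.map σ) = val g ((E i).2.map σ) := hg i hi
    rw [val_map', val_map'] at h3
    exact h3

end Pool.Agent.H70.WE
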