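import Pool.Agent.H70.WB.Fin6

/-!
# [H70 WB Fin7] The bound `r + 6` outside one family of equations
-/

set_option autoImplicit false

namespace Pool.Agent.H70.WE

/-- `F`, or `F` with its sides exchanged, is `G W u^k c u^(l+e) H = G u^(e+k) c u^l W H`, where `u, s` are the unknowns
other than `c`, `e ≥ 1`, and `W` starts and ends with `s`, contains `s` at least twice and `u` at most `e` times -/
def ExcF (c : Fin 3) (F : List (Fin 3) × List (Fin 3)) : Prop :=
  ∃ (u s : Fin 3) (e k l : ℕ) (G H W : List (Fin 3)), u ≠ s ∧ u ≠ c ∧ s ≠ c ∧ 1 ≤ e ∧ (∃ V, W = s :: V) ∧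
    (∃ V, W = V ++ [s]) ∧ 2 ≤ W.count s ∧ W.count u ≤ e ∧
    (F = (G ++ W ++ List.replicate k u ++ [c] ++ List.replicate (l + e) u ++ H,
        G ++ List.replicate (e + k) u ++ [c] ++ List.replicate l u ++ W ++ H) ∨
      F = (G ++ List.replicate (e + k) u ++ [c] ++ List.replicate l u ++ W ++ H,
        G ++ W ++ List.replicate k u ++ [c] ++ List.replicate (l + e) u ++ H))

theorem exc_excF {A B C D : List (Fin 3)} (h : Exc A B C D) : ExcF 2 (A ++ [2] ++ B, C ++ [2] ++ D) := by
  obtain ⟨G, H, A', B', C', D', rfl, rfl, rfl, rfl, h | h⟩ := h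
  · obtain ⟨u, s, e, k, l, W, h1, h2, h3, h4, h5, h6, h7, h8, rfl, rfl, rfl, rfl⟩ := h
    refine ⟨u, s, e, k, l, G, H, W, h1, h2, h3, h4, h5, h6, h7, h8, Or.inl ?_⟩
    rw [← List.replicate_append_replicate (n := l) (m := e), ← List.replicate_append_replicate (n := e) (m := k)]
    simp only [List.append_assoc]
  · obtain ⟨u, s, e, k, l, W, h1, h2, h3, h4, h5, h6, h7, h8, rfl, rfl, rfl, rfl⟩ := h
    refine ⟨u, s, e, k, l, G, H, W, h1, h2, h3, h4, h5, h6, h7, h8, Or.inr ?_⟩
    rw [← List.replicate_append_replicate (n := l) (m := e), ← List.replicate_append_replicate (n := e) (m := k)]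
    simp only [List.append_assoc]

theorem z_npb {F : List (Fin 3) × List (Fin 3)} (hne : F.1 ≠ F.2) (h1 : F.1.count 2 ≤ 1)
    (h2 : F.2.count 2 ≤ 1) (hx : ¬ ExcF 2 F) : NPB F := by
  obtain ⟨U, V⟩ := F
  simp only at hne h1 h2
  rcases split_one h1 with hU | ⟨A, B, hA, hB, rfl⟩
  · rcases split_one h2 with hV | ⟨C, D, hC, hD, rfl⟩
    · exact npb_zero hU hV hne
    · exact (npb_one hC hD hU).swap
  · rcases split_one h2 with hV | ⟨C, D, hC, hD, rfl⟩
    · exact npb_one hA hB hV
    · rcases once_npb _ A B C D le_rfl hA hB hC hD hne with h | h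
      · exact h
      · exact absurd (exc_excF h) hx

theorem excF_map {c : Fin 3} {σ : Equiv.Perm (Fin 3)} (hσ : ∀ d, σ (σ d) = d) (hc : σ c = 2)
    {F : List (Fin 3) × List (Fin 3)} (h : ExcF 2 (F.1.map σ, F.2.map σ)) : ExcF c F := by
  obtain ⟨u, s, e, k, l, G, H, W, h1, h2, h3, h4, ⟨V, h5⟩, ⟨V', h6⟩, h7, h8, h9⟩ := h
  have hc2 : σ 2 = c := by rw [← hc, hσ]
  have hmm : ∀ U : List (Fin 3), (U.map σ).map σ = U := by
    intro U
    rw [List.map_map]
    have : σ ∘ σ = id := by
      funext d
      exact hσ d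
    rw [this, List.map_id]
  refine ⟨σ u, σ s, e, k, l, G.map σ, H.map σ, W.map σ, fun hh => h1 (σ.injective hh),
    fun hh => h2 (σ.injective (by rw [hh, hc2])), fun hh => h3 (σ.injective (by rw [hh, hc2])), h4,
    ⟨V.map σ, by rw [h5, List.map_cons]⟩, ⟨V'.map σ, by rw [h6, List.map_append]; rfl⟩, ?_, ?_, ?_⟩
  · rw [List.count_map_of_injective W σ σ.injective s]
    exact h7
  · rw [List.count_map_of_injective W σ σ.injective u]
    exact h8
  · rcases h9 with h9 | h9
    · left
      rw [Prod.mk.injEq] at h9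
      have e1 := congrArg (List.map σ) h9.1
      have e2 := congrArg (List.map σ) h9.2
      rw [hmm] at e1 e2
      refine Prod.ext ?_ ?_
      · rw [e1]
        simp only [List.map_append, List.map_replicate, List.map_cons, List.map_nil, hc2]
      · rw [e2]
        simp only [List.map_append, List.map_replicate, List.map_cons, List.map_nil, hc2]
    · right
      rw [Prod.mk.injEq] at h9
      have e1 := congrArg (List.map σ) h9.1
      have e2 := congrArg (List.map σ) h9.2
      rw [hmm] at e1 e2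
      refine Prod.ext ?_ ?_
      · rw [e1]
        simp only [List.map_append, List.map_replicate, List.map_cons, List.map_nil, hc2]
      · rw [e2]
        simp only [List.map_append, List.map_replicate, List.map_cons, List.map_nil, hc2]

/-- some unknown `c` occurs at most once on each side, not one of the equations `ExcF` -/
theorem any_six {α : Type} {n r : ℕ} {E : Fin n → List (Fin 3) × List (Fin 3)} {F : List (Fin 3) × List (Fin 3)}
    (c : Fin 3) (hE : Decreasing α n E) (hne : F.1 ≠ F.2) (h1 : F.1.count c ≤ 1) (h2 : F.2.count c ≤ 1)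
    (hx : ¬ ExcF c F)
    (hr : ∀ h : Fin 3 → List α, (∀ i : Fin n, i.val < r → Solves h (E i)) → Solves h F) : n ≤ r + 6 := by
  obtain ⟨σ, hσ⟩ : ∃ σ : Equiv.Perm (Fin 3), σ = Equiv.swap c 2 := ⟨_, rfl⟩
  have hσc : σ c = 2 := by rw [hσ, Equiv.swap_apply_left]
  have hσσ : ∀ d, σ (σ d) = d := by
    intro d
    rw [hσ, Equiv.swap_apply_self]
  have hcnt : ∀ U : List (Fin 3), (U.map σ).count 2 = U.count c := by
    intro U
    rw [← hσc]
    exact List.count_map_of_injective U σ σ.injective c
  refine npb_bound (α := α) (F := (F.1.map σ, F.2.map σ)) (E := fun i => ((E i).1.map σ, (E i).2.map σ))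
    (z_npb ?_ ?_ ?_ (fun hh => hx (excF_map hσσ hσc hh))) ?_ ?_
  · intro h
    exact hne (List.map_injective_iff.2 σ.injective h)
  · show (F.1.map σ).count 2 ≤ 1
    rw [hcnt]
    exact h1
  · show (F.2.map σ).count 2 ≤ 1
    rw [hcnt]
    exact h2
  · intro i
    obtain ⟨h, hs, hn⟩ := hE i
    have hg : ∀ U : List (Fin 3), val (fun d => h (σ d)) (U.map σ) = val h U := by
      intro U
      rw [val_map']
      congr 1
      funext d
      rw [hσσ]
    refine ⟨fun d => h (σ d), fun j hj => ?_, fun hh => hn ?_⟩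
    · show val _ ((E j).1.map σ) = val _ ((E j).2.map σ)
      rw [hg, hg]
      exact hs j hj
    · have h3 : val (fun d => h (σ d)) ((E i).1.map σ) = val (fun d => h (σ d)) ((E i).2.map σ) := hh
      rw [hg, hg] at h3
      exact h3
  · intro g hg
    show val g (F.1.map σ) = val g (F.2.map σ)
    rw [val_map', val_map']
    refine hr (fun d => g (σ d)) (fun i hi => ?_)
    have h3 : val g ((E i).1.map σ) = val g ((E i).2.map σ) := hg i hi
    rw [val_map', val_map'] at h3
    exact h3

end Pool.Agent.H70.WE
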