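import Pool.Agent.H70.WB.Fin3

/-!
# [H70 WB Nb] `C⁻¹ A` not a power of a basis element: three classes of solutions
-/

set_option autoImplicit false

namespace Pool.Agent.H70.WE

open Pool.Agent.H93.TW

variable {α : Type}

/-- a class of nonperiodic solutions (over a fixed alphabet) in which no chain has four members -/
def Four (α : Type) (K : (Fin 3 → List α) → Prop) : Prop :=
  ∀ (E : Fin 4 → List (Fin 3) × List (Fin 3)) (h : Fin 4 → Fin 3 → List α),
    (∀ i, K (h i)) → (∀ i j, j < i → Solves (h i) (E j)) → (∀ i, ¬ Solves (h i) (E i)) → False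

theorem four_bound {n r k : ℕ} {E : Fin n → List (Fin 3) × List (Fin 3)} (K : Fin k → (Fin 3 → List α) → Prop)
    (hK : ∀ j, Four α (K j)) (hE : Decreasing α n E)
    (hr : ∀ h : Fin 3 → List α, (∀ i : Fin n, i.val < r → Solves h (E i)) → ¬ Per h → ∃ j : Fin k, K j h) :
    n ≤ r + 3 * k + 3 := by
  classical
  choose h hs hne using hE
  let S1 : Finset (Fin n) := Finset.univ.filter (fun i => r ≤ i.val ∧ Per (h i))
  let S2 : Fin k → Finset (Fin n) := fun j => Finset.univ.filter (fun i => K j (h i))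
  let S0 : Finset (Fin n) := Finset.univ.filter (fun i => i.val < r)
  have c1 : S1.card ≤ 3 := by
    apply card_le
    intro e he hm
    have := per_bound (fun i => E (e i)) (fun i => h (e i)) (fun i => (Finset.mem_filter.1 (hm i)).2.2)
      (fun i j hij => hs (e i) (e j) (he hij)) (fun i => hne (e i))
    omega
  have c2 : ∀ j, (S2 j).card ≤ 3 := by
    intro j
    apply card_le
    intro e he hm
    exact hK j (fun i => E (e i)) (fun i => h (e i)) (fun i => (Finset.mem_filter.1 (hm i)).2)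
      (fun i j hij => hs (e i) (e j) (he hij)) (fun i => hne (e i))
  have c0 : S0.card ≤ r := by
    have h1 : S0.card ≤ (Finset.range r).card := by
      apply Finset.card_le_card_of_injOn (fun i : Fin n => i.val)
      · intro i hi
        have := (Finset.mem_filter.1 hi).2
        simpa using this
      · intro i _ j _ hij
        exact Fin.ext hij
    simpa using h1
  have c3 : (Finset.univ.biUnion S2).card ≤ 3 * k := by
    refine Finset.card_biUnion_le.trans ?_
    refine (Finset.sum_le_sum (fun j _ => c2 j)).trans ?_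
    rw [Finset.sum_const, Finset.card_univ, Fintype.card_fin, smul_eq_mul, Nat.mul_comm]
  have hU : (Finset.univ : Finset (Fin n)) ⊆ S0 ∪ (S1 ∪ Finset.univ.biUnion S2) := by
    intro i _
    by_cases hi : i.val < r
    · exact Finset.mem_union_left _ (Finset.mem_filter.2 ⟨Finset.mem_univ _, hi⟩)
    · have hi' : r ≤ i.val := not_lt.1 hi
      apply Finset.mem_union_right
      by_cases hp : Per (h i)
      · exact Finset.mem_union_left _ (Finset.mem_filter.2 ⟨Finset.mem_univ _, hi', hp⟩)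
      · obtain ⟨j, hj⟩ := hr (h i) (fun j hj => hs i j (Fin.lt_def.2 (lt_of_lt_of_le hj hi'))) hp
        exact Finset.mem_union_right _ (Finset.mem_biUnion.2 ⟨j, Finset.mem_univ _,
          Finset.mem_filter.2 ⟨Finset.mem_univ _, hj⟩⟩)
  have h1 := Finset.card_le_card hU
  have h2 := Finset.card_union_le S0 (S1 ∪ Finset.univ.biUnion S2)
  have h3 := Finset.card_union_le S1 (Finset.univ.biUnion S2)
  rw [Finset.card_univ, Fintype.card_fin] at h1
  omega

/-- the class of the solutions with `x y ≠ y x`, `C` shorter than `A` and `z` in the group generated by `x, y` -/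
theorem four_uni {A B C D : List (Fin 3)} (hA : (2 : Fin 3) ∉ A) (hB : (2 : Fin 3) ∉ B) (hC : (2 : Fin 3) ∉ C)
    (hD : (2 : Fin 3) ∉ D) :
    Four α (fun h => Solves h (A ++ [2] ++ B, C ++ [2] ++ D) ∧ h 0 ++ h 1 ≠ h 1 ++ h 0 ∧
      (val h C).length < (val h A).length ∧ io (h 2) ∈ Subgroup.closure {io (h 0), io (h 1)}) := by
  intro E h hk k3 k4
  have k2 := fun i => (hk i).1
  have hxy := fun i => (hk i).2.1
  have hlt := fun i => (hk i).2.2.1
  have hcl := fun i => (hk i).2.2.2
  have hcl3 : ∀ i, Subgroup.closure {io (h i 0), io (h i 1)} ≤ (phi (h i)).range := by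
    intro i
    rw [Subgroup.closure_le]
    rintro g (rfl | rfl)
    · exact ⟨FreeGroup.of 0, phi_0 (h i)⟩
    · exact ⟨FreeGroup.of 1, phi_1 (h i)⟩
  have hex : ∀ i, ∃ ζ, phi (h i) ζ = io (h i 2) := fun i => hcl3 i (hcl i)
  choose ζ hζ using hex
  have heq : ∀ i, val (h i) A ++ h i 2 ++ val (h i) B = val (h i) C ++ h i 2 ++ val (h i) D := by
    intro i
    have h3 : val (h i) (A ++ [2] ++ B) = val (h i) (C ++ [2] ++ D) := k2 i
    rw [val_append, val_append, val_append, val_append, val_one'] at h3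
    exact h3
  have hP : ∀ i, ∃ P : List α, val (h i) C ++ P = val (h i) A := by
    intro i
    have hp : val (h i) C <+: val (h i) A := by
      apply List.prefix_of_prefix_length_le (l₃ := val (h i) A ++ h i 2 ++ val (h i) B) _ _ (hlt i).le
      · rw [heq i, List.append_assoc]
        exact ⟨_, rfl⟩
      · rw [List.append_assoc]
        exact ⟨_, rfl⟩
    obtain ⟨P, hP⟩ := hp
    exact ⟨P, hP⟩
  choose P hP using hP
  obtain ⟨Pf, hPf⟩ : ∃ Pf, Pf = (fw C)⁻¹ * fw A := ⟨_, rfl⟩
  obtain ⟨Qf, hQf⟩ : ∃ Qf, Qf = fw D * (fw B)⁻¹ := ⟨_, rfl⟩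
  have hphiP : ∀ i, phi (h i) Pf = io (P i) := by
    intro i
    rw [hPf, map_mul, map_inv, phi_fw hC, phi_fw hA, ← hP i, io_append]
    group
  have hPne : ∀ i, P i ≠ [] := by
    intro i h0
    have h1 := hP i
    rw [h0, List.append_nil] at h1
    have h2 := hlt i
    rw [h1] at h2
    exact lt_irrefl _ h2
  have hPf1 : Pf ≠ 1 := by
    intro h0
    have h1 := hphiP 0
    rw [h0, map_one] at h1
    exact hPne 0 (io_inj (by rw [← h1, io_nil]))
  have hfe : ∀ i, fw A * ζ i * fw B = fw C * ζ i * fw D := by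
    intro i
    apply phi_inj (hxy i)
    rw [map_mul, map_mul, map_mul, map_mul, phi_fw hA, phi_fw hB, phi_fw hC, phi_fw hD, hζ i]
    have h1 := congrArg io (heq i)
    rw [io_append, io_append, io_append, io_append] at h1
    exact h1
  have hcomm : ∀ i, Pf * ζ i = ζ i * Qf := by
    intro i
    rw [hPf, hQf]
    have h1 := congrArg (fun u => (fw C)⁻¹ * u * (fw B)⁻¹) (hfe i)
    simp only [mul_assoc, mul_inv_cancel, mul_one, inv_mul_cancel_left] at h1
    simpa only [mul_assoc] using h1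
  have hδ : ∀ i, (ζ i * (ζ 0)⁻¹) * Pf = Pf * (ζ i * (ζ 0)⁻¹) := by
    intro i
    have h1 : Qf = (ζ 0)⁻¹ * Pf * ζ 0 := by
      rw [mul_assoc, hcomm 0]
      group
    rw [← mul_assoc Pf, hcomm i, h1]
    group
  obtain ⟨ρ0, m0, n0, hm0, hn0⟩ := cent_cyc hPf1 (fun i => ζ i * (ζ 0)⁻¹) hδ
  obtain ⟨ρ, m, n, hm1, hm, hn⟩ : ∃ (ρ : FreeGroup (Fin 2)) (m : ℕ) (n : Fin 4 → ℤ), 1 ≤ m ∧ Pf = ρ ^ m ∧
      ∀ i, ζ i * (ζ 0)⁻¹ = ρ ^ n i := by
    rcases lt_trichotomy m0 0 with h1 | h1 | h1
    · refine ⟨ρ0⁻¹, (-m0).toNat, fun i => - n0 i, by omega, ?_, fun i => ?_⟩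
      · rw [← zpow_natCast, Int.toNat_of_nonneg (by omega), inv_zpow, zpow_neg, inv_inv]
        exact hm0
      · rw [inv_zpow, zpow_neg, inv_inv]
        exact hn0 i
    · exfalso
      rw [h1, zpow_zero] at hm0
      exact hPf1 hm0
    · refine ⟨ρ0, m0.toNat, n0, by omega, ?_, hn0⟩
      rw [← zpow_natCast, Int.toNat_of_nonneg (by omega)]
      exact hm0
  obtain ⟨i0, hi0⟩ : ∃ i0 : Fin 4, ∀ i, n i0 ≤ n i := Finite.exists_min n
  have hroot : (phi (h i0) ρ) ^ m = io (P i0) := by
    rw [← map_pow, ← hm, hphiP]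
  obtain ⟨v, hv⟩ := root_pos hm1 hroot
  set e : Fin 4 → ℕ := fun i => (n i - n i0).toNat with he
  have hζe : ∀ i, ζ i = ρ ^ (e i) * ζ i0 := by
    intro i
    have h1 : ((n i - n i0).toNat : ℤ) = n i - n i0 := Int.toNat_of_nonneg (by have := hi0 i; omega)
    rw [← zpow_natCast, show ((e i : ℕ) : ℤ) = n i - n i0 from h1, zpow_sub, ← hn i, ← hn i0]
    group
  set g : Fin 4 → Fin 3 → List α := fun i => ![h i0 0, h i0 1, pow v (e i) ++ h i0 2] with hg
  have hphi' : ∀ i : Fin 4, phi (g i) (ζ i) = io (g i 2) := by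
    intro i
    have hp : phi (g i) = phi (h i0) := rfl
    rw [hp, hζe i, map_mul, map_pow, hv, hζ i0]
    show _ = io (pow v (e i) ++ h i0 2)
    rw [io_append, io_pow]
  have hsol : ∀ (i : Fin 4) (F : List (Fin 3) × List (Fin 3)), Solves (g i) F ↔ Solves (h i) F := by
    intro i F
    rw [solves_phi (hxy i) (hζ i), solves_phi (h := g i) (hxy i0) (hphi' i)]
  exact same_xy (e := e) E (fun i j hij => (hsol i (E j)).2 (k3 i j hij)) (fun i hs => k4 i ((hsol i (E i)).1 hs))

/-- `z` is in the group generated by `x, y` if `C⁻¹ A` is not a power of a basis element -/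
theorem nb_mem {h : Fin 3 → List α} {A B C D : List (Fin 3)} (hA : (2 : Fin 3) ∉ A) (hB : (2 : Fin 3) ∉ B)
    (hC : (2 : Fin 3) ∉ C) (hD : (2 : Fin 3) ∉ D) (hbal : ∀ c : Fin 3, (A ++ B).count c = (C ++ D).count c)
    (hb : ∀ (ρ κ : FreeGroup (Fin 2)) (m : ℕ), Subgroup.closure {ρ, κ} = ⊤ → (fw C)⁻¹ * fw A ≠ ρ ^ m)
    (hxy : h 0 ++ h 1 ≠ h 1 ++ h 0) (hlt : (val h C).length < (val h A).length)
    (hs : Solves h (A ++ [2] ++ B, C ++ [2] ++ D)) : io (h 2) ∈ Subgroup.closure {io (h 0), io (h 1)} := by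
  have heq : val h A ++ h 2 ++ val h B = val h C ++ h 2 ++ val h D := by
    have h3 : val h (A ++ [2] ++ B) = val h (C ++ [2] ++ D) := hs
    rw [val_append, val_append, val_append, val_append, val_one'] at h3
    exact h3
  obtain ⟨p, q, P, Q, X2, Y2, S, T, m, hpq, hm, hR, hx2, hy2, hP, hQ, hCP, hPz, clp, clq⟩ :=
    type_data hA hB hC hD hbal hxy hlt heq
  have hcl3 : Subgroup.closure {io (h 0), io (h 1)} ≤ (phi h).range := by
    rw [Subgroup.closure_le]
    rintro g (rfl | rfl)
    · exact ⟨FreeGroup.of 0, phi_0 h⟩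
    · exact ⟨FreeGroup.of 1, phi_1 h⟩
  obtain ⟨π, hπ⟩ := hcl3 clp
  obtain ⟨κ, hκ⟩ := hcl3 clq
  have hinj := phi_inj hxy
  have hPf : (fw C)⁻¹ * fw A = (sv π κ (S ++ T)) ^ m := by
    apply hinj
    rw [map_mul, map_inv, phi_fw hC, phi_fw hA, ← hCP, io_append, map_pow, phi_sv hπ hκ, ← io_pow, ← bval_pow,
      ← hP]
    group
  have htop : Subgroup.closure {π, κ} = ⊤ := by
    rw [eq_top_iff, ← FreeGroup.closure_range_of, Subgroup.closure_le]
    rintro g ⟨i, rfl⟩
    fin_cases i
    · have e : FreeGroup.of (0 : Fin 2) = sv π κ X2 := by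
        apply hinj
        rw [phi_0, phi_sv hπ hκ, ← hx2]
      show FreeGroup.of (0 : Fin 2) ∈ _
      rw [e]
      exact sv_mem π κ X2
    · have e : FreeGroup.of (1 : Fin 2) = sv π κ Y2 := by
        apply hinj
        rw [phi_1, phi_sv hπ hκ, ← hy2]
      show FreeGroup.of (1 : Fin 2) ∈ _
      rw [e]
      exact sv_mem π κ Y2
  have hrich : ∀ b : Bool, 2 ≤ (S ++ T).count b := by
    intro b
    by_contra hcon
    obtain ⟨κ', hκ'⟩ := sparse_gen π κ htop (S ++ T) hR b (by omega)
    exact hb _ κ' m hκ' hPf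
  have hbl := bl p q hpq (S ++ T) hR (hrich true) (hrich false)
  have hz : bval p q (S ++ T) ++ h 2 = h 2 ++ bval p q (T ++ S) := by
    rw [hP, hQ, bval_pow, bval_pow] at hPz
    refine root_conj hm _ _ _ _ le_rfl ?_ hPz
    rw [bval_append, bval_append, List.length_append, List.length_append, Nat.add_comm]
  have hc : (h 2 ++ bval p q T) ++ bval p q (S ++ T) = bval p q (S ++ T) ++ (h 2 ++ bval p q T) := by
    rw [← List.append_assoc, hz, bval_append, bval_append]
    simp only [List.append_assoc]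
  obtain ⟨w, k, j, hk, hj⟩ := comm_pow _ _ hc
  change h 2 ++ bval p q T = pow w k at hk
  change bval p q (S ++ T) = pow w j at hj
  have hj1 : j = 1 := by
    rcases Nat.lt_or_ge j 2 with h2 | h2
    · rcases Nat.eq_zero_or_pos j with h3 | h3
      · exfalso
        rw [h3, pow_zero'] at hj
        exact prim_ne hbl hj
      · omega
    · exact absurd hj (hbl w j h2)
  rw [hj1, pow_one''] at hj
  have hio := congrArg io hk
  rw [io_append, io_pow, ← hj] at hio
  have hio2 : io (h 2) = io (bval p q (S ++ T)) ^ k * (io (bval p q T))⁻¹ := by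
    rw [← hio]
    group
  have hcl2 : Subgroup.closure {io p, io q} ≤ Subgroup.closure {io (h 0), io (h 1)} := by
    rw [Subgroup.closure_le]
    rintro g (rfl | rfl)
    · exact clp
    · exact clq
  apply hcl2
  rw [hio2]
  exact Subgroup.mul_mem _ (Subgroup.pow_mem _ (bval_mem p q _) k) (Subgroup.inv_mem _ (bval_mem p q T))

theorem nb_four {A B C D : List (Fin 3)} (hA : (2 : Fin 3) ∉ A) (hB : (2 : Fin 3) ∉ B) (hC : (2 : Fin 3) ∉ C)
    (hD : (2 : Fin 3) ∉ D)
    (hb : ∀ (ρ κ : FreeGroup (Fin 2)) (m : ℕ), Subgroup.closure {ρ, κ} = ⊤ → (fw C)⁻¹ * fw A ≠ ρ ^ m) :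
    ∃ K : Fin 3 → (Fin 3 → List α) → Prop, (∀ j, Four α (K j)) ∧
      ∀ h : Fin 3 → List α, Solves h (A ++ [2] ++ B, C ++ [2] ++ D) → ¬ Per h → ∃ j, K j h := by
  by_cases hbal : ∀ c : Fin 3, (A ++ B).count c = (C ++ D).count c
  · have hb' : ∀ (ρ κ : FreeGroup (Fin 2)) (m : ℕ), Subgroup.closure {ρ, κ} = ⊤ → (fw A)⁻¹ * fw C ≠ ρ ^ m := by
      intro ρ κ m h1 h2
      refine hb ρ⁻¹ κ m ?_ ?_
      · rw [eq_top_iff, ← h1, Subgroup.closure_le]
        rintro g (hg | hg)
        · have h3 : ρ⁻¹ ∈ Subgroup.closure {ρ⁻¹, κ} := Subgroup.subset_closure (by simp)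
          have h4 := Subgroup.inv_mem _ h3
          rw [inv_inv] at h4
          rw [hg]
          exact h4
        · rw [Set.mem_singleton_iff] at hg
          rw [hg]
          exact Subgroup.subset_closure (by simp)
      · rw [inv_pow, ← h2]
        group
    have hne : A ≠ C := by
      intro h0
      refine hb (FreeGroup.of 0) (FreeGroup.of 1) 0 ?_ ?_
      · rw [eq_top_iff, ← FreeGroup.closure_range_of, Subgroup.closure_le]
        rintro g ⟨i, rfl⟩
        fin_cases i
        · exact Subgroup.subset_closure (by simp)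
        · exact Subgroup.subset_closure (by simp)
      · rw [h0, pow_zero, inv_mul_cancel]
    refine ⟨![fun h => Solves h ([0, 1], [1, 0]) ∧ ¬ Per h,
      fun h => Solves h (A ++ [2] ++ B, C ++ [2] ++ D) ∧ h 0 ++ h 1 ≠ h 1 ++ h 0 ∧
        (val h C).length < (val h A).length ∧ io (h 2) ∈ Subgroup.closure {io (h 0), io (h 1)},
      fun h => Solves h (C ++ [2] ++ D, A ++ [2] ++ B) ∧ h 0 ++ h 1 ≠ h 1 ++ h 0 ∧
        (val h A).length < (val h C).length ∧ io (h 2) ∈ Subgroup.closure {io (h 0), io (h 1)}], ?_, ?_⟩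
    · intro j
      fin_cases j
      · intro E h h1 h2 h3
        exact npb_xy α E h (fun i => (h1 i).2) (fun i => (h1 i).1) h2 h3
      · exact four_uni hA hB hC hD
      · exact four_uni hC hD hA hB
    · intro h hs hn
      by_cases hxy : h 0 ++ h 1 = h 1 ++ h 0
      · refine ⟨0, ?_, hn⟩
        show val h [0, 1] = val h [1, 0]
        simpa only [val_cons', val_nil', List.append_nil] using hxy
      · rcases lt_trichotomy (val h C).length (val h A).length with h1 | h1 | h1
        · exact ⟨1, hs, hxy, h1, nb_mem hA hB hC hD hbal hb hxy h1 hs⟩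
        · exfalso
          have heq : val h A ++ h 2 ++ val h B = val h C ++ h 2 ++ val h D := by
            have h3 : val h (A ++ [2] ++ B) = val h (C ++ [2] ++ D) := hs
            rw [val_append, val_append, val_append, val_append, val_one'] at h3
            exact h3
          rw [List.append_assoc, List.append_assoc] at heq
          have h2 := (List.append_inj heq h1.symm).1
          rw [bval_tob h A hA, bval_tob h C hC] at h2
          exact hne (tob_inj hA hC (bval_inj hxy h2))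
        · exact ⟨2, hs.symm, hxy, h1, nb_mem hC hD hA hB (fun c => (hbal c).symm) hb' hxy h1 hs.symm⟩
  · push Not at hbal
    have h1 := npb_unbal hA hB hC hD hbal
    refine ⟨fun _ h => Solves h (A ++ [2] ++ B, C ++ [2] ++ D) ∧ ¬ Per h, ?_, fun h hs hn => ⟨0, hs, hn⟩⟩
    intro j E h h2 h3 h4
    exact h1 α E h (fun i => (h2 i).2) (fun i => (h2 i).1) h3 h4

theorem nb_bound {n r : ℕ} {E : Fin n → List (Fin 3) × List (Fin 3)} {A B C D : List (Fin 3)}
    (hE : Decreasing α n E) (hA : (2 : Fin 3) ∉ A) (hB : (2 : Fin 3) ∉ B) (hC : (2 : Fin 3) ∉ C)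
    (hD : (2 : Fin 3) ∉ D)
    (hb : ∀ (ρ κ : FreeGroup (Fin 2)) (m : ℕ), Subgroup.closure {ρ, κ} = ⊤ → (fw C)⁻¹ * fw A ≠ ρ ^ m)
    (hr : ∀ h : Fin 3 → List α, (∀ i : Fin n, i.val < r → Solves h (E i)) →
      Solves h (A ++ [2] ++ B, C ++ [2] ++ D)) : n ≤ r + 12 := by
  obtain ⟨K, hK, hh⟩ := nb_four (α := α) hA hB hC hD hb
  have := four_bound K hK hE (fun h h1 h2 => hh h (hr h h1) h2)
  omega

end Pool.Agent.H70.WE
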