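import Pool.Agent.H70.WB.Mr

/-!
# [H70 WB Rp] `R^e w S = S w R^e`, `w = S^k z S^l`
-/

set_option autoImplicit false

namespace Pool.Agent.H70.WE

open Pool.Agent.H93.TW

private theorem rp_app {β : Type} {u v w : List β} (h1 : u ++ v = v ++ u) (h2 : u ++ w = w ++ u) :
    u ++ (v ++ w) = (v ++ w) ++ u := by
  rw [← List.append_assoc, h1, List.append_assoc, h2, List.append_assoc]

private theorem rp_succ {β : Type} (w : List β) (n : ℕ) : pow w (n + 1) = w ++ pow w n := by
  rw [Nat.add_comm, pow_add', pow_one'']

private theorem rp_succ' {β : Type} (w : List β) (n : ℕ) : pow w (n + 1) = pow w n ++ w := by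
  rw [pow_add', pow_one'']

private theorem rp_powc {β : Type} {u v : List β} (h : u ++ v = v ++ u) (n : ℕ) :
    u ++ pow v n = pow v n ++ u := by
  induction n with
  | zero => rw [pow_zero', List.append_nil, List.nil_append]
  | succ n ih =>
    rw [rp_succ]
    exact rp_app h ih

private theorem rp_cancel {β : Type} {u v w : List β} (h1 : u ++ (v ++ w) = (v ++ w) ++ u)
    (h2 : u ++ w = w ++ u) : u ++ v = v ++ u := by
  have h3 : (u ++ v) ++ w = (v ++ u) ++ w := by
    rw [List.append_assoc, h1, List.append_assoc, ← h2, List.append_assoc]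
  exact List.append_cancel_right h3

/-- Proof, `w = S^k z S^l`. `|R^e| = |S|`: `R^e = S`, so `R, S` commute. `|R^e| < |S|`: `S = R^e T`, `T ≠ []`; `heq` gives `w R^e T = T w R^e`, so (`comm_pow`)
`T = t^m`, `w R^e = t^j`, `m ≥ 1`. `k ≥ 1`: `S = R^e t^m` is a prefix of `t^j`: `mm0`, `R, t` commute, so `R, S` commute. `k = 0`, `l ≥ 1`: `S R^e = R^e t^m R^e` is a
suffix of `t^j`, so `t^m R^e` is one: `mm0r`. `|R^e| > |S|`: `R^e = S T = T' S` (prefix and suffix of the two sides), `T ≠ []`; `heq`: `T w = w T'`, so
`T (w S) = w T' S = w S T`: `T = t^m`, `w S = t^j`. If `m ≥ 2`: `R^e = S t^m` is a suffix of `t^(j+m)`; `e|R| ≥ |R| + |t|`: `fws`, `R, t` commute, so `R, S` do; else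
`|R| ≤ (e-1)|R| < |t|`, so `e|R| < 2|t| ≤ m|t| ≤ e|R|`. So `m = 1`, `T = t`, `io t = (io S)⁻¹ (io R)^e`, and `io z = (io S)^(-k) (io t)^j (io S)^(-l-1)`. -/
theorem rp {α : Type} {R S z : List α} {e k l : ℕ} (he : 2 ≤ e) (hkl : 1 ≤ k + l) (hc : R ++ S ≠ S ++ R)
    (heq : pow R e ++ (pow S k ++ z ++ pow S l) ++ S = S ++ (pow S k ++ z ++ pow S l) ++ pow R e) :
    S.length < (pow R e).length ∧ io z ∈ Subgroup.closure {io R, io S} := by
  obtain ⟨w, hw⟩ : ∃ w, w = pow S k ++ z ++ pow S l := ⟨_, rfl⟩
  rw [← hw] at heq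
  have hRP : R ++ pow R e = pow R e ++ R := rp_powc rfl e
  have pre1 : pow R e <+: pow R e ++ w ++ S := ⟨w ++ S, by rw [List.append_assoc]⟩
  have pre2 : S <+: pow R e ++ w ++ S := ⟨w ++ pow R e, by rw [heq, List.append_assoc]⟩
  have suf1 : S <:+ pow R e ++ w ++ S := ⟨pow R e ++ w, rfl⟩
  have suf2 : pow R e <:+ pow R e ++ w ++ S := ⟨S ++ w, by rw [heq]⟩
  rcases Nat.lt_trichotomy (pow R e).length S.length with hlt | heqL | hgt
  · exfalso
    obtain ⟨T, hT⟩ := List.prefix_of_prefix_length_le pre1 pre2 hlt.le
    have hTne : T ≠ [] := by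
      rintro rfl
      rw [List.append_nil] at hT
      rw [hT] at hlt
      exact lt_irrefl _ hlt
    have h1 : T ++ (w ++ pow R e) = (w ++ pow R e) ++ T := by
      have h2 : pow R e ++ (w ++ (pow R e ++ T)) = pow R e ++ (T ++ (w ++ pow R e)) := by
        calc pow R e ++ (w ++ (pow R e ++ T)) = pow R e ++ w ++ S := by rw [hT, List.append_assoc]
          _ = S ++ w ++ pow R e := heq
          _ = (pow R e ++ T) ++ w ++ pow R e := by rw [hT]
          _ = pow R e ++ (T ++ (w ++ pow R e)) := by simp only [List.append_assoc]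
      have h3 := List.append_cancel_left h2
      rw [← h3, List.append_assoc]
    obtain ⟨t, m, j, hm, hj⟩ := comm_pow T (w ++ pow R e) h1
    change T = pow t m at hm
    change w ++ pow R e = pow t j at hj
    have hm1 : 1 ≤ m := by
      rcases Nat.eq_zero_or_pos m with h0 | h0
      · exfalso
        rw [h0, pow_zero'] at hm
        exact hTne hm
      · exact h0
    -- `R` and `t` commute
    have hRt : R ++ t = t ++ R := by
      rcases Nat.eq_zero_or_pos k with hk | hk
      · have hl : 1 ≤ l := by omega
        obtain ⟨l', rfl⟩ : ∃ l', l = l' + 1 := ⟨l - 1, by omega⟩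
        refine mm0r (g := e) (i := m) (N := j) (by omega) hm1 ?_
        refine ⟨pow S k ++ z ++ pow S l' ++ pow R e, ?_⟩
        rw [← hj, hw, rp_succ', ← hm]
        calc pow S k ++ z ++ pow S l' ++ pow R e ++ (T ++ pow R e)
            = pow S k ++ z ++ pow S l' ++ (pow R e ++ T) ++ pow R e := by simp only [List.append_assoc]
          _ = pow S k ++ z ++ pow S l' ++ S ++ pow R e := by rw [hT]
          _ = _ := by simp only [List.append_assoc]
      · obtain ⟨k', rfl⟩ : ∃ k', k = k' + 1 := ⟨k - 1, by omega⟩
        refine mm0 (g := e) (i := m) (N := j) (by omega) hm1 ?_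
        refine ⟨pow S k' ++ z ++ pow S l ++ pow R e, ?_⟩
        rw [← hj, hw, rp_succ, ← hm, hT]
        simp only [List.append_assoc]
    apply hc
    rw [← hT, hm]
    exact rp_app hRP (rp_powc hRt m)
  · exfalso
    apply hc
    have h1 := (List.prefix_of_prefix_length_le pre1 pre2 heqL.le).eq_of_length heqL
    rw [← h1]
    exact hRP
  · refine ⟨hgt, ?_⟩
    obtain ⟨T, hT⟩ := List.prefix_of_prefix_length_le pre2 pre1 hgt.le
    obtain ⟨T', hT'⟩ := List.suffix_of_suffix_length_le suf1 suf2 hgt.le
    have hTne : T ≠ [] := by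
      rintro rfl
      rw [List.append_nil] at hT
      rw [← hT] at hgt
      exact lt_irrefl _ hgt
    have h1 : T ++ w = w ++ T' := by
      have h2 : S ++ ((T ++ w) ++ S) = S ++ ((w ++ T') ++ S) := by
        calc S ++ ((T ++ w) ++ S) = (S ++ T) ++ w ++ S := by simp only [List.append_assoc]
          _ = pow R e ++ w ++ S := by rw [hT]
          _ = S ++ w ++ pow R e := heq
          _ = S ++ w ++ (T' ++ S) := by rw [hT']
          _ = S ++ ((w ++ T') ++ S) := by simp only [List.append_assoc]
      exact List.append_cancel_right (List.append_cancel_left h2)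
    have h2 : T ++ (w ++ S) = (w ++ S) ++ T := by
      calc T ++ (w ++ S) = (T ++ w) ++ S := by rw [List.append_assoc]
        _ = (w ++ T') ++ S := by rw [h1]
        _ = w ++ (T' ++ S) := by rw [List.append_assoc]
        _ = w ++ (S ++ T) := by rw [hT', hT]
        _ = (w ++ S) ++ T := by rw [List.append_assoc]
    obtain ⟨t, m, j, hm, hj⟩ := comm_pow T (w ++ S) h2
    change T = pow t m at hm
    change w ++ S = pow t j at hj
    have hm1 : 1 ≤ m := by
      rcases Nat.eq_zero_or_pos m with h0 | h0
      · exfalso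
        rw [h0, pow_zero'] at hm
        exact hTne hm
      · exact h0
    have hm2 : m = 1 := by
      by_contra hne
      have hm3 : 2 ≤ m := by omega
      have hsuf : pow R e <:+ pow t (j + m) := by
        refine ⟨w, ?_⟩
        rw [pow_add', ← hj, ← hm, ← hT, List.append_assoc]
      have hlen : (pow R e).length = S.length + m * t.length := by
        rw [← hT, hm, List.length_append, pow_length]
      have hlen2 : (pow R e).length = e * R.length := pow_length R e
      rcases Nat.lt_or_ge (pow R e).length (R.length + t.length) with h3 | h3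
      · have a1 : 2 * t.length ≤ m * t.length := Nat.mul_le_mul_right _ hm3
        have a2 : 2 * R.length ≤ e * R.length := Nat.mul_le_mul_right _ he
        omega
      · have hRt : R ++ t = t ++ R := fws (U := pow R e) (List.suffix_refl _) hsuf h3
        apply hc
        have h5 : R ++ (S ++ pow t m) = (S ++ pow t m) ++ R := by
          rw [← hm, hT]
          exact hRP
        exact rp_cancel h5 (rp_powc hRt m)
    subst hm2
    rw [pow_one''] at hm
    have hR : io R ∈ Subgroup.closure {io R, io S} := Subgroup.subset_closure (by simp)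
    have hS : io S ∈ Subgroup.closure {io R, io S} := Subgroup.subset_closure (by simp)
    have ht : io t = (io S)⁻¹ * io R ^ e := by
      have h3 := congrArg io hT
      rw [io_append, io_pow, hm] at h3
      rw [← h3]
      group
    have htm : io t ∈ Subgroup.closure {io R, io S} := by
      rw [ht]
      exact mul_mem (inv_mem hS) (_root_.pow_mem hR e)
    have hz : io z = (io S ^ k)⁻¹ * io t ^ j * (io S ^ l * io S)⁻¹ := by
      have h3 := congrArg io hj
      rw [hw, io_append, io_append, io_append, io_pow, io_pow, io_pow] at h3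
      rw [← h3]
      group
    rw [hz]
    exact mul_mem (mul_mem (inv_mem (_root_.pow_mem hS k)) (_root_.pow_mem htm j)) (inv_mem (mul_mem (_root_.pow_mem hS l) hS))

end Pool.Agent.H70.WE
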