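import Pool.Agent.H70.WB.Key
import Pool.Agent.H70.WB.Twg

/-!
# [H70 WB Uv] First equations `C (G z H) = (G z H) C'`, `C'` a rotation of `C`
-/

set_option autoImplicit false

namespace Pool.Agent.H70.WE

theorem pow_single {β : Type} (c : β) (M : ℕ) : pow [c] M = List.replicate M c := by
  unfold pow
  rw [List.flatten_replicate_singleton]

/-- a word in which the letter `s` occurs once and the other letters are `r` -/
theorem one_shape {r s : Fin 3} (hrs : r ≠ s) {C : List (Fin 3)} (hall : ∀ c ∈ C, c = r ∨ c = s)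
    (h1 : C.count s = 1) : ∃ a b : ℕ, C = pow [r] a ++ [s] ++ pow [r] b := by
  have hmem : s ∈ C := List.count_pos_iff.1 (by omega)
  obtain ⟨U1, U2, hU⟩ := List.append_of_mem hmem
  have hcnt : U1.count s = 0 ∧ U2.count s = 0 := by
    rw [hU, List.count_append, List.count_cons_self] at h1
    omega
  have k1 : ∀ c ∈ U1, c = r := by
    intro c hc
    rcases hall c (hU ▸ List.mem_append_left _ hc) with h | h
    · exact h
    · exact absurd (h ▸ hc) (List.count_eq_zero.1 hcnt.1)
  have k2 : ∀ c ∈ U2, c = r := by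
    intro c hc
    rcases hall c (hU ▸ List.mem_append_right _ (List.mem_cons_of_mem _ hc)) with h | h
    · exact h
    · exact absurd (h ▸ hc) (List.count_eq_zero.1 hcnt.2)
  refine ⟨U1.length, U2.length, ?_⟩
  rw [pow_single, pow_single, ← List.eq_replicate_of_mem k1, ← List.eq_replicate_of_mem k2, hU]
  simp

theorem rot_count {β : Type} [DecidableEq β] {C C' : List β} (h : Rot C C') (c : β) : C'.count c = C.count c := by
  obtain ⟨X, Y, h1, h2⟩ := h
  rw [h1, h2, List.count_append, List.count_append, Nat.add_comm]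

theorem rot_mem {β : Type} {C C' : List β} (h : Rot C C') {c : β} (hc : c ∈ C') : c ∈ C := by
  obtain ⟨X, Y, h1, h2⟩ := h
  rw [h1, List.mem_append]
  rw [h2, List.mem_append] at hc
  exact hc.symm

/-- sparse primitive words -/
theorem sparse_shape {C C' : List (Fin 3)} (hC2 : (2 : Fin 3) ∉ C) (hC : Prim C) (hR : Rot C C')
    (hn : ¬ (2 ≤ C.count 0 ∧ 2 ≤ C.count 1)) : ∃ (r s : Fin 3) (a b a' b' : ℕ), r ≠ s ∧ r ≠ 2 ∧ s ≠ 2 ∧
      a + b = a' + b' ∧ C = pow [r] a ++ [s] ++ pow [r] b ∧ C' = pow [r] a' ++ [s] ++ pow [r] b' := by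
  have h01 : ∀ c ∈ C, c = 0 ∨ c = 1 := by
    intro c hc
    have h2 : c ≠ 2 := fun h => hC2 (h ▸ hc)
    fin_cases c
    · exact Or.inl rfl
    · exact Or.inr rfl
    · exact absurd rfl h2
  have key : ∀ r s : Fin 3, r ≠ s → r ≠ 2 → s ≠ 2 → (∀ c ∈ C, c = r ∨ c = s) → C.count s ≤ 1 →
      ∃ (r s : Fin 3) (a b a' b' : ℕ), r ≠ s ∧ r ≠ 2 ∧ s ≠ 2 ∧
      a + b = a' + b' ∧ C = pow [r] a ++ [s] ++ pow [r] b ∧ C' = pow [r] a' ++ [s] ++ pow [r] b' := by
    intro r s hrs hr hs hall hle
    rcases Nat.lt_or_ge (C.count s) 1 with h0 | h0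
    · -- only `r`
      have k1 : ∀ c ∈ C, c = r := by
        intro c hc
        rcases hall c hc with h | h
        · exact h
        · exact absurd (h ▸ hc) (List.count_eq_zero.1 (by omega))
      have k2 : C = pow [r] C.length := by
        rw [pow_single]
        exact List.eq_replicate_of_mem k1
      have k3 : C.length = 1 := by
        have h3 : 0 < C.length := List.length_pos_iff.2 (prim_ne hC)
        by_contra hne
        exact hC [r] C.length (by omega) k2
      have k4 : C = [r] := by rw [k2, k3, pow_one'']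
      have k5 : C' = [r] := by
        have l1 : C'.length = 1 := by rw [rot_length hR, k3]
        obtain ⟨c, hc⟩ := List.length_eq_one_iff.1 l1
        have : c ∈ C := rot_mem hR (by rw [hc]; exact List.mem_cons_self)
        rw [hc, k1 c this]
      exact ⟨s, r, 0, 0, 0, 0, hrs.symm, hs, hr, rfl, by rw [k4]; rfl, by rw [k5]; rfl⟩
    · have h1 : C.count s = 1 := by omega
      obtain ⟨a, b, hab⟩ := one_shape hrs hall h1
      obtain ⟨a', b', hab'⟩ := one_shape (C := C') hrs (fun c hc => hall c (rot_mem hR hc))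
        (by rw [rot_count hR, h1])
      refine ⟨r, s, a, b, a', b', hrs, hr, hs, ?_, hab, hab'⟩
      have l1 := rot_length hR
      rw [hab, hab'] at l1
      simp only [List.length_append, pow_single, List.length_replicate, List.length_singleton] at l1
      omega
  by_cases h0 : 2 ≤ C.count 0
  · exact key 0 1 (by decide) (by decide) (by decide) h01 (by
      by_contra h
      exact hn ⟨h0, by omega⟩)
  · exact key 1 0 (by decide) (by decide) (by decide) (fun c hc => (h01 c hc).symm) (by omega)

theorem npb_rot : ∀ (N : ℕ) (C C' G H : List (Fin 3)), G.length + H.length ≤ N → (2 : Fin 3) ∉ C → (2 : Fin 3) ∉ G →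
    (2 : Fin 3) ∉ H → Prim C → Rot C C' → NPB (C ++ (G ++ [2] ++ H), (G ++ [2] ++ H) ++ C') := by
  intro N
  induction N with
  | zero =>
    intro C C' G H hN hC2 hG hH hC hR
    have hG0 : G = [] := List.eq_nil_of_length_eq_zero (by omega)
    have hH0 : H = [] := List.eq_nil_of_length_eq_zero (by omega)
    subst hG0 hH0
    obtain ⟨C1, C2, h1, h2⟩ := hR
    have h3 := npb_root hC2 hC h1
    rw [h2]
    simpa only [List.nil_append, List.append_nil, List.append_assoc] using h3
  | succ N ih =>
    intro C C' G H hN hC2 hG hH hC hR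
    by_cases h1 : ∃ (c : Fin 3) (C1 G1 : List (Fin 3)), C = c :: C1 ∧ G = c :: G1
    · obtain ⟨c, C1, G1, e1, e2⟩ := h1
      have hR1 : Rot C (C1 ++ [c]) := ⟨[c], C1, by rw [e1]; rfl, rfl⟩
      have hC1 : (2 : Fin 3) ∉ C1 ++ [c] := fun hh => hC2 (rot_mem hR1 hh)
      have hG1 : (2 : Fin 3) ∉ G1 := fun hh => hG (by rw [e2]; exact List.mem_cons_of_mem _ hh)
      refine (ih (C1 ++ [c]) C' G1 H (by rw [e2] at hN; simp only [List.length_cons] at hN; omega) hC1 hG1 hH
        (prim_rot hC hR1) (rot_trans (rot_symm hR1) hR)).mono (fun α h hh => ?_)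
      have h2 : val h (C ++ (G ++ [2] ++ H)) = val h ((G ++ [2] ++ H) ++ C') := hh
      show val h ((C1 ++ [c]) ++ (G1 ++ [2] ++ H)) = val h ((G1 ++ [2] ++ H) ++ C')
      rw [e1, e2] at h2
      simp only [List.cons_append, val_cons', List.append_assoc] at h2
      have h3 := List.append_cancel_left h2
      simpa only [List.append_assoc, List.cons_append, List.nil_append, List.singleton_append] using h3
    by_cases h2 : ∃ (c : Fin 3) (C1 H1 : List (Fin 3)), C' = C1 ++ [c] ∧ H = H1 ++ [c]
    · obtain ⟨c, C1, H1, e1, e2⟩ := h2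
      have hR1 : Rot C' ([c] ++ C1) := ⟨C1, [c], e1, rfl⟩
      have hH1 : (2 : Fin 3) ∉ H1 := fun hh => hH (by rw [e2]; exact List.mem_append_left _ hh)
      refine (ih C ([c] ++ C1) G H1 (by rw [e2] at hN; simp only [List.length_append, List.length_singleton] at hN; omega)
        hC2 hG hH1 hC (rot_trans hR hR1)).mono (fun α h hh => ?_)
      have h2 : val h (C ++ (G ++ [2] ++ H)) = val h ((G ++ [2] ++ H) ++ C') := hh
      show val h (C ++ (G ++ [2] ++ H1)) = val h ((G ++ [2] ++ H1) ++ ([c] ++ C1))
      rw [e1, e2] at h2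
      have h3 : val h (C ++ (G ++ [2] ++ H1)) ++ val h [c] = val h ((G ++ [2] ++ H1) ++ ([c] ++ C1)) ++ val h [c] := by
        rw [← val_append, ← val_append]
        simpa only [List.append_assoc, List.cons_append, List.nil_append] using h2
      exact List.append_cancel_right h3
    have h1' : ∀ (c : Fin 3) (C1 G1 : List (Fin 3)), ¬ (C = c :: C1 ∧ G = c :: G1) := fun c C1 G1 h => h1 ⟨c, C1, G1, h⟩
    have h2' : ∀ (c : Fin 3) (C1 H1 : List (Fin 3)), ¬ (C' = C1 ++ [c] ∧ H = H1 ++ [c]) :=
      fun c C1 H1 h => h2 ⟨c, C1, H1, h⟩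
    have hCne := prim_ne hC
    have hC'2 : (2 : Fin 3) ∉ C' := fun hh => hC2 (rot_mem hR hh)
    have hF : (C ++ (G ++ [2] ++ H)) ≠ ((G ++ [2] ++ H) ++ C') := by
      intro he
      have k1 : (C ++ G) ++ 2 :: H = G ++ 2 :: (H ++ C') := by
        simpa only [List.append_assoc, List.singleton_append, List.cons_append, List.nil_append] using he
      have k2 : ((C ++ G) ++ 2 :: H).takeWhile (· ≠ 2) = C ++ G := by
        rw [List.takeWhile_append_of_pos]
        · simp
        · intro c hc
          have : c ≠ 2 := by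
            rintro rfl
            rcases List.mem_append.1 hc with hc | hc
            · exact hC2 hc
            · exact hG hc
          simpa using this
      have k3 : (G ++ 2 :: (H ++ C')).takeWhile (· ≠ 2) = G := by
        rw [List.takeWhile_append_of_pos]
        · simp
        · intro c hc
          have : c ≠ 2 := by
            rintro rfl
            exact hG hc
          simpa using this
      rw [k1, k3] at k2
      have k4 := congrArg List.length k2
      rw [List.length_append] at k4
      exact hCne (List.eq_nil_of_length_eq_zero (by omega))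
    by_cases hrich : 2 ≤ C.count 0 ∧ 2 ≤ C.count 1
    · obtain ⟨C1, C2, e1, e2⟩ := hR
      rw [e2]
      exact npb_tw_root hC2 hG hH hC e1 hrich.1 hrich.2
    obtain ⟨r, s, a, b, a', b', hrs, hr, hs, hab, eC, eC'⟩ := sparse_shape hC2 hC hR hrich
    have c2 : ∀ U : List (Fin 3), (2 : Fin 3) ∉ U → U.count 2 = 0 := fun U hU => List.count_eq_zero.2 hU
    have cc : ∀ (U : List (Fin 3)) (r s : Fin 3), r ≠ s → (∀ c ∈ U, c = r) → U.count s = 0 := by
      intro U r s hrs hU
      rw [List.count_eq_zero]
      intro hh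
      exact hrs (hU s hh).symm
    have cl : ∀ s : Fin 3, s ≠ 2 → C.count s ≤ 1 → G.count s = 0 → H.count s = 0 →
        NPB (C ++ (G ++ [2] ++ H), (G ++ [2] ++ H) ++ C') := by
      intro s hs k1 k2 k3
      have k4 : ([2] : List (Fin 3)).count s = 0 := by
        rw [List.count_eq_zero]
        simpa using hs
      have k5 : C'.count s = C.count s := rot_count hR s
      refine npb_class _ s 2 hs hF ?_ ?_ ?_ ?_
      · show (C ++ (G ++ [2] ++ H)).count s ≤ 1
        rw [List.count_append, List.count_append, List.count_append, k2, k3, k4]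
        omega
      · show (C ++ (G ++ [2] ++ H)).count 2 ≤ 1
        rw [List.count_append, List.count_append, List.count_append, c2 C hC2, c2 G hG, c2 H hH]
        simp
      · show ((G ++ [2] ++ H) ++ C').count s ≤ 1
        rw [List.count_append, List.count_append, List.count_append, k2, k3, k4, k5]
        omega
      · show ((G ++ [2] ++ H) ++ C').count 2 ≤ 1
        rw [List.count_append, List.count_append, List.count_append, c2 C' hC'2, c2 G hG, c2 H hH]
        simp
    have hcs : C.count s = 1 := by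
      rw [eC, List.count_append, List.count_append, pow_single, pow_single, List.count_replicate, List.count_replicate,
        List.count_singleton_self]
      have : (r == s) = false := by simpa using hrs
      rw [this]
      simp
    have hcr : C.count r = a + b := by
      rw [eC, List.count_append, List.count_append, pow_single, pow_single, List.count_replicate_self,
        List.count_replicate_self]
      have : ([s] : List (Fin 3)).count r = 0 := by
        rw [List.count_eq_zero]
        simpa using hrs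
      rw [this]
      omega
    by_cases h3 : (∀ c ∈ G, c = r) ∧ ∀ c ∈ H, c = r
    · exact cl s hs (by omega) (cc G r s hrs h3.1) (cc H r s hrs h3.2)
    by_cases h4 : a + b = 1 ∧ ((∀ c ∈ G, c = s) ∧ ∀ c ∈ H, c = s)
    · exact cl r hr (by omega) (cc G s r hrs.symm h4.2.1) (cc H s r hrs.symm h4.2.2)
    have hkey : ∀ (α : Type) (h : Fin 3 → List α), Solves h (C ++ (G ++ [2] ++ H), (G ++ [2] ++ H) ++ C') →
        h 0 ++ h 1 ≠ h 1 ++ h 0 → 1 ≤ a + b ∧ ∀ (w : List α) (k : ℕ), 2 ≤ k → val h C ≠ pow w k := by
      intro α h hh hxy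
      have hc : h r ++ h s ≠ h s ++ h r := by
        have : (r = 0 ∧ s = 1) ∨ (r = 1 ∧ s = 0) := by
          revert hrs hr hs
          clear * -
          fin_cases r <;> fin_cases s <;> decide
        rcases this with ⟨e1, e2⟩ | ⟨e1, e2⟩
        · rw [e1, e2]
          exact hxy
        · rw [e1, e2]
          exact fun e => hxy e.symm
      have heq : val h C ++ (val h G ++ h 2 ++ val h H) = (val h G ++ h 2 ++ val h H) ++ val h C' := by
        have h5 : val h (C ++ (G ++ [2] ++ H)) = val h ((G ++ [2] ++ H) ++ C') := hh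
        rw [val_append, val_append h (G ++ [2] ++ H), val_append, val_append, val_one'] at h5
        exact h5
      exact key hrs hr hs hc hab eC eC' hG hH heq h1' h2' h3 (fun e hh => h4 ⟨e, hh⟩)
    rcases Nat.eq_zero_or_pos (a + b) with h0 | h0
    · refine npb_xy.mono (fun α h hh => ?_)
      by_contra hxy
      have hxy' : h 0 ++ h 1 ≠ h 1 ++ h 0 := by
        intro h5
        apply hxy
        show val h [0, 1] = val h [1, 0]
        simpa only [val_cons', val_nil', List.append_nil] using h5
      have := (hkey α h hh hxy').1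
      omega
    · have hms : s ∈ C := List.count_pos_iff.1 (by omega)
      have hmr : r ∈ C := List.count_pos_iff.1 (by omega)
      have hm : (0 : Fin 3) ∈ C ∧ (1 : Fin 3) ∈ C := by
        have : (r = 0 ∧ s = 1) ∨ (r = 1 ∧ s = 0) := by
          revert hrs hr hs
          clear * -
          fin_cases r <;> fin_cases s <;> decide
        rcases this with ⟨e1, e2⟩ | ⟨e1, e2⟩
        · rw [e1] at hmr
          rw [e2] at hms
          exact ⟨hmr, hms⟩
        · rw [e1] at hmr
          rw [e2] at hms
          exact ⟨hms, hmr⟩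
      obtain ⟨C1, C2, e1, e2⟩ := hR
      subst e2
      exact npb_tw_gen hC2 hG hH e1 hm.1 hm.2 (fun α h hh hxy => (hkey α h hh hxy).2)

/-- first equations `U V (G z H) = (G z H) V U` -/
theorem npb_uv {U V G H : List (Fin 3)} (hUV2 : (2 : Fin 3) ∉ U ++ V) (hG : (2 : Fin 3) ∉ G) (hH : (2 : Fin 3) ∉ H)
    (hne : U ++ V ≠ []) : NPB (U ++ V ++ (G ++ [2] ++ H), (G ++ [2] ++ H) ++ (V ++ U)) := by
  obtain ⟨C, m, hm, hAC, hC⟩ := prim_root _ (U ++ V) le_rfl hne
  obtain ⟨C1, C2, hC12, hVU⟩ := rot_pow C m hm _ U V le_rfl hAC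
  have hC2 : (2 : Fin 3) ∉ C := fun hh => hUV2 (by rw [hAC]; exact mem_pow (by omega) hh)
  refine (npb_rot _ C (C2 ++ C1) G H le_rfl hC2 hG hH hC ⟨C1, C2, hC12, rfl⟩).mono (fun α h hh => ?_)
  have h1 : val h (U ++ V ++ (G ++ [2] ++ H)) = val h ((G ++ [2] ++ H) ++ (V ++ U)) := hh
  rw [val_append, val_append h (G ++ [2] ++ H), hVU, hAC, val_pow, val_pow] at h1
  show val h (C ++ (G ++ [2] ++ H)) = val h ((G ++ [2] ++ H) ++ (C2 ++ C1))
  rw [val_append, val_append h (G ++ [2] ++ H)]
  refine root_conj hm _ _ _ _ le_rfl ?_ h1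
  rw [hC12, val_append, val_append, List.length_append, List.length_append, Nat.add_comm]

end Pool.Agent.H70.WE
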