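import Pool.Agent.H70.WB.Cj
import Pool.Agent.H70.WB.Cj3
import Pool.Agent.H70.WB.Nb
import Pool.Agent.H70.WB.Uv
import Pool.Agent.H70.WB.Rp

/-!
# [H70 WB Full] First equations `A z B = C z D`
-/

set_option autoImplicit false

namespace Pool.Agent.H70.WE

open Pool.Agent.H93.TW

variable {α : Type}

theorem fw_append (U V : List (Fin 3)) : fw (U ++ V) = fw U * fw V := by
  unfold fw fval
  rw [List.map_append, List.prod_append]

theorem fw_head (c : Fin 3) (A C : List (Fin 3)) : (fw (c :: C))⁻¹ * fw (c :: A) = (fw C)⁻¹ * fw A := by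
  have h1 : fw (c :: C) = fw [c] * fw C := fw_append [c] C
  have h2 : fw (c :: A) = fw [c] * fw A := fw_append [c] A
  rw [h1, h2]
  group

theorem fw_last (c : Fin 3) (D B : List (Fin 3)) : fw (D ++ [c]) * (fw (B ++ [c]))⁻¹ = fw D * (fw B)⁻¹ := by
  rw [fw_append, fw_append]
  group

theorem solves_head {h : Fin 3 → List α} {c : Fin 3} {A B C D : List (Fin 3)}
    (hh : Solves h (c :: A ++ [2] ++ B, c :: C ++ [2] ++ D)) : Solves h (A ++ [2] ++ B, C ++ [2] ++ D) := by
  have h2 : val h (c :: A ++ [2] ++ B) = val h (c :: C ++ [2] ++ D) := hh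
  show val h (A ++ [2] ++ B) = val h (C ++ [2] ++ D)
  rw [List.cons_append, List.cons_append, List.cons_append, List.cons_append, val_cons', val_cons'] at h2
  exact List.append_cancel_left h2

theorem solves_last {h : Fin 3 → List α} {c : Fin 3} {A B C D : List (Fin 3)}
    (hh : Solves h (A ++ [2] ++ (B ++ [c]), C ++ [2] ++ (D ++ [c]))) : Solves h (A ++ [2] ++ B, C ++ [2] ++ D) := by
  have h2 : val h (A ++ [2] ++ (B ++ [c])) = val h (C ++ [2] ++ (D ++ [c])) := hh
  show val h (A ++ [2] ++ B) = val h (C ++ [2] ++ D)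
  rw [← List.append_assoc, ← List.append_assoc, val_append, val_append _ _ [c]] at h2
  exact List.append_cancel_right h2

theorem pos_npb_aux {U : List (Fin 3)} (hU2 : (2 : Fin 3) ∉ U) (hU : U ≠ []) : ∀ (N : ℕ) (A B C D : List (Fin 3)),
    A.length + B.length ≤ N → (2 : Fin 3) ∉ A → (2 : Fin 3) ∉ B → (2 : Fin 3) ∉ C → (2 : Fin 3) ∉ D →
    IsConj (fw U) ((fw C)⁻¹ * fw A) → NPB (A ++ [2] ++ B, C ++ [2] ++ D) := by
  intro N
  induction N with
  | zero =>
    intro A B C D hN hA hB hC hD hP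
    have hA0 : A = [] := List.eq_nil_of_length_eq_zero (by omega)
    have hB0 : B = [] := List.eq_nil_of_length_eq_zero (by omega)
    by_cases hbal : ∀ c : Fin 3, (A ++ B).count c = (C ++ D).count c
    · exfalso
      have hC0 : C = [] := by
        by_contra hne
        obtain ⟨c, C', rfl⟩ := List.exists_cons_of_ne_nil hne
        have := hbal c
        rw [hA0, hB0] at this
        simp at this
      rw [hA0, hC0] at hP
      have h1 : fw ([] : List (Fin 3)) = 1 := rfl
      rw [h1, inv_one, mul_one] at hP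
      have h2 : fw U = 1 := by
        obtain ⟨c, hc⟩ := isConj_iff.1 hP
        have h3 : c * fw U = c := by
          calc c * fw U = c * fw U * c⁻¹ * c := by group
            _ = c := by rw [hc, one_mul]
        exact mul_eq_left.1 h3
      let h0 : Fin 3 → List (Fin 2) := ![[0], [1], []]
      have h4 := phi_fw (h := h0) hU2
      rw [h2, map_one] at h4
      have h5 : val h0 U = [] := io_inj (by rw [← h4, io_nil])
      obtain ⟨c, U', rfl⟩ := List.exists_cons_of_ne_nil hU
      rw [val_cons'] at h5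
      have h6 := (List.append_eq_nil_iff.1 h5).1
      fin_cases c
      · exact absurd h6 (by simp [h0])
      · exact absurd h6 (by simp [h0])
      · exact hU2 List.mem_cons_self
    · push Not at hbal
      exact npb_unbal hA hB hC hD hbal
  | succ N ih =>
    intro A B C D hN hA hB hC hD hP
    by_cases hbal : ∀ c : Fin 3, (A ++ B).count c = (C ++ D).count c
    swap
    · push Not at hbal
      exact npb_unbal hA hB hC hD hbal
    by_cases hPQ : IsConj ((fw C)⁻¹ * fw A) (fw D * (fw B)⁻¹)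
    swap
    · exact npb_nc hA hB hC hD hbal hPQ
    by_cases h1 : ∃ (c : Fin 3) (A' C' : List (Fin 3)), A = c :: A' ∧ C = c :: C'
    · obtain ⟨c, A', C', rfl, rfl⟩ := h1
      rw [fw_head] at hP
      exact (ih A' B C' D (by simp only [List.length_cons] at hN; omega) (fun hh => hA (List.mem_cons_of_mem _ hh)) hB
        (fun hh => hC (List.mem_cons_of_mem _ hh)) hD hP).mono (fun α h hh => solves_head hh)
    by_cases h2 : ∃ (c : Fin 3) (B' D' : List (Fin 3)), B = B' ++ [c] ∧ D = D' ++ [c]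
    · obtain ⟨c, B', D', rfl, rfl⟩ := h2
      exact (ih A B' C D' (by simp only [List.length_append, List.length_singleton] at hN; omega) hA
        (fun hh => hB (List.mem_append_left _ hh)) hC (fun hh => hD (List.mem_append_left _ hh)) hP).mono
        (fun α h hh => solves_last hh)
    obtain ⟨X, Y, e1, e2⟩ := cj_left hU2 hA hC hU (fun c A' C' hh => h1 ⟨c, A', C', hh⟩) hP
    obtain ⟨X', Y', e1', e2'⟩ := cj_right hU2 hB hD hU (fun c B' D' hh => h2 ⟨c, B', D', hh⟩) (hP.trans hPQ)
    have r1 : Rot U (Y ++ X) := ⟨X, Y, e1, rfl⟩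
    have r2 : Rot U (Y' ++ X') := ⟨X', Y', e1', rfl⟩
    obtain ⟨U1, V1, f1, f2⟩ := rot_trans (rot_symm r1) r2
    have h3 : (2 : Fin 3) ∉ U1 ++ V1 := fun hh => hU2 (rot_mem r1 (f1 ▸ hh))
    have h4 : U1 ++ V1 ≠ [] := by
      intro h0
      rw [← f1] at h0
      have h5 := rot_length r1
      rw [h0] at h5
      exact hU (List.eq_nil_of_length_eq_zero h5.symm)
    have h6 := npb_uv h3 hC hB h4
    rw [e2, e2', f1, f2]
    simpa only [List.append_assoc] using h6

theorem NPB.swap {F G : List (Fin 3)} (h : NPB (F, G)) : NPB (G, F) := h.mono (fun _ _ hh => hh.symm)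

/-- `P` or its inverse is conjugate to a nonempty word in `x, y` -/
def Posi (P : FreeGroup (Fin 2)) : Prop :=
  ∃ U : List (Fin 3), (2 : Fin 3) ∉ U ∧ U ≠ [] ∧ (IsConj P (fw U) ∨ IsConj P⁻¹ (fw U))

/-- `P` or its inverse is conjugate to `x⁻¹ y^e` or `y⁻¹ x^e`, `e ≥ 1` -/
def Mixd (P : FreeGroup (Fin 2)) : Prop :=
  ∃ (r s : Fin 3) (e : ℕ), r ≠ s ∧ r ≠ 2 ∧ s ≠ 2 ∧ 1 ≤ e ∧
    (IsConj P ((fw [s])⁻¹ * fw (List.replicate e r)) ∨ IsConj P⁻¹ ((fw [s])⁻¹ * fw (List.replicate e r)))

theorem inv_P (A C : List (Fin 3)) : ((fw C)⁻¹ * fw A)⁻¹ = (fw A)⁻¹ * fw C := by group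

theorem posi_npb {A B C D : List (Fin 3)} (hA : (2 : Fin 3) ∉ A) (hB : (2 : Fin 3) ∉ B) (hC : (2 : Fin 3) ∉ C)
    (hD : (2 : Fin 3) ∉ D) (h : Posi ((fw C)⁻¹ * fw A)) : NPB (A ++ [2] ++ B, C ++ [2] ++ D) := by
  obtain ⟨U, hU2, hU, h1 | h1⟩ := h
  · exact pos_npb_aux hU2 hU _ A B C D le_rfl hA hB hC hD h1.symm
  · rw [inv_P] at h1
    exact (pos_npb_aux hU2 hU _ C D A B le_rfl hC hD hA hB h1.symm).swap

/-- three classes -/
def Three (α : Type) (F : List (Fin 3) × List (Fin 3)) : Prop :=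
  ∃ K : Fin 3 → (Fin 3 → List α) → Prop, (∀ j, Four α (K j)) ∧ ∀ h : Fin 3 → List α, Solves h F → ¬ Per h → ∃ j, K j h

theorem Three.mono {F F' : List (Fin 3) × List (Fin 3)} (h' : Three α F')
    (hF : ∀ h : Fin 3 → List α, Solves h F → Solves h F') : Three α F := by
  obtain ⟨K, h1, h2⟩ := h'
  exact ⟨K, h1, fun h hs hn => h2 h (hF h hs) hn⟩

theorem NPB.three {F : List (Fin 3) × List (Fin 3)} (h1 : NPB F) : Three α F := by
  refine ⟨fun _ h => Solves h F ∧ ¬ Per h, ?_, fun h hs hn => ⟨0, hs, hn⟩⟩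
  intro j E h h2 h3 h4
  exact h1 α E h (fun i => (h2 i).2) (fun i => (h2 i).1) h3 h4

theorem rs_cases {r s : Fin 3} (hrs : r ≠ s) (hr : r ≠ 2) (hs : s ≠ 2) : (r = 0 ∧ s = 1) ∨ (r = 1 ∧ s = 0) := by
  revert hrs hr hs
  fin_cases r <;> fin_cases s <;> decide

theorem npb_two {F G : List (Fin 3)} {s : Fin 3} (hs : s ≠ 2) (hne : F ≠ G) (h1 : F.count s ≤ 1) (h2 : F.count 2 ≤ 1)
    (h3 : G.count s ≤ 1) (h4 : G.count 2 ≤ 1) : NPB (F, G) := npb_class _ s 2 hs hne h1 h2 h3 h4

theorem mixd_red {r s : Fin 3} (hrs : r ≠ s) (hr : r ≠ 2) (hs : s ≠ 2) {e : ℕ} (he : 1 ≤ e) {κ μ : List (Fin 3)}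
    (hκ : (2 : Fin 3) ∉ κ) (hμ : (2 : Fin 3) ∉ μ) : Three α ((List.replicate e r ++ κ) ++ [2] ++ (μ ++ [s]),
      ([s] ++ κ) ++ [2] ++ (μ ++ List.replicate e r)) := by
  have hmem : ∀ (U : List (Fin 3)), (2 : Fin 3) ∉ U → ∀ c ∈ U, c = r ∨ c = s := by
    intro U hU c hc
    have h2 : c ≠ 2 := fun h => hU (h ▸ hc)
    rcases rs_cases hrs hr hs with ⟨e1, e2⟩ | ⟨e1, e2⟩ <;> rw [e1, e2] <;> revert h2 <;> clear * - <;>
      fin_cases c <;> decide
  have hrep : (2 : Fin 3) ∉ List.replicate e r := fun hh => hr (List.eq_of_mem_replicate hh).symm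
  have hs1 : (2 : Fin 3) ∉ [s] := by simpa using hs.symm
  have hA : (2 : Fin 3) ∉ List.replicate e r ++ κ := by simp [hrep, hκ]
  have hB : (2 : Fin 3) ∉ μ ++ [s] := by simp [hs1, hμ]
  have hC : (2 : Fin 3) ∉ [s] ++ κ := by
    intro hh
    rcases List.mem_append.1 hh with h | h
    · exact hs1 h
    · exact hκ h
  have hD : (2 : Fin 3) ∉ μ ++ List.replicate e r := by simp [hrep, hμ]
  obtain ⟨e', rfl⟩ : ∃ e', e = e' + 1 := ⟨e - 1, by omega⟩
  have hne : (List.replicate (e' + 1) r ++ κ) ++ [2] ++ (μ ++ [s]) ≠ ([s] ++ κ) ++ [2] ++ (μ ++ List.replicate (e' + 1) r) := by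
    intro h0
    rw [List.replicate_succ] at h0
    simp only [List.cons_append, List.singleton_append, List.cons.injEq] at h0
    exact hrs h0.1
  have c2 : ∀ U : List (Fin 3), (2 : Fin 3) ∉ U → U.count 2 = 0 := fun U hU => List.count_eq_zero.2 hU
  have cc : ∀ (U : List (Fin 3)) (r s : Fin 3), r ≠ s → (∀ c ∈ U, c = r) → U.count s = 0 := by
    intro U r s hrs hU
    rw [List.count_eq_zero]
    intro hh
    exact hrs (hU s hh).symm
  have c3 : ∀ t : Fin 3, t ≠ 2 → ([2] : List (Fin 3)).count t = 0 := by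
    intro t ht
    rw [List.count_eq_zero]
    simpa using ht
  have c4 : ([s] : List (Fin 3)).count r = 0 := by
    rw [List.count_eq_zero]
    simpa using hrs
  by_cases a1 : (∀ c ∈ κ, c = r) ∧ ∀ c ∈ μ, c = r
  · refine NPB.three (npb_two hs hne ?_ ?_ ?_ ?_)
    · rw [List.count_append, List.count_append, List.count_append, List.count_append, cc κ r s hrs a1.1,
        cc μ r s hrs a1.2, c3 s hs, cc _ r s hrs (fun c hc => List.eq_of_mem_replicate hc)]
      simp
    · rw [List.count_append, List.count_append, c2 _ hA, c2 _ hB]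
      simp
    · rw [List.count_append, List.count_append, List.count_append, List.count_append, cc κ r s hrs a1.1,
        cc μ r s hrs a1.2, c3 s hs, cc _ r s hrs (fun c hc => List.eq_of_mem_replicate hc)]
      simp
    · rw [List.count_append, List.count_append, c2 _ hC, c2 _ hD]
      simp
  by_cases a2 : e' = 0 ∧ (∀ c ∈ κ, c = s) ∧ ∀ c ∈ μ, c = s
  · refine NPB.three (npb_two hr hne ?_ ?_ ?_ ?_)
    · rw [List.count_append, List.count_append, List.count_append, List.count_append, cc κ s r hrs.symm a2.2.1,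
        cc μ s r hrs.symm a2.2.2, c3 r hr, c4, List.count_replicate_self, a2.1]
    · rw [List.count_append, List.count_append, c2 _ hA, c2 _ hB]
      simp
    · rw [List.count_append, List.count_append, List.count_append, List.count_append, cc κ s r hrs.symm a2.2.1,
        cc μ s r hrs.symm a2.2.2, c3 r hr, c4, List.count_replicate_self, a2.1]
    · rw [List.count_append, List.count_append, c2 _ hC, c2 _ hD]
      simp
  have hboth : ∀ W : List (Fin 3), r ∈ W → s ∈ W → Both W := by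
    intro W h1 h2
    rcases rs_cases hrs hr hs with ⟨e1, e2⟩ | ⟨e1, e2⟩
    · exact ⟨e1 ▸ h1, e2 ▸ h2⟩
    · exact ⟨e2 ▸ h2, e1 ▸ h1⟩
  have hrr : r ∈ List.replicate (e' + 1) r := by simp
  by_cases a3 : (s ∈ κ ∨ s ∈ μ) ∧ (r ∈ κ ∨ r ∈ μ)
  · refine NPB.three (npb_long hA hB hC hD ?_ ?_ (Or.inr (Or.inr ⟨List.Perm.refl _, ?_, ?_⟩)))
    · rintro c A' C' ⟨h1, h2⟩
      rw [List.replicate_succ, List.cons_append, List.cons.injEq] at h1
      rw [List.singleton_append, List.cons.injEq] at h2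
      exact hrs (h1.1.trans h2.1.symm)
    · rintro c B' D' ⟨h1, h2⟩
      rw [List.replicate_succ', ← List.append_assoc] at h2
      have h3 := (List.append_inj' h1 rfl).2
      have h4 := (List.append_inj' h2 rfl).2
      simp only [List.cons.injEq, and_true] at h3 h4
      exact hrs (h4.trans h3.symm)
    · rcases a3.1 with h | h
      · exact Or.inl (hboth _ (List.mem_append_left _ hrr) (List.mem_append_right _ h))
      · exact Or.inr (hboth _ (List.mem_append_right _ hrr) (List.mem_append_left _ h))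
    · rcases a3.2 with h | h
      · exact Or.inl (hboth _ (List.mem_append_right _ h) (List.mem_append_left _ List.mem_cons_self))
      · exact Or.inr (hboth _ (List.mem_append_left _ h) (List.mem_append_right _ List.mem_cons_self))
  -- only `s` in `κ, μ`
  have b1 : s ∈ κ ∨ s ∈ μ := by
    by_contra hcon
    push Not at hcon
    apply a1
    constructor
    · intro c hc
      rcases hmem κ hκ c hc with h | h
      · exact h
      · exact absurd (h ▸ hc) hcon.1
    · intro c hc
      rcases hmem μ hμ c hc with h | h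
      · exact h
      · exact absurd (h ▸ hc) hcon.2
  have b2 : r ∉ κ ∧ r ∉ μ := by
    constructor
    · exact fun h => a3 ⟨b1, Or.inl h⟩
    · exact fun h => a3 ⟨b1, Or.inr h⟩
  have b3 : ∀ c ∈ κ, c = s := by
    intro c hc
    rcases hmem κ hκ c hc with h | h
    · exact absurd (h ▸ hc) b2.1
    · exact h
  have b4 : ∀ c ∈ μ, c = s := by
    intro c hc
    rcases hmem μ hμ c hc with h | h
    · exact absurd (h ▸ hc) b2.2
    · exact h
  have b5 : e' ≠ 0 := fun h => a2 ⟨h, b3, b4⟩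
  have b6 : κ = pow [s] κ.length := by
    rw [pow_single]
    exact List.eq_replicate_of_mem b3
  have b7 : μ = pow [s] μ.length := by
    rw [pow_single]
    exact List.eq_replicate_of_mem b4
  have b8 : 1 ≤ κ.length + μ.length := by
    rcases b1 with h | h
    · have := List.length_pos_of_mem h
      omega
    · have := List.length_pos_of_mem h
      omega
  obtain ⟨k, hk⟩ : ∃ k, k = κ.length := ⟨_, rfl⟩
  obtain ⟨l, hl⟩ : ∃ l, l = μ.length := ⟨_, rfl⟩
  rw [← hk] at b6 b8
  rw [← hl] at b7 b8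
  refine ⟨![fun h => Solves h ([0, 1], [1, 0]) ∧ ¬ Per h,
      fun h => Solves h ((List.replicate (e' + 1) r ++ κ) ++ [2] ++ (μ ++ [s]),
        ([s] ++ κ) ++ [2] ++ (μ ++ List.replicate (e' + 1) r)) ∧ h 0 ++ h 1 ≠ h 1 ++ h 0 ∧
        (val h ([s] ++ κ)).length < (val h (List.replicate (e' + 1) r ++ κ)).length ∧
        io (h 2) ∈ Subgroup.closure {io (h 0), io (h 1)},
      fun h => Solves h ([0, 1], [1, 0]) ∧ ¬ Per h], ?_, ?_⟩
  · intro j
    fin_cases j
    · intro E h h1 h2 h3
      exact npb_xy α E h (fun i => (h1 i).2) (fun i => (h1 i).1) h2 h3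
    · exact four_uni hA hB hC hD
    · intro E h h1 h2 h3
      exact npb_xy α E h (fun i => (h1 i).2) (fun i => (h1 i).1) h2 h3
  · intro h hsol hn
    by_cases hxy : h 0 ++ h 1 = h 1 ++ h 0
    · refine ⟨0, ?_, hn⟩
      show val h [0, 1] = val h [1, 0]
      simpa only [val_cons', val_nil', List.append_nil] using hxy
    · have hc : h r ++ h s ≠ h s ++ h r := by
        rcases rs_cases hrs hr hs with ⟨e1, e2⟩ | ⟨e1, e2⟩
        · rw [e1, e2]
          exact hxy
        · rw [e1, e2]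
          exact fun e => hxy e.symm
      have hvr : val h (List.replicate (e' + 1) r) = pow (h r) (e' + 1) := by
        rw [← pow_single, val_pow, val_one']
      have hvk : val h κ = pow (h s) k := by rw [b6, val_pow, val_one']
      have hvl : val h μ = pow (h s) l := by rw [b7, val_pow, val_one']
      have heq : pow (h r) (e' + 1) ++ (pow (h s) k ++ h 2 ++ pow (h s) l) ++ h s =
          h s ++ (pow (h s) k ++ h 2 ++ pow (h s) l) ++ pow (h r) (e' + 1) := by
        have h3 : val h ((List.replicate (e' + 1) r ++ κ) ++ [2] ++ (μ ++ [s])) =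
          val h (([s] ++ κ) ++ [2] ++ (μ ++ List.replicate (e' + 1) r)) := hsol
        simp only [val_append, val_one', hvr, hvk, hvl] at h3
        simpa only [List.append_assoc] using h3
      obtain ⟨g1, g2⟩ := rp (by omega) b8 hc heq
      refine ⟨1, hsol, hxy, ?_, ?_⟩
      · rw [val_append, val_append, hvr, val_one', List.length_append, List.length_append]
        omega
      · rcases rs_cases hrs hr hs with ⟨e1, e2⟩ | ⟨e1, e2⟩
        · rw [e1, e2] at g2
          exact g2
        · rw [e1, e2, Set.pair_comm] at g2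
          exact g2

theorem mixd_aux {r s : Fin 3} (hrs : r ≠ s) (hr : r ≠ 2) (hs : s ≠ 2) {e : ℕ} (he : 1 ≤ e) :
    ∀ (N : ℕ) (A B C D : List (Fin 3)), A.length + B.length ≤ N → (2 : Fin 3) ∉ A → (2 : Fin 3) ∉ B →
    (2 : Fin 3) ∉ C → (2 : Fin 3) ∉ D → IsConj ((fw [s])⁻¹ * fw (List.replicate e r)) ((fw C)⁻¹ * fw A) →
    Three α (A ++ [2] ++ B, C ++ [2] ++ D) := by
  have main : ∀ (A B C D : List (Fin 3)), (2 : Fin 3) ∉ A → (2 : Fin 3) ∉ B →
      (2 : Fin 3) ∉ C → (2 : Fin 3) ∉ D → IsConj ((fw [s])⁻¹ * fw (List.replicate e r)) ((fw C)⁻¹ * fw A) →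
      (∀ (c : Fin 3) (A' C' : List (Fin 3)), ¬ (A = c :: A' ∧ C = c :: C')) →
      (∀ (c : Fin 3) (B' D' : List (Fin 3)), ¬ (B = B' ++ [c] ∧ D = D' ++ [c])) →
      Three α (A ++ [2] ++ B, C ++ [2] ++ D) := by
    intro A B C D hA hB hC hD hP hf hl
    by_cases hbal : ∀ c : Fin 3, (A ++ B).count c = (C ++ D).count c
    swap
    · push Not at hbal
      exact (npb_unbal hA hB hC hD hbal).three
    by_cases hPQ : IsConj ((fw C)⁻¹ * fw A) (fw D * (fw B)⁻¹)
    swap
    · exact (npb_nc hA hB hC hD hbal hPQ).three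
    obtain ⟨κ, k1, k2⟩ := cj_left3 hrs hr hs he hA hC hf hP
    obtain ⟨μ, m1, m2⟩ := cj_right3 hrs hr hs he hB hD hl (hP.trans hPQ)
    rw [k1, k2, m1, m2]
    exact mixd_red hrs hr hs he (fun hh => hA (by rw [k1]; exact List.mem_append_right _ hh))
      (fun hh => hD (by rw [m1]; exact List.mem_append_left _ hh))
  intro N
  induction N with
  | zero =>
    intro A B C D hN hA hB hC hD hP
    have hA0 : A = [] := List.eq_nil_of_length_eq_zero (by omega)
    have hB0 : B = [] := List.eq_nil_of_length_eq_zero (by omega)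
    refine main A B C D hA hB hC hD hP ?_ ?_
    · rintro c A' C' ⟨h1, -⟩
      rw [hA0] at h1
      cases h1
    · rintro c B' D' ⟨h1, -⟩
      rw [hB0] at h1
      have := congrArg List.length h1
      simp at this
  | succ N ih =>
    intro A B C D hN hA hB hC hD hP
    by_cases h1 : ∃ (c : Fin 3) (A' C' : List (Fin 3)), A = c :: A' ∧ C = c :: C'
    · obtain ⟨c, A', C', rfl, rfl⟩ := h1
      rw [fw_head] at hP
      exact (ih A' B C' D (by simp only [List.length_cons] at hN; omega) (fun hh => hA (List.mem_cons_of_mem _ hh)) hB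
        (fun hh => hC (List.mem_cons_of_mem _ hh)) hD hP).mono (fun h hh => solves_head hh)
    by_cases h2 : ∃ (c : Fin 3) (B' D' : List (Fin 3)), B = B' ++ [c] ∧ D = D' ++ [c]
    · obtain ⟨c, B', D', rfl, rfl⟩ := h2
      exact (ih A B' C D' (by simp only [List.length_append, List.length_singleton] at hN; omega) hA
        (fun hh => hB (List.mem_append_left _ hh)) hC (fun hh => hD (List.mem_append_left _ hh)) hP).mono
        (fun h hh => solves_last hh)
    exact main A B C D hA hB hC hD hP (fun c A' C' hh => h1 ⟨c, A', C', hh⟩) (fun c B' D' hh => h2 ⟨c, B', D', hh⟩)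

theorem mixd_three {A B C D : List (Fin 3)} (hA : (2 : Fin 3) ∉ A) (hB : (2 : Fin 3) ∉ B) (hC : (2 : Fin 3) ∉ C)
    (hD : (2 : Fin 3) ∉ D) (h : Mixd ((fw C)⁻¹ * fw A)) : Three α (A ++ [2] ++ B, C ++ [2] ++ D) := by
  obtain ⟨r, s, e, hrs, hr, hs, he, h1 | h1⟩ := h
  · exact mixd_aux hrs hr hs he _ A B C D le_rfl hA hB hC hD h1.symm
  · rw [inv_P] at h1
    exact (mixd_aux hrs hr hs he _ C D A B le_rfl hC hD hA hB h1.symm).mono (fun h hh => hh.symm)

theorem three_bound {n r : ℕ} {E : Fin n → List (Fin 3) × List (Fin 3)} {F : List (Fin 3) × List (Fin 3)}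
    (hF : Three α F) (hE : Decreasing α n E)
    (hr : ∀ h : Fin 3 → List α, (∀ i : Fin n, i.val < r → Solves h (E i)) → Solves h F) : n ≤ r + 12 := by
  obtain ⟨K, hK, hh⟩ := hF
  have := four_bound K hK hE (fun h h1 h2 => hh h (hr h h1) h2)
  omega

/-- the element is no power of a member of a pair which generates the free group on `x, y` -/
def Nonb (P : FreeGroup (Fin 2)) : Prop :=
  ∀ (ρ κ : FreeGroup (Fin 2)) (m : ℕ), Subgroup.closure {ρ, κ} = ⊤ → P ≠ ρ ^ m

theorem all_three {A B C D : List (Fin 3)} (hA : (2 : Fin 3) ∉ A) (hB : (2 : Fin 3) ∉ B) (hC : (2 : Fin 3) ∉ C)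
    (hD : (2 : Fin 3) ∉ D)
    (h : Nonb ((fw C)⁻¹ * fw A) ∨ Posi ((fw C)⁻¹ * fw A) ∨ Mixd ((fw C)⁻¹ * fw A)) :
    Three α (A ++ [2] ++ B, C ++ [2] ++ D) := by
  rcases h with h | h | h
  · exact nb_four hA hB hC hD h
  · exact (posi_npb hA hB hC hD h).three
  · exact mixd_three hA hB hC hD h

end Pool.Agent.H70.WE
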