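import Pool.Agent.H70.WB.Fd

/-!
# [H70 WB Fx2] Exponent sums of a pair which generates the free group
-/

set_option autoImplicit false

namespace Pool.Agent.H70.WE

private theorem fx_mul (ω : Fin 2 → ℤ) (g h : FreeGroup (Fin 2)) : hz ω (g * h) = hz ω g + hz ω h := by
  simp only [hz, map_mul, toAdd_mul]

private theorem fx_one (ω : Fin 2 → ℤ) : hz ω 1 = 0 := by
  simp only [hz, map_one, toAdd_one]

private theorem fx_inv (ω : Fin 2 → ℤ) (g : FreeGroup (Fin 2)) : hz ω g⁻¹ = - hz ω g := by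
  simp only [hz, map_inv, toAdd_inv]

private theorem fx_of (ω : Fin 2 → ℤ) (i : Fin 2) : hz ω (FreeGroup.of i) = ω i := by
  simp only [hz, ht, FreeGroup.lift_apply_of, toAdd_ofAdd]

private theorem fx_ex (i l : Fin 2) : ex i (FreeGroup.of l) = if l = i then 1 else 0 := by
  unfold ex
  rw [fx_of, Pi.single_apply]

private theorem fx_eq (ω : Fin 2 → ℤ) (g : FreeGroup (Fin 2)) : hz ω g = ω 0 * ex 0 g + ω 1 * ex 1 g := by
  induction g using FreeGroup.induction_on with
  | C1 => unfold ex; rw [fx_one, fx_one, fx_one]; ring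
  | of i =>
    rw [fx_of, fx_ex, fx_ex]
    fin_cases i <;> simp
  | inv_of i ih =>
    unfold ex at ih ⊢
    rw [fx_inv, fx_inv, fx_inv, ih]
    ring
  | mul g h ihg ihh =>
    unfold ex at ihg ihh ⊢
    rw [fx_mul, fx_mul, fx_mul, ihg, ihh]
    ring

private theorem fx_span {ρ κ : FreeGroup (Fin 2)} (hcl : Subgroup.closure {ρ, κ} = ⊤) (g : FreeGroup (Fin 2)) :
    ∃ a b : ℤ, ∀ l : Fin 2, ex l g = a * ex l ρ + b * ex l κ := by
  have hg : g ∈ Subgroup.closure ({ρ, κ} : Set (FreeGroup (Fin 2))) := by rw [hcl]; trivial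
  induction hg using Subgroup.closure_induction with
  | mem x hx =>
    rcases hx with rfl | hx
    · exact ⟨1, 0, fun l => by ring⟩
    · rw [Set.mem_singleton_iff] at hx
      subst hx
      exact ⟨0, 1, fun l => by ring⟩
  | one => exact ⟨0, 0, fun l => by unfold ex; rw [fx_one]; ring⟩
  | mul x y _ _ hx hy =>
    obtain ⟨a, b, h1⟩ := hx
    obtain ⟨c, d, h2⟩ := hy
    refine ⟨a + c, b + d, fun l => ?_⟩
    have h3 := h1 l
    have h4 := h2 l
    unfold ex at h3 h4 ⊢
    rw [fx_mul, h3, h4]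
    ring
  | inv x _ hx =>
    obtain ⟨a, b, h1⟩ := hx
    refine ⟨-a, -b, fun l => ?_⟩
    have h3 := h1 l
    unfold ex at h3 ⊢
    rw [fx_inv, h3]
    ring

private theorem fx_det {ρ κ : FreeGroup (Fin 2)} (hcl : Subgroup.closure {ρ, κ} = ⊤) :
    ex 0 ρ * ex 1 κ - ex 1 ρ * ex 0 κ = 1 ∨ ex 0 ρ * ex 1 κ - ex 1 ρ * ex 0 κ = -1 := by
  obtain ⟨a, b, h1⟩ := fx_span hcl (FreeGroup.of 0)
  obtain ⟨c, d, h2⟩ := fx_span hcl (FreeGroup.of 1)
  have e1 := h1 0
  have e2 := h1 1
  have e3 := h2 0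
  have e4 := h2 1
  rw [fx_ex] at e1 e2 e3 e4
  rw [if_pos rfl] at e1 e4
  rw [if_neg (by decide)] at e2 e3
  have h : (ex 0 ρ * ex 1 κ - ex 1 ρ * ex 0 κ) * (a * d - b * c) = 1 := by
    calc (ex 0 ρ * ex 1 κ - ex 1 ρ * ex 0 κ) * (a * d - b * c) =
        (a * ex 0 ρ + b * ex 0 κ) * (c * ex 1 ρ + d * ex 1 κ) -
          (a * ex 1 ρ + b * ex 1 κ) * (c * ex 0 ρ + d * ex 0 κ) := by ring
      _ = 1 := by rw [← e1, ← e2, ← e3, ← e4]; norm_num
  exact Int.isUnit_iff.1 (IsUnit.of_mul_eq_one _ h)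

/-- `hz ω g = ω i * ex i g + ω j * ex j g` (`i ≠ j`, induction). The exponent sums of `ρ, κ` generate `ℤ²` (closure induction: `ex l g = a * ex l ρ + b * ex l κ` for
both `l`; take `g = of i, of j`), so `ex i ρ * ex j κ - ex j ρ * ex i κ` is a unit of `ℤ`. -/
theorem fox_wt {ρ κ : FreeGroup (Fin 2)} (hcl : Subgroup.closure {ρ, κ} = ⊤) {i j : Fin 2} (hij : i ≠ j) :
    hz (fun l => if l = i then ex j ρ else - ex i ρ) ρ = 0 ∧
    (hz (fun l => if l = i then ex j ρ else - ex i ρ) κ = 1 ∨ hz (fun l => if l = i then ex j ρ else - ex i ρ) κ = -1) := by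
  have hd := fx_det hcl
  rw [fx_eq _ ρ, fx_eq _ κ]
  fin_cases i <;> fin_cases j
  · exact absurd rfl hij
  · simp only [Fin.zero_eta, Fin.mk_one, if_true, one_ne_zero, if_false]
    refine ⟨by ring, ?_⟩
    rcases hd with hd | hd
    · right; linarith
    · left; linarith
  · simp only [Fin.zero_eta, Fin.mk_one, if_true, zero_ne_one, if_false]
    refine ⟨by ring, ?_⟩
    rcases hd with hd | hd
    · left; linarith
    · right; linarith
  · exact absurd rfl hij

/-- exponent sums of words and of powers; `i` is the index of the letter `r` -/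
theorem ex_word (U : List (Fin 3)) (hU : (2 : Fin 3) ∉ U) : ex 0 (fw U) = U.count 0 ∧ ex 1 (fw U) = U.count 1 := by
  induction U with
  | nil =>
    have h : fw [] = 1 := by simp [fw, fval]
    rw [h]
    unfold ex
    rw [fx_one, fx_one]
    simp
  | cons c U ih =>
    rw [List.mem_cons, not_or] at hU
    obtain ⟨h1, h2⟩ := ih hU.2
    have h : fw (c :: U) = (![FreeGroup.of 0, FreeGroup.of 1, 1] : Fin 3 → FreeGroup (Fin 2)) c * fw U := by
      simp [fw, fval]
    rw [h]
    have h3 : ∀ (i : Fin 2) (g h : FreeGroup (Fin 2)), ex i (g * h) = ex i g + ex i h := fun i g h => fx_mul _ g h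
    rw [h3, h3, h1, h2, List.count_cons, List.count_cons]
    fin_cases c
    · simp only [Fin.zero_eta, Matrix.cons_val_zero]
      rw [fx_ex, fx_ex]
      constructor <;> simp <;> ring
    · simp only [Fin.mk_one, Matrix.cons_val_one, Matrix.cons_val_zero]
      rw [fx_ex, fx_ex]
      constructor <;> simp <;> ring
    · exact absurd rfl hU.1

theorem ex_mul (i : Fin 2) (g h : FreeGroup (Fin 2)) : ex i (g * h) = ex i g + ex i h := fx_mul _ g h

theorem ex_inv (i : Fin 2) (g : FreeGroup (Fin 2)) : ex i g⁻¹ = - ex i g := fx_inv _ g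

theorem ex_pow (i : Fin 2) (g : FreeGroup (Fin 2)) (m : ℕ) : ex i (g ^ m) = m * ex i g := by
  induction m with
  | zero =>
    unfold ex
    rw [pow_zero, fx_one]
    simp
  | succ m ih =>
    rw [pow_succ, ex_mul, ih]
    push_cast
    ring

end Pool.Agent.H70.WE
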