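import Pool.Agent.H70.WB.Fd

/-!
# [H70 WB Fx3] Units of `ℤ[T;T⁻¹]` and a window
-/

set_option autoImplicit false

namespace Pool.Agent.H70.WE

open LaurentPolynomial

private noncomputable def cf (n : ℤ) : Lam →+ ℤ :=
  AddMonoidHom.mk' (fun f => f.coeff n) (fun f g => by simp)

private theorem cf_T (a n : ℤ) : cf n (T a) = if a = n then 1 else 0 := T_apply n a

private theorem cf_list (L : List ℤ) (n : ℤ) : cf n (L.map (fun n => (T n : Lam))).sum = L.count n := by
  induction L with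
  | nil => simp
  | cons a L ih =>
    rw [List.map_cons, List.sum_cons, map_add, ih, cf_T, List.count_cons]
    by_cases h : a = n
    · simp [h]
      ring
    · simp [h]

private theorem unit_form (u : Lamˣ) : ∃ s a : ℤ, (s = 1 ∨ s = -1) ∧ (u : Lam) = (s : Lam) * T a := by
  obtain ⟨n, p, hp⟩ := exists_T_pow (u : Lam)
  obtain ⟨n', q, hq⟩ := exists_T_pow ((u⁻¹ : Lamˣ) : Lam)
  have hpq : p * q = Polynomial.X ^ (n + n') := by
    apply Polynomial.toLaurent_injective
    rw [map_mul, hp, hq, Polynomial.toLaurent_X_pow]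
    have h1 : (u : Lam) * T n * (((u⁻¹ : Lamˣ) : Lam) * T n') = ((u : Lam) * ((u⁻¹ : Lamˣ) : Lam)) * (T n * T n') := by
      ring
    rw [h1, Units.mul_inv, one_mul, ← T_add]
    push_cast
    rfl
  obtain ⟨i, hi, hass⟩ := (dvd_prime_pow Polynomial.prime_X _).1 ⟨q, hpq.symm⟩
  obtain ⟨v, hv⟩ := hass.symm
  obtain ⟨r, hr, hrv⟩ := Polynomial.isUnit_iff.1 v.isUnit
  refine ⟨r, i - n, Int.isUnit_iff.1 hr, ?_⟩
  have h2 : Polynomial.toLaurent p = (r : Lam) * T i := by
    rw [← hv, ← hrv, mul_comm, Polynomial.toLaurent_C_mul_X_pow]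
    rfl
  have h3 : (u : Lam) = (u : Lam) * T n * T (-n) := by
    rw [mul_assoc, ← T_add, add_neg_cancel, T_zero, mul_one]
  rw [h3, ← hp, h2, mul_assoc, ← T_add, sub_eq_add_neg]

private theorem sum_if (a n : ℤ) (b : ℕ) : (∑ j ∈ Finset.range b, if a + (j : ℤ) = n then (1 : ℤ) else 0) =
    if a ≤ n ∧ n < a + b then 1 else 0 := by
  induction b with
  | zero =>
    rw [Finset.sum_range_zero, if_neg]
    rintro ⟨h1, h2⟩
    push_cast at h2
    omega
  | succ b ih =>
    rw [Finset.sum_range_succ, ih]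
    push_cast
    split_ifs <;> omega

private theorem core {L : List ℤ} {s : ℤ} (hs : s = 1 ∨ s = -1) {m : ℕ} (hm : 1 ≤ m) {b : ℕ} (hb : 0 < b) {a : ℤ}
    (h : (L.map (fun n => (T n : Lam))).sum = ((m * s : ℤ) : Lam) * (T a * ∑ j ∈ Finset.range b, T (j : ℤ))) :
    ∀ n : ℤ, L.count n = if a ≤ n ∧ n < a + b then m else 0 := by
  have key : ∀ n : ℤ, (L.count n : ℤ) = (m * s) * if a ≤ n ∧ n < a + b then 1 else 0 := by
    intro n
    rw [← cf_list, h, ← zsmul_eq_mul, map_zsmul, Finset.mul_sum, map_sum, smul_eq_mul, ← sum_if]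
    congr 1
    refine Finset.sum_congr rfl fun j _ => ?_
    rw [← T_add, cf_T]
  have h1 : s = 1 := by
    rcases hs with h1 | h1
    · exact h1
    · exfalso
      have h2 := key a
      rw [if_pos ⟨le_rfl, by omega⟩, h1] at h2
      have h3 : (0 : ℤ) ≤ (L.count a : ℤ) := Int.natCast_nonneg _
      have h4 : (1 : ℤ) ≤ (m : ℤ) := by exact_mod_cast hm
      omega
  intro n
  have h2 := key n
  rw [h1] at h2
  split_ifs at h2 ⊢
  · rw [mul_one, mul_one] at h2
    exact_mod_cast h2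
  · rw [mul_zero] at h2
    exact_mod_cast h2

/-- Proof. A unit `u` of `ℤ[T;T⁻¹]` is `ε T a`, `ε = 1` or `-1` (lowest and highest exponents add, or: `T^n u` is a polynomial which divides a power of `X`, `X` is prime).
`T (-1) - 1 = - T (-1) * (T 1 - 1)`, so `f * (T 1 - 1) = ε' m T a' * (T β - 1) = ε' m T a' * (∑ j < β, T j) * (T 1 - 1)`; cancel (`ℤ[T;T⁻¹]` is a domain).
So `(L.map T).sum = ε' m ∑ j < β, T (a' + j)`; compare coefficients: `L.count n` is `ε' m` for `a' ≤ n < a' + β` and `0` otherwise; as `m ≥ 1`, `β ≥ 1` and counts are `≥ 0`, `ε' = 1`. -/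
theorem window {L : List ℤ} {u : Lamˣ} {m : ℕ} (hm : 1 ≤ m) {β k : ℤ} (hβ : 0 < β) (hk : k = 1 ∨ k = -1)
    (h : (L.map (fun n => (T n : Lam))).sum * (T k - 1) = (m : Lam) * ((u : Lam) * (T β - 1))) :
    ∃ a : ℤ, ∀ n : ℤ, L.count n = if a ≤ n ∧ n < a + β then m else 0 := by
  obtain ⟨s, a, hs, hu⟩ := unit_form u
  obtain ⟨b, rfl⟩ : ∃ b : ℕ, β = b := ⟨β.toNat, (Int.toNat_of_nonneg hβ.le).symm⟩
  have hb : 0 < b := by exact_mod_cast hβ
  have hT : (T (b : ℤ) : Lam) - 1 = (∑ j ∈ Finset.range b, T (j : ℤ)) * (T 1 - 1) := by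
    have h1 := geom_sum_mul (T 1 : Lam) b
    simp only [T_pow, mul_one] at h1
    exact h1.symm
  have hne : (T 1 : Lam) - 1 ≠ 0 := by
    intro h1
    have h2 : (T 1 : Lam) = T 0 := by
      rw [T_zero]
      exact sub_eq_zero.1 h1
    have h3 := congrArg (cf 1) h2
    rw [cf_T, cf_T] at h3
    simp at h3
  rw [hu, hT] at h
  rcases hk with rfl | rfl
  · refine ⟨a, core hs hm hb ?_⟩
    apply mul_right_cancel₀ hne
    rw [h]
    push_cast
    ring
  · refine ⟨a + 1, core (s := -s) (by omega) hm hb ?_⟩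
    apply mul_right_cancel₀ hne
    have h1 : (T (-1) : Lam) * T 1 = 1 := by rw [← T_add]; rfl
    have h2 : (L.map (fun n => (T n : Lam))).sum * (T 1 - 1) =
        -((L.map (fun n => (T n : Lam))).sum * (T (-1) - 1)) * T 1 := by
      linear_combination (L.map (fun n => (T n : Lam))).sum * h1
    rw [h2, h, T_add]
    push_cast
    ring

end Pool.Agent.H70.WE
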