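import Pool.Agent.H70.WB.Fd

/-!
# [H70 WB Fx4] The Fox derivative of `r^(-e) W`
-/

set_option autoImplicit false

namespace Pool.Agent.H70.WE

open LaurentPolynomial

private theorem hz_mul' (ω : Fin 2 → ℤ) (g h : FreeGroup (Fin 2)) : hz ω (g * h) = hz ω g + hz ω h := by
  unfold hz
  rw [map_mul, toAdd_mul]

private theorem hz_one' (ω : Fin 2 → ℤ) : hz ω 1 = 0 := by
  unfold hz
  rw [map_one, toAdd_one]

private theorem hz_inv' (ω : Fin 2 → ℤ) (g : FreeGroup (Fin 2)) : hz ω g⁻¹ = - hz ω g := by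
  unfold hz
  rw [map_inv, toAdd_inv]

private theorem hz_of' (ω : Fin 2 → ℤ) (l : Fin 2) : hz ω (FreeGroup.of l) = ω l := by
  unfold hz ht
  rw [FreeGroup.lift_apply_of]
  rfl

private theorem D_one {ω : Fin 2 → ℤ} {D : FreeGroup (Fin 2) → Lam}
    (hD : ∀ g h, D (g * h) = D g + T (hz ω g) * D h) : D 1 = 0 := by
  have h1 := hD 1 1
  rw [hz_one', T_zero, one_mul, one_mul] at h1
  exact left_eq_add.1 h1

private theorem D_inv {ω : Fin 2 → ℤ} {D : FreeGroup (Fin 2) → Lam}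
    (hD : ∀ g h, D (g * h) = D g + T (hz ω g) * D h) (g : FreeGroup (Fin 2)) :
    D g⁻¹ = - (T (- hz ω g) * D g) := by
  have h1 := hD g⁻¹ g
  rw [inv_mul_cancel, D_one hD, hz_inv'] at h1
  exact eq_neg_of_add_eq_zero_left h1.symm

private theorem fw_cons' (c : Fin 3) (U : List (Fin 3)) :
    fw (c :: U) = (![FreeGroup.of 0, FreeGroup.of 1, 1] : Fin 3 → FreeGroup (Fin 2)) c * fw U := by
  unfold fw
  exact fval_cons 1 c U

private theorem gen_r {r s : Fin 3} {i j : Fin 2}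
    (hri : (r = 0 ∧ i = 0 ∧ s = 1 ∧ j = 1) ∨ (r = 1 ∧ i = 1 ∧ s = 0 ∧ j = 0)) :
    (![FreeGroup.of 0, FreeGroup.of 1, 1] : Fin 3 → FreeGroup (Fin 2)) r = FreeGroup.of i ∧
    (![FreeGroup.of 0, FreeGroup.of 1, 1] : Fin 3 → FreeGroup (Fin 2)) s = FreeGroup.of j ∧ r ≠ s ∧
    ∀ c : Fin 3, c ≠ 2 → c = r ∨ c = s := by
  rcases hri with ⟨rfl, rfl, rfl, rfl⟩ | ⟨rfl, rfl, rfl, rfl⟩
  · exact ⟨rfl, rfl, by decide, by decide⟩
  · exact ⟨rfl, rfl, by decide, by decide⟩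

private theorem D_word {r s : Fin 3} {i j : Fin 2}
    (hri : (r = 0 ∧ i = 0 ∧ s = 1 ∧ j = 1) ∨ (r = 1 ∧ i = 1 ∧ s = 0 ∧ j = 0))
    (ω : Fin 2 → ℤ) (D : FreeGroup (Fin 2) → Lam) (hDi : D (FreeGroup.of i) = 0)
    (hDj : D (FreeGroup.of j) = 1) (hD : ∀ g h, D (g * h) = D g + T (hz ω g) * D h) :
    ∀ (W : List (Fin 3)), (2 : Fin 3) ∉ W → ∀ g : FreeGroup (Fin 2),
    D (g * fw W) = D g + ((hts (ω i) (ω j) s W (hz ω g)).map (fun n => (T n : Lam))).sum := by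
  obtain ⟨hr, hs, hrs, hc⟩ := gen_r hri
  intro W
  induction W with
  | nil =>
    intro _ g
    have h1 : fw [] = 1 := rfl
    rw [h1, mul_one]
    simp [hts]
  | cons c U ih =>
    intro h2 g
    rw [List.mem_cons, not_or] at h2
    rw [fw_cons', ← mul_assoc, ih h2.2]
    rcases hc c (Ne.symm h2.1) with rfl | rfl
    · rw [hr, hD, hDi, mul_zero, add_zero, hz_mul', hz_of']
      simp only [hts]
      rw [if_neg hrs]
    · rw [hs, hD, hDj, mul_one, hz_mul', hz_of']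
      simp only [hts]
      rw [if_true, List.map_cons, List.sum_cons, add_assoc]

private theorem rep_word {r s : Fin 3} {i j : Fin 2}
    (hri : (r = 0 ∧ i = 0 ∧ s = 1 ∧ j = 1) ∨ (r = 1 ∧ i = 1 ∧ s = 0 ∧ j = 0))
    (ω : Fin 2 → ℤ) (D : FreeGroup (Fin 2) → Lam) (hDi : D (FreeGroup.of i) = 0)
    (hD : ∀ g h, D (g * h) = D g + T (hz ω g) * D h) (e : ℕ) :
    hz ω (fw (List.replicate e r)) = e * ω i ∧ D (fw (List.replicate e r)) = 0 := by
  obtain ⟨hr, hs, hrs, hc⟩ := gen_r hri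
  induction e with
  | zero =>
    have h1 : fw (List.replicate 0 r) = 1 := rfl
    rw [h1, hz_one', D_one hD]
    simp
  | succ e ih =>
    rw [List.replicate_succ, fw_cons', hr, hz_mul', hz_of', hD, hDi, ih.1, ih.2]
    refine ⟨?_, by simp⟩
    push_cast
    ring

/-- `r, s` are the letters of the generators `i, j`. `D 1 = 0`, `D g⁻¹ = - T (- hz ω g) * D g`, `D (fw (r^e)) = 0`; induction on `W` for
`D (g * fw W) = D g + ((hts (ω i) (ω j) s W (hz ω g)).map T).sum` (all letters of `W` are `r` or `s`); and `D (ρ^m) = m * D ρ` if `hz ω ρ = 0`. -/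
theorem fox_word {r s : Fin 3} {i j : Fin 2} (hri : (r = 0 ∧ i = 0 ∧ s = 1 ∧ j = 1) ∨ (r = 1 ∧ i = 1 ∧ s = 0 ∧ j = 0))
    (ω : Fin 2 → ℤ) (D : FreeGroup (Fin 2) → Lam) (hDi : D (FreeGroup.of i) = 0)
    (hDj : D (FreeGroup.of j) = 1) (hD : ∀ g h, D (g * h) = D g + T (hz ω g) * D h) {W : List (Fin 3)}
    (hW : (2 : Fin 3) ∉ W) (e : ℕ) :
    D ((fw (List.replicate e r))⁻¹ * fw W) = T (-(e * ω i)) * ((hts (ω i) (ω j) s W 0).map (fun n => (T n : Lam))).sum := by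
  obtain ⟨h1, h2⟩ := rep_word hri ω D hDi hD e
  have h3 := D_word hri ω D hDi hDj hD W hW 1
  rw [one_mul, D_one hD, zero_add, hz_one'] at h3
  rw [hD, D_inv hD, h2, mul_zero, neg_zero, zero_add, hz_inv', h1, h3]

theorem fox_pow (ω : Fin 2 → ℤ) (D : FreeGroup (Fin 2) → Lam) (hD : ∀ g h, D (g * h) = D g + T (hz ω g) * D h)
    {ρ : FreeGroup (Fin 2)} (hρ : hz ω ρ = 0) (m : ℕ) : D (ρ ^ m) = (m : Lam) * D ρ := by
  induction m with
  | zero =>
    rw [pow_zero, D_one hD, Nat.cast_zero, zero_mul]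
  | succ m ih =>
    rw [pow_succ', hD, hρ, T_zero, one_mul, ih, Nat.cast_succ, add_mul, one_mul, add_comm]

end Pool.Agent.H70.WE
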