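import Pool.Agent.H70.WB.Fd

/-!
# [H70 WB Fx5] Heights: the contradiction
-/

set_option autoImplicit false

namespace Pool.Agent.H70.WE

private theorem last_mem {r s : Fin 3} (hrs : r ≠ s) (β γ : ℤ) :
    ∀ (V : List (Fin 3)) (n : ℤ), (∀ c ∈ V, c = r ∨ c = s) →
      n + (V.count r : ℤ) * β + (V.count s : ℤ) * γ ∈ hts β γ s (V ++ [s]) n := by
  intro V
  induction V with
  | nil => intro n _; simp [hts]
  | cons c U ih =>
    intro n hV
    have hU : ∀ d ∈ U, d = r ∨ d = s := fun d hd => hV d (List.mem_cons_of_mem _ hd)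
    rcases hV c List.mem_cons_self with rfl | rfl
    · have h := ih (n + β) hU
      rw [List.cons_append, hts, if_neg hrs, List.count_cons_self,
        List.count_cons_of_ne hrs]
      have e : n + ((List.count c U + 1 : ℕ) : ℤ) * β + (List.count s U : ℤ) * γ =
          n + β + (List.count c U : ℤ) * β + (List.count s U : ℤ) * γ := by
        push_cast; ring
      rw [e]; exact h
    · have h := ih (n + γ) hU
      rw [List.cons_append, hts, if_pos rfl, List.count_cons_self,
        List.count_cons_of_ne (Ne.symm hrs)]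
      have e : n + (List.count r U : ℤ) * β + ((List.count c U + 1 : ℕ) : ℤ) * γ =
          n + γ + (List.count r U : ℤ) * β + (List.count c U : ℤ) * γ := by
        push_cast; ring
      rw [e]; exact List.mem_cons_of_mem _ h

/-- Proof. `W` starts and ends with `s`, `W ≠ [s]`, so `s` occurs at least twice. The first height is `0`, the last one is
(height of `W`) - γ = `e β - γ` (`hφ`). Both are in the window, so `e β - γ - 0 ≤ β - 1`, `γ ≥ (e - 1) β + 1 ≥ 1`, and `2 γ ≤ e β` minus `β` for every `r`: impossible. -/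
theorem no_window {r s : Fin 3} (hrs : r ≠ s) {W : List (Fin 3)} (hW : ∀ c ∈ W, c = r ∨ c = s) (h1 : ∃ V, W = s :: V)
    (h2 : ∃ V, W = V ++ [s]) {e : ℕ} (he : 1 ≤ e) (hcase : r ∈ W ∨ (2 ≤ e ∧ W ≠ [s])) {β γ a : ℤ} {m : ℕ} (hm : 1 ≤ m)
    (hβ : 0 < β) (hφ : (W.count r : ℤ) * β + (W.count s : ℤ) * γ = e * β)
    (hw : ∀ n : ℤ, (hts β γ s W 0).count n = if a ≤ n ∧ n < a + β then m else 0) : False := by
  have key : ∀ n ∈ hts β γ s W 0, a ≤ n ∧ n < a + β := by
    intro n hn
    by_contra hc
    have h := hw n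
    rw [if_neg hc] at h
    exact (List.count_eq_zero.mp h) hn
  obtain ⟨V, hV⟩ := h1
  obtain ⟨V', hV'⟩ := h2
  have k0 : (0 : ℤ) ∈ hts β γ s W 0 := by
    rw [hV, hts, if_pos rfl]
    exact List.mem_cons_self
  have k1 := last_mem hrs β γ V' 0 (fun c hc => hW c (by rw [hV']; exact List.mem_append_left _ hc))
  rw [← hV'] at k1
  have c0 := key _ k0
  have c1 := key _ k1
  have cr : (W.count r : ℤ) = V'.count r := by
    rw [hV', List.count_append, List.count_singleton]
    simp [Ne.symm hrs]
  have cs : (W.count s : ℤ) = V'.count s + 1 := by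
    rw [hV', List.count_append, List.count_singleton]
    simp
  have hne : V' ≠ [] := by
    rintro rfl
    rw [List.nil_append] at hV'
    rcases hcase with h | ⟨_, h⟩
    · rw [hV', List.mem_singleton] at h
      exact hrs h
    · exact h hV'
  have hs1 : 1 ≤ V'.count s := by
    cases V' with
    | nil => exact absurd rfl hne
    | cons c U =>
      rw [hV, List.cons_append] at hV'
      have := (List.cons.inj hV').1
      subst this
      rw [List.count_cons_self]
      omega
  have hs2 : (1 : ℤ) ≤ (V'.count s : ℤ) := by exact_mod_cast hs1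
  rw [cr, cs] at hφ
  have hr0 : (0 : ℤ) ≤ (V'.count r : ℤ) := Int.natCast_nonneg _
  have he' : (1 : ℤ) ≤ (e : ℤ) := by exact_mod_cast he
  obtain ⟨a1, a2⟩ := c0
  obtain ⟨b1, b2⟩ := c1
  set x : ℤ := (V'.count r : ℤ) with hx
  set y : ℤ := (V'.count s : ℤ) with hy
  set E : ℤ := (e : ℤ) with hE
  have g1 : (E - 1) * β + 1 ≤ γ := by nlinarith
  have g0 : 1 ≤ γ := by nlinarith
  have g2 : 2 * γ ≤ (y + 1) * γ := by nlinarith
  have g3 : x * β + 2 * γ ≤ E * β := by nlinarith
  rcases hcase with h | ⟨h, _⟩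
  · have hx1 : 1 ≤ x := by
      have : 0 < W.count r := List.count_pos_iff.mpr h
      have h' : (0 : ℤ) < (W.count r : ℤ) := by exact_mod_cast this
      rw [cr] at h'
      omega
    have g4 : β ≤ x * β := by nlinarith
    have g5 : β + 2 * ((E - 1) * β + 1) ≤ E * β := by linarith
    have g6 : (E - 1) * β + 2 ≤ 0 := by linarith
    have g7 : 0 ≤ (E - 1) * β := mul_nonneg (by linarith) hβ.le
    linarith
  · have h2E : (2 : ℤ) ≤ E := by rw [hE]; exact_mod_cast h
    have g4 : 0 ≤ x * β := mul_nonneg hr0 hβ.le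
    have g6 : (E - 2) * β + 2 ≤ 0 := by linarith
    have g7 : 0 ≤ (E - 2) * β := mul_nonneg (by linarith) hβ.le
    linarith

end Pool.Agent.H70.WE
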