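import Pool.Agent.H70.WB.Fx1
import Pool.Agent.H70.WB.Fx2
import Pool.Agent.H70.WB.Fx3
import Pool.Agent.H70.WB.Fx4
import Pool.Agent.H70.WB.Fx5
import Pool.Agent.H70.WB.CjG
import Pool.Agent.H70.WB.Full

/-!
# [H70 WB Fx] `r^(-e) W` is no power of a basis element; all first equations `A z B = C z D`
-/

set_option autoImplicit false

namespace Pool.Agent.H70.WE

open LaurentPolynomial Pool.Agent.H93.TW

theorem nonb_core {r s : Fin 3} {i j : Fin 2} (hrs : r ≠ s) (hij : i ≠ j)
    (hri : (r = 0 ∧ i = 0 ∧ s = 1 ∧ j = 1) ∨ (r = 1 ∧ i = 1 ∧ s = 0 ∧ j = 0)) {e : ℕ} (he : 1 ≤ e)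
    {W : List (Fin 3)} (hW2 : (2 : Fin 3) ∉ W) (h1 : ∃ V, W = s :: V)
    (h2 : ∃ V, W = V ++ [s]) (hcase : r ∈ W ∨ (2 ≤ e ∧ W ≠ [s])) :
    Nonb ((fw (List.replicate e r))⁻¹ * fw W) := by
  intro ρ κ m hcl heq
  have hWrs : ∀ c ∈ W, c = r ∨ c = s := by
    intro c hc
    have h3 : c ≠ 2 := fun h => hW2 (h ▸ hc)
    rcases hri with ⟨rfl, -, rfl, -⟩ | ⟨rfl, -, rfl, -⟩
    · fin_cases c
      · exact Or.inl rfl
      · exact Or.inr rfl
      · exact absurd rfl h3
    · fin_cases c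
      · exact Or.inr rfl
      · exact Or.inl rfl
      · exact absurd rfl h3
  have hr2 : (2 : Fin 3) ∉ List.replicate e r := by
    intro hh
    have := List.eq_of_mem_replicate hh
    rcases hri with ⟨rfl, -, -, -⟩ | ⟨rfl, -, -, -⟩ <;> exact absurd this (by decide)
  -- exponent sums
  have hex : ∀ U : List (Fin 3), (2 : Fin 3) ∉ U → ex i (fw U) = U.count r ∧ ex j (fw U) = U.count s := by
    intro U hU
    have h3 := ex_word U hU
    rcases hri with ⟨rfl, rfl, rfl, rfl⟩ | ⟨rfl, rfl, rfl, rfl⟩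
    · exact h3
    · exact ⟨h3.2, h3.1⟩
  have ei : (W.count r : ℤ) - e = m * ex i ρ := by
    have h3 := congrArg (ex i) heq
    rw [ex_mul, ex_inv, ex_pow, (hex _ hr2).1, (hex _ hW2).1, List.count_replicate_self] at h3
    linarith
  have ej : (W.count s : ℤ) = m * ex j ρ := by
    have h3 := congrArg (ex j) heq
    have h4 : (List.replicate e r).count s = 0 := by
      rw [List.count_eq_zero]
      intro hh
      exact hrs (List.eq_of_mem_replicate hh).symm
    rw [ex_mul, ex_inv, ex_pow, (hex _ hr2).2, (hex _ hW2).2, h4] at h3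
    simpa using h3
  have hcs : 0 < W.count s := by
    obtain ⟨V, rfl⟩ := h1
    exact List.count_pos_iff.2 List.mem_cons_self
  have hm : 1 ≤ m := by
    rcases Nat.eq_zero_or_pos m with h0 | h0
    · rw [h0] at ej
      simp at ej
      omega
    · exact h0
  have hβ : 0 < ex j ρ := by
    by_contra hcon
    push Not at hcon
    have h3 : (m : ℤ) * ex j ρ ≤ 0 := mul_nonpos_of_nonneg_of_nonpos (by omega) hcon
    omega
  obtain ⟨w1, w2⟩ := fox_wt hcl hij
  set ω : Fin 2 → ℤ := fun l => if l = i then ex j ρ else - ex i ρ with hω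
  have ωi : ω i = ex j ρ := by rw [hω]; simp
  have ωj : ω j = - ex i ρ := by
    rw [hω]
    simp [hij.symm]
  obtain ⟨D, hD1, hD⟩ := fox_ex ω (fun l => if l = i then 0 else 1)
  have hDi : D (FreeGroup.of i) = 0 := by rw [hD1]; simp
  have hDj : D (FreeGroup.of j) = 1 := by rw [hD1]; simp [hij.symm]
  obtain ⟨u, hu⟩ := fox_unit hcl ω w1 hij D hDi hDj hD
  have hword := fox_word hri ω D hDi hDj hD hW2 e
  rw [heq, fox_pow ω D hD w1 m] at hword
  have hTu : IsUnit (T ((e : ℤ) * ω i) : Lam) := isUnit_T _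
  obtain ⟨v, hv⟩ := hTu
  have hsum : ((hts (ω i) (ω j) s W 0).map (fun n => (T n : Lam))).sum * (T (hz ω κ) - 1) =
      (m : Lam) * (((v * u : Lamˣ) : Lam) * (T (ω i) - 1)) := by
    have h3 : ((hts (ω i) (ω j) s W 0).map (fun n => (T n : Lam))).sum =
        T ((e : ℤ) * ω i) * ((m : Lam) * D ρ) := by
      rw [hword, ← mul_assoc, ← T_add]
      simp
    rw [h3, Units.val_mul, hv]
    calc T ((e : ℤ) * ω i) * ((m : Lam) * D ρ) * (T (hz ω κ) - 1)
        = (m : Lam) * (T ((e : ℤ) * ω i) * (D ρ * (T (hz ω κ) - 1))) := by ring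
      _ = _ := by rw [hu]; ring
  obtain ⟨a, ha⟩ := window hm (by rw [ωi]; exact hβ) w2 hsum
  refine no_window hrs hWrs h1 h2 he hcase hm (by rw [ωi]; exact hβ) (γ := ω j) ?_ ha
  rw [ωi, ωj, ej]
  have h5 : (W.count r : ℤ) = e + m * ex i ρ := by linarith
  rw [h5]
  ring

theorem nonb_r2 {r s : Fin 3} (hrs : r ≠ s) (hr : r ≠ 2) (hs : s ≠ 2) {e : ℕ} (he : 1 ≤ e)
    {W : List (Fin 3)} (hW2 : (2 : Fin 3) ∉ W) (h1 : ∃ V, W = s :: V)
    (h2 : ∃ V, W = V ++ [s]) (hcase : r ∈ W ∨ (2 ≤ e ∧ W ≠ [s])) :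
    Nonb ((fw (List.replicate e r))⁻¹ * fw W) := by
  rcases rs_cases hrs hr hs with ⟨e1, e2⟩ | ⟨e1, e2⟩
  · exact nonb_core (i := 0) (j := 1) hrs (by decide) (Or.inl ⟨e1, rfl, e2, rfl⟩) he hW2 h1 h2 hcase
  · exact nonb_core (i := 1) (j := 0) hrs (by decide) (Or.inr ⟨e1, rfl, e2, rfl⟩) he hW2 h1 h2 hcase

theorem Nonb.conj {P P' : FreeGroup (Fin 2)} (h : Nonb P) (hc : IsConj P P') : Nonb P' := by
  intro ρ κ m hcl heq
  obtain ⟨c, hc⟩ := isConj_iff.1 hc
  refine h (c⁻¹ * ρ * c) (c⁻¹ * κ * c) m ?_ ?_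
  · have h1 : (Subgroup.closure {ρ, κ}).map (MulAut.conj c⁻¹).toMonoidHom = ⊤ := by
      rw [hcl, ← MonoidHom.range_eq_map, MonoidHom.range_eq_top]
      exact (MulAut.conj c⁻¹).surjective
    rw [MonoidHom.map_closure, Set.image_pair] at h1
    have h2 : ∀ g : FreeGroup (Fin 2), (MulAut.conj c⁻¹).toMonoidHom g = c⁻¹ * g * c := by
      intro g
      show (MulAut.conj c⁻¹) g = _
      rw [MulAut.conj_apply, inv_inv]
    rw [h2, h2] at h1
    exact h1
  · have h3 : (c⁻¹ * ρ * c) ^ m = c⁻¹ * ρ ^ m * c := by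
      have h4 := map_pow (MulAut.conj c⁻¹) ρ m
      rw [MulAut.conj_apply, MulAut.conj_apply, inv_inv] at h4
      exact h4.symm
    rw [h3, ← heq, ← hc]
    group

theorem fw_nil : fw [] = 1 := rfl

theorem fw_inj {U V : List (Fin 3)} (hU : (2 : Fin 3) ∉ U) (hV : (2 : Fin 3) ∉ V) (h : fw U = fw V) : U = V := by
  let h0 : Fin 3 → List (Fin 2) := ![[0], [1], []]
  have hxy : h0 0 ++ h0 1 ≠ h0 1 ++ h0 0 := by decide
  have h1 := phi_fw (h := h0) hU
  have h2 := phi_fw (h := h0) hV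
  rw [h] at h1
  have h3 : val h0 U = val h0 V := io_inj (h1.symm.trans h2)
  rw [bval_tob h0 U hU, bval_tob h0 V hV] at h3
  exact tob_inj hU hV (bval_inj hxy h3)

theorem not_mem_rep {r : Fin 3} (hr : r ≠ 2) (n : ℕ) : (2 : Fin 3) ∉ List.replicate n r :=
  fun hh => hr (List.eq_of_mem_replicate hh).symm

theorem r2_three {α : Type} {r s : Fin 3} (hrs : r ≠ s) (hr : r ≠ 2) (hs : s ≠ 2) {e : ℕ} (he : 1 ≤ e) (k l : ℕ)
    {W : List (Fin 3)} (hW2 : (2 : Fin 3) ∉ W) (h1 : ∃ V, W = s :: V) (h2 : ∃ V, W = V ++ [s]) :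
    Three α ((W ++ List.replicate k r) ++ [2] ++ (List.replicate l r ++ List.replicate e r),
      (List.replicate e r ++ List.replicate k r) ++ [2] ++ (List.replicate l r ++ W)) := by
  have hA : (2 : Fin 3) ∉ W ++ List.replicate k r := by
    rw [List.mem_append]
    rintro (h | h)
    · exact hW2 h
    · exact not_mem_rep hr k h
  have hB : (2 : Fin 3) ∉ List.replicate l r ++ List.replicate e r := by
    rw [List.mem_append]
    rintro (h | h)
    · exact not_mem_rep hr l h
    · exact not_mem_rep hr e h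
  have hC : (2 : Fin 3) ∉ List.replicate e r ++ List.replicate k r := by
    rw [List.mem_append]
    rintro (h | h)
    · exact not_mem_rep hr e h
    · exact not_mem_rep hr k h
  have hD : (2 : Fin 3) ∉ List.replicate l r ++ W := by
    rw [List.mem_append]
    rintro (h | h)
    · exact not_mem_rep hr l h
    · exact hW2 h
  have hconj : IsConj ((fw (List.replicate e r))⁻¹ * fw W)
      ((fw (List.replicate e r ++ List.replicate k r))⁻¹ * fw (W ++ List.replicate k r)) := by
    rw [isConj_iff]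
    refine ⟨(fw (List.replicate k r))⁻¹, ?_⟩
    rw [fw_append, fw_append]
    group
  by_cases hcase : r ∈ W ∨ (2 ≤ e ∧ W ≠ [s])
  · exact nb_four hA hB hC hD ((nonb_r2 hrs hr hs he hW2 h1 h2 hcase).conj hconj)
  · push Not at hcase
    have hall : ∀ c ∈ W, c = s := by
      intro c hc
      have h3 : c ≠ 2 := fun h => hW2 (h ▸ hc)
      have h4 : c ≠ r := fun h => hcase.1 (h ▸ hc)
      rcases rs_cases hrs hr hs with ⟨e1, e2⟩ | ⟨e1, e2⟩ <;> rw [e1] at h4 <;> rw [e2] <;> revert h3 h4 <;>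
        clear * - <;> fin_cases c <;> decide
    have hWs : W = List.replicate W.length s := List.eq_replicate_of_mem hall
    have hW1 : 1 ≤ W.length := by
      obtain ⟨V, rfl⟩ := h1
      simp
    apply mixd_three hA hB hC hD
    rcases Nat.lt_or_ge e 2 with h3 | h3
    · have he1 : e = 1 := by omega
      refine ⟨s, r, W.length, hrs.symm, hs, hr, hW1, Or.inl ?_⟩
      rw [← hWs]
      have : [r] = List.replicate e r := by rw [he1]; rfl
      rw [this]
      exact hconj.symm
    · have hW' := hcase.2 h3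
      refine ⟨r, s, e, hrs, hr, hs, he, Or.inr ?_⟩
      have h5 : ((fw (List.replicate e r))⁻¹ * fw W)⁻¹ = (fw [s])⁻¹ * fw (List.replicate e r) := by
        rw [hW', inv_P]
      rw [← h5]
      obtain ⟨c, hc⟩ := isConj_iff.1 hconj.symm
      rw [isConj_iff]
      refine ⟨c, ?_⟩
      rw [← hc]
      group

theorem one_kind {W : List (Fin 3)} (hW : (2 : Fin 3) ∉ W) (hne : W ≠ []) (hb : ¬ Both W) :
    ∃ r : Fin 3, r ≠ 2 ∧ W = List.replicate W.length r := by
  obtain ⟨r, W', rfl⟩ := List.exists_cons_of_ne_nil hne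
  have hr : r ≠ 2 := fun h => hW (by rw [h]; exact List.mem_cons_self)
  refine ⟨r, hr, List.eq_replicate_of_mem (fun c hc => ?_)⟩
  by_contra hcr
  have hc2 : c ≠ 2 := fun h => hW (h ▸ hc)
  apply hb
  have h1 : r ∈ r :: W' := List.mem_cons_self
  have : (r = 0 ∧ c = 1) ∨ (r = 1 ∧ c = 0) := rs_cases (fun h => hcr h.symm) hr hc2
  rcases this with ⟨e1, e2⟩ | ⟨e1, e2⟩
  · exact ⟨e1 ▸ h1, e2 ▸ hc⟩
  · exact ⟨e2 ▸ hc, e1 ▸ h1⟩

/-- cut off the last letters `r` -/
theorem cut_last (r : Fin 3) : ∀ (A : List (Fin 3)), ∃ (A' : List (Fin 3)) (k : ℕ), A = A' ++ List.replicate k r ∧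
    ∀ V, A' ≠ V ++ [r] := by
  intro A
  induction A using List.reverseRecOn with
  | nil =>
    refine ⟨[], 0, rfl, fun V h => ?_⟩
    have := congrArg List.length h
    simp at this
  | append_singleton A c ih =>
    by_cases hc : c = r
    · obtain ⟨A', k, h1, h2⟩ := ih
      refine ⟨A', k + 1, ?_, h2⟩
      rw [hc, List.replicate_succ', ← List.append_assoc, ← h1]
    · refine ⟨A ++ [c], 0, by simp, fun V h => ?_⟩
      have h3 := (List.append_inj' h rfl).2
      simp only [List.cons.injEq, and_true] at h3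
      exact hc h3

theorem red_main {α : Type} {A B C D : List (Fin 3)} (hA : (2 : Fin 3) ∉ A) (hB : (2 : Fin 3) ∉ B)
    (hC : (2 : Fin 3) ∉ C) (hD : (2 : Fin 3) ∉ D) (nA : A ≠ []) (nB : B ≠ []) (nC : C ≠ [])
    (hf : ∀ (c : Fin 3) (A' C' : List (Fin 3)), ¬ (A = c :: A' ∧ C = c :: C'))
    (hl : ∀ (c : Fin 3) (B' D' : List (Fin 3)), ¬ (B = B' ++ [c] ∧ D = D' ++ [c]))
    (hPQ : IsConj ((fw C)⁻¹ * fw A) (fw D * (fw B)⁻¹)) (bC : ¬ Both C) (bB : ¬ Both B) :
    Three α (A ++ [2] ++ B, C ++ [2] ++ D) := by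
  obtain ⟨r, hr, eC⟩ := one_kind hC nC bC
  obtain ⟨u, hu, eB⟩ := one_kind hB nB bB
  obtain ⟨c, hc⟩ : ∃ c, c = C.length := ⟨_, rfl⟩
  obtain ⟨b, hb⟩ : ∃ b, b = B.length := ⟨_, rfl⟩
  rw [← hc] at eC
  rw [← hb] at eB
  have hc1 : 1 ≤ c := by
    rw [hc]
    exact List.length_pos_iff.2 nC
  obtain ⟨s, A1, eA⟩ := List.exists_cons_of_ne_nil nA
  have hs : s ≠ 2 := fun h => hA (by rw [eA, h]; exact List.mem_cons_self)
  have hrs : r ≠ s := by
    rintro rfl
    obtain ⟨c', rfl⟩ : ∃ c', c = c' + 1 := ⟨c - 1, by omega⟩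
    exact hf r A1 (List.replicate c' r) ⟨eA, by rw [eC, List.replicate_succ]⟩
  obtain ⟨A', k, e1, e2⟩ := cut_last r A
  have hA'2 : (2 : Fin 3) ∉ A' := fun hh => hA (by rw [e1]; exact List.mem_append_left _ hh)
  have hA's : ∃ V, A' = s :: V := by
    cases A' with
    | nil =>
      exfalso
      rw [List.nil_append, eA] at e1
      cases k with
      | zero => simp at e1
      | succ k =>
        rw [List.replicate_succ, List.cons.injEq] at e1
        exact hrs e1.1.symm
    | cons x V =>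
      rw [eA, List.cons_append, List.cons.injEq] at e1
      exact ⟨V, by rw [e1.1]⟩
  have hA'l : ∃ V, A' = V ++ [s] := by
    have hne : A' ≠ [] := by
      obtain ⟨V, rfl⟩ := hA's
      simp
    obtain ⟨V, x, hx⟩ : ∃ V x, A' = V ++ [x] := ⟨A'.dropLast, A'.getLast hne, (List.dropLast_append_getLast hne).symm⟩
    have hx2 : x ≠ 2 := fun h => hA'2 (by rw [hx, h]; simp)
    have hxr : x ≠ r := fun h => e2 V (by rw [hx, h])
    have hxs : x = s := by
      rcases rs_cases hrs hr hs with ⟨f1, f2⟩ | ⟨f1, f2⟩ <;> rw [f1] at hxr <;> rw [f2] <;> revert hx2 hxr <;>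
        clear * - <;> fin_cases x <;> decide
    exact ⟨V, by rw [hx, hxs]⟩
  rcases Nat.lt_or_ge k c with hk | hk
  · obtain ⟨e, rfl⟩ : ∃ e, c = e + k := ⟨c - k, by omega⟩
    have he : 1 ≤ e := by omega
    have hconj : IsConj ((fw (List.replicate e r))⁻¹ * fw A') ((fw C)⁻¹ * fw A) := by
      rw [isConj_iff]
      refine ⟨(fw (List.replicate k r))⁻¹, ?_⟩
      rw [eC, e1, List.replicate_add, fw_append, fw_append]
      group
    obtain ⟨e', rfl⟩ : ∃ e', e = e' + 1 := ⟨e - 1, by omega⟩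
    obtain ⟨μ, m1, m2⟩ := cj_rightG (A0 := A') (C0 := List.replicate (e' + 1) r) hA'2 (not_mem_rep hr _) hB hD
      (by obtain ⟨V, hV⟩ := hA's; rw [hV]; simp) (by simp)
      (by
        rintro x V V' ⟨g1, g2⟩
        obtain ⟨V0, hV0⟩ := hA's
        rw [hV0, List.cons.injEq] at g1
        rw [List.replicate_succ, List.cons.injEq] at g2
        exact hrs (g2.1.trans g1.1.symm))
      (by
        rintro x V V' ⟨g1, g2⟩
        obtain ⟨V0, hV0⟩ := hA'l
        rw [hV0] at g1
        rw [List.replicate_succ'] at g2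
        have g3 := (List.append_inj' g1 rfl).2
        have g4 := (List.append_inj' g2 rfl).2
        simp only [List.cons.injEq, and_true] at g3 g4
        exact hrs (g4.trans g3.symm))
      hl (hconj.trans hPQ)
    have hμ : μ = List.replicate μ.length r := by
      have hru : r = u := by
        have h3 : r ∈ B := by
          rw [m2]
          exact List.mem_append_right _ (by simp)
        rw [eB] at h3
        exact List.eq_of_mem_replicate h3
      refine List.eq_replicate_of_mem (fun x hx => ?_)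
      have h3 : x ∈ B := by
        rw [m2]
        exact List.mem_append_left _ hx
      rw [eB] at h3
      rw [hru]
      exact List.eq_of_mem_replicate h3
    have h6 := r2_three (α := α) hrs hr hs he k μ.length hA'2 hA's hA'l
    rw [← hμ] at h6
    have hrep : List.replicate (e' + 1 + k) r = List.replicate (e' + 1) r ++ List.replicate k r := by
      rw [List.replicate_append_replicate]
    rw [e1, m2, eC, m1, hrep]
    exact h6
  · obtain ⟨k', rfl⟩ : ∃ k', k = k' + c := ⟨k - c, by omega⟩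
    refine NPB.three (posi_npb hA hB hC hD ⟨A' ++ List.replicate k' r, ?_, ?_, Or.inl ?_⟩)
    · rw [List.mem_append]
      rintro (h | h)
      · exact hA'2 h
      · exact not_mem_rep hr _ h
    · obtain ⟨V, hV⟩ := hA's
      rw [hV]
      simp
    · rw [isConj_iff]
      refine ⟨fw C, ?_⟩
      rw [e1, eC, List.replicate_add, ← List.append_assoc, fw_append]
      group

theorem red_all {α : Type} {A B C D : List (Fin 3)} (hA : (2 : Fin 3) ∉ A) (hB : (2 : Fin 3) ∉ B)
    (hC : (2 : Fin 3) ∉ C) (hD : (2 : Fin 3) ∉ D) (hne : A ++ [2] ++ B ≠ C ++ [2] ++ D)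
    (hf : ∀ (c : Fin 3) (A' C' : List (Fin 3)), ¬ (A = c :: A' ∧ C = c :: C'))
    (hl : ∀ (c : Fin 3) (B' D' : List (Fin 3)), ¬ (B = B' ++ [c] ∧ D = D' ++ [c])) :
    Three α (A ++ [2] ++ B, C ++ [2] ++ D) := by
  by_cases hbal : ∀ c : Fin 3, (A ++ B).count c = (C ++ D).count c
  swap
  · push Not at hbal
    exact (npb_unbal hA hB hC hD hbal).three
  by_cases hPQ : IsConj ((fw C)⁻¹ * fw A) (fw D * (fw B)⁻¹)
  swap
  · exact (npb_nc hA hB hC hD hbal hPQ).three
  have one_of : ∀ P : FreeGroup (Fin 2), IsConj (1 : FreeGroup (Fin 2)) P → P = 1 := by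
    intro P hP
    obtain ⟨c, hc⟩ := isConj_iff.1 hP
    rw [← hc]
    group
  by_cases nA : A = []
  · by_cases nC : C = []
    · exfalso
      rw [nA, nC, fw_nil, inv_one, mul_one] at hPQ
      have h1 := one_of _ hPQ
      have h2 : fw D = fw B := mul_inv_eq_one.1 h1
      have h3 := fw_inj hD hB h2
      apply hne
      rw [nA, nC, h3]
    · refine (posi_npb hA hB hC hD ⟨C, hC, nC, Or.inr ?_⟩).three
      rw [nA, fw_nil, mul_one, inv_inv]
  by_cases nC : C = []
  · refine (posi_npb hA hB hC hD ⟨A, hA, nA, Or.inl ?_⟩).three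
    rw [nC, fw_nil, inv_one, one_mul]
  by_cases nB : B = []
  · by_cases nD : D = []
    · exfalso
      rw [nB, nD, fw_nil, inv_one, mul_one] at hPQ
      have h1 := one_of _ hPQ.symm
      have h2 : fw C = fw A := inv_mul_eq_one.1 h1
      have h3 := fw_inj hC hA h2
      apply hne
      rw [nB, nD, h3]
    · refine (posi_npb hA hB hC hD ⟨D, hD, nD, Or.inl ?_⟩).three
      rw [nB, fw_nil, inv_one, mul_one] at hPQ
      exact hPQ
  by_cases nD : D = []
  · refine (posi_npb hA hB hC hD ⟨B, hB, nB, Or.inr ?_⟩).three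
    rw [nD, fw_nil, one_mul] at hPQ
    obtain ⟨c, hc⟩ := isConj_iff.1 hPQ
    rw [isConj_iff]
    refine ⟨c, ?_⟩
    have h1 := congrArg (fun g => g⁻¹) hc
    simp only [inv_inv] at h1
    rw [← h1]
    group
  by_cases hb1 : Both C ∨ Both B
  · by_cases hb2 : Both A ∨ Both D
    · exact (npb_long hA hB hC hD hf hl (Or.inr (Or.inr ⟨List.Perm.refl _, hb2, hb1⟩))).three
    · push Not at hb2
      have hQP : IsConj ((fw A)⁻¹ * fw C) (fw B * (fw D)⁻¹) := by
        obtain ⟨c, hc⟩ := isConj_iff.1 hPQ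
        rw [isConj_iff]
        refine ⟨c, ?_⟩
        have h1 := congrArg (fun g => g⁻¹) hc
        simp only [mul_inv_rev, inv_inv] at h1
        rw [← h1]
        group
      exact (red_main (α := α) hC hD hA hB nC nD nA (fun c A' C' ⟨g1, g2⟩ => hf c C' A' ⟨g2, g1⟩)
        (fun c B' D' ⟨g1, g2⟩ => hl c D' B' ⟨g2, g1⟩) hQP hb2.1 hb2.2).mono (fun h hh => hh.symm)
  · push Not at hb1
    exact red_main hA hB hC hD nA nB nC hf hl hPQ hb1.1 hb1.2

/-- all first equations `A z B = C z D` -/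
theorem once_three {α : Type} : ∀ (N : ℕ) (A B C D : List (Fin 3)), A.length + B.length ≤ N → (2 : Fin 3) ∉ A →
    (2 : Fin 3) ∉ B → (2 : Fin 3) ∉ C → (2 : Fin 3) ∉ D → A ++ [2] ++ B ≠ C ++ [2] ++ D →
    Three α (A ++ [2] ++ B, C ++ [2] ++ D) := by
  intro N
  induction N with
  | zero =>
    intro A B C D hN hA hB hC hD hne
    have hA0 : A = [] := List.eq_nil_of_length_eq_zero (by omega)
    have hB0 : B = [] := List.eq_nil_of_length_eq_zero (by omega)
    refine red_all hA hB hC hD hne ?_ ?_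
    · rintro c A' C' ⟨h1, -⟩
      rw [hA0] at h1
      cases h1
    · rintro c B' D' ⟨h1, -⟩
      rw [hB0] at h1
      have := congrArg List.length h1
      simp at this
  | succ N ih =>
    intro A B C D hN hA hB hC hD hne
    by_cases h1 : ∃ (c : Fin 3) (A' C' : List (Fin 3)), A = c :: A' ∧ C = c :: C'
    · obtain ⟨c, A', C', rfl, rfl⟩ := h1
      refine (ih A' B C' D (by simp only [List.length_cons] at hN; omega) (fun hh => hA (List.mem_cons_of_mem _ hh)) hB
        (fun hh => hC (List.mem_cons_of_mem _ hh)) hD ?_).mono (fun h hh => solves_head hh)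
      intro h2
      apply hne
      simp only [List.cons_append, h2]
    by_cases h2 : ∃ (c : Fin 3) (B' D' : List (Fin 3)), B = B' ++ [c] ∧ D = D' ++ [c]
    · obtain ⟨c, B', D', rfl, rfl⟩ := h2
      refine (ih A B' C D' (by simp only [List.length_append, List.length_singleton] at hN; omega) hA
        (fun hh => hB (List.mem_append_left _ hh)) hC (fun hh => hD (List.mem_append_left _ hh)) ?_).mono
        (fun h hh => solves_last hh)
      intro h3
      apply hne
      rw [← List.append_assoc, ← List.append_assoc, h3]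
    exact red_all hA hB hC hD hne (fun c A' C' hh => h1 ⟨c, A', C', hh⟩) (fun c B' D' hh => h2 ⟨c, B', D', hh⟩)

end Pool.Agent.H70.WE
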