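import Pool.Agent.H70.WB.Fd

/-!
# [H70 WB Fx1] Fox derivatives of the members of a pair which generates the free group
-/

set_option autoImplicit false

namespace Pool.Agent.H70.WE

open LaurentPolynomial

private theorem fx1_hz_mul (ω : Fin 2 → ℤ) (g h : FreeGroup (Fin 2)) : hz ω (g * h) = hz ω g + hz ω h := by
  unfold hz
  rw [map_mul, toAdd_mul]

private theorem fx1_hz_one (ω : Fin 2 → ℤ) : hz ω 1 = 0 := by
  unfold hz
  rw [map_one, toAdd_one]

private theorem fx1_hz_inv (ω : Fin 2 → ℤ) (g : FreeGroup (Fin 2)) : hz ω g⁻¹ = - hz ω g := by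
  unfold hz
  rw [map_inv, toAdd_inv]

private theorem fx1_hz_of (ω : Fin 2 → ℤ) (i : Fin 2) : hz ω (FreeGroup.of i) = ω i := by
  unfold hz ht
  rw [FreeGroup.lift_apply_of, toAdd_ofAdd]

private theorem fx1_TT (n : ℤ) : (T n : Lam) * T (-n) = 1 := by
  rw [← T_add, add_neg_cancel, T_zero]

private theorem fx1_TT' (n : ℤ) : (T (-n) : Lam) * T n = 1 := by
  rw [← T_add, neg_add_cancel, T_zero]

/-- the affine map `x ↦ T n * x + p` -/
private noncomputable def fx1_aff (n : ℤ) (p : Lam) : Equiv.Perm Lam where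
  toFun x := T n * x + p
  invFun x := T (-n) * (x - p)
  left_inv x := by
    have h := fx1_TT' n
    linear_combination x * h
  right_inv x := by
    have h := fx1_TT n
    linear_combination (x - p) * h

private theorem fx1_aff_apply (n : ℤ) (p x : Lam) : fx1_aff n p x = T n * x + p := rfl

private theorem fx1_aff_inv (n : ℤ) (p x : Lam) : (fx1_aff n p)⁻¹ x = T (-n) * (x - p) := rfl

/-- For instance from the homomorphism to a group of affine maps / upper triangular matrices `[[T n, p], [0, 1]]`. -/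
theorem fox_ex (ω : Fin 2 → ℤ) (p : Fin 2 → Lam) : ∃ D : FreeGroup (Fin 2) → Lam,
    (∀ i, D (FreeGroup.of i) = p i) ∧ ∀ g h, D (g * h) = D g + T (hz ω g) * D h := by
  set F : FreeGroup (Fin 2) →* Equiv.Perm Lam := FreeGroup.lift (fun i => fx1_aff (ω i) (p i)) with hF
  have hFi : ∀ i, F (FreeGroup.of i) = fx1_aff (ω i) (p i) := fun i => by
    rw [hF, FreeGroup.lift_apply_of]
  have key : ∀ g : FreeGroup (Fin 2), ∀ x : Lam, F g x = T (hz ω g) * x + F g 0 := by
    intro g
    induction g using FreeGroup.induction_on with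
    | C1 =>
      intro x
      rw [map_one, fx1_hz_one, T_zero, Equiv.Perm.one_apply, Equiv.Perm.one_apply]
      ring
    | of i =>
      intro x
      rw [hFi, fx1_hz_of, fx1_aff_apply, fx1_aff_apply]
      ring
    | inv_of i _ =>
      intro x
      rw [map_inv, hFi, fx1_hz_inv, fx1_hz_of, fx1_aff_inv, fx1_aff_inv]
      ring
    | mul g h hg hh =>
      intro x
      rw [map_mul, Equiv.Perm.mul_apply, Equiv.Perm.mul_apply, hg (F h x), hg (F h 0), hh x, fx1_hz_mul, T_add]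
      ring
  refine ⟨fun g => F g 0, fun i => ?_, fun g h => ?_⟩
  · show F (FreeGroup.of i) 0 = p i
    rw [hFi, fx1_aff_apply]
    ring
  · show F (g * h) 0 = F g 0 + T (hz ω g) * F h 0
    rw [map_mul, Equiv.Perm.mul_apply, key g (F h 0)]
    ring

private theorem fx1_D_one {ω : Fin 2 → ℤ} {D : FreeGroup (Fin 2) → Lam}
    (hD : ∀ g h, D (g * h) = D g + T (hz ω g) * D h) : D 1 = 0 := by
  have h := hD 1 1
  rw [mul_one, fx1_hz_one, T_zero] at h
  linear_combination -h

private theorem fx1_D_inv {ω : Fin 2 → ℤ} {D : FreeGroup (Fin 2) → Lam}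
    (hD : ∀ g h, D (g * h) = D g + T (hz ω g) * D h) (g : FreeGroup (Fin 2)) :
    D g⁻¹ = - T (- hz ω g) * D g := by
  have h := hD g⁻¹ g
  rw [inv_mul_cancel, fx1_D_one hD, fx1_hz_inv] at h
  linear_combination -h

/-- Proof. `D'` from `fox_ex` with `D' (of i) = 1`, `D' (of j) = 0`. (1) For all `g`: `T (hz ω g) - 1 = D' g * (T (ω i) - 1) + D g * (T (ω j) - 1)`
(induction on `g`, both sides are crossed homomorphisms; `hz ω (of l) = ω l`). (2) For all `g` in the closure of `ρ, κ` (so for all `g`) there are `a b` with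
`D' g = a * D' ρ + b * D' κ`, `D g = a * D ρ + b * D κ` (closure induction; `D g⁻¹ = - T (- hz ω g) * D g`). Take `g = of i`, `g = of j`: a matrix `M` with
`M * J = 1`, `J = !![D' ρ, D ρ; D' κ, D κ]`, so `det J` is a unit. (3) By (1) for `ρ` (`hz ω ρ = 0`) and `κ`:
`D ρ * (T (hz ω κ) - 1) = - det J * (T (ω i) - 1)`. -/
theorem fox_unit {ρ κ : FreeGroup (Fin 2)} (hcl : Subgroup.closure {ρ, κ} = ⊤) (ω : Fin 2 → ℤ) (hρ : hz ω ρ = 0)
    {i j : Fin 2} (hij : i ≠ j) (D : FreeGroup (Fin 2) → Lam) (hDi : D (FreeGroup.of i) = 0)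
    (hDj : D (FreeGroup.of j) = 1) (hD : ∀ g h, D (g * h) = D g + T (hz ω g) * D h) :
    ∃ u : Lamˣ, D ρ * (T (hz ω κ) - 1) = (u : Lam) * (T (ω i) - 1) := by
  obtain ⟨D', hp, hD'⟩ := fox_ex ω (fun l => if l = i then 1 else 0)
  have hDi' : D' (FreeGroup.of i) = 1 := by rw [hp]; exact if_pos rfl
  have hDj' : D' (FreeGroup.of j) = 0 := by rw [hp]; exact if_neg (Ne.symm hij)
  have hall : ∀ l : Fin 2, l = i ∨ l = j := by
    intro l
    have h1 := i.isLt
    have h2 := j.isLt
    have h3 := l.isLt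
    have h4 : (i : ℕ) ≠ j := fun h => hij (Fin.ext h)
    rcases (by omega : (l : ℕ) = i ∨ (l : ℕ) = j) with h | h
    · exact Or.inl (Fin.ext h)
    · exact Or.inr (Fin.ext h)
  have hof : ∀ l : Fin 2, T (hz ω (FreeGroup.of l)) - 1 =
      D' (FreeGroup.of l) * (T (ω i) - 1) + D (FreeGroup.of l) * (T (ω j) - 1) := by
    intro l
    rcases hall l with rfl | rfl
    · rw [fx1_hz_of, hDi', hDi]; ring
    · rw [fx1_hz_of, hDj', hDj]; ring
  have h1 : ∀ g : FreeGroup (Fin 2), T (hz ω g) - 1 = D' g * (T (ω i) - 1) + D g * (T (ω j) - 1) := by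
    intro g
    induction g using FreeGroup.induction_on with
    | C1 => rw [fx1_hz_one, T_zero, fx1_D_one hD, fx1_D_one hD']; ring
    | of l => exact hof l
    | inv_of l _ =>
      have h := hof l
      rw [fx1_D_inv hD, fx1_D_inv hD', fx1_hz_inv]
      have h' := fx1_TT' (hz ω (FreeGroup.of l))
      linear_combination (-T (- hz ω (FreeGroup.of l))) * h + h'
    | mul g h hg hh =>
      rw [hD, hD', fx1_hz_mul, T_add]
      linear_combination hg + T (hz ω g) * hh
  have h2 : ∀ g : FreeGroup (Fin 2), ∃ a b : Lam, D' g = a * D' ρ + b * D' κ ∧ D g = a * D ρ + b * D κ := by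
    intro g
    have hg : g ∈ Subgroup.closure {ρ, κ} := by rw [hcl]; exact Subgroup.mem_top g
    induction hg using Subgroup.closure_induction with
    | mem x hx =>
      rcases hx with hx | hx
      · refine ⟨1, 0, ?_, ?_⟩ <;> rw [hx] <;> ring
      · rw [Set.mem_singleton_iff] at hx
        refine ⟨0, 1, ?_, ?_⟩ <;> rw [hx] <;> ring
    | one => exact ⟨0, 0, by rw [fx1_D_one hD']; ring, by rw [fx1_D_one hD]; ring⟩
    | mul x y _ _ hx hy =>
      obtain ⟨a, b, e1, e2⟩ := hx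
      obtain ⟨c, d, e3, e4⟩ := hy
      refine ⟨a + T (hz ω x) * c, b + T (hz ω x) * d, ?_, ?_⟩
      · rw [hD', e1, e3]; ring
      · rw [hD, e2, e4]; ring
    | inv x _ hx =>
      obtain ⟨a, b, e1, e2⟩ := hx
      refine ⟨- T (- hz ω x) * a, - T (- hz ω x) * b, ?_, ?_⟩
      · rw [fx1_D_inv hD', e1]; ring
      · rw [fx1_D_inv hD, e2]; ring
  obtain ⟨a, b, e1, e2⟩ := h2 (FreeGroup.of i)
  obtain ⟨c, d, e3, e4⟩ := h2 (FreeGroup.of j)
  rw [hDi'] at e1
  rw [hDi] at e2
  rw [hDj'] at e3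
  rw [hDj] at e4
  have hdet : (D ρ * D' κ - D' ρ * D κ) * (b * c - a * d) = 1 := by
    linear_combination (-(c * D ρ + d * D κ)) * e1 - e4 + (c * D' ρ + d * D' κ) * e2
  refine ⟨⟨D ρ * D' κ - D' ρ * D κ, b * c - a * d, hdet, by rw [mul_comm]; exact hdet⟩, ?_⟩
  have k1 := h1 ρ
  have k2 := h1 κ
  rw [hρ, T_zero] at k1
  show D ρ * (T (hz ω κ) - 1) = (D ρ * D' κ - D' ρ * D κ) * (T (ω i) - 1)
  linear_combination D ρ * k2 - D κ * k1

end Pool.Agent.H70.WE
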