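import Pool.Agent.H70.WB.Mr

/-!
# [H70 WB Key] `C (G z H) = (G z H) C'`, `C = r^a s r^b`: the value of `C` is primitive
-/

set_option autoImplicit false

namespace Pool.Agent.H70.WE

private theorem ky_succ {β : Type} (w : List β) (n : ℕ) : pow w (n + 1) = w ++ pow w n := by
  rw [Nat.add_comm, pow_add', pow_one'']

private theorem ky_succ' {β : Type} (w : List β) (n : ℕ) : pow w (n + 1) = pow w n ++ w := by
  rw [pow_add', pow_one'']

private theorem ky_conj {β : Type} {v v' W : List β} (h : v ++ W = W ++ v') (n : ℕ) :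
    pow v n ++ W = W ++ pow v' n := by
  induction n with
  | zero => rw [pow_zero', pow_zero', List.nil_append, List.append_nil]
  | succ n ih =>
    rw [ky_succ' v n, List.append_assoc, h, ← List.append_assoc, ih, List.append_assoc, ← ky_succ' v' n]

private theorem ky_pre {β : Type} {v v' W : List β} (h : v ++ W = W ++ v') (hv : v ≠ []) :
    ∃ n : ℕ, W <+: pow v n ∧ W <:+ pow v' n := by
  have hl : v.length = v'.length := by
    have := congrArg List.length h
    rw [List.length_append, List.length_append] at this
    omega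
  have hv1 : 1 ≤ v.length := List.length_pos_iff.2 hv
  have h1 := ky_conj h W.length
  have h2 : W.length ≤ (pow v W.length).length := by
    rw [pow_length]
    exact Nat.le_mul_of_pos_right _ hv1
  have h3 : W.length ≤ (pow v' W.length).length := by
    rw [pow_length, ← hl]
    exact Nat.le_mul_of_pos_right _ hv1
  refine ⟨W.length, ?_, ?_⟩
  · refine List.prefix_of_prefix_length_le (l₃ := pow v W.length ++ W) ?_ (List.prefix_append _ _) h2
    rw [h1]
    exact List.prefix_append _ _
  · refine List.suffix_of_suffix_length_le (l₃ := W ++ pow v' W.length) ?_ (List.suffix_append _ _) h3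
    rw [← h1]
    exact List.suffix_append _ _

private theorem ky_splt (x : Fin 3) (G : List (Fin 3)) : (∀ c ∈ G, c = x) ∨
    ∃ (g : ℕ) (y : Fin 3) (G2 : List (Fin 3)), y ≠ x ∧ G = pow [x] g ++ y :: G2 := by
  induction G with
  | nil => left; intro c hc; exact absurd hc (List.not_mem_nil)
  | cons c G ih =>
    by_cases hcx : c = x
    · rcases ih with ih | ⟨g, y, G2, hy, hG⟩
      · left
        intro d hd
        rcases List.mem_cons.1 hd with hd | hd
        · rw [hd, hcx]
        · exact ih d hd
      · right
        refine ⟨g + 1, y, G2, hy, ?_⟩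
        rw [ky_succ, hG, hcx]
        rfl
    · right
      exact ⟨0, c, G, hcx, rfl⟩

private theorem ky_two {r s c : Fin 3} (hrs : r ≠ s) (hr : r ≠ 2) (hs : s ≠ 2) (hc : c ≠ 2) : c = r ∨ c = s := by
  revert r s c
  decide

/-- the part of a word after `x^g y` -/
private theorem ky_val {α : Type} (h : Fin 3 → List α) (x y : Fin 3) (g : ℕ) (G2 : List (Fin 3)) :
    pow (h x) g ++ h y <+: val h (pow [x] g ++ y :: G2) := by
  rw [val_append, val_pow, val_one', val_cons', ← List.append_assoc]
  exact List.prefix_append _ _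

private theorem ky_left {α : Type} {h : Fin 3 → List α} {r s : Fin 3} (hrs : r ≠ s) (hr : r ≠ 2) (hs : s ≠ 2)
    (hc : h r ++ h s ≠ h s ++ h r) {a b i N : ℕ} {C G : List (Fin 3)} {t : List α} (hab : 1 ≤ a + b) (hi : 2 ≤ i)
    (hC : C = pow [r] a ++ [s] ++ pow [r] b) (hG : (2 : Fin 3) ∉ G) (hv : val h C = pow t i)
    (hp : val h G <+: pow t N)
    (h1 : ∀ (c : Fin 3) (C1 G1 : List (Fin 3)), ¬ (C = c :: C1 ∧ G = c :: G1)) :
    (∀ c ∈ G, c = r) ∨ (a = 1 ∧ b = 0 ∧ G ≠ [] ∧ ∀ c ∈ G, c = s) := by
  have hvC : pow (h r) a ++ h s ++ pow (h r) b = pow t i := by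
    rw [← hv, hC, val_append, val_append, val_pow, val_pow, val_one', val_one']
  have hlet : ∀ c ∈ G, c = r ∨ c = s := fun c hcG => ky_two hrs hr hs (fun e => hG (e ▸ hcG))
  rcases Nat.eq_zero_or_pos a with ha | ha
  · -- `C` starts with `s`
    subst ha
    left
    rcases ky_splt r G with h2 | ⟨g, y, G2, hy, hGe⟩
    · exact h2
    · exfalso
      have hys : y = s := by
        rcases hlet y (by rw [hGe]; simp) with h3 | h3
        · exact absurd h3 hy
        · exact h3
      rw [hys] at hGe
      have hg : 1 ≤ g := by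
        by_contra hg
        have hg0 : g = 0 := by omega
        rw [hg0] at hGe
        exact h1 s (pow [r] b) G2 ⟨by rw [hC]; rfl, hGe⟩
      have hb : 1 ≤ b := by omega
      apply hc
      refine mm2 (t := t) (N := N) hb hg hi ?_ ?_
      · rw [← hvC, pow_zero', List.nil_append]
      · exact (ky_val h r s g G2).trans (hGe ▸ hp)
  · -- `C` starts with `r`
    rcases G with _ | ⟨c, G1⟩
    · left
      intro c hcn
      exact absurd hcn (List.not_mem_nil)
    · have hCr : ∃ C1, C = r :: C1 := by
        obtain ⟨a1, rfl⟩ := Nat.exists_eq_add_of_le' ha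
        refine ⟨pow [r] a1 ++ [s] ++ pow [r] b, ?_⟩
        rw [hC, ky_succ]
        rfl
      obtain ⟨C1, hC1⟩ := hCr
      have hcs : c = s := by
        rcases hlet c List.mem_cons_self with h3 | h3
        · exact absurd ⟨by rw [h3]; exact hC1, rfl⟩ (h1 c C1 G1)
        · exact h3
      rw [hcs] at hp h1 hG hlet ⊢
      by_cases hab2 : 2 ≤ a + b
      · exfalso
        apply hc
        refine mm1 (t := t) (N := N) ha hab2 hi hvC ?_
        refine List.IsPrefix.trans ?_ hp
        rw [val_cons']
        exact List.prefix_append _ _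
      · have ha1 : a = 1 := by omega
        have hb0 : b = 0 := by omega
        rcases ky_splt s (s :: G1) with h2 | ⟨g, y, G2, hy, hGe⟩
        · right
          exact ⟨ha1, hb0, List.cons_ne_nil _ _, h2⟩
        · exfalso
          have hyr : y = r := by
            rcases hlet y (by rw [hGe]; simp) with h3 | h3
            · exact h3
            · exact absurd h3 hy
          rw [hyr] at hGe
          have hg : 1 ≤ g := by
            by_contra hg
            have hg0 : g = 0 := by omega
            rw [hg0] at hGe
            have h4 : s :: G1 = r :: G2 := hGe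
            have h5 := (List.cons.inj h4).1
            exact hrs h5.symm
          apply hc
          symm
          refine mm2 (t := t) (N := N) (b := 1) le_rfl hg hi ?_ ?_
          · rw [← hvC, ha1, hb0, pow_one'', pow_one'', pow_zero', List.append_nil]
          · exact (ky_val h s r g G2).trans (hGe ▸ hp)

private theorem ky_valrev {α : Type} (h : Fin 3 → List α) (U : List (Fin 3)) :
    val (fun c => (h c).reverse) U.reverse = (val h U).reverse := by
  rw [val_reverse]
  simp only [List.reverse_reverse]

private theorem ky_revC (r s : Fin 3) (a b : ℕ) :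
    (pow [r] a ++ [s] ++ pow [r] b).reverse = pow [r] b ++ [s] ++ pow [r] a := by
  rw [List.reverse_append, List.reverse_append, pow_reverse, pow_reverse]
  simp only [List.reverse_cons, List.reverse_nil, List.nil_append, List.append_assoc]

private theorem ky_right {α : Type} {h : Fin 3 → List α} {r s : Fin 3} (hrs : r ≠ s) (hr : r ≠ 2) (hs : s ≠ 2)
    (hc : h r ++ h s ≠ h s ++ h r) {a b i N : ℕ} {C H : List (Fin 3)} {t : List α} (hab : 1 ≤ a + b) (hi : 2 ≤ i)
    (hC : C = pow [r] a ++ [s] ++ pow [r] b) (hH : (2 : Fin 3) ∉ H) (hv : val h C = pow t i)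
    (hp : val h H <:+ pow t N)
    (h2 : ∀ (c : Fin 3) (C1 H1 : List (Fin 3)), ¬ (C = C1 ++ [c] ∧ H = H1 ++ [c])) :
    (∀ c ∈ H, c = r) ∨ (a = 0 ∧ b = 1 ∧ H ≠ [] ∧ ∀ c ∈ H, c = s) := by
  have hc' : (fun c => (h c).reverse) r ++ (fun c => (h c).reverse) s ≠
      (fun c => (h c).reverse) s ++ (fun c => (h c).reverse) r := by
    intro e
    apply hc
    have e1 : (h s ++ h r).reverse = (h r ++ h s).reverse := by
      rw [List.reverse_append, List.reverse_append]
      exact e
    exact (List.reverse_injective e1).symm
  have key := ky_left (h := fun c => (h c).reverse) hrs hr hs hc' (a := b) (b := a) (i := i) (N := N)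
    (C := C.reverse) (G := H.reverse) (t := t.reverse) (by omega) hi (by rw [hC, ky_revC])
    (by rw [List.mem_reverse]; exact hH) ?_ ?_ ?_
  · rcases key with h3 | ⟨h3, h4, h5, h6⟩
    · left
      intro c hcH
      exact h3 c (List.mem_reverse.2 hcH)
    · right
      refine ⟨h4, h3, fun e => h5 (by rw [e]; rfl), fun c hcH => h6 c (List.mem_reverse.2 hcH)⟩
  · rw [ky_valrev, hv, pow_reverse]
  · rw [ky_valrev, ← pow_reverse]
    exact List.reverse_prefix.2 hp
  · rintro c C1 G1 ⟨e1, e2⟩
    apply h2 c C1.reverse G1.reverse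
    constructor
    · have := congrArg List.reverse e1
      rw [List.reverse_reverse, List.reverse_cons] at this
      exact this
    · have := congrArg List.reverse e2
      rw [List.reverse_reverse, List.reverse_cons] at this
      exact this

/-- Proof. Let `v = val h C = t^i`, `t` primitive (`prim_root`, `v ≠ []` as `h s ≠ []`), `val h C' = t'^i` (`conj_rot`, `rot_pow`, `|t'| = |t|`),
`w = val h G ++ h 2 ++ val h H`: `w` is a prefix of `t^N` and a suffix of `t'^N` for large `N` (from `v^N w = w v'^N`).
`a + b = 0` (`C = C' = [s]`, `w` commutes with `h s = t^i`, `i ≥ 1`): `G` (or `H`) contains a letter `≠ r`, that is `s` (`2` is not in `G`);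
say `G` does: it does not start with `s` (`h1`), so `G = r^g s G'`, `g ≥ 1`: `mm0` (with `h s = t^i`), so `h r, t` commute: contradiction. For
`H`: `mm0r`. `a + b ≥ 1`: suppose `i ≥ 2`.
LEFT: `G` is a power of `r`, or (`a = 1, b = 0` and `G` is a power of `s`, not empty). Indeed `a ≥ 1`, `G = s ..`: `a + b ≥ 2` is `mm1`;
`a = 1, b = 0`, `G = s^g r ..`: `mm2` (`q = h r, p = h s, b = 1, c = g`). `a = 0`, `G = r ..`: `G = r^g s ..` is `mm2` (`q = h s, p = h r`).
RIGHT: `H` is a power of `r`, or (`a' = 0, b' = 1` and `H` is a power of `s`, not empty): `mm1r`, `mm2r` with `t'`.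
Both powers of `r`: `h3`. `G, H` powers of `s` (also if one is empty) and `a + b = 1`: `h4`. `G = s^g`, `H = r^k`, `g, k ≥ 1`: `C = r s`
and `C'` does not end with `r` (`h2`), so `C' = r s = C`: `mm3`. `G = r^k`, `H = s^g`, `g, k ≥ 1`: `C' = s r`, `C = s r` (`h1`): `mm3` with
`r, s` exchanged. -/
theorem key {α : Type} {h : Fin 3 → List α} {r s : Fin 3} (hrs : r ≠ s) (hr : r ≠ 2) (hs : s ≠ 2)
    (hc : h r ++ h s ≠ h s ++ h r) {a b a' b' : ℕ} (hab : a + b = a' + b') {C C' G H : List (Fin 3)}
    (hC : C = pow [r] a ++ [s] ++ pow [r] b) (hC' : C' = pow [r] a' ++ [s] ++ pow [r] b')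
    (hG : (2 : Fin 3) ∉ G) (hH : (2 : Fin 3) ∉ H)
    (heq : val h C ++ (val h G ++ h 2 ++ val h H) = (val h G ++ h 2 ++ val h H) ++ val h C')
    (h1 : ∀ (c : Fin 3) (C1 G1 : List (Fin 3)), ¬ (C = c :: C1 ∧ G = c :: G1))
    (h2 : ∀ (c : Fin 3) (C1 H1 : List (Fin 3)), ¬ (C' = C1 ++ [c] ∧ H = H1 ++ [c]))
    (h3 : ¬ ((∀ c ∈ G, c = r) ∧ ∀ c ∈ H, c = r))
    (h4 : a + b = 1 → ¬ ((∀ c ∈ G, c = s) ∧ ∀ c ∈ H, c = s)) :
    1 ≤ a + b ∧ ∀ (w : List α) (k : ℕ), 2 ≤ k → val h C ≠ pow w k := by
  have hvC : pow (h r) a ++ h s ++ pow (h r) b = val h C := by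
    rw [hC, val_append, val_append, val_pow, val_pow, val_one', val_one']
  have hsn : h s ≠ [] := by
    intro e
    apply hc
    rw [e, List.nil_append, List.append_nil]
  have hvn : val h C ≠ [] := by
    intro e
    rw [← hvC] at e
    have := congrArg List.length e
    rw [List.length_append, List.length_append, List.length_nil] at this
    have h5 : (h s).length ≠ 0 := fun e => hsn (List.eq_nil_of_length_eq_zero e)
    omega
  obtain ⟨n, hn1, hn2⟩ := ky_pre heq hvn
  have hGp : val h G <+: val h G ++ h 2 ++ val h H := by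
    rw [List.append_assoc]
    exact List.prefix_append _ _
  have hHs : val h H <:+ val h G ++ h 2 ++ val h H := List.suffix_append _ _
  have hletG : ∀ c ∈ G, c = r ∨ c = s := fun c hcG => ky_two hrs hr hs (fun e => hG (e ▸ hcG))
  have hletH : ∀ c ∈ H, c = r ∨ c = s := fun c hcH => ky_two hrs hr hs (fun e => hH (e ▸ hcH))
  have hab1 : 1 ≤ a + b := by
    by_contra hcon
    have ha : a = 0 := by omega
    have hb : b = 0 := by omega
    have ha' : a' = 0 := by omega
    have hb' : b' = 0 := by omega
    have hCs : C = [s] := by rw [hC, ha, hb]; rfl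
    have hCs' : C' = [s] := by rw [hC', ha', hb']; rfl
    rw [hCs, val_one'] at hn1
    rw [hCs', val_one'] at hn2
    apply h3
    constructor
    · rcases ky_splt r G with h5 | ⟨g, y, G2, hy, hGe⟩
      · exact h5
      · exfalso
        have hys : y = s := by
          rcases hletG y (by rw [hGe]; simp) with h6 | h6
          · exact absurd h6 hy
          · exact h6
        rw [hys] at hGe
        have hg : 1 ≤ g := by
          by_contra hg
          have hg0 : g = 0 := by omega
          rw [hg0] at hGe
          exact h1 s [] G2 ⟨hCs, hGe⟩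
        apply hc
        refine mm0 (t := h s) (i := 1) (N := n) hg le_rfl ?_
        rw [pow_one'']
        exact ((ky_val h r s g G2).trans (hGe ▸ hGp)).trans hn1
    · rcases ky_splt r H.reverse with h5 | ⟨g, y, G2, hy, hGe⟩
      · intro c hcH
        exact h5 c (List.mem_reverse.2 hcH)
      · exfalso
        have hHe : H = G2.reverse ++ [y] ++ pow [r] g := by
          have h6 := congrArg List.reverse hGe
          rw [List.reverse_reverse, List.reverse_append, List.reverse_cons, pow_reverse] at h6
          exact h6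
        have hys : y = s := by
          rcases hletH y (by rw [hHe]; simp) with h6 | h6
          · exact absurd h6 hy
          · exact h6
        rw [hys] at hHe
        have hg : 1 ≤ g := by
          by_contra hg
          have hg0 : g = 0 := by omega
          rw [hg0, pow_zero', List.append_nil] at hHe
          exact h2 s [] G2.reverse ⟨hCs', hHe⟩
        apply hc
        refine mm0r (t := h s) (i := 1) (N := n) hg le_rfl ?_
        rw [pow_one'']
        refine List.IsSuffix.trans ?_ (hHs.trans hn2)
        rw [hHe, List.append_assoc, val_append, val_append, val_pow, val_one', val_one']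
        exact List.suffix_append _ _
  refine ⟨hab1, fun t i hi hv => ?_⟩
  obtain ⟨X, Y, hX, hY⟩ := conj_rot heq
  obtain ⟨t1, t2, ht, ht'⟩ := rot_pow t i (by omega) X.length X Y le_rfl (hX.symm.trans hv)
  have hv' : val h C' = pow (t2 ++ t1) i := hY.trans ht'
  have hGt : val h G <+: pow t (i * n) := by
    rw [pow_mul', ← hv]
    exact hGp.trans hn1
  have hHt : val h H <:+ pow (t2 ++ t1) (i * n) := by
    rw [pow_mul', ← hv']
    exact hHs.trans hn2
  rcases ky_left hrs hr hs hc hab1 hi hC hG hv hGt h1 with hL | ⟨ha, hb, hGn, hL⟩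
  · rcases ky_right hrs hr hs hc (by omega : 1 ≤ a' + b') hi hC' hH hv' hHt h2 with hR | ⟨ha', hb', hHn, hR⟩
    · exact h3 ⟨hL, hR⟩
    · -- `G` powers of `r`, `H` powers of `s`
      rcases G with _ | ⟨c, G1⟩
      · exact h4 (by omega) ⟨fun c hcn => absurd hcn (List.not_mem_nil), hR⟩
      · have hcr : c = r := hL c List.mem_cons_self
        have ha0 : a = 0 := by
          by_contra ha0
          obtain ⟨a1, rfl⟩ : ∃ a1, a = a1 + 1 := ⟨a - 1, by omega⟩
          exact h1 r (pow [r] a1 ++ [s] ++ pow [r] b) G1 ⟨by rw [hC, ky_succ]; rfl, by rw [hcr]⟩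
        have hb1 : b = 1 := by omega
        have hCC : C = C' := by rw [hC, hC', ha0, hb1, ha', hb']
        have hvv : h s ++ h r = pow t i := by
          rw [← hv, ← hvC, ha0, hb1, pow_zero', pow_one'', List.nil_append]
        apply hc
        symm
        refine mm3 (t := t) (N := i * n) hi hvv ?_ ?_
        · -- `h s` is a suffix
          obtain ⟨H1, d, hHd⟩ : ∃ H1 d, H = H1 ++ [d] := by
            rcases List.eq_nil_or_concat H with e | ⟨H1, d, e⟩
            · exact absurd e hHn
            · exact ⟨H1, d, by rw [e, List.concat_eq_append]⟩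
          have hds : d = s := hR d (by rw [hHd]; simp)
          rw [pow_mul', ← hv, hCC]
          refine List.IsSuffix.trans ?_ (hHs.trans hn2)
          rw [hHd, hds, val_append, val_one']
          exact List.suffix_append _ _
        · rw [hcr, val_cons'] at hGt
          exact (List.prefix_append _ _).trans hGt
  · rcases ky_right hrs hr hs hc (by omega : 1 ≤ a' + b') hi hC' hH hv' hHt h2 with hR | ⟨ha', hb', hHn, hR⟩
    · -- `G` powers of `s`, `H` powers of `r`
      rcases List.eq_nil_or_concat H with e | ⟨H1, d, e⟩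
      · exact h4 (by omega) ⟨hL, fun c hcn => absurd hcn (by rw [e]; exact List.not_mem_nil)⟩
      · rw [List.concat_eq_append] at e
        have hdr : d = r := hR d (by rw [e]; simp)
        have hb0 : b' = 0 := by
          by_contra hb0
          obtain ⟨b1, rfl⟩ : ∃ b1, b' = b1 + 1 := ⟨b' - 1, by omega⟩
          refine h2 r (pow [r] a' ++ [s] ++ pow [r] b1) H1 ⟨by rw [hC', ky_succ', List.append_assoc, List.append_assoc, List.append_assoc], by rw [e, hdr]⟩
        have ha1 : a' = 1 := by omega
        have hCC : C = C' := by rw [hC, hC', ha, hb, ha1, hb0]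
        have hvv : h r ++ h s = pow t i := by
          rw [← hv, ← hvC, ha, hb, pow_zero', pow_one'', List.append_nil]
        apply hc
        refine mm3 (t := t) (N := i * n) hi hvv ?_ ?_
        · rw [pow_mul', ← hv, hCC]
          refine List.IsSuffix.trans ?_ (hHs.trans hn2)
          rw [e, hdr, val_append, val_one']
          exact List.suffix_append _ _
        · rcases G with _ | ⟨c, G1⟩
          · exact absurd rfl hGn
          · have hcs : c = s := hL c List.mem_cons_self
            rw [hcs, val_cons'] at hGt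
            exact (List.prefix_append _ _).trans hGt
    · exact h4 (by omega) ⟨hL, hR⟩

end Pool.Agent.H70.WE
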