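import Pool.Agent.H70.WB.Lcp
import Pool.Agent.H70.WX.Cls

/-!
# [H70 WB Lng] Words with both letters; commuting solutions

`long_lt`: otherwise `bval x y C` is a prefix of `bval x y A` (`List.prefix_of_prefix_length_le`), so `A ≠ []` (`C` has a nonempty value), `A = a :: _`, `C = c :: _`, `a ≠ c`. By `lcp_lemma`
(`z` the longest common prefix, different letters `a', b'`) `z a'` is a prefix of `bval x y A ++ z` and `z b'` of `bval x y C ++ z` (or exchanged); `|z| < |x| + |y| ≤ |bval x y C| ≤ |bval x y A|`
(**prove `|z| < |x| + |y|`**: from `lcp_lemma` with `U = [false]` and `U = [true]`: `z a'` is a prefix of `x y z` and `z b'` a prefix of `y x z`; if `|z| ≥ |x y|`, then `x y` and `y x` are both the prefix of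
`z`, so `x y = y x`), so `z a', z b'` are prefixes of the same word: `a' = b'`.
`long_lt_right`: reverse everything.
`comm_per`: `h 0, h 1` powers of `w` (`comm_pow`), values of `A, B, C, D` are powers of `w` (`val_pow_of_comm`, WP/OP.lean, import it if needed), `w^p z w^q = w^r z w^s`, `p > r`: `w^(p - r) z w^q = z w^s`, so
`w` and `z` satisfy a nontrivial relation: `rel_comm`, then `comm_pow`: `h` is periodic (as in `fam_rt`, WP/OP2.lean).
-/

set_option autoImplicit false

namespace Pool.Agent.H70.WE

private theorem lng_pos {α : Type} {x y : List α} (h : x ++ y ≠ y ++ x) : 0 < x.length ∧ 0 < y.length := by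
  constructor
  · rcases Nat.eq_zero_or_pos x.length with h0 | h0
    · exact absurd (by rw [List.eq_nil_of_length_eq_zero h0]; simp) h
    · exact h0
  · rcases Nat.eq_zero_or_pos y.length with h0 | h0
    · exact absurd (by rw [List.eq_nil_of_length_eq_zero h0]; simp) h
    · exact h0

private theorem lng_mem {α : Type} (x y : List α) (c : Bool) : ∀ C : List Bool, c ∈ C →
    (if c then x else y).length ≤ (bval x y C).length := by
  intro C
  induction C with
  | nil => intro h; cases h
  | cons d C ih =>
    intro h
    rw [bval_cons, List.length_append]
    rcases List.mem_cons.1 h with h1 | h1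
    · rw [h1]
      omega
    · have := ih h1
      omega

private theorem lng_both {α : Type} (x y : List α) : ∀ C : List Bool, true ∈ C → false ∈ C →
    x.length + y.length ≤ (bval x y C).length := by
  intro C
  induction C with
  | nil => intro h; cases h
  | cons d C ih =>
    intro h1 h2
    rw [bval_cons, List.length_append]
    cases d with
    | true =>
      have h3 : false ∈ C := by
        rcases List.mem_cons.1 h2 with h4 | h4
        · cases h4
        · exact h4
      have := lng_mem x y false C h3
      simp only [Bool.false_eq_true, if_false, if_true] at this ⊢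
      omega
    | false =>
      have h3 : true ∈ C := by
        rcases List.mem_cons.1 h1 with h4 | h4
        · cases h4
        · exact h4
      have := lng_mem x y true C h3
      simp only [Bool.false_eq_true, if_false, if_true] at this ⊢
      omega

theorem long_lt {α : Type} {x y S T : List α} (h : x ++ y ≠ y ++ x) {A C : List Bool} (h1 : true ∈ C) (h2 : false ∈ C)
    (hf : ∀ (c : Bool) (A' C' : List Bool), ¬ (A = c :: A' ∧ C = c :: C'))
    (he : bval x y A ++ S = bval x y C ++ T) : (bval x y A).length < (bval x y C).length := by
  by_contra hcon
  rw [not_lt] at hcon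
  obtain ⟨hx, hy⟩ := lng_pos h
  have hC := lng_both x y C h1 h2
  obtain ⟨z, a, b, hab, ha, hb⟩ := lcp_lemma x y h
  have hz : z.length < x.length + y.length := by
    by_contra hz
    rw [not_lt] at hz
    have e1 := ha [false]
    have e2 := hb [true]
    have t1 : bval x y [true, false] = x ++ y := by simp [bval]
    have t2 : bval x y [false, true] = y ++ x := by simp [bval]
    rw [t1] at e1
    rw [t2] at e2
    have f1 : x ++ y <+: z := List.prefix_of_prefix_length_le (List.prefix_append _ z)
      ((List.prefix_append z [a]).trans e1) (by rw [List.length_append]; omega)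
    have f2 : y ++ x <+: z := List.prefix_of_prefix_length_le (List.prefix_append _ z)
      ((List.prefix_append z [b]).trans e2) (by rw [List.length_append]; omega)
    exact h ((List.prefix_of_prefix_length_le f1 f2 (by simp [Nat.add_comm])).eq_of_length
      (by simp [Nat.add_comm]))
  have key : ∀ (c : Bool) (U : List Bool), z.length < (bval x y (c :: U)).length →
      z ++ [if c then a else b] <+: bval x y (c :: U) := by
    intro c U hl
    cases c with
    | true => exact List.prefix_of_prefix_length_le (ha U) (List.prefix_append _ z) (by simp; omega)
    | false => exact List.prefix_of_prefix_length_le (hb U) (List.prefix_append _ z) (by simp; omega)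
  cases hA : A with
  | nil =>
    rw [hA, bval_nil] at hcon
    simp only [List.length_nil] at hcon
    omega
  | cons u A' =>
    cases hCc : C with
    | nil =>
      rw [hCc] at h1
      cases h1
    | cons v C' =>
      have huv : u ≠ v := by
        intro huv
        exact hf v A' C' ⟨by rw [hA, huv], hCc⟩
      have p1 : z ++ [if u then a else b] <+: bval x y A ++ S := by
        rw [hA]
        exact (key u A' (by rw [← hA]; omega)).trans (List.prefix_append _ _)
      have p2 : z ++ [if v then a else b] <+: bval x y A ++ S := by
        rw [he, hCc]
        exact (key v C' (by rw [← hCc]; omega)).trans (List.prefix_append _ _)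
      have p3 : z ++ [if u then a else b] = z ++ [if v then a else b] :=
        (List.prefix_of_prefix_length_le p1 p2 (by simp)).eq_of_length (by simp)
      have p4 : (if u then a else b) = (if v then a else b) := by simpa using p3
      cases u with
      | true =>
        cases v with
        | true => exact huv rfl
        | false => exact hab (by simpa using p4)
      | false =>
        cases v with
        | true => exact hab (by simpa using p4.symm)
        | false => exact huv rfl

private theorem lng_rev {α : Type} (x y : List α) : ∀ U : List Bool,
    (bval x y U).reverse = bval x.reverse y.reverse U.reverse := by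
  intro U
  induction U with
  | nil => rfl
  | cons c U ih =>
    rw [bval_cons, List.reverse_append, ih, List.reverse_cons, bval_append]
    congr 1
    cases c <;> simp [bval]

theorem long_lt_right {α : Type} {x y S T : List α} (h : x ++ y ≠ y ++ x) {D B : List Bool} (h1 : true ∈ B)
    (h2 : false ∈ B) (hf : ∀ (c : Bool) (D' B' : List Bool), ¬ (D = D' ++ [c] ∧ B = B' ++ [c]))
    (he : S ++ bval x y D = T ++ bval x y B) : (bval x y D).length < (bval x y B).length := by
  have k1 : x.reverse ++ y.reverse ≠ y.reverse ++ x.reverse := by
    intro hh
    rw [← List.reverse_append, ← List.reverse_append] at hh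
    exact h (List.reverse_injective hh).symm
  have k2 : bval x.reverse y.reverse D.reverse ++ S.reverse =
      bval x.reverse y.reverse B.reverse ++ T.reverse := by
    rw [← lng_rev, ← lng_rev, ← List.reverse_append, ← List.reverse_append, he]
  have k3 := long_lt k1 (A := D.reverse) (C := B.reverse) (List.mem_reverse.2 h1)
    (List.mem_reverse.2 h2) (fun c A' C' hh => hf c A'.reverse C'.reverse ⟨by
      have := congrArg List.reverse hh.1
      simpa using this, by
      have := congrArg List.reverse hh.2
      simpa using this⟩) k2
  rw [← lng_rev, ← lng_rev, List.length_reverse, List.length_reverse] at k3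
  exact k3

theorem comm_per {α : Type} {h : Fin 3 → List α} {A B C D : List (Fin 3)} (hA : (2 : Fin 3) ∉ A)
    (hB : (2 : Fin 3) ∉ B) (hC : (2 : Fin 3) ∉ C) (hD : (2 : Fin 3) ∉ D) (hxy : h 0 ++ h 1 = h 1 ++ h 0)
    (hl : (val h C).length < (val h A).length)
    (he : val h A ++ h 2 ++ val h B = val h C ++ h 2 ++ val h D) : Per h := by
  obtain ⟨w, a, b, h0, h1⟩ := comm_pow _ _ hxy
  change h 0 = pow w a at h0
  change h 1 = pow w b at h1
  have eA := val_pow_of_comm h0 h1 hA
  have eB := val_pow_of_comm h0 h1 hB
  have eC := val_pow_of_comm h0 h1 hC
  have eD := val_pow_of_comm h0 h1 hD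
  generalize A.count 0 * a + A.count 1 * b = p at eA
  generalize B.count 0 * a + B.count 1 * b = q at eB
  generalize C.count 0 * a + C.count 1 * b = r at eC
  generalize D.count 0 * a + D.count 1 * b = s at eD
  rw [eA, eC, pow_length, pow_length] at hl
  have hrp : r < p := lt_of_mul_lt_mul_right hl (Nat.zero_le _)
  obtain ⟨k, rfl⟩ : ∃ k, p = r + (k + 1) := ⟨p - r - 1, by omega⟩
  rw [eA, eB, eC, eD, pow_add'] at he
  simp only [List.append_assoc] at he
  have he' := List.append_cancel_left he
  have hf : ∀ N : ℕ, (List.replicate N true).flatMap (fun c => if c then w else h 2) = pow w N := by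
    intro N
    induction N with
    | zero => rfl
    | succ N ih =>
      rw [List.replicate_succ, List.flatMap_cons, ih, Nat.add_comm N 1, pow_add', pow_one'']
      rfl
  have hrel := rel_comm w (h 2) (List.replicate (k + 1) true ++ false :: List.replicate q true)
    (false :: List.replicate s true) (by
      intro hh
      simp [List.replicate_succ] at hh) (by
      rw [List.flatMap_append, List.flatMap_cons, List.flatMap_cons, hf, hf, hf]
      simpa using he')
  obtain ⟨ρ, c, d, hw, hz⟩ := comm_pow _ _ hrel
  change w = pow ρ c at hw
  change h 2 = pow ρ d at hz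
  refine ⟨ρ, fun u => ?_⟩
  fin_cases u
  · exact ⟨c * a, by show h 0 = pow ρ (c * a); rw [pow_mul', ← hw, h0]⟩
  · exact ⟨c * b, by show h 1 = pow ρ (c * b); rw [pow_mul', ← hw, h1]⟩
  · exact ⟨d, hz⟩

end Pool.Agent.H70.WE
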