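import Pool.Agent.H70.WB.Mo
import Pool.Agent.H70.WB.All

/-!
# [H70 WB Mm1] `r^a s r^b = t^i`, `s` a prefix of a power of `t`
-/

set_option autoImplicit false

namespace Pool.Agent.H70.WE

private theorem mm1_eqpre {β : Type} {u v w : List β} (hu : u <+: w) (hv : v <+: w)
    (hl : u.length = v.length) : u = v := by
  obtain ⟨z, hz⟩ := List.prefix_of_prefix_length_le hu hv hl.le
  have h1 := congrArg List.length hz
  rw [List.length_append] at h1
  have hz0 : z = [] := List.eq_nil_of_length_eq_zero (by omega)
  rw [hz0, List.append_nil] at hz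
  exact hz

private theorem mm1_succ {β : Type} (w : List β) (n : ℕ) : pow w (n + 1) = w ++ pow w n := by
  rw [Nat.add_comm, pow_add', pow_one'']

private theorem mm1_succ' {β : Type} (w : List β) (n : ℕ) : pow w (n + 1) = pow w n ++ w := by
  rw [pow_add', pow_one'']

private theorem mm1_app {β : Type} {u v w : List β} (h1 : u ++ v = v ++ u) (h2 : u ++ w = w ++ u) :
    u ++ (v ++ w) = (v ++ w) ++ u := by
  rw [← List.append_assoc, h1, List.append_assoc, h2, List.append_assoc]

private theorem mm1_powc {β : Type} {u v : List β} (h : u ++ v = v ++ u) (n : ℕ) :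
    u ++ pow v n = pow v n ++ u := by
  induction n with
  | zero => rw [pow_zero', List.append_nil, List.nil_append]
  | succ n ih =>
    rw [mm1_succ]
    exact mm1_app h ih

private theorem mm1_zero {β : Type} {r s t : List β} {a b i : ℕ} (hrt : r ++ t = t ++ r)
    (h : pow r a ++ s ++ pow r b = pow t i) : r ++ s = s ++ r := by
  have h1 : r ++ (pow r a ++ s ++ pow r b) = (pow r a ++ s ++ pow r b) ++ r := by
    rw [h]
    exact mm1_powc hrt i
  have c1 : r ++ pow r a = pow r a ++ r := mm1_powc rfl a
  have c2 : r ++ pow r b = pow r b ++ r := mm1_powc rfl b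
  have h2 : pow r a ++ ((r ++ s) ++ pow r b) = pow r a ++ ((s ++ r) ++ pow r b) := by
    calc pow r a ++ ((r ++ s) ++ pow r b) = (pow r a ++ r) ++ (s ++ pow r b) := by
          simp only [List.append_assoc]
      _ = (r ++ pow r a) ++ (s ++ pow r b) := by rw [c1]
      _ = r ++ (pow r a ++ s ++ pow r b) := by simp only [List.append_assoc]
      _ = (pow r a ++ s ++ pow r b) ++ r := h1
      _ = pow r a ++ s ++ (pow r b ++ r) := by simp only [List.append_assoc]
      _ = pow r a ++ s ++ (r ++ pow r b) := by rw [c2]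
      _ = _ := by simp only [List.append_assoc]
  exact List.append_cancel_right (List.append_cancel_left h2)

private theorem mm1_rel {β : Type} {r t : List β} {a : ℕ} (ha : 1 ≤ a)
    (h : pow r a ++ t = t ++ pow r a) : r ++ t = t ++ r := by
  have hf : ∀ n : ℕ, (List.replicate n true).flatMap (fun c => if c then r else t) = pow r n := by
    intro n
    induction n with
    | zero => rfl
    | succ n ih => rw [List.replicate_succ, List.flatMap_cons, ih, mm1_succ]; rfl
  refine rel_comm r t (List.replicate a true ++ [false]) ([false] ++ List.replicate a true) ?_ ?_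
  · intro he
    obtain ⟨a', rfl⟩ : ∃ a', a = a' + 1 := ⟨a - 1, by omega⟩
    rw [List.replicate_succ] at he
    simp at he
  · rw [List.flatMap_append, List.flatMap_append, hf]
    have e1 : ([false] : List Bool).flatMap (fun c => if c then r else t) = t := by
      rw [List.flatMap_cons, List.flatMap_nil, List.append_nil]; rfl
    rw [e1, h]

/-- Proof. `t ≠ []` (else all empty); replace `t` by its primitive root (`prim_root`). Lengths `ρ = |r|, σ = |s|, τ = |t|`.
It is enough to find a word `u` with `r, t` powers of `u` (then `s` too). Write `F-W` for `fwp`/`fws`.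
(1) `σ ≥ τ`: `t` is a prefix of `s`, so `t` occurs in `t^i` at `aρ`: by `occ` `r^a = t^k`, so `r, t` commute, done.
(2) `σ < τ`, so `(a+b)ρ = iτ - σ > (i-1)τ ≥ τ`.
(2a) `ρ ≥ τ`: `t` is a prefix of `r` (`a ≥ 1`); `a ≥ 2`: `t` occurs at `ρ`; `a = 1`, so `b ≥ 1`: the last `r` of `t^i` gives `t` at
`iτ - ρ`; in both cases by `occ` `r` is a power of `t` (or its complement is).
(2b) `ρ < τ`. If `aρ ≥ τ + ρ` or `bρ ≥ τ + ρ`: F-W, done. So `aρ < τ + ρ`, `bρ < τ + ρ`.
 - `b = 0`: `aρ > (i-1)τ`, `aρ < 2τ`, so `i = 2`, `a ≥ 2`, `t = r^(a-1) r1`, `r = r1 r2`; `t t = r^a s` gives `t = r2 s`;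
   `s` is a prefix of `t` and `σ = τ - |r2| ≥ |r1|`, so `s` starts with `r1`; `t = r2 r1 ..` and `t = r1 r2 ..`: `r1 r2 = r2 r1`.
 - `b ≥ 1`, `aρ ≥ τ` (so `a ≥ 2`): `t = r^(a-1) r1`, `r = r1 r2`, and `r` is a suffix of `t`: `r = r2 r1`. Same for `bρ ≥ τ` with
   `t = r'' r^(b-1)`, `r = r' r''`, `r` a prefix of `t`: `r = r'' r'`.
 - `b ≥ 1`, `aρ < τ`, `bρ < τ`: `(i-1)τ < (a+b)ρ < 2τ`, `i = 2`; `t = r^a s1 = s2 r^b`, `s = s1 s2`; `o = (a+b)ρ - τ > 0`.
   If `o ≥ ρ`: `r` occurs in `r^a` at `|s2| = aρ - o`, so `s2` is a power of the root of `r`, done. If `o < ρ`: `s1 = r_2 r^(b-1)`,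
   `r = r_1 r_2`, `|r_1| = o`; `s1` is a prefix of `t` (as `s` is one), which starts with `r`. `b ≥ 2`: `r_2 r_1 = r_1 r_2`. `b = 1`:
   `s1 = r_2`, `s2 = r^(a-1) r'`, `r'` the prefix of `r` of length `|r_2|`; `a ≥ 2`: `s = r_2 r ..` is a prefix of `t`, so
   `r_2 r_1 = r_1 r_2`; `a = 1`: `r' = r_2` (both prefixes of `t`), `t = r r_2 = r_2 r`. -/
theorem mm1 {α : Type} {r s t : List α} {a b i N : ℕ} (ha : 1 ≤ a) (hab : 2 ≤ a + b) (hi : 2 ≤ i)
    (h : pow r a ++ s ++ pow r b = pow t i) (hs : s <+: pow t N) : r ++ s = s ++ r := by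
  rcases Nat.eq_zero_or_pos t.length with ht0 | ht0
  · have : t = [] := List.eq_nil_of_length_eq_zero ht0
    subst this
    exact mm1_zero (by rw [List.append_nil, List.nil_append]) h
  have hlen := congrArg List.length h
  rw [List.length_append, List.length_append, pow_length, pow_length, pow_length] at hlen
  have htN : t <+: pow t (N + 1) := ⟨pow t N, (mm1_succ t N).symm⟩
  have hsN : s <+: pow t (N + 1) := hs.trans ⟨t, (mm1_succ' t N).symm⟩
  rcases Nat.lt_or_ge s.length t.length with hst | hst
  swap
  · -- `t` is a prefix of `s`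
    obtain ⟨s', hs'⟩ := List.prefix_of_prefix_length_le htN hsN hst
    apply mm1_zero _ h
    apply mm1_rel ha
    have p1 : pow r a ++ t <+: pow t (i + 1) := by
      refine List.IsPrefix.trans ⟨s' ++ pow r b, ?_⟩ ⟨t, (mm1_succ' t i).symm⟩
      rw [← h, ← hs']
      simp only [List.append_assoc]
    have p2 : t ++ pow r a <+: pow t (i + 1) := by
      refine ⟨s ++ pow r b, ?_⟩
      rw [mm1_succ, ← h]
      simp only [List.append_assoc]
    exact mm1_eqpre p1 p2 (by rw [List.length_append, List.length_append, Nat.add_comm])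
  have hst' : s <+: t := List.prefix_of_prefix_length_le hsN htN hst.le
  rcases Nat.lt_or_ge ((a + b) * r.length) (t.length + r.length) with hfw | hfw
  swap
  · -- Fine and Wilf
    obtain ⟨w1, w2, hw, hpw⟩ := rot_pow t i (by omega) _ (pow r a ++ s) (pow r b) le_rfl h
    have h3 : pow r (b + a) ++ s ++ pow r 0 = pow (w2 ++ w1) i := by
      rw [← hpw, pow_add', pow_zero']
      simp only [List.append_assoc, List.append_nil]
    have hc : r ++ (w2 ++ w1) = (w2 ++ w1) ++ r := by
      apply fwp (U := pow r (b + a)) (a := b + a) (b := i) (List.prefix_refl _)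
      · exact ⟨s, by rw [← h3, pow_zero', List.append_nil]⟩
      · rw [pow_length, List.length_append]
        have e1 := congrArg List.length hw
        rw [List.length_append] at e1
        rw [Nat.add_comm b a]
        omega
    exact mm1_zero hc h3
  rw [Nat.add_mul] at hfw
  have h2r : 2 * r.length ≤ (a + b) * r.length := Nat.mul_le_mul_right _ hab
  rw [Nat.add_mul] at h2r
  have hrt : r.length < t.length := by omega
  have hi2 : i = 2 := by
    by_contra hne
    have h3 : 3 * t.length ≤ i * t.length := Nat.mul_le_mul_right _ (by omega)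
    omega
  subst hi2
  have htt : pow t 2 = t ++ t := by rw [mm1_succ, pow_one'']
  rw [htt] at h
  obtain ⟨a', rfl⟩ : ∃ a', a = a' + 1 := ⟨a - 1, by omega⟩
  have hpa : pow r (a' + 1) <+: t ++ t := ⟨s ++ pow r b, by rw [← h]; simp only [List.append_assoc]⟩
  have hrt' : r <+: t := List.prefix_of_prefix_length_le (l₃ := t ++ t)
    (List.IsPrefix.trans ⟨pow r a', (mm1_succ r a').symm⟩ hpa) (List.prefix_append t t) hrt.le
  have htt' : pow t 2 = t ++ t := htt
  -- it is enough that `r` and `t` commute
  suffices hgoal : r ++ t = t ++ r from mm1_zero hgoal (h.trans htt.symm)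
  rcases Nat.lt_or_ge ((a' + 1) * r.length) t.length with hA | hA
  · -- the middle case
    have hB : b * r.length < t.length := by
      by_contra hcon
      rw [Nat.add_mul] at hfw
      omega
    obtain ⟨s1, hs1⟩ := List.prefix_of_prefix_length_le hpa (List.prefix_append t t)
      (by rw [pow_length]; exact hA.le)
    have hpb : pow r b <:+ t ++ t := ⟨pow r (a' + 1) ++ s, h⟩
    obtain ⟨s2, hs2⟩ := List.suffix_of_suffix_length_le hpb (List.suffix_append t t)
      (by rw [pow_length]; exact hB.le)
    have hs12 : s = s1 ++ s2 := by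
      have e : pow r (a' + 1) ++ (s ++ pow r b) = pow r (a' + 1) ++ ((s1 ++ s2) ++ pow r b) := by
        calc pow r (a' + 1) ++ (s ++ pow r b) = t ++ t := by rw [← h, List.append_assoc]
          _ = (pow r (a' + 1) ++ s1) ++ (s2 ++ pow r b) := by rw [hs1, hs2]
          _ = _ := by simp only [List.append_assoc]
      exact List.append_cancel_right (List.append_cancel_left e)
    have l1 := congrArg List.length hs1
    have l2 := congrArg List.length hs2
    have l3 := congrArg List.length hs12
    rw [List.length_append, pow_length] at l1 l2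
    rw [List.length_append] at l3
    have hb0 : b ≠ 0 := by
      rintro rfl
      rw [Nat.zero_mul] at l2
      omega
    obtain ⟨b', rfl⟩ : ∃ b', b = b' + 1 := ⟨b - 1, by omega⟩
    -- `s1`
    have q1 : s1 <:+ pow r (b' + 1) := by
      apply List.suffix_of_suffix_length_le (l₃ := t) ⟨_, hs1⟩ ⟨_, hs2⟩
      rw [pow_length]
      omega
    obtain ⟨V, hV⟩ := q1
    have lV := congrArg List.length hV
    rw [List.length_append, pow_length] at lV
    have q2 : V <+: r := by
      apply List.prefix_of_prefix_length_le (l₃ := pow r (b' + 1)) ⟨s1, hV⟩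
        ⟨pow r b', (mm1_succ r b').symm⟩
      omega
    obtain ⟨r2, hr2⟩ := q2
    have e1 : s1 = r2 ++ pow r b' := by
      have e : V ++ s1 = V ++ (r2 ++ pow r b') := by
        rw [hV, mm1_succ, ← List.append_assoc, hr2]
      exact List.append_cancel_left e
    -- `s2`
    have q3 : s2 <+: pow r (a' + 1) := by
      apply List.prefix_of_prefix_length_le (l₃ := t) ⟨_, hs2⟩ ⟨_, hs1⟩
      rw [pow_length]
      omega
    obtain ⟨V', hV'⟩ := q3
    have lV' := congrArg List.length hV'
    rw [List.length_append, pow_length] at lV'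
    have q4 : V' <:+ r := by
      apply List.suffix_of_suffix_length_le (l₃ := pow r (a' + 1)) ⟨s2, hV'⟩
        ⟨pow r a', (mm1_succ' r a').symm⟩
      omega
    obtain ⟨r', hr'⟩ := q4
    have e2 : s2 = pow r a' ++ r' := by
      have e : s2 ++ V' = (pow r a' ++ r') ++ V' := by
        rw [hV', mm1_succ', List.append_assoc, hr']
      exact List.append_cancel_right e
    have lr2 := congrArg List.length hr2
    have lr' := congrArg List.length hr'
    rw [List.length_append] at lr2 lr'
    have hrr : r ++ r2 = r2 ++ r := by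
      rcases Nat.eq_zero_or_pos (b' + a') with h0 | h0
      · obtain rfl : a' = 0 := by omega
        obtain rfl : b' = 0 := by omega
        rw [pow_zero', List.append_nil] at e1
        rw [pow_zero', List.nil_append] at e2
        have e3 : r2 = r' := by
          apply mm1_eqpre (w := t) _ (List.IsPrefix.trans ⟨V', hr'⟩ hrt') (by omega)
          refine List.IsPrefix.trans ⟨s2, ?_⟩ hst'
          rw [hs12, e1]
        rw [e1] at hs1
        rw [e2, ← e3] at hs2
        rw [pow_one''] at hs1 hs2
        rw [hs1, hs2]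
      · obtain ⟨k, hk⟩ : ∃ k, b' + a' = k + 1 := ⟨b' + a' - 1, by omega⟩
        have e3 : r2 ++ V = r := by
          apply mm1_eqpre (w := t) _ hrt' (by rw [List.length_append]; omega)
          refine List.IsPrefix.trans ⟨r2 ++ pow r k ++ r', ?_⟩ hst'
          rw [hs12, e1, e2]
          calc r2 ++ V ++ (r2 ++ pow r k ++ r') = r2 ++ ((V ++ r2) ++ pow r k) ++ r' := by
                simp only [List.append_assoc]
            _ = r2 ++ pow r (b' + a') ++ r' := by rw [hr2, hk, mm1_succ]
            _ = _ := by rw [pow_add']; simp only [List.append_assoc]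
        calc r ++ r2 = r2 ++ V ++ r2 := by rw [e3]
          _ = r2 ++ (V ++ r2) := by rw [List.append_assoc]
          _ = r2 ++ r := by rw [hr2]
    rw [← hs1, e1]
    exact mm1_app (mm1_powc rfl _) (mm1_app hrr (mm1_powc rfl _))
  · -- `t` is a prefix of `r^a`
    have hb0 : b = 0 := by
      by_contra hcon
      have h3 : 1 * r.length ≤ b * r.length := Nat.mul_le_mul_right _ (by omega)
      omega
    subst hb0
    rw [pow_zero', List.append_nil] at h
    obtain ⟨Z, hZ⟩ := List.prefix_of_prefix_length_le (List.prefix_append t t) hpa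
      (by rw [pow_length]; exact hA)
    have hZs : Z ++ s = t := by
      have e : t ++ (Z ++ s) = t ++ t := by rw [← List.append_assoc, hZ, h]
      exact List.append_cancel_left e
    have lZ := congrArg List.length hZ
    rw [List.length_append, pow_length] at lZ
    have lZs := congrArg List.length hZs
    rw [List.length_append] at lZs
    have q1 : Z <:+ r := by
      apply List.suffix_of_suffix_length_le (l₃ := pow r (a' + 1)) ⟨t, hZ⟩
        ⟨pow r a', (mm1_succ' r a').symm⟩
      omega
    obtain ⟨r1, hr1⟩ := q1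
    have lr1 := congrArg List.length hr1
    rw [List.length_append] at lr1
    have e1 : t = pow r a' ++ r1 := by
      have e : t ++ Z = (pow r a' ++ r1) ++ Z := by
        rw [hZ, mm1_succ', List.append_assoc, hr1]
      exact List.append_cancel_right e
    have q2 : r1 <+: s := by
      apply List.prefix_of_prefix_length_le (l₃ := t) (List.IsPrefix.trans ⟨Z, hr1⟩ hrt') hst'
      omega
    obtain ⟨s', hs'⟩ := q2
    have e2 : Z ++ r1 = r := by
      apply mm1_eqpre (w := t) _ hrt' (by rw [List.length_append]; omega)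
      refine ⟨s', ?_⟩
      rw [List.append_assoc, hs', hZs]
    have hrr : r ++ r1 = r1 ++ r := by
      calc r ++ r1 = r1 ++ Z ++ r1 := by rw [hr1]
        _ = r1 ++ (Z ++ r1) := by rw [List.append_assoc]
        _ = r1 ++ r := by rw [e2]
    rw [e1]
    exact mm1_app (mm1_powc rfl _) hrr

end Pool.Agent.H70.WE
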