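import Pool.Agent.H70.WB.Mo

/-!
# [H70 WB Mm2] `q p^b = t^i`, `p^c q` a prefix of a power of `t`, and two easy cases
-/

set_option autoImplicit false

namespace Pool.Agent.H70.WE

private theorem m2_comm_pow {α : Type} (τ : List α) (m n : ℕ) :
    pow τ m ++ pow τ n = pow τ n ++ pow τ m := by
  rw [← pow_add', ← pow_add', Nat.add_comm]

/-- a word commuting with a primitive word is a power of it -/
private theorem m2_root {α : Type} {p τ : List α} (hτ : Prim τ) (h : p ++ τ = τ ++ p) :
    ∃ k, p = pow τ k := by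
  obtain ⟨w, k, j, hk, hj⟩ := comm_pow p τ h
  change p = pow w k at hk
  change τ = pow w j at hj
  have h1 : j = 1 := by
    rcases Nat.lt_or_ge j 2 with h2 | h2
    · rcases Nat.eq_zero_or_pos j with h3 | h3
      · exfalso
        rw [h3, pow_zero'] at hj
        exact prim_ne hτ hj
      · omega
    · exact absurd hj (hτ w j h2)
  rw [h1, pow_one''] at hj
  rw [← hj] at hk
  exact ⟨k, hk⟩

private theorem m2_le {α : Type} {τ : List α} (hτ : τ ≠ []) {k I : ℕ}
    (h : (pow τ k).length ≤ (pow τ I).length) : k ≤ I := by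
  rw [pow_length, pow_length] at h
  exact Nat.le_of_mul_le_mul_right h (List.length_pos_iff.2 hτ)

private theorem m2_cancel {α : Type} {τ s : List α} (hτ : τ ≠ []) {k I : ℕ}
    (h : pow τ k ++ s = pow τ I) : ∃ j, s = pow τ j := by
  have h1 : k ≤ I := m2_le hτ (by rw [← h, List.length_append]; omega)
  refine ⟨I - k, ?_⟩
  have h2 : pow τ I = pow τ k ++ pow τ (I - k) := by
    rw [← pow_add', Nat.add_sub_cancel' h1]
  rw [h2] at h
  exact List.append_cancel_left h

private theorem m2_cancel' {α : Type} {τ s : List α} (hτ : τ ≠ []) {k I : ℕ}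
    (h : s ++ pow τ k = pow τ I) : ∃ j, s = pow τ j := by
  have h1 : k ≤ I := m2_le hτ (by rw [← h, List.length_append]; omega)
  refine ⟨I - k, ?_⟩
  have h2 : pow τ I = pow τ (I - k) ++ pow τ k := by
    rw [← pow_add', Nat.sub_add_cancel h1]
  rw [h2] at h
  exact List.append_cancel_right h

private theorem m2_pre {α : Type} (τ : List α) {I : ℕ} (hI : 1 ≤ I) : τ <+: pow τ I := by
  refine ⟨pow τ (I - 1), ?_⟩
  have h : pow τ I = pow τ 1 ++ pow τ (I - 1) := by
    rw [← pow_add', Nat.add_sub_cancel' hI]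
  rw [h, pow_one'']

private theorem m2_suf {α : Type} (τ : List α) {I : ℕ} (hI : 1 ≤ I) : τ <:+ pow τ I := by
  refine ⟨pow τ (I - 1), ?_⟩
  have h : pow τ I = pow τ (I - 1) ++ pow τ 1 := by
    rw [← pow_add', Nat.sub_add_cancel hI]
  rw [h, pow_one'']

private theorem m2_pos {α : Type} {τ U : List α} (hτ : τ ≠ []) {M : ℕ} (hl : τ.length ≤ U.length)
    (h : U.length ≤ (pow τ M).length) : 1 ≤ M := by
  rcases Nat.eq_zero_or_pos M with h1 | h1
  · exfalso
    rw [h1, pow_length] at h
    have := List.length_pos_iff.2 hτ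
    omega
  · exact h1

/-- the root of `t` -/
private theorem m2_rt {α : Type} {t : List α} (ht : t ≠ []) :
    ∃ (τ : List α) (m : ℕ), Prim τ ∧ 1 ≤ m ∧ ∀ k, pow t k = pow τ (m * k) := by
  obtain ⟨τ, m, hm, e, hp⟩ := prim_root t.length t le_rfl ht
  exact ⟨τ, m, hp, hm, fun k => by rw [e, ← pow_mul']⟩

private theorem m2_nil {α : Type} {t : List α} (ht : t = []) (k : ℕ) : pow t k = [] := by
  rw [ht, pow_nil]

/-- Proof. `t ≠ []` (else all empty); replace `t` by its primitive root. It is enough that `p, t` are powers of one word.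
`|q| ≥ |t|`: `t` is a prefix of `q`, so `t` occurs at `c|p|` in `t^N`: `occ`, `p^c = t^k`. `|q| < |t|`: `b|p| > |t|`; `p` is a prefix of
`t^N` and a suffix of `t^i`. `|p| ≥ |t|`: `t` occurs at `i|t| - |p|`: `occ`. `|p| < |t|`: `b ≥ 2`; `b|p| ≥ |t| + |p|`: `fws`; else
`t = p'' p^(b-1)`, `p = p' p''`, and `p` is a prefix of `t`: `p = p'' p'`. -/
theorem mm2 {α : Type} {p q t : List α} {b c i N : ℕ} (hb : 1 ≤ b) (hc : 1 ≤ c) (hi : 2 ≤ i)
    (h : q ++ pow p b = pow t i) (hq : pow p c ++ q <+: pow t N) : p ++ q = q ++ p := by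
  by_cases ht : t = []
  · rw [m2_nil ht] at h
    rw [(List.append_eq_nil_iff.1 h).1, List.nil_append, List.append_nil]
  obtain ⟨τ, m, hτ, hm, hpow⟩ := m2_rt ht
  rw [hpow] at h hq
  have hτ0 := prim_ne hτ
  have hτl := List.length_pos_iff.2 hτ0
  obtain ⟨I, hI⟩ : ∃ I, I = m * i := ⟨_, rfl⟩
  obtain ⟨M, hM⟩ : ∃ M, M = m * N := ⟨_, rfl⟩
  rw [← hI] at h
  rw [← hM] at hq
  have hI2 : 2 ≤ I := by
    rw [hI]
    exact hi.trans (Nat.le_mul_of_pos_left i hm)
  -- enough: `p` is a power of `τ`
  suffices hs : ∃ j, p = pow τ j by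
    obtain ⟨j, hj⟩ := hs
    have h1 : pow p b = pow τ (j * b) := by rw [hj, ← pow_mul']
    rw [h1] at h
    obtain ⟨k, hk⟩ := m2_cancel' hτ0 h
    rw [hj, hk]
    exact m2_comm_pow τ j k
  obtain ⟨Z, hZ⟩ := hq
  rcases Nat.lt_or_ge q.length τ.length with hlt | hge
  · have hlen : q.length + b * p.length = I * τ.length := by
      have := congrArg List.length h
      rw [List.length_append, pow_length, pow_length] at this
      exact this
    have hbig : τ.length < b * p.length := by
      have h1 : 2 * τ.length ≤ I * τ.length := Nat.mul_le_mul_right _ hI2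
      omega
    have hpre : p <+: pow τ M := by
      have h1 : p <+: pow p c := m2_pre p hc
      have h2 : pow p c <+: pow τ M := ⟨q ++ Z, by rw [← List.append_assoc]; exact hZ⟩
      exact h1.trans h2
    have hsuf : p <:+ pow τ I := (m2_suf p hb).trans ⟨q, h⟩
    rcases Nat.lt_or_ge p.length τ.length with hpl | hpg
    · have hb2 : 2 ≤ b := by
        by_contra hcon
        have : b = 1 := by omega
        rw [this] at hbig
        omega
      have hps : pow p b <:+ pow τ I := ⟨q, h⟩
      rcases Nat.lt_or_ge (b * p.length) (p.length + τ.length) with hsm | hlg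
      · -- `τ = p'' p^(b-1)`
        have h1 : τ <:+ pow p b :=
          List.suffix_of_suffix_length_le (m2_suf τ (by omega)) hps (by rw [pow_length]; omega)
        obtain ⟨Z1, hZ1⟩ := h1
        have hpb : pow p b = p ++ pow p (b - 1) := by
          have : pow p b = pow p 1 ++ pow p (b - 1) := by
            rw [← pow_add', Nat.add_sub_cancel' hb]
          rw [this, pow_one'']
        have hZl : Z1.length + τ.length = b * p.length := by
          have := congrArg List.length hZ1
          rw [List.length_append, pow_length] at this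
          exact this
        have hZ1p : Z1 <+: p := by
          apply List.prefix_of_prefix_length_le (l₃ := pow p b) ⟨τ, hZ1⟩ ⟨pow p (b - 1), hpb.symm⟩
          omega
        obtain ⟨P2, hP2⟩ := hZ1p
        have hτe : τ = P2 ++ pow p (b - 1) := by
          have h2 : Z1 ++ τ = Z1 ++ (P2 ++ pow p (b - 1)) := by
            rw [hZ1, hpb, ← List.append_assoc Z1 P2, hP2]
          exact List.append_cancel_left h2
        have hpτ : p <+: τ := by
          have hM1 : 1 ≤ M := by
            rcases Nat.eq_zero_or_pos M with h3 | h3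
            · exfalso
              rw [h3, pow_zero'] at hpre
              have := List.prefix_nil.1 hpre
              rw [this] at hbig
              simp at hbig
            · exact h3
          exact List.prefix_of_prefix_length_le hpre (m2_pre τ hM1) hpl.le
        have hb1 : pow p (b - 1) = p ++ pow p (b - 2) := by
          have : pow p (b - 1) = pow p 1 ++ pow p (b - 2) := by
            rw [← pow_add']
            congr 1
            omega
          rw [this, pow_one'']
        have hswap : p = P2 ++ Z1 := by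
          have h2 : P2 ++ Z1 <+: τ := by
            refine ⟨P2 ++ pow p (b - 2), ?_⟩
            have h5 : p ++ pow p (b - 2) = Z1 ++ (P2 ++ pow p (b - 2)) := by
              rw [← List.append_assoc, hP2]
            rw [hτe, hb1, h5]
            simp only [List.append_assoc]
          have h3 : P2 ++ Z1 <+: p := by
            apply List.prefix_of_prefix_length_le h2 hpτ
            rw [List.length_append, Nat.add_comm, ← List.length_append, hP2]
          exact (h3.eq_of_length (by rw [List.length_append, Nat.add_comm, ← List.length_append, hP2])).symm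
        have hcm : Z1 ++ P2 = P2 ++ Z1 := by rw [hP2, ← hswap]
        obtain ⟨w, k, j, hk, hj⟩ := comm_pow Z1 P2 hcm
        change Z1 = pow w k at hk
        change P2 = pow w j at hj
        have hpw : p = pow w (k + j) := by rw [← hP2, hk, hj, pow_add']
        have hτw : τ = pow w (j + (k + j) * (b - 1)) := by
          rw [hτe, hj, pow_add', pow_mul', ← hpw]
        apply m2_root hτ
        rw [hτw, hpw]
        exact m2_comm_pow w _ _
      · apply m2_root hτ
        exact fws (U := pow p b) (List.suffix_refl _) hps (by rw [pow_length]; omega)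
    · have h1 : τ <+: p := by
        have hM1 : 1 ≤ M := m2_pos hτ0 hpg hpre.length_le
        exact List.prefix_of_prefix_length_le (m2_pre τ hM1) hpre hpg
      obtain ⟨Y, hY⟩ := h1
      obtain ⟨X, hX⟩ := hsuf
      have h2 : X ++ τ ++ Y = pow τ I := by rw [List.append_assoc, hY, hX]
      obtain ⟨k, hk⟩ := occ hτ h2
      rw [hk] at hX
      exact m2_cancel hτ0 hX
  · have h1 : τ <+: q :=
      List.prefix_of_prefix_length_le (m2_pre τ (by omega)) (⟨pow p b, h⟩ : q <+: pow τ I) hge
    obtain ⟨Y, hY⟩ := h1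
    have h2 : pow p c ++ τ ++ (Y ++ Z) = pow τ M := by
      rw [← hZ, ← hY]
      simp only [List.append_assoc]
    obtain ⟨k, hk⟩ := occ hτ h2
    exact root_of_prim hτ hc hk

/-- One of `r, s` has length `≥ |t|` (root of `t`): `occ`. -/
theorem mm3 {α : Type} {r s t : List α} {i N : ℕ} (hi : 2 ≤ i) (h : r ++ s = pow t i) (hr : r <:+ pow t N)
    (hs : s <+: pow t N) : r ++ s = s ++ r := by
  by_cases ht : t = []
  · rw [m2_nil ht] at h
    rw [(List.append_eq_nil_iff.1 h).1, List.nil_append, List.append_nil]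
  obtain ⟨τ, m, hτ, hm, hpow⟩ := m2_rt ht
  rw [hpow] at h hr hs
  have hτ0 := prim_ne hτ
  have hτl := List.length_pos_iff.2 hτ0
  obtain ⟨I, hI⟩ : ∃ I, I = m * i := ⟨_, rfl⟩
  obtain ⟨M, hM⟩ : ∃ M, M = m * N := ⟨_, rfl⟩
  rw [← hI] at h
  rw [← hM] at hr hs
  have hI2 : 2 ≤ I := by
    rw [hI]
    exact hi.trans (Nat.le_mul_of_pos_left i hm)
  have hlen : r.length + s.length = I * τ.length := by
    have := congrArg List.length h
    rw [List.length_append, pow_length] at this
    exact this
  have h2l : 2 * τ.length ≤ I * τ.length := Nat.mul_le_mul_right _ hI2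
  suffices hsf : ∃ j, r = pow τ j by
    obtain ⟨j, hj⟩ := hsf
    rw [hj] at h
    obtain ⟨k, hk⟩ := m2_cancel hτ0 h
    rw [hj, hk]
    exact m2_comm_pow τ j k
  rcases Nat.lt_or_ge r.length τ.length with hlt | hge
  · have hge : τ.length ≤ s.length := by omega
    have hM1 : 1 ≤ M := m2_pos hτ0 hge hs.length_le
    obtain ⟨Y, hY⟩ := List.prefix_of_prefix_length_le (m2_pre τ hM1) hs hge
    have h2 : r ++ τ ++ Y = pow τ I := by rw [List.append_assoc, hY, h]
    exact occ hτ h2
  · have hM1 : 1 ≤ M := m2_pos hτ0 hge hr.length_le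
    obtain ⟨X, hX⟩ := List.suffix_of_suffix_length_le (m2_suf τ hM1) hr hge
    have h2 : X ++ τ ++ s = pow τ I := by rw [hX, h]
    obtain ⟨k, hk⟩ := occ hτ h2
    refine ⟨k + 1, ?_⟩
    rw [← hX, hk, pow_add', pow_one'']

/-- `occ` for the primitive root of `t`. -/
theorem mm0 {α : Type} {r t : List α} {g i N : ℕ} (hg : 1 ≤ g) (hi : 1 ≤ i) (h : pow r g ++ pow t i <+: pow t N) :
    r ++ t = t ++ r := by
  by_cases ht : t = []
  · rw [ht, List.nil_append, List.append_nil]
  obtain ⟨τ, m, hτ, hm, hpow⟩ := m2_rt ht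
  have ht1 : t = pow τ m := by
    have := hpow 1
    rwa [pow_one'', Nat.mul_one] at this
  rw [hpow, hpow] at h
  obtain ⟨Z, hZ⟩ := h
  have hmi : 1 ≤ m * i := Nat.mul_pos hm hi
  obtain ⟨Y, hY⟩ := m2_pre τ hmi
  have h2 : pow r g ++ τ ++ (Y ++ Z) = pow τ (m * N) := by
    rw [← hZ, ← hY]
    simp only [List.append_assoc]
  obtain ⟨k, hk⟩ := occ hτ h2
  obtain ⟨j, hj⟩ := root_of_prim hτ hg hk
  rw [hj, ht1]
  exact m2_comm_pow τ j m

end Pool.Agent.H70.WE
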