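import Pool.Agent.H70.WB.Fv

/-!
# [H70 WB Mo] Occurrences of a primitive word in its powers; Fine and Wilf for prefixes and suffixes of powers
-/

set_option autoImplicit false

namespace Pool.Agent.H70.WE

private theorem mo_one {β : Type} (w : List β) : pow w 1 = w := by
  unfold pow
  simp

private theorem mo_succ {β : Type} (w : List β) (n : ℕ) : pow w (n + 1) = w ++ pow w n := by
  rw [add_comm, pow_add', mo_one]

private theorem mo_succ' {β : Type} (w : List β) (n : ℕ) : pow w (n + 1) = pow w n ++ w := by
  rw [pow_add', mo_one]

private theorem mo_ne {β : Type} {t : List β} (ht : Prim t) : t ≠ [] := by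
  rintro rfl
  exact ht [] 2 le_rfl (pow_nil 2).symm

/-- A primitive word `t` occurs in `t^N` only at multiples of `|t|`. Proof: `X ++ t ++ Y = t^N`, write `X = t^k X'`, `t = X' X''`
(as `|X'| < |t|`), then the occurrence of `t` at `X'` in `t t` gives `X' X'' = X'' X'`, so `X' = []` (`Prim`). -/
theorem occ {β : Type} {t X Y : List β} (ht : Prim t) {N : ℕ} (h : X ++ t ++ Y = pow t N) :
    ∃ k : ℕ, X = pow t k := by
  have htne := mo_ne ht
  have hpos : 0 < t.length := List.length_pos_iff.2 htne
  induction N generalizing X with
  | zero =>
    rw [pow_zero'] at h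
    have := congrArg List.length h
    simp only [List.length_append, List.length_nil] at this
    omega
  | succ N ih =>
    rw [mo_succ] at h
    rcases Nat.lt_or_ge X.length t.length with hlt | hge
    · -- `X` is a proper prefix of `t`
      have h1 : X <+: t ++ pow t N := ⟨t ++ Y, by rw [← h, List.append_assoc]⟩
      have h2 : X <+: t := List.prefix_of_prefix_length_le h1 ⟨pow t N, rfl⟩ hlt.le
      obtain ⟨Z, hZ⟩ := h2
      by_cases hX : X = []
      · exact ⟨0, by rw [hX]; rfl⟩
      exfalso
      have hXpos : 0 < X.length := List.length_pos_iff.2 hX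
      have hlen : X.length + Z.length = t.length := by
        rw [← hZ, List.length_append]
      have h3 : t ++ Y = Z ++ pow t N := by
        have h4 : X ++ (t ++ Y) = X ++ (Z ++ pow t N) := by
          rw [← List.append_assoc, h, ← List.append_assoc, hZ]
        exact List.append_cancel_left h4
      cases N with
      | zero =>
        rw [pow_zero', List.append_nil] at h3
        have := congrArg List.length h3
        rw [List.length_append] at this
        omega
      | succ M =>
        rw [mo_succ] at h3
        have h5 : Z ++ X <+: t ++ Y := by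
          rw [h3]
          exact ⟨Z ++ pow t M, by rw [List.append_assoc, ← List.append_assoc X, hZ]⟩
        have h6 : Z ++ X <+: t := List.prefix_of_prefix_length_le h5 ⟨Y, rfl⟩ (by
          rw [List.length_append]
          omega)
        have h7 : Z ++ X = t := h6.eq_of_length (by
          rw [List.length_append]
          omega)
        have h8 : X ++ Z = Z ++ X := by rw [hZ, h7]
        obtain ⟨w, m, n, hm, hn⟩ := comm_pow X Z h8
        change X = pow w m at hm
        change Z = pow w n at hn
        have h9 : t = pow w (m + n) := by rw [← hZ, pow_add', ← hm, ← hn]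
        have hm0 : m ≠ 0 := by
          rintro rfl
          exact hX hm
        have hn0 : n ≠ 0 := by
          rintro rfl
          have : Z = [] := hn
          rw [this, List.length_nil] at hlen
          omega
        exact ht w (m + n) (by omega) h9
    · have h1 : t <+: X := by
        refine List.prefix_of_prefix_length_le (l₃ := t ++ pow t N) ⟨pow t N, rfl⟩ ?_ hge
        rw [← h, List.append_assoc]
        exact ⟨t ++ Y, rfl⟩
      obtain ⟨X1, hX1⟩ := h1
      have h2 : X1 ++ t ++ Y = pow t N := by
        rw [← hX1, List.append_assoc, List.append_assoc] at h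
        have := List.append_cancel_left h
        rw [List.append_assoc]
        exact this
      obtain ⟨k, hk⟩ := ih h2
      exact ⟨k + 1, by rw [← hX1, hk, mo_succ]⟩

private theorem mo_step {β : Type} {u U : List β} {a : ℕ} (h1 : U <+: pow u a) (hl : u.length ≤ U.length) :
    ∃ U1, U = u ++ U1 ∧ U1 <+: U := by
  by_cases hu : u = []
  · exact ⟨U, by rw [hu, List.nil_append], List.prefix_rfl⟩
  have hpos : 0 < u.length := List.length_pos_iff.2 hu
  cases a with
  | zero =>
    rw [pow_zero'] at h1
    have := h1.length_le
    rw [List.length_nil] at this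
    omega
  | succ a =>
    have h2 : u <+: pow u (a + 1) := by
      rw [mo_succ]
      exact ⟨pow u a, rfl⟩
    obtain ⟨U1, hU1⟩ := List.prefix_of_prefix_length_le h2 h1 hl
    refine ⟨U1, hU1.symm, ?_⟩
    have h3 : U1 <+: pow u a := by
      rw [← hU1, mo_succ] at h1
      obtain ⟨V, hV⟩ := h1
      rw [List.append_assoc] at hV
      exact ⟨V, List.append_cancel_left hV⟩
    have h4 : U1 <+: pow u (a + 1) := by
      rw [mo_succ']
      exact h3.trans ⟨u, rfl⟩
    refine List.prefix_of_prefix_length_le h4 h1 ?_
    rw [← hU1, List.length_append]
    omega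

/-- Fine and Wilf (weak form) for prefixes of powers -/
theorem fwp {β : Type} {u v U : List β} {a b : ℕ} (h1 : U <+: pow u a) (h2 : U <+: pow v b)
    (hl : u.length + v.length ≤ U.length) : u ++ v = v ++ u := by
  obtain ⟨U1, hU1, hp1⟩ := mo_step h1 (by omega)
  obtain ⟨U2, hU2, hp2⟩ := mo_step h2 (by omega)
  have l1 : u.length + U1.length = U.length := by
    rw [← List.length_append, ← hU1]
  have l2 : v.length + U2.length = U.length := by
    rw [← List.length_append, ← hU2]
  have h3 : v <+: U1 := List.prefix_of_prefix_length_le (l₃ := U) ⟨U2, hU2.symm⟩ hp1 (by omega)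
  have h4 : u <+: U2 := List.prefix_of_prefix_length_le (l₃ := U) ⟨U1, hU1.symm⟩ hp2 (by omega)
  have h5 : u ++ v <+: U := by
    obtain ⟨V, hV⟩ := h3
    exact ⟨V, by rw [List.append_assoc, hV, ← hU1]⟩
  have h6 : v ++ u <+: U := by
    obtain ⟨V, hV⟩ := h4
    exact ⟨V, by rw [List.append_assoc, hV, ← hU2]⟩
  have hlen : (u ++ v).length = (v ++ u).length := by
    rw [List.length_append, List.length_append, add_comm]
  exact (List.prefix_of_prefix_length_le h5 h6 hlen.le).eq_of_length hlen

private theorem mo_reverse {β : Type} (w : List β) (n : ℕ) : (pow w n).reverse = pow w.reverse n := by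
  induction n with
  | zero => rfl
  | succ n ih => rw [mo_succ, List.reverse_append, ih, mo_succ']

/-- Fine and Wilf (weak form) for suffixes of powers (from `fwp` by reversal) -/
theorem fws {β : Type} {u v U : List β} {a b : ℕ} (h1 : U <:+ pow u a) (h2 : U <:+ pow v b)
    (hl : u.length + v.length ≤ U.length) : u ++ v = v ++ u := by
  have h3 : U.reverse <+: pow u.reverse a := by
    rw [← mo_reverse]
    exact List.reverse_prefix.2 h1
  have h4 : U.reverse <+: pow v.reverse b := by
    rw [← mo_reverse]
    exact List.reverse_prefix.2 h2
  have h5 := fwp h3 h4 (by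
    rw [List.length_reverse, List.length_reverse, List.length_reverse]
    exact hl)
  rw [← List.reverse_append, ← List.reverse_append] at h5
  exact (List.reverse_injective h5).symm

end Pool.Agent.H70.WE
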