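import Pool.Agent.H70.WB.Mm1
import Pool.Agent.H70.WB.Mm2

/-!
# [H70 WB Mr] `mm1`, `mm2`, `mm0` reversed
-/

set_option autoImplicit false

namespace Pool.Agent.H70.WE

private theorem mr_pow_reverse {α : Type} (w : List α) (n : ℕ) :
    (pow w n).reverse = pow w.reverse n := by
  simp [pow, List.reverse_flatten]

private theorem mr_comm {α : Type} {u v : List α}
    (h : u.reverse ++ v.reverse = v.reverse ++ u.reverse) : u ++ v = v ++ u := by
  rw [← List.reverse_append, ← List.reverse_append] at h
  exact (List.reverse_injective h).symm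

theorem mm1r {α : Type} {r s t : List α} {a b i N : ℕ} (hb : 1 ≤ b) (hab : 2 ≤ a + b) (hi : 2 ≤ i)
    (h : pow r a ++ s ++ pow r b = pow t i) (hs : s <:+ pow t N) : r ++ s = s ++ r := by
  have h1 : pow r.reverse b ++ s.reverse ++ pow r.reverse a = pow t.reverse i := by
    rw [← mr_pow_reverse, ← mr_pow_reverse, ← mr_pow_reverse, ← h, List.reverse_append,
      List.reverse_append, List.append_assoc]
  have h2 : s.reverse <+: pow t.reverse N := by
    rw [← mr_pow_reverse]
    exact List.reverse_prefix.2 hs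
  exact mr_comm (mm1 hb (by omega) hi h1 h2)

theorem mm2r {α : Type} {p q t : List α} {b c i N : ℕ} (hb : 1 ≤ b) (hc : 1 ≤ c) (hi : 2 ≤ i)
    (h : pow p b ++ q = pow t i) (hq : q ++ pow p c <:+ pow t N) : p ++ q = q ++ p := by
  have h1 : q.reverse ++ pow p.reverse b = pow t.reverse i := by
    rw [← mr_pow_reverse, ← mr_pow_reverse, ← h, List.reverse_append]
  have h2 : pow p.reverse c ++ q.reverse <+: pow t.reverse N := by
    rw [← mr_pow_reverse, ← mr_pow_reverse, ← List.reverse_append]
    exact List.reverse_prefix.2 hq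
  exact mr_comm (mm2 hb hc hi h1 h2)

theorem mm0r {α : Type} {r t : List α} {g i N : ℕ} (hg : 1 ≤ g) (hi : 1 ≤ i) (h : pow t i ++ pow r g <:+ pow t N) :
    r ++ t = t ++ r := by
  have h1 : pow r.reverse g ++ pow t.reverse i <+: pow t.reverse N := by
    rw [← mr_pow_reverse, ← mr_pow_reverse, ← mr_pow_reverse, ← List.reverse_append]
    exact List.reverse_prefix.2 h
  exact mr_comm (mm0 hg hi h1)

end Pool.Agent.H70.WE
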