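import Pool.Agent.H70.WB.Npj
import Pool.Agent.H70.WB.Euc
import Pool.Agent.H70.WB.Lng

/-!
# [H70 WB Unb] First equations `A z B = C z D`
-/

set_option autoImplicit false

namespace Pool.Agent.H70.WE

/-- back from Boolean words -/
def unb (U : List Bool) : List (Fin 3) := U.map fun b => if b then (0 : Fin 3) else 1

/-- substitution in Boolean words -/
def sbt (X Y : List Bool) (U : List Bool) : List Bool := U.flatMap fun b => if b then X else Y

theorem unb_no (U : List Bool) : (2 : Fin 3) ∉ unb U := by
  unfold unb
  intro h
  obtain ⟨b, -, hb⟩ := List.mem_map.1 h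
  cases b
  · simp at hb
  · simp at hb

theorem val_unb {α : Type} (g : Fin 3 → List α) (U : List Bool) : val g (unb U) = bval (g 0) (g 1) U := by
  induction U with
  | nil => rfl
  | cons b U ih =>
    have h1 : unb (b :: U) = (if b then (0 : Fin 3) else 1) :: unb U := rfl
    rw [h1, val_cons', ih, bval_cons]
    cases b <;> rfl

theorem bval_sbt {α : Type} (p q : List α) (X Y U : List Bool) :
    bval (bval p q X) (bval p q Y) U = bval p q (sbt X Y U) := by
  unfold bval sbt
  rw [List.flatMap_assoc]
  congr 1
  funext b
  cases b <;> rfl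

theorem npb_ratio {A B C D : List (Fin 3)} (hA : (2 : Fin 3) ∉ A) (hB : (2 : Fin 3) ∉ B) (hC : (2 : Fin 3) ∉ C)
    (hD : (2 : Fin 3) ∉ D) {s t : ℕ} (hs : 1 ≤ s) (ht : 1 ≤ t)
    (hX : ∀ (α : Type) (h : Fin 3 → List α), Solves h (A ++ [2] ++ B, C ++ [2] ++ D) →
      t * (h 0).length = s * (h 1).length)
    (hlt : C.count 0 * s + C.count 1 * t < A.count 0 * s + A.count 1 * t) :
    NPB (A ++ [2] ++ B, C ++ [2] ++ D) := by
  obtain ⟨X, Y, W, s', t', hs', ht', hL⟩ := euc_left s t hs ht (tob A) (tob C)
  obtain ⟨X', Y', W', s'', t'', hs'', ht'', hR⟩ := euc_right s' t' hs' ht' (sbt X Y (tob D)) (sbt X Y (tob B))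
  have key : ∀ (α : Type) (h : Fin 3 → List α), Solves h (A ++ [2] ++ B, C ++ [2] ++ D) → ¬ Per h →
      sbt X' Y' W ≠ [] ∧ ∃ g : Fin 3 → List α, Solves g (unb (sbt X' Y' W) ++ [2], [2] ++ unb W') ∧
        ∀ c, h c = val g ((![unb (sbt X' Y' X), unb (sbt X' Y' Y), [2]] : Fin 3 → List (Fin 3)) c) := by
    intro α h hsol hn
    have heq : val h A ++ h 2 ++ val h B = val h C ++ h 2 ++ val h D := by
      have h1 : val h (A ++ [2] ++ B) = val h (C ++ [2] ++ D) := hsol
      rw [val_append, val_append, val_append, val_append, val_one'] at h1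
      exact h1
    have hr := hX α h hsol
    have hX0 : 0 < (h 0).length := by
      rcases Nat.eq_zero_or_pos (h 0).length with h0 | h0
      · exfalso
        rw [h0, Nat.mul_zero] at hr
        have h1 : (h 1).length = 0 := by
          rcases Nat.eq_zero_or_pos (h 1).length with h2 | h2
          · exact h2
          · have := Nat.mul_pos hs h2
            omega
        apply hn
        refine ⟨h 2, fun c => ?_⟩
        fin_cases c
        · exact ⟨0, List.eq_nil_of_length_eq_zero h0⟩
        · exact ⟨0, List.eq_nil_of_length_eq_zero h1⟩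
        · exact ⟨1, (pow_one'' (h 2)).symm⟩
      · exact h0
    have hlA := length_val h hA
    have hlC := length_val h hC
    have hlAC : (val h C).length < (val h A).length := by
      have e1 : s * (val h A).length = (A.count 0 * s + A.count 1 * t) * (h 0).length := by
        rw [hlA, Nat.add_mul, Nat.mul_assoc (A.count 1), hr]
        ring
      have e2 : s * (val h C).length = (C.count 0 * s + C.count 1 * t) * (h 0).length := by
        rw [hlC, Nat.add_mul, Nat.mul_assoc (C.count 1), hr]
        ring
      have e3 := Nat.mul_lt_mul_of_pos_right hlt hX0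
      rw [← e1, ← e2] at e3
      exact Nat.lt_of_mul_lt_mul_left e3
    have hxy : h 0 ++ h 1 ≠ h 1 ++ h 0 := fun hc => hn (comm_per hA hB hC hD hc hlAC heq)
    -- the words `P` and `Q`
    have hp : val h C <+: val h A := by
      apply List.prefix_of_prefix_length_le (l₃ := val h A ++ h 2 ++ val h B) _ _ hlAC.le
      · rw [heq, List.append_assoc]
        exact ⟨_, rfl⟩
      · rw [List.append_assoc]
        exact ⟨_, rfl⟩
    obtain ⟨P, hP⟩ := hp
    have heq2 : P ++ h 2 ++ val h B = h 2 ++ val h D := by
      rw [← hP] at heq
      simp only [List.append_assoc] at heq ⊢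
      exact List.append_cancel_left heq
    have hq : val h B <:+ val h D := by
      apply List.suffix_of_suffix_length_le (l₃ := h 2 ++ val h D)
      · rw [← heq2]
        exact ⟨_, rfl⟩
      · exact ⟨_, rfl⟩
      · have h1 := congrArg List.length heq2
        rw [List.length_append, List.length_append, List.length_append] at h1
        omega
    obtain ⟨Q, hQ⟩ := hq
    have heq3 : P ++ h 2 = h 2 ++ Q := by
      rw [← hQ, ← List.append_assoc] at heq2
      exact List.append_cancel_right heq2
    obtain ⟨p, q, hpq, hrat, hx, hy, hPW⟩ := hL α (h 0) (h 1) P hxy hr (by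
      rw [← bval_tob h C hC, ← bval_tob h A hA]
      exact hP)
    obtain ⟨p', q', hpq', -, hx', hy', hQW⟩ := hR α p q Q hpq hrat (by
      rw [← bval_sbt, ← bval_sbt, ← hx, ← hy, ← bval_tob h B hB, ← bval_tob h D hD]
      exact hQ)
    have hPW' : P = bval p' q' (sbt X' Y' W) := by
      rw [hPW, hx', hy', bval_sbt]
    refine ⟨?_, ![p', q', h 2], ?_, ?_⟩
    · intro h0
      rw [h0] at hPW'
      have h1 : P = [] := hPW'
      rw [h1, List.append_nil] at hP
      rw [hP] at hlAC
      exact lt_irrefl _ hlAC
    · show val _ (unb (sbt X' Y' W) ++ [2]) = val _ ([2] ++ unb W')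
      rw [val_append, val_append, val_one', val_unb, val_unb]
      show bval p' q' (sbt X' Y' W) ++ h 2 = h 2 ++ bval p' q' W'
      rw [← hPW', ← hQW]
      exact heq3
    · intro c
      fin_cases c
      · show h 0 = val _ (unb (sbt X' Y' X))
        rw [val_unb]
        show h 0 = bval p' q' (sbt X' Y' X)
        rw [← bval_sbt, ← hx', ← hy']
        exact hx
      · show h 1 = val _ (unb (sbt X' Y' Y))
        rw [val_unb]
        show h 1 = bval p' q' (sbt X' Y' Y)
        rw [← bval_sbt, ← hx', ← hy']
        exact hy
      · show h 2 = val _ [2]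
        rw [val_one']
        rfl
  by_cases hW : sbt X' Y' W = []
  · intro α E h h1 h2 _ _
    exact (key α (h 0) (h2 0) (h1 0)).1 hW
  · refine (npb_conj (unb_no _) (unb_no W') (fun h0 => ?_)).sub _ (fun α h hs hn => (key α h hs hn).2)
    have h1 := (List.append_eq_nil_iff.1 h0).1
    apply hW
    unfold unb at h1
    exact List.map_eq_nil_iff.1 h1

/-- `A z B = C z D`, not balanced -/
theorem npb_unbal {A B C D : List (Fin 3)} (hA : (2 : Fin 3) ∉ A) (hB : (2 : Fin 3) ∉ B) (hC : (2 : Fin 3) ∉ C)
    (hD : (2 : Fin 3) ∉ D) (hne : ∃ c : Fin 3, (A ++ B).count c ≠ (C ++ D).count c) :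
    NPB (A ++ [2] ++ B, C ++ [2] ++ D) := by
  have main : ∀ {A B C D : List (Fin 3)}, (2 : Fin 3) ∉ A → (2 : Fin 3) ∉ B → (2 : Fin 3) ∉ C →
      (2 : Fin 3) ∉ D → (C ++ D).count 0 < (A ++ B).count 0 → NPB (A ++ [2] ++ B, C ++ [2] ++ D) := by
    intro A B C D hA hB hC hD h0
    have hlen : ∀ (α : Type) (h : Fin 3 → List α), Solves h (A ++ [2] ++ B, C ++ [2] ++ D) →
        (A ++ B).count 0 * (h 0).length + (A ++ B).count 1 * (h 1).length =
        (C ++ D).count 0 * (h 0).length + (C ++ D).count 1 * (h 1).length := by
      intro α h hs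
      have h1 : val h (A ++ [2] ++ B) = val h (C ++ [2] ++ D) := hs
      have h2 := congrArg List.length h1
      rw [val_append, val_append, val_append, val_append, val_one'] at h2
      simp only [List.length_append] at h2
      have h3 := length_val h (U := A ++ B) (fun hh => (List.mem_append.1 hh).elim hA hB)
      have h4 := length_val h (U := C ++ D) (fun hh => (List.mem_append.1 hh).elim hC hD)
      rw [← h3, ← h4, val_append, val_append, List.length_append, List.length_append]
      omega
    rcases Nat.lt_or_ge ((A ++ B).count 1) ((C ++ D).count 1) with h1 | h1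
    · obtain ⟨t, ht⟩ : ∃ t, (A ++ B).count 0 = (C ++ D).count 0 + t := ⟨_, (Nat.add_sub_of_le h0.le).symm⟩
      obtain ⟨s, hs⟩ : ∃ s, (C ++ D).count 1 = (A ++ B).count 1 + s := ⟨_, (Nat.add_sub_of_le h1.le).symm⟩
      have hs1 : 1 ≤ s := by omega
      have ht1 : 1 ≤ t := by omega
      have hX : ∀ (α : Type) (h : Fin 3 → List α), Solves h (A ++ [2] ++ B, C ++ [2] ++ D) →
          t * (h 0).length = s * (h 1).length := by
        intro α h hh
        have h2 := hlen α h hh
        rw [ht, hs, Nat.add_mul, Nat.add_mul] at h2
        omega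
      rcases lt_trichotomy (C.count 0 * s + C.count 1 * t) (A.count 0 * s + A.count 1 * t) with h2 | h2 | h2
      · exact npb_ratio hA hB hC hD hs1 ht1 hX h2
      · refine npb_xy.mono (fun α h hh => ?_)
        by_contra hcon
        have hxy : h 0 ++ h 1 ≠ h 1 ++ h 0 := by
          intro h5
          apply hcon
          show val h [0, 1] = val h [1, 0]
          simpa only [val_cons', val_nil', List.append_nil] using h5
        have heq : val h A ++ (h 2 ++ val h B) = val h C ++ (h 2 ++ val h D) := by
          have h3 : val h (A ++ [2] ++ B) = val h (C ++ [2] ++ D) := hh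
          rw [val_append, val_append, val_append, val_append, val_one'] at h3
          simpa only [List.append_assoc] using h3
        have hr := hX α h hh
        have hl : (val h A).length = (val h C).length := by
          have e1 : s * (val h A).length = (A.count 0 * s + A.count 1 * t) * (h 0).length := by
            rw [length_val h hA, Nat.add_mul, Nat.mul_assoc (A.count 1), hr]
            ring
          have e2 : s * (val h C).length = (C.count 0 * s + C.count 1 * t) * (h 0).length := by
            rw [length_val h hC, Nat.add_mul, Nat.mul_assoc (C.count 1), hr]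
            ring
          rw [← h2, ← e2] at e1
          exact Nat.eq_of_mul_eq_mul_left hs1 e1
        obtain ⟨e3, e4⟩ := List.append_inj heq hl
        have e5 := List.append_cancel_left e4
        have e6 := val_inj h hxy hA hC e3
        have e7 := val_inj h hxy hB hD e5
        rw [e6, e7] at h0
        exact lt_irrefl _ h0
      · have h3 := npb_ratio hC hD hA hB hs1 ht1 (fun α h hh => hX α h hh.symm) h2
        exact h3.symm
    · refine npb_xy.mono (fun α h hh => ?_)
      have h2 := hlen α h hh
      have h3 : (C ++ D).count 1 * (h 1).length ≤ (A ++ B).count 1 * (h 1).length := Nat.mul_le_mul_right _ h1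
      have h4 : ((C ++ D).count 0 + 1) * (h 0).length ≤ (A ++ B).count 0 * (h 0).length :=
        Nat.mul_le_mul_right _ h0
      rw [Nat.add_mul, Nat.one_mul] at h4
      have h5 : h 0 = [] := List.eq_nil_of_length_eq_zero (by omega)
      show val h [0, 1] = val h [1, 0]
      simp only [val_cons', val_nil', h5, List.append_nil, List.nil_append]
  -- the other cases by symmetry
  have hcase : (C ++ D).count 0 < (A ++ B).count 0 ∨ (A ++ B).count 0 < (C ++ D).count 0 ∨
      ((A ++ B).count 0 = (C ++ D).count 0 ∧ (A ++ B).count 1 ≠ (C ++ D).count 1) := by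
    rcases lt_trichotomy ((C ++ D).count 0) ((A ++ B).count 0) with h | h | h
    · exact Or.inl h
    · refine Or.inr (Or.inr ⟨h.symm, fun h1 => ?_⟩)
      obtain ⟨c, hc⟩ := hne
      apply hc
      fin_cases c
      · exact h.symm
      · exact h1
      · show (A ++ B).count 2 = (C ++ D).count 2
        rw [List.count_eq_zero.2 (fun hh => (List.mem_append.1 hh).elim hA hB),
          List.count_eq_zero.2 (fun hh => (List.mem_append.1 hh).elim hC hD)]
    · exact Or.inr (Or.inl h)
  rcases hcase with h | h | ⟨h0, h1⟩
  · exact main hA hB hC hD h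
  · exact (main hC hD hA hB h).symm
  · refine npb_xy.mono (fun α h hh => ?_)
    have h2 : val h (A ++ [2] ++ B) = val h (C ++ [2] ++ D) := hh
    have h3 := congrArg List.length h2
    rw [val_append, val_append, val_append, val_append, val_one'] at h3
    simp only [List.length_append] at h3
    have h4 := length_val h (U := A ++ B) (fun hh => (List.mem_append.1 hh).elim hA hB)
    have h5 := length_val h (U := C ++ D) (fun hh => (List.mem_append.1 hh).elim hC hD)
    rw [val_append, List.length_append] at h4 h5
    rw [h0] at h4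
    have h6 : (A ++ B).count 1 * (h 1).length = (C ++ D).count 1 * (h 1).length := by omega
    have h7 : (h 1).length = 0 := by
      by_contra h8
      exact h1 (Nat.eq_of_mul_eq_mul_right (Nat.pos_of_ne_zero h8) h6)
    have h8 : h 1 = [] := List.eq_nil_of_length_eq_zero h7
    show val h [0, 1] = val h [1, 0]
    simp only [val_cons', val_nil', h8, List.append_nil, List.nil_append]

end Pool.Agent.H70.WE
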