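import Pool.Agent.H70.WB.Fv
import Pool.Agent.H70.WB.Unb
import Pool.Agent.H70.WB.EucG

/-!
# [H70 WB Nc] Balanced first equations `A z B = C z D` for which `C⁻¹ A` and `D B⁻¹` are not conjugate in the free group
-/

set_option autoImplicit false

namespace Pool.Agent.H70.WE

open Pool.Agent.H93.TW

variable {α : Type}

theorem bval_pow (x y : List α) (V : List Bool) (M : ℕ) : bval x y (pow V M) = pow (bval x y V) M := by
  induction M with
  | zero => rfl
  | succ M ih => rw [pow_add', pow_add', bval_append, ih, pow_one'', pow_one'']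

theorem sbt_append (X Y U V : List Bool) : sbt X Y (U ++ V) = sbt X Y U ++ sbt X Y V := by
  unfold sbt
  rw [List.flatMap_append]

theorem count_sbt (X Y U : List Bool) (c : Bool) :
    (sbt X Y U).count c = U.count true * X.count c + U.count false * Y.count c := by
  induction U with
  | nil => simp [sbt]
  | cons b U ih =>
    have h1 : sbt X Y (b :: U) = (if b then X else Y) ++ sbt X Y U := by
      unfold sbt
      rw [List.flatMap_cons]
    rw [h1, List.count_append, ih]
    cases b
    · simp
      ring
    · simp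
      ring

theorem bval_mem (p q : List α) (S : List Bool) : io (bval p q S) ∈ Subgroup.closure {io p, io q} := by
  induction S with
  | nil =>
    rw [bval_nil, io_nil]
    exact Subgroup.one_mem _
  | cons b S ih =>
    rw [bval_cons, io_append]
    refine Subgroup.mul_mem _ ?_ ih
    cases b
    · exact Subgroup.subset_closure (by simp)
    · exact Subgroup.subset_closure (by simp)

theorem length_count (W : List Bool) : W.length = W.count true + W.count false := by
  induction W with
  | nil => rfl
  | cons b W ih =>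
    rw [List.length_cons, ih]
    cases b
    · simp
      omega
    · simp
      omega

theorem conj_formal {h : Fin 3 → List α} {A B C D : List (Fin 3)} (hA : (2 : Fin 3) ∉ A) (hB : (2 : Fin 3) ∉ B)
    (hC : (2 : Fin 3) ∉ C) (hD : (2 : Fin 3) ∉ D) (hbal : ∀ c : Fin 3, (A ++ B).count c = (C ++ D).count c)
    (hxy : h 0 ++ h 1 ≠ h 1 ++ h 0) (hlt : (val h C).length < (val h A).length)
    (heq : val h A ++ h 2 ++ val h B = val h C ++ h 2 ++ val h D) :
    IsConj ((fw C)⁻¹ * fw A) (fw D * (fw B)⁻¹) := by
  have hx0 : 1 ≤ (h 0).length := by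
    rcases Nat.eq_zero_or_pos (h 0).length with h0 | h0
    · exfalso
      apply hxy
      rw [List.eq_nil_of_length_eq_zero h0, List.nil_append, List.append_nil]
    · exact h0
  have hy0 : 1 ≤ (h 1).length := by
    rcases Nat.eq_zero_or_pos (h 1).length with h0 | h0
    · exfalso
      apply hxy
      rw [List.eq_nil_of_length_eq_zero h0, List.nil_append, List.append_nil]
    · exact h0
  have hp : val h C <+: val h A := by
    apply List.prefix_of_prefix_length_le (l₃ := val h A ++ h 2 ++ val h B) _ _ hlt.le
    · rw [heq, List.append_assoc]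
      exact ⟨_, rfl⟩
    · rw [List.append_assoc]
      exact ⟨_, rfl⟩
  obtain ⟨P, hP⟩ := hp
  have heq2 : P ++ h 2 ++ val h B = h 2 ++ val h D := by
    rw [← hP] at heq
    simp only [List.append_assoc] at heq ⊢
    exact List.append_cancel_left heq
  have hq : val h B <:+ val h D := by
    apply List.suffix_of_suffix_length_le (l₃ := h 2 ++ val h D)
    · rw [← heq2]
      exact ⟨_, rfl⟩
    · exact ⟨_, rfl⟩
    · have h1 := congrArg List.length heq2
      rw [List.length_append, List.length_append, List.length_append] at h1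
      omega
  obtain ⟨Q, hQ⟩ := hq
  have heq3 : P ++ h 2 = h 2 ++ Q := by
    rw [← hQ, ← List.append_assoc] at heq2
    exact List.append_cancel_right heq2
  obtain ⟨X, Y, W, s', t', hs', ht', hL⟩ := euc_left_g (h 0).length (h 1).length hx0 hy0 (tob A) (tob C)
  obtain ⟨X', Y', W', s'', t'', hs'', ht'', hR⟩ := euc_right_g s' t' hs' ht' (sbt X Y (tob D)) (sbt X Y (tob B))
  obtain ⟨p, q, hpq, hrat, hx, hy, hPW, clp, clq⟩ := hL α (h 0) (h 1) P hxy (Nat.mul_comm _ _) (by
    rw [← bval_tob h C hC, ← bval_tob h A hA]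
    exact hP)
  obtain ⟨p', q', hpq', -, hx', hy', hQW, clp', clq'⟩ := hR α p q Q hpq hrat (by
    rw [← bval_sbt, ← bval_sbt, ← hx, ← hy, ← bval_tob h B hB, ← bval_tob h D hD]
    exact hQ)
  obtain ⟨W2, hW2⟩ : ∃ W2, W2 = sbt X' Y' W := ⟨_, rfl⟩
  obtain ⟨X2, hX2⟩ : ∃ X2, X2 = sbt X' Y' X := ⟨_, rfl⟩
  obtain ⟨Y2, hY2⟩ : ∃ Y2, Y2 = sbt X' Y' Y := ⟨_, rfl⟩
  have hPW' : P = bval p' q' W2 := by
    rw [hPW, hx', hy', bval_sbt, hW2]
  have hx2 : h 0 = bval p' q' X2 := by
    rw [hX2, ← bval_sbt, ← hx', ← hy']
    exact hx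
  have hy2 : h 1 = bval p' q' Y2 := by
    rw [hY2, ← bval_sbt, ← hx', ← hy']
    exact hy
  have hwl : sbt X2 Y2 (tob C) ++ W2 = sbt X2 Y2 (tob A) := by
    apply bval_inj hpq'
    rw [bval_append, ← bval_sbt, ← bval_sbt, ← hx2, ← hy2, ← hPW', ← bval_tob h C hC, ← bval_tob h A hA]
    exact hP
  have hwr : W' ++ sbt X2 Y2 (tob B) = sbt X2 Y2 (tob D) := by
    apply bval_inj hpq'
    rw [bval_append, ← bval_sbt, ← bval_sbt, ← hx2, ← hy2, ← hQW, ← bval_tob h B hB, ← bval_tob h D hD]
    exact hQ
  have hcnt : ∀ c : Bool, W2.count c = W'.count c := by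
    intro c
    have e1 := congrArg (List.count c) hwl
    have e2 := congrArg (List.count c) hwr
    rw [List.count_append, count_sbt, count_sbt] at e1 e2
    rw [(tob_count hC).1, (tob_count hC).2, (tob_count hA).1, (tob_count hA).2] at e1
    rw [(tob_count hB).1, (tob_count hB).2, (tob_count hD).1, (tob_count hD).2] at e2
    have b0 := hbal 0
    have b1 := hbal 1
    rw [List.count_append, List.count_append] at b0 b1
    have m0 := congrArg (fun n => n * X2.count c) b0
    have m1 := congrArg (fun n => n * Y2.count c) b1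
    simp only [Nat.add_mul] at m0 m1
    omega
  have hPne : P ≠ [] := by
    rintro rfl
    rw [List.append_nil] at hP
    rw [hP] at hlt
    exact lt_irrefl _ hlt
  have hlPQ : P.length = Q.length := by
    have h1 := congrArg List.length heq3
    rw [List.length_append, List.length_append] at h1
    omega
  have hW2ne : W2 ≠ [] := by
    intro h0
    rw [h0] at hPW'
    exact hPne hPW'
  have hW'ne : W' ≠ [] := by
    intro h0
    rw [h0] at hQW
    have h1 : Q = [] := hQW
    rw [h1] at hlPQ
    exact hPne (List.eq_nil_of_length_eq_zero hlPQ)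
  obtain ⟨R, m, hm, hRm, hR1⟩ := prim_root _ W2 le_rfl hW2ne
  obtain ⟨R', m', hm', hRm', hR1'⟩ := prim_root _ W' le_rfl hW'ne
  have hcc := conj_code (z := h 2) hpq' hR1 hR1' hm hm' (by
    rw [← bval_pow, ← bval_pow, ← hRm, ← hRm', ← hPW', ← hQW]
    exact heq3)
  have hrot : ∃ S T : List Bool, W2 = S ++ T ∧ W' = T ++ S := by
    rcases hcc with ⟨S, T, h1, h2⟩ | ⟨c, d, hcd, h1, h2⟩
    · have hmm : m = m' := by
        have e1 : W2.length = W'.length := by
          rw [length_count, length_count, hcnt true, hcnt false]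
        rw [hRm, hRm', pow_length, pow_length, h1, h2, List.length_append, List.length_append,
          Nat.add_comm T.length] at e1
        have e2 : 0 < S.length + T.length := by
          have h3 := List.length_pos_iff.2 (prim_ne hR1)
          rw [h1, List.length_append] at h3
          exact h3
        exact Nat.eq_of_mul_eq_mul_right e2 e1
      subst hmm
      obtain ⟨M, rfl⟩ : ∃ M, m = M + 1 := ⟨m - 1, by omega⟩
      have hconj : ∀ N : ℕ, pow (T ++ S) (N + 1) = T ++ pow (S ++ T) N ++ S := by
        intro N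
        induction N with
        | zero => rw [pow_one'', pow_zero', List.append_nil]
        | succ N ih =>
          rw [pow_add' _ (N + 1) 1, ih, pow_one'', pow_add' _ N 1, pow_one'']
          simp only [List.append_assoc]
      refine ⟨S, T ++ pow (S ++ T) M, ?_, ?_⟩
      · rw [hRm, h1, Nat.add_comm M 1, pow_add', pow_one'', List.append_assoc]
      · rw [hRm', h2, hconj]
    · exfalso
      have e1 := hcnt d
      rw [hRm, hRm', h1, h2] at e1
      have e2 : ∀ (c : Bool) (n : ℕ), pow [c] n = List.replicate n c := by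
        intro c n
        unfold pow
        rw [List.flatten_replicate_singleton]
      rw [e2, e2, List.count_replicate, List.count_replicate] at e1
      have h3 : (c == d) = false := by simpa using hcd
      have h4 : (d == d) = true := by simp
      rw [h3, h4] at e1
      simp at e1
      omega
  obtain ⟨S, T, hS, hT⟩ := hrot
  -- the conjugator is in the range of `phi h`
  have hcl1 : Subgroup.closure {io p', io q'} ≤ Subgroup.closure {io p, io q} := by
    rw [Subgroup.closure_le]
    rintro g (rfl | rfl)
    · exact clp'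
    · exact clq'
  have hcl2 : Subgroup.closure {io p, io q} ≤ Subgroup.closure {io (h 0), io (h 1)} := by
    rw [Subgroup.closure_le]
    rintro g (rfl | rfl)
    · exact clp
    · exact clq
  have hcl3 : Subgroup.closure {io (h 0), io (h 1)} ≤ (phi h).range := by
    rw [Subgroup.closure_le]
    rintro g (rfl | rfl)
    · exact ⟨FreeGroup.of 0, phi_0 h⟩
    · exact ⟨FreeGroup.of 1, phi_1 h⟩
  obtain ⟨g, hg⟩ := hcl3 (hcl2 (hcl1 (bval_mem p' q' S)))
  have hPf : phi h ((fw C)⁻¹ * fw A) = io P := by
    rw [map_mul, map_inv, phi_fw hC, phi_fw hA, ← hP, io_append]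
    group
  have hQf : phi h (fw D * (fw B)⁻¹) = io Q := by
    rw [map_mul, map_inv, phi_fw hB, phi_fw hD, ← hQ, io_append]
    group
  rw [isConj_iff]
  refine ⟨g⁻¹, ?_⟩
  apply phi_inj hxy
  rw [map_mul, map_mul, map_inv, inv_inv, hPf, hQf, hg, hPW', hQW, hS, hT, bval_append, bval_append, io_append,
    io_append]
  group

theorem npb_nc {A B C D : List (Fin 3)} (hA : (2 : Fin 3) ∉ A) (hB : (2 : Fin 3) ∉ B)
    (hC : (2 : Fin 3) ∉ C) (hD : (2 : Fin 3) ∉ D) (hbal : ∀ c : Fin 3, (A ++ B).count c = (C ++ D).count c)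
    (hnc : ¬ IsConj ((fw C)⁻¹ * fw A) (fw D * (fw B)⁻¹)) : NPB (A ++ [2] ++ B, C ++ [2] ++ D) := by
  refine npb_xy.mono (fun α h hh => ?_)
  by_contra hcon
  have hxy : h 0 ++ h 1 ≠ h 1 ++ h 0 := by
    intro h5
    apply hcon
    show val h [0, 1] = val h [1, 0]
    simpa only [val_cons', val_nil', List.append_nil] using h5
  have heq : val h A ++ h 2 ++ val h B = val h C ++ h 2 ++ val h D := by
    have h3 : val h (A ++ [2] ++ B) = val h (C ++ [2] ++ D) := hh
    rw [val_append, val_append, val_append, val_append, val_one'] at h3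
    exact h3
  rcases lt_trichotomy (val h C).length (val h A).length with h1 | h1 | h1
  · exact hnc (conj_formal hA hB hC hD hbal hxy h1 heq)
  · rw [List.append_assoc, List.append_assoc] at heq
    obtain ⟨e3, e4⟩ := List.append_inj heq h1.symm
    have e6 := val_inj h hxy hA hC e3
    have e7 := val_inj h hxy hB hD (List.append_cancel_left e4)
    apply hnc
    rw [e6, e7]
    simp
  · have h2 := conj_formal hC hD hA hB (fun c => (hbal c).symm) hxy h1 heq.symm
    apply hnc
    rw [isConj_iff] at h2 ⊢
    obtain ⟨g, hg⟩ := h2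
    refine ⟨g, ?_⟩
    have h3 := congrArg (fun u => u⁻¹) hg
    simp only [mul_inv_rev, inv_inv] at h3
    rw [← h3]
    group

end Pool.Agent.H70.WE
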