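import Pool.Agent.H70.WB.Fin2

/-!
# [H70 WB Npj] At most three non periodic witnesses after `A z = z D`; substitutions
-/

set_option autoImplicit false

namespace Pool.Agent.H70.WE

theorem per_val {α : Type} {g : Fin 3 → List α} {w : List α} (hg : ∀ c : Fin 3, ∃ n : ℕ, g c = pow w n)
    (U : List (Fin 3)) : ∃ n : ℕ, val g U = pow w n := by
  induction U with
  | nil => exact ⟨0, rfl⟩
  | cons c U ih =>
    obtain ⟨n, hn⟩ := ih
    obtain ⟨m, hm⟩ := hg c
    exact ⟨m + n, by rw [val_cons', hn, hm, pow_add']⟩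

/-- transfer along a substitution of the unknowns -/
theorem NPB.sub {F F' : List (Fin 3) × List (Fin 3)} (hF : NPB F) (τ : Fin 3 → List (Fin 3))
    (h' : ∀ (α : Type) (h : Fin 3 → List α), Solves h F' → ¬ Per h →
      ∃ g : Fin 3 → List α, Solves g F ∧ ∀ c, h c = val g (τ c)) : NPB F' := by
  intro α E h h1 h2 h3 h4
  choose g hg hτ using fun i => h' α (h i) (h2 i) (h1 i)
  have hv : ∀ (i : Fin 4) (U : List (Fin 3)), val (h i) U = val (g i) (U.flatMap τ) := by
    intro i U
    unfold val
    rw [List.flatMap_assoc]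
    congr 1
    funext c
    exact hτ i c
  refine hF α (fun j => ((E j).1.flatMap τ, (E j).2.flatMap τ)) g ?_ hg ?_ ?_
  · rintro i ⟨w, hw⟩
    apply h1 i
    refine ⟨w, fun c => ?_⟩
    rw [hτ i c]
    exact per_val hw (τ c)
  · intro i j hij
    show val (g i) ((E j).1.flatMap τ) = val (g i) ((E j).2.flatMap τ)
    rw [← hv, ← hv]
    exact h3 i j hij
  · intro i hs
    apply h4 i
    show val (h i) (E i).1 = val (h i) (E i).2
    rw [hv, hv]
    exact hs

theorem npb_root {C C1 C2 : List (Fin 3)} (hC2 : (2 : Fin 3) ∉ C) (hC : Prim C) (hC12 : C = C1 ++ C2) :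
    NPB (C ++ [2], [2] ++ C2 ++ C1) := by
  have hCne : C ≠ [] := prim_ne hC
  have hn1 : (2 : Fin 3) ∉ C1 := fun hh => hC2 (hC12 ▸ List.mem_append_left _ hh)
  have hcnt : ∀ c : Fin 3, (C2 ++ C1).count c = C.count c := by
    intro c
    rw [hC12, List.count_append, Nat.add_comm, ← List.count_append]
  by_cases hsp : ∃ c : Fin 3, c ≠ 2 ∧ C.count c ≤ 1
  · obtain ⟨c, hc, hcc⟩ := hsp
    have hc2 : ([2] : List (Fin 3)).count c = 0 := by
      rw [List.count_eq_zero]
      simpa using hc
    refine npb_class _ c 2 hc ?_ ?_ ?_ ?_ ?_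
    · intro he
      obtain ⟨d, C', hd⟩ := List.exists_cons_of_ne_nil hCne
      have he' : C ++ [2] = [2] ++ C2 ++ C1 := he
      rw [hd, List.append_assoc, List.cons_append, List.singleton_append, List.cons_eq_cons] at he'
      exact hC2 (by rw [hd, he'.1]; exact List.mem_cons_self)
    · show (C ++ [2]).count c ≤ 1
      rw [List.count_append, hc2]
      omega
    · show (C ++ [2]).count 2 ≤ 1
      rw [List.count_append, List.count_eq_zero.2 hC2]
      simp
    · show ([2] ++ C2 ++ C1).count c ≤ 1
      rw [List.append_assoc, List.count_append, hc2, hcnt]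
      omega
    · show ([2] ++ C2 ++ C1).count 2 ≤ 1
      rw [List.append_assoc, List.count_append, hcnt, List.count_eq_zero.2 hC2]
      simp
  · push Not at hsp
    have h0 := hsp 0 (by decide)
    have h1 := hsp 1 (by decide)
    have hnQ : (2 : Fin 3) ∉ (if C2 = [] then [] else C1) := by
      split_ifs
      · exact List.not_mem_nil
      · exact hn1
    intro α E h k1 k2 k3 k4
    have hex : ∀ i : Fin 4, ∃ t : ℕ, Fam C (if C2 = [] then [] else C1) (h i) t := by
      intro i
      have h2 := fam_rt hC2 (List.count_pos_iff.1 (by omega)) (List.count_pos_iff.1 (by omega)) hC12 (h i) (k1 i)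
        (by
          intro hxy w k hk
          rw [bval_tob (h i) C hC2]
          obtain ⟨c1, c2⟩ := tob_count hC2
          exact bl (h i 0) (h i 1) hxy (tob C) (tob_prim hC2 hC) (by omega) (by omega) w k hk) (k2 i)
      obtain ⟨h3, t, h4⟩ := h2
      exact ⟨t, h3, h4⟩
    choose t ht using hex
    exact fam_four hC2 hnQ E h t ht k3 k4

theorem npb_conj {A D : List (Fin 3)} (hA2 : (2 : Fin 3) ∉ A) (hD2 : (2 : Fin 3) ∉ D)
    (hAD : A ++ D ≠ []) : NPB (A ++ [2], [2] ++ D) := by
  have hr1 : ∀ (α : Type) (h : Fin 3 → List α), Solves h (A ++ [2], [2] ++ D) →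
      val h A ++ h 2 = h 2 ++ val h D := by
    intro α h hh
    have h1 : val h (A ++ [2]) = val h ([2] ++ D) := hh
    rw [val_append, val_append, val_one'] at h1
    exact h1
  have hlen : ∀ (α : Type) (h : Fin 3 → List α), Solves h (A ++ [2], [2] ++ D) →
      (val h A).length = (val h D).length := by
    intro α h hh
    have h1 := congrArg List.length (hr1 α h hh)
    rw [List.length_append, List.length_append] at h1
    omega
  by_cases hA : A = []
  · have hD : D ≠ [] := by
      intro hD
      apply hAD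
      rw [hA, hD]
      rfl
    refine npb_xy.mono (fun α h hh => xy_of_nil hD2 hD ?_)
    apply List.eq_nil_of_length_eq_zero
    rw [← hlen α h hh, hA]
    rfl
  by_cases hD : D = []
  · refine npb_xy.mono (fun α h hh => xy_of_nil hA2 hA ?_)
    apply List.eq_nil_of_length_eq_zero
    rw [hlen α h hh, hD]
    rfl
  obtain ⟨C, m, hm, hAC, hC⟩ := prim_root _ A le_rfl hA
  obtain ⟨C', m', hm', hDC, hC'⟩ := prim_root _ D le_rfl hD
  have hC2 : (2 : Fin 3) ∉ C := fun hh => hA2 (by rw [hAC]; exact mem_pow (by omega) hh)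
  have hC'2 : (2 : Fin 3) ∉ C' := fun hh => hD2 (by rw [hDC]; exact mem_pow (by omega) hh)
  have hrep : ∀ (c : Fin 3) (M : ℕ), pow [c] M = List.replicate M c := by
    intro c M
    unfold pow
    rw [List.flatten_replicate_singleton]
  -- conjugate words
  by_cases hcase : Rot C C' ∧ m = m'
  · obtain ⟨⟨C1, C2, h1, h2⟩, h3⟩ := hcase
    subst h3
    refine (npb_root hC2 hC h1).mono (fun α h hh => ?_)
    have h4 := hr1 α h hh
    rw [hAC, hDC, h2, val_pow, val_pow] at h4
    show val h (C ++ [2]) = val h ([2] ++ C2 ++ C1)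
    rw [List.append_assoc, val_append, val_append h [2], val_one']
    refine root_conj hm _ _ _ _ le_rfl ?_ h4
    rw [h1, val_append, val_append, List.length_append, List.length_append, Nat.add_comm]
  -- two powers of letters
  by_cases h01 : C = [0] ∧ C' = [1]
  · rw [hAC, hDC, h01.1, h01.2, hrep, hrep]
    exact npb_xm m m' hm hm'
  by_cases h10 : C = [1] ∧ C' = [0]
  · rw [hAC, hDC, h10.1, h10.2, hrep, hrep]
    exact npb_xm' m m' hm hm'
  -- otherwise `x y = y x`
  refine npb_xy.mono (fun α h hh => ?_)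
  by_contra hxy
  have hxy' : h 0 ++ h 1 ≠ h 1 ++ h 0 := by
    intro h5
    apply hxy
    show val h [0, 1] = val h [1, 0]
    simpa only [val_cons', val_nil', List.append_nil] using h5
  have h4 := hr1 α h hh
  have hl4 := hlen α h hh
  rw [hAC, hDC, val_pow, val_pow] at h4 hl4
  rw [bval_tob h C hC2, bval_tob h C' hC'2] at h4
  rcases conj_code hxy' (tob_prim hC2 hC) (tob_prim hC'2 hC') hm hm' h4 with h5 | ⟨c, d, hcd, h5, h6⟩
  · have h7 := tob_rot hC2 hC'2 h5
    apply hcase
    refine ⟨h7, ?_⟩
    obtain ⟨C1, C2, h8, h9⟩ := h7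
    have h10 : (val h C).length = (val h C').length := by
      rw [h8, h9, val_append, val_append, List.length_append, List.length_append, Nat.add_comm]
    rw [pow_length, pow_length, ← h10] at hl4
    have h11 : 0 < (val h C).length := by
      rcases Nat.eq_zero_or_pos (val h C).length with h0 | h0
      · exact absurd (xy_of_nil hC2 (prim_ne hC) (List.eq_nil_of_length_eq_zero h0)) hxy
      · exact h0
    exact Nat.eq_of_mul_eq_mul_right h11 hl4
  · have e1 := tob_single hC2 h5
    have e2 := tob_single hC'2 h6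
    cases c <;> cases d
    · exact hcd rfl
    · exact h10 ⟨by simpa using e1, by simpa using e2⟩
    · exact h01 ⟨by simpa using e1, by simpa using e2⟩
    · exact hcd rfl

end Pool.Agent.H70.WE
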