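import Pool.Agent.H70.WE.Typ

/-!
# [H70 WB Rts] Roots of positive words in a free group are positive

`root_pos`: `g = c g0 c⁻¹` with `g0` cyclically reduced (Mathlib/GroupTheory/FreeGroup/CyclicallyReduced.lean: `FreeGroup.reduceCyclically`, `IsCyclicallyReduced`, powers of cyclically reduced
words are reduced), so the reduced word of `g^m` is `c g0 ⋯ g0 c⁻¹` (`m ≥ 1`, `g ≠ 1`); it is positive (`io w`, H93/TH/FG.lean: `io_mk`, `pos_red`, copy them if they are private), so `c = []` (a letter of `c`
and its inverse both occur) and `g0` is positive. A word in `(a, true)` is `io` of a list.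
Other way: `g` commutes with `io w`; any proof is fine.
-/

set_option autoImplicit false

namespace Pool.Agent.H70.WE

open Pool.Agent.H93.TW

private theorem ioR_mk {α : Type} (w : List α) : io w = FreeGroup.mk (w.map fun c => (c, true)) := by
  induction w with
  | nil => rfl
  | cons c w ih =>
    rw [io_cons, ih, List.map_cons]
    rw [FreeGroup.of, FreeGroup.mul_mk]
    rfl

private theorem posR_red {α : Type} (w : List α) :
    FreeGroup.IsReduced (w.map fun c => (c, true)) := by
  induction w with
  | nil => exact List.IsChain.nil
  | cons c w ih =>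
    cases w with
    | nil => exact List.IsChain.singleton _
    | cons d w =>
      rw [List.map_cons, List.map_cons]
      exact List.IsChain.cons_cons (fun _ => rfl) ih

/-- a list of positive letters is positive -/
private theorem posR_list {α : Type} (L : List (α × Bool)) (h : ∀ x ∈ L, x.2 = true) :
    L = (L.map Prod.fst).map fun c => (c, true) := by
  induction L with
  | nil => rfl
  | cons x L ih =>
    rw [List.map_cons, List.map_cons, ← ih fun y hy => h y (List.mem_cons_of_mem _ hy)]
    congr 1
    exact Prod.ext rfl (h x List.mem_cons_self)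

theorem root_pos {α : Type} {g : FreeGroup α} {w : List α} {m : ℕ} (hm : 1 ≤ m) (h : g ^ m = io w) :
    ∃ v : List α, g = io v := by
  classical
  have hm0 : m ≠ 0 := by omega
  have h1 := congrArg FreeGroup.toWord h
  rw [FreeGroup.toWord_pow, ioR_mk, FreeGroup.toWord_mk,
    (FreeGroup.isReduced_iff_reduce_eq).1 (posR_red w),
    FreeGroup.reduceCyclically.reduce_flatten_replicate FreeGroup.isReduced_toWord, if_neg hm0] at h1
  have hpos : ∀ x ∈ FreeGroup.reduceCyclically.conjugator g.toWord ++
      (List.replicate m (FreeGroup.reduceCyclically g.toWord)).flatten ++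
      FreeGroup.invRev (FreeGroup.reduceCyclically.conjugator g.toWord), x.2 = true := by
    intro x hx
    rw [h1, List.mem_map] at hx
    obtain ⟨c, -, rfl⟩ := hx
    rfl
  have hc : FreeGroup.reduceCyclically.conjugator g.toWord = [] := by
    rw [List.eq_nil_iff_forall_not_mem]
    intro x hx
    have h2 := hpos x (by simp [hx])
    have h3 : (x.1, !x.2) ∈ FreeGroup.invRev (FreeGroup.reduceCyclically.conjugator g.toWord) := by
      unfold FreeGroup.invRev
      rw [List.mem_reverse, List.mem_map]
      exact ⟨x, hx, rfl⟩
    have h4 := hpos _ (List.mem_append_right _ h3)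
    simp only at h4
    rw [h2] at h4
    exact absurd h4 (by decide)
  have hL : FreeGroup.reduceCyclically g.toWord = g.toWord := by
    have h2 := FreeGroup.reduceCyclically.conj_conjugator_reduceCyclically g.toWord
    rw [hc] at h2
    simpa using h2
  have hpos2 : ∀ x ∈ g.toWord, x.2 = true := by
    intro x hx
    refine hpos x ?_
    refine List.mem_append_left _ (List.mem_append_right _ ?_)
    rw [hL, List.mem_flatten]
    exact ⟨g.toWord, List.mem_replicate.2 ⟨hm0, rfl⟩, hx⟩
  refine ⟨g.toWord.map Prod.fst, ?_⟩
  rw [ioR_mk, ← posR_list _ hpos2, FreeGroup.mk_toWord]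

end Pool.Agent.H70.WE
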