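import Pool.Agent.H70.WB.Fv

/-!
# [H70 WB Tw] First equations `A (G z H) = (G z H) D`, `A, D` conjugate
-/

set_option autoImplicit false

namespace Pool.Agent.H70.WE

open Pool.Agent.H93.TW

theorem npb_tw_root {C C1 C2 G H : List (Fin 3)} (hC2 : (2 : Fin 3) ∉ C) (hG : (2 : Fin 3) ∉ G)
    (hH : (2 : Fin 3) ∉ H) (hC : Prim C) (hC12 : C = C1 ++ C2) (h0 : 2 ≤ C.count 0) (h1 : 2 ≤ C.count 1) :
    NPB (C ++ (G ++ [2] ++ H), (G ++ [2] ++ H) ++ (C2 ++ C1)) := by
  intro α E h k1 k2 k3 k4
  have hn1 : (2 : Fin 3) ∉ C1 := fun hh => hC2 (hC12 ▸ List.mem_append_left _ hh)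
  have hn2 : (2 : Fin 3) ∉ C2 := fun hh => hC2 (hC12 ▸ List.mem_append_right _ hh)
  set Q : List (Fin 3) := if C2 = [] then [] else C1 with hQ
  have hnQ : (2 : Fin 3) ∉ Q := by
    rw [hQ]
    split_ifs
    · exact List.not_mem_nil
    · exact hn1
  have hm0 : (0 : Fin 3) ∈ C := List.count_pos_iff.1 (by omega)
  have hm1 : (1 : Fin 3) ∈ C := List.count_pos_iff.1 (by omega)
  have heq : ∀ i : Fin 4, val (h i) C ++ (val (h i) G ++ h i 2 ++ val (h i) H) =
      (val (h i) G ++ h i 2 ++ val (h i) H) ++ (val (h i) C2 ++ val (h i) C1) := by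
    intro i
    have h2 : val (h i) (C ++ (G ++ [2] ++ H)) = val (h i) ((G ++ [2] ++ H) ++ (C2 ++ C1)) := k2 i
    simpa only [val_append, val_one'] using h2
  have key : ∀ i : Fin 4, (h i 0 ++ h i 1 ≠ h i 1 ++ h i 0) ∧ ∃ t : ℕ,
      val (h i) G ++ h i 2 ++ val (h i) H = pow (val (h i) C) t ++ val (h i) Q := by
    intro i
    set z' : List α := val (h i) G ++ h i 2 ++ val (h i) H with hz'
    set g : Fin 3 → List α := ![h i 0, h i 1, z'] with hg
    have hgC : ∀ U : List (Fin 3), (2 : Fin 3) ∉ U → val g U = val (h i) U := fun U hU =>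
      val_congr hU rfl rfl
    have hng : ¬ Per g := by
      rintro ⟨w, hw⟩
      apply k1 i
      have hw01 : ∀ c : Fin 3, c ≠ 2 → ∃ n : ℕ, h i c = pow w n := by
        intro c hc
        have h3 := hw c
        fin_cases c
        · exact h3
        · exact h3
        · exact absurd rfl hc
      have hpw : ∀ U : List (Fin 3), (2 : Fin 3) ∉ U → ∃ n : ℕ, val (h i) U = pow w n := by
        intro U hU
        rw [← hgC U hU]
        exact per_val (fun c => hw c) U
      obtain ⟨a, ha⟩ := hpw G hG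
      obtain ⟨b, hb⟩ := hpw H hH
      obtain ⟨c, hc⟩ := hw 2
      have hc' : val (h i) G ++ h i 2 ++ val (h i) H = pow w c := hc
      rw [ha, hb] at hc'
      obtain ⟨n, hn⟩ := mid_pow hc'
      refine ⟨w, fun d => ?_⟩
      by_cases hd : d = 2
      · subst hd
        exact ⟨n, hn⟩
      · exact hw01 d hd
    have hsg : Solves g (C ++ [2], [2] ++ C2 ++ C1) := by
      show val g (C ++ [2]) = val g ([2] ++ C2 ++ C1)
      rw [val_append, val_append, val_append, val_one', hgC C hC2, hgC C1 hn1, hgC C2 hn2, List.append_assoc]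
      exact heq i
    have h5 := fam_rt hC2 hm0 hm1 hC12 g hng (by
      intro hxy w k hk
      rw [bval_tob g C hC2]
      obtain ⟨c1, c2⟩ := tob_count hC2
      exact bl (g 0) (g 1) hxy (tob C) (tob_prim hC2 hC) (by omega) (by omega) w k hk) hsg
    obtain ⟨h6, t, h7⟩ := h5
    refine ⟨h6, t, ?_⟩
    rw [hgC C hC2, hgC _ hnQ] at h7
    exact h7
  choose hxy t ht using key
  -- the formal value of `z`
  set ζ : Fin 4 → FreeGroup (Fin 2) := fun i => (fw G)⁻¹ * (fw C ^ t i * fw Q) * (fw H)⁻¹ with hζ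
  have hphi : ∀ i : Fin 4, phi (h i) (ζ i) = io (h i 2) := by
    intro i
    have h2 := congrArg io (ht i)
    rw [io_append, io_append, io_append, io_pow] at h2
    show phi (h i) ((fw G)⁻¹ * (fw C ^ t i * fw Q) * (fw H)⁻¹) = _
    rw [map_mul, map_mul, map_mul, map_inv, map_inv, map_pow, phi_fw hG, phi_fw hH, phi_fw hC2, phi_fw hnQ, ← h2]
    group
  obtain ⟨i0, hi0⟩ : ∃ i0 : Fin 4, ∀ i, t i0 ≤ t i := Finite.exists_min t
  -- conjugate of `C`
  have hv : ∃ v : List α, val (h i0) C ++ val (h i0) G = val (h i0) G ++ v := by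
    have h2 : val (h i0) G <+: val (h i0) C ++ val (h i0) G := by
      apply List.prefix_of_prefix_length_le
        (l₃ := val (h i0) C ++ (val (h i0) G ++ h i0 2 ++ val (h i0) H))
      · rw [heq i0]
        simp only [List.append_assoc]
        exact ⟨_, rfl⟩
      · simp only [← List.append_assoc]
        rw [List.append_assoc (val (h i0) C ++ val (h i0) G)]
        exact ⟨_, rfl⟩
      · rw [List.length_append]
        omega
    obtain ⟨v, hv⟩ := h2
    exact ⟨v, hv.symm⟩
  obtain ⟨v, hv⟩ := hv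
  set e : Fin 4 → ℕ := fun i => t i - t i0 with he
  set g : Fin 4 → Fin 3 → List α := fun i => ![h i0 0, h i0 1, pow v (e i) ++ h i0 2] with hg
  have hphi' : ∀ i : Fin 4, phi (g i) (ζ i) = io (g i 2) := by
    intro i
    have hp : phi (g i) = phi (h i0) := rfl
    have h2 := congrArg io (ht i0)
    rw [io_append, io_append, io_append, io_pow] at h2
    have h3 := congrArg io hv
    rw [io_append, io_append] at h3
    have h4 : io v = (io (val (h i0) G))⁻¹ * io (val (h i0) C) * io (val (h i0) G) := by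
      rw [mul_assoc, h3]
      group
    have h5 : t i = e i + t i0 := by
      show t i = t i - t i0 + t i0
      have := hi0 i
      omega
    show phi (g i) ((fw G)⁻¹ * (fw C ^ t i * fw Q) * (fw H)⁻¹) = io (pow v (e i) ++ h i0 2)
    rw [hp, map_mul, map_mul, map_mul, map_inv, map_inv, map_pow, phi_fw hG, phi_fw hH, phi_fw hC2, phi_fw hnQ,
      io_append, io_pow, h4]
    have h6 : io (h i0 2) = (io (val (h i0) G))⁻¹ * (io (val (h i0) C) ^ t i0 * io (val (h i0) Q)) *
        (io (val (h i0) H))⁻¹ := by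
      rw [← h2]
      group
    have h7 : ∀ n : ℕ, ((io (val (h i0) G))⁻¹ * io (val (h i0) C) * io (val (h i0) G)) ^ n =
        (io (val (h i0) G))⁻¹ * io (val (h i0) C) ^ n * io (val (h i0) G) := by
      intro n
      induction n with
      | zero => simp
      | succ n ih =>
        rw [pow_succ, ih, pow_succ]
        group
    rw [h6, h7, h5, pow_add]
    group
  have hsol : ∀ (i : Fin 4) (F : List (Fin 3) × List (Fin 3)), Solves (g i) F ↔ Solves (h i) F := by
    intro i F
    rw [solves_phi (hxy i) (hphi i), solves_phi (h := g i) (hxy i0) (hphi' i)]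
  exact same_xy (e := e) E (fun i j hij => (hsol i (E j)).2 (k3 i j hij)) (fun i hs => k4 i ((hsol i (E i)).1 hs))

/-- `A` is not a power of a word in which `x` or `y` occurs at most once -/
def Rich (A : List (Fin 3)) : Prop := ∀ (w : List (Fin 3)) (m : ℕ), A = pow w m → 2 ≤ w.count 0 ∧ 2 ≤ w.count 1

theorem npb_tw {A U V G H : List (Fin 3)} (hA2 : (2 : Fin 3) ∉ A) (hG : (2 : Fin 3) ∉ G) (hH : (2 : Fin 3) ∉ H)
    (hUV : A = U ++ V) (hR : Rich A) : NPB (A ++ (G ++ [2] ++ H), (G ++ [2] ++ H) ++ (V ++ U)) := by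
  have hA : A ≠ [] := by
    intro h0
    have := (hR [] 0 (by rw [h0]; rfl)).1
    simp at this
  obtain ⟨C, m, hm, hAC, hC⟩ := prim_root _ A le_rfl hA
  obtain ⟨C1, C2, hC12, hVU⟩ := rot_pow C m hm _ U V le_rfl (hUV ▸ hAC)
  have hC2 : (2 : Fin 3) ∉ C := fun hh => hA2 (by rw [hAC]; exact mem_pow (by omega) hh)
  have hcnt := hR C m hAC
  refine (npb_tw_root hC2 hG hH hC hC12 hcnt.1 hcnt.2).mono (fun α h hh => ?_)
  have h1 : val h (A ++ (G ++ [2] ++ H)) = val h ((G ++ [2] ++ H) ++ (V ++ U)) := hh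
  rw [val_append, val_append h (G ++ [2] ++ H), hVU, hAC, val_pow, val_pow] at h1
  show val h (C ++ (G ++ [2] ++ H)) = val h ((G ++ [2] ++ H) ++ (C2 ++ C1))
  rw [val_append, val_append h (G ++ [2] ++ H)]
  refine root_conj hm _ _ _ _ le_rfl ?_ h1
  rw [hC12, val_append, val_append, List.length_append, List.length_append, Nat.add_comm]

end Pool.Agent.H70.WE
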