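import Pool.Agent.H70.WB.Nc
import Pool.Agent.H70.WB.Tw
import Pool.Agent.H70.WB.Cyc
import Pool.Agent.H70.WB.Rts

/-!
# [H70 WB Nu] Balanced first equations `A z B = C z D`, `C⁻¹ A` not a power of a basis element of the free group
-/

set_option autoImplicit false

namespace Pool.Agent.H70.WE

open Pool.Agent.H93.TW

variable {α : Type}

/-- the data of a solution with `x y ≠ y x` and `C` shorter than `A` -/
theorem type_data {h : Fin 3 → List α} {A B C D : List (Fin 3)} (hA : (2 : Fin 3) ∉ A) (hB : (2 : Fin 3) ∉ B)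
    (hC : (2 : Fin 3) ∉ C) (hD : (2 : Fin 3) ∉ D) (hbal : ∀ c : Fin 3, (A ++ B).count c = (C ++ D).count c)
    (hxy : h 0 ++ h 1 ≠ h 1 ++ h 0) (hlt : (val h C).length < (val h A).length)
    (heq : val h A ++ h 2 ++ val h B = val h C ++ h 2 ++ val h D) :
    ∃ (p q P Q : List α) (X2 Y2 S T : List Bool) (m : ℕ), p ++ q ≠ q ++ p ∧ 1 ≤ m ∧ Prim (S ++ T) ∧
      h 0 = bval p q X2 ∧ h 1 = bval p q Y2 ∧ P = bval p q (pow (S ++ T) m) ∧ Q = bval p q (pow (T ++ S) m) ∧
      val h C ++ P = val h A ∧ P ++ h 2 = h 2 ++ Q ∧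
      io p ∈ Subgroup.closure {io (h 0), io (h 1)} ∧ io q ∈ Subgroup.closure {io (h 0), io (h 1)} := by
  have hx0 : 1 ≤ (h 0).length := by
    rcases Nat.eq_zero_or_pos (h 0).length with h0 | h0
    · exfalso
      apply hxy
      rw [List.eq_nil_of_length_eq_zero h0, List.nil_append, List.append_nil]
    · exact h0
  have hy0 : 1 ≤ (h 1).length := by
    rcases Nat.eq_zero_or_pos (h 1).length with h0 | h0
    · exfalso
      apply hxy
      rw [List.eq_nil_of_length_eq_zero h0, List.nil_append, List.append_nil]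
    · exact h0
  have hp : val h C <+: val h A := by
    apply List.prefix_of_prefix_length_le (l₃ := val h A ++ h 2 ++ val h B) _ _ hlt.le
    · rw [heq, List.append_assoc]
      exact ⟨_, rfl⟩
    · rw [List.append_assoc]
      exact ⟨_, rfl⟩
  obtain ⟨P, hP⟩ := hp
  have heq2 : P ++ h 2 ++ val h B = h 2 ++ val h D := by
    rw [← hP] at heq
    simp only [List.append_assoc] at heq ⊢
    exact List.append_cancel_left heq
  have hq : val h B <:+ val h D := by
    apply List.suffix_of_suffix_length_le (l₃ := h 2 ++ val h D)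
    · rw [← heq2]
      exact ⟨_, rfl⟩
    · exact ⟨_, rfl⟩
    · have h1 := congrArg List.length heq2
      rw [List.length_append, List.length_append, List.length_append] at h1
      omega
  obtain ⟨Q, hQ⟩ := hq
  have heq3 : P ++ h 2 = h 2 ++ Q := by
    rw [← hQ, ← List.append_assoc] at heq2
    exact List.append_cancel_right heq2
  obtain ⟨X, Y, W, s', t', hs', ht', hL⟩ := euc_left_g (h 0).length (h 1).length hx0 hy0 (tob A) (tob C)
  obtain ⟨X', Y', W', s'', t'', hs'', ht'', hR⟩ := euc_right_g s' t' hs' ht' (sbt X Y (tob D)) (sbt X Y (tob B))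
  obtain ⟨p, q, hpq, hrat, hx, hy, hPW, clp, clq⟩ := hL α (h 0) (h 1) P hxy (Nat.mul_comm _ _) (by
    rw [← bval_tob h C hC, ← bval_tob h A hA]
    exact hP)
  obtain ⟨p', q', hpq', -, hx', hy', hQW, clp', clq'⟩ := hR α p q Q hpq hrat (by
    rw [← bval_sbt, ← bval_sbt, ← hx, ← hy, ← bval_tob h B hB, ← bval_tob h D hD]
    exact hQ)
  obtain ⟨W2, hW2⟩ : ∃ W2, W2 = sbt X' Y' W := ⟨_, rfl⟩
  obtain ⟨X2, hX2⟩ : ∃ X2, X2 = sbt X' Y' X := ⟨_, rfl⟩
  obtain ⟨Y2, hY2⟩ : ∃ Y2, Y2 = sbt X' Y' Y := ⟨_, rfl⟩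
  have hPW' : P = bval p' q' W2 := by
    rw [hPW, hx', hy', bval_sbt, hW2]
  have hx2 : h 0 = bval p' q' X2 := by
    rw [hX2, ← bval_sbt, ← hx', ← hy']
    exact hx
  have hy2 : h 1 = bval p' q' Y2 := by
    rw [hY2, ← bval_sbt, ← hx', ← hy']
    exact hy
  have hwl : sbt X2 Y2 (tob C) ++ W2 = sbt X2 Y2 (tob A) := by
    apply bval_inj hpq'
    rw [bval_append, ← bval_sbt, ← bval_sbt, ← hx2, ← hy2, ← hPW', ← bval_tob h C hC, ← bval_tob h A hA]
    exact hP
  have hwr : W' ++ sbt X2 Y2 (tob B) = sbt X2 Y2 (tob D) := by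
    apply bval_inj hpq'
    rw [bval_append, ← bval_sbt, ← bval_sbt, ← hx2, ← hy2, ← hQW, ← bval_tob h B hB, ← bval_tob h D hD]
    exact hQ
  have hcnt : ∀ c : Bool, W2.count c = W'.count c := by
    intro c
    have e1 := congrArg (List.count c) hwl
    have e2 := congrArg (List.count c) hwr
    rw [List.count_append, count_sbt, count_sbt] at e1 e2
    rw [(tob_count hC).1, (tob_count hC).2, (tob_count hA).1, (tob_count hA).2] at e1
    rw [(tob_count hB).1, (tob_count hB).2, (tob_count hD).1, (tob_count hD).2] at e2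
    have b0 := hbal 0
    have b1 := hbal 1
    rw [List.count_append, List.count_append] at b0 b1
    have m0 := congrArg (fun n => n * X2.count c) b0
    have m1 := congrArg (fun n => n * Y2.count c) b1
    simp only [Nat.add_mul] at m0 m1
    omega
  have hPne : P ≠ [] := by
    rintro rfl
    rw [List.append_nil] at hP
    rw [hP] at hlt
    exact lt_irrefl _ hlt
  have hlPQ : P.length = Q.length := by
    have h1 := congrArg List.length heq3
    rw [List.length_append, List.length_append] at h1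
    omega
  have hW2ne : W2 ≠ [] := by
    intro h0
    rw [h0] at hPW'
    exact hPne hPW'
  have hW'ne : W' ≠ [] := by
    intro h0
    rw [h0] at hQW
    have h1 : Q = [] := hQW
    rw [h1] at hlPQ
    exact hPne (List.eq_nil_of_length_eq_zero hlPQ)
  obtain ⟨R, m, hm, hRm, hR1⟩ := prim_root _ W2 le_rfl hW2ne
  obtain ⟨R', m', hm', hRm', hR1'⟩ := prim_root _ W' le_rfl hW'ne
  have hcc := conj_code (z := h 2) hpq' hR1 hR1' hm hm' (by
    rw [← bval_pow, ← bval_pow, ← hRm, ← hRm', ← hPW', ← hQW]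
    exact heq3)
  have hcl1 : Subgroup.closure {io p', io q'} ≤ Subgroup.closure {io p, io q} := by
    rw [Subgroup.closure_le]
    rintro g (rfl | rfl)
    · exact clp'
    · exact clq'
  have hcl2 : Subgroup.closure {io p, io q} ≤ Subgroup.closure {io (h 0), io (h 1)} := by
    rw [Subgroup.closure_le]
    rintro g (rfl | rfl)
    · exact clp
    · exact clq
  rcases hcc with ⟨S, T, h1, h2⟩ | ⟨c, d, hcd, h1, h2⟩
  · have hmm : m = m' := by
      have e1 : W2.length = W'.length := by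
        rw [length_count, length_count, hcnt true, hcnt false]
      rw [hRm, hRm', pow_length, pow_length, h1, h2, List.length_append, List.length_append,
        Nat.add_comm T.length] at e1
      have e2 : 0 < S.length + T.length := by
        have h3 := List.length_pos_iff.2 (prim_ne hR1)
        rw [h1, List.length_append] at h3
        exact h3
      exact Nat.eq_of_mul_eq_mul_right e2 e1
    refine ⟨p', q', P, Q, X2, Y2, S, T, m, hpq', hm, h1 ▸ hR1, hx2, hy2, ?_, ?_, hP, heq3,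
      hcl2 clp', hcl2 clq'⟩
    · rw [hPW', hRm, h1]
    · rw [hQW, hRm', h2, hmm]
  · exfalso
    have e1 := hcnt d
    rw [hRm, hRm', h1, h2] at e1
    have e2 : ∀ (c : Bool) (n : ℕ), pow [c] n = List.replicate n c := by
      intro c n
      unfold pow
      rw [List.flatten_replicate_singleton]
    rw [e2, e2, List.count_replicate, List.count_replicate] at e1
    have h3 : (c == d) = false := by simpa using hcd
    have h4 : (d == d) = true := by simp
    rw [h3, h4] at e1
    simp at e1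
    omega


/-- if `z` is in the group generated by `x` and `y` for all non periodic solutions -/
theorem npb_uni {A B C D : List (Fin 3)} (hA : (2 : Fin 3) ∉ A) (hB : (2 : Fin 3) ∉ B) (hC : (2 : Fin 3) ∉ C)
    (hD : (2 : Fin 3) ∉ D)
    (hk : ∀ (α : Type) (h : Fin 3 → List α), Solves h (A ++ [2] ++ B, C ++ [2] ++ D) → ¬ Per h →
      h 0 ++ h 1 ≠ h 1 ++ h 0 ∧ (val h C).length < (val h A).length ∧
      io (h 2) ∈ Subgroup.closure {io (h 0), io (h 1)}) : NPB (A ++ [2] ++ B, C ++ [2] ++ D) := by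
  intro α E h k1 k2 k3 k4
  have hxy := fun i => (hk α (h i) (k2 i) (k1 i)).1
  have hlt := fun i => (hk α (h i) (k2 i) (k1 i)).2.1
  have hcl := fun i => (hk α (h i) (k2 i) (k1 i)).2.2
  have hcl3 : ∀ i, Subgroup.closure {io (h i 0), io (h i 1)} ≤ (phi (h i)).range := by
    intro i
    rw [Subgroup.closure_le]
    rintro g (rfl | rfl)
    · exact ⟨FreeGroup.of 0, phi_0 (h i)⟩
    · exact ⟨FreeGroup.of 1, phi_1 (h i)⟩
  have hex : ∀ i, ∃ ζ, phi (h i) ζ = io (h i 2) := fun i => hcl3 i (hcl i)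
  choose ζ hζ using hex
  have heq : ∀ i, val (h i) A ++ h i 2 ++ val (h i) B = val (h i) C ++ h i 2 ++ val (h i) D := by
    intro i
    have h3 : val (h i) (A ++ [2] ++ B) = val (h i) (C ++ [2] ++ D) := k2 i
    rw [val_append, val_append, val_append, val_append, val_one'] at h3
    exact h3
  have hP : ∀ i, ∃ P : List α, val (h i) C ++ P = val (h i) A := by
    intro i
    have hp : val (h i) C <+: val (h i) A := by
      apply List.prefix_of_prefix_length_le (l₃ := val (h i) A ++ h i 2 ++ val (h i) B) _ _ (hlt i).le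
      · rw [heq i, List.append_assoc]
        exact ⟨_, rfl⟩
      · rw [List.append_assoc]
        exact ⟨_, rfl⟩
    obtain ⟨P, hP⟩ := hp
    exact ⟨P, hP⟩
  choose P hP using hP
  obtain ⟨Pf, hPf⟩ : ∃ Pf, Pf = (fw C)⁻¹ * fw A := ⟨_, rfl⟩
  obtain ⟨Qf, hQf⟩ : ∃ Qf, Qf = fw D * (fw B)⁻¹ := ⟨_, rfl⟩
  have hphiP : ∀ i, phi (h i) Pf = io (P i) := by
    intro i
    rw [hPf, map_mul, map_inv, phi_fw hC, phi_fw hA, ← hP i, io_append]
    group
  have hPne : ∀ i, P i ≠ [] := by
    intro i h0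
    have h1 := hP i
    rw [h0, List.append_nil] at h1
    have h2 := hlt i
    rw [h1] at h2
    exact lt_irrefl _ h2
  have hPf1 : Pf ≠ 1 := by
    intro h0
    have h1 := hphiP 0
    rw [h0, map_one] at h1
    exact hPne 0 (io_inj (by rw [← h1, io_nil]))
  have hfe : ∀ i, fw A * ζ i * fw B = fw C * ζ i * fw D := by
    intro i
    apply phi_inj (hxy i)
    rw [map_mul, map_mul, map_mul, map_mul, phi_fw hA, phi_fw hB, phi_fw hC, phi_fw hD, hζ i]
    have h1 := congrArg io (heq i)
    rw [io_append, io_append, io_append, io_append] at h1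
    exact h1
  have hcomm : ∀ i, Pf * ζ i = ζ i * Qf := by
    intro i
    rw [hPf, hQf]
    have h1 := congrArg (fun u => (fw C)⁻¹ * u * (fw B)⁻¹) (hfe i)
    simp only [mul_assoc, mul_inv_cancel, mul_one, inv_mul_cancel_left] at h1
    simpa only [mul_assoc] using h1
  have hδ : ∀ i, (ζ i * (ζ 0)⁻¹) * Pf = Pf * (ζ i * (ζ 0)⁻¹) := by
    intro i
    have h1 : Qf = (ζ 0)⁻¹ * Pf * ζ 0 := by
      rw [mul_assoc, hcomm 0]
      group
    rw [← mul_assoc Pf, hcomm i, h1]
    group
  obtain ⟨ρ0, m0, n0, hm0, hn0⟩ := cent_cyc hPf1 (fun i => ζ i * (ζ 0)⁻¹) hδ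
  obtain ⟨ρ, m, n, hm1, hm, hn⟩ : ∃ (ρ : FreeGroup (Fin 2)) (m : ℕ) (n : Fin 4 → ℤ), 1 ≤ m ∧ Pf = ρ ^ m ∧
      ∀ i, ζ i * (ζ 0)⁻¹ = ρ ^ n i := by
    rcases lt_trichotomy m0 0 with h1 | h1 | h1
    · refine ⟨ρ0⁻¹, (-m0).toNat, fun i => - n0 i, by omega, ?_, fun i => ?_⟩
      · rw [← zpow_natCast, Int.toNat_of_nonneg (by omega), inv_zpow, zpow_neg, inv_inv]
        exact hm0
      · rw [inv_zpow, zpow_neg, inv_inv]
        exact hn0 i
    · exfalso
      rw [h1, zpow_zero] at hm0
      exact hPf1 hm0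
    · refine ⟨ρ0, m0.toNat, n0, by omega, ?_, hn0⟩
      rw [← zpow_natCast, Int.toNat_of_nonneg (by omega)]
      exact hm0
  obtain ⟨i0, hi0⟩ : ∃ i0 : Fin 4, ∀ i, n i0 ≤ n i := Finite.exists_min n
  have hroot : (phi (h i0) ρ) ^ m = io (P i0) := by
    rw [← map_pow, ← hm, hphiP]
  obtain ⟨v, hv⟩ := root_pos hm1 hroot
  set e : Fin 4 → ℕ := fun i => (n i - n i0).toNat with he
  have hζe : ∀ i, ζ i = ρ ^ (e i) * ζ i0 := by
    intro i
    have h1 : ((n i - n i0).toNat : ℤ) = n i - n i0 := Int.toNat_of_nonneg (by have := hi0 i; omega)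
    rw [← zpow_natCast, show ((e i : ℕ) : ℤ) = n i - n i0 from h1, zpow_sub, ← hn i, ← hn i0]
    group
  set g : Fin 4 → Fin 3 → List α := fun i => ![h i0 0, h i0 1, pow v (e i) ++ h i0 2] with hg
  have hphi' : ∀ i : Fin 4, phi (g i) (ζ i) = io (g i 2) := by
    intro i
    have hp : phi (g i) = phi (h i0) := rfl
    rw [hp, hζe i, map_mul, map_pow, hv, hζ i0]
    show _ = io (pow v (e i) ++ h i0 2)
    rw [io_append, io_pow]
  have hsol : ∀ (i : Fin 4) (F : List (Fin 3) × List (Fin 3)), Solves (g i) F ↔ Solves (h i) F := by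
    intro i F
    rw [solves_phi (hxy i) (hζ i), solves_phi (h := g i) (hxy i0) (hphi' i)]
  exact same_xy (e := e) E (fun i j hij => (hsol i (E j)).2 (k3 i j hij)) (fun i hs => k4 i ((hsol i (E i)).1 hs))

end Pool.Agent.H70.WE
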