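import Pool.Agent.H70.WB.Defs

/-!
# [H70 WB Trie] Branching nodes of a finite set of words of the same length

`trie_upper`, induction on `S`: a new word `v` makes at most one new branching node (the longest prefix of `v` which is a prefix of a
word of `S`). `trie_lower` (two letters): the same node is new when the lengths are equal.
-/

set_option autoImplicit false

namespace Pool.Agent.H70.WE

private theorem tr_child {β : Type} {t : List β} {c d : β} {v : List β} (h1 : t ++ [c] <+: v)
    (h2 : t ++ [d] <+: v) : c = d := by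
  obtain ⟨r1, rfl⟩ := h1
  obtain ⟨r2, h⟩ := h2
  rw [List.append_assoc, List.append_assoc] at h
  have h3 := List.append_cancel_left h
  simp only [List.singleton_append, List.cons.injEq] at h3
  exact h3.1.symm

private theorem tr_pre {β : Type} {t t' : List β} {v : List β} (h1 : t <+: v) (h2 : t' <+: v)
    (hl : t.length ≤ t'.length) : t <+: t' := List.prefix_of_prefix_length_le h1 h2 hl

/-- a branching node of `S` -/
private def Br {β : Type} (S : Finset (List β)) (t : List β) : Prop :=
  ∃ c d : β, c ≠ d ∧ (∃ v ∈ S, t ++ [c] <+: v) ∧ ∃ v ∈ S, t ++ [d] <+: v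

private theorem tr_new {β : Type} {S : Finset (List β)} {v t : List β} [DecidableEq (List β)]
    (h : Br (insert v S) t) (hn : ¬ Br S t) (hv : v ∉ S) :
    ∃ c : β, t ++ [c] <+: v ∧ (∀ w ∈ S, ¬ t ++ [c] <+: w) ∧ ∃ w ∈ S, t <+: w := by
  obtain ⟨c, d, hcd, ⟨v1, hv1, h1⟩, v2, hv2, h2⟩ := h
  rw [Finset.mem_insert] at hv1 hv2
  rcases hv1 with rfl | hv1
  · rcases hv2 with rfl | hv2
    · exact absurd (tr_child h1 h2) hcd
    · refine ⟨c, h1, ?_, v2, hv2, (List.prefix_append _ _).trans h2⟩
      intro w hw hc
      exact hn ⟨c, d, hcd, ⟨w, hw, hc⟩, v2, hv2, h2⟩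
  · rcases hv2 with rfl | hv2
    · refine ⟨d, h2, ?_, v1, hv1, (List.prefix_append _ _).trans h1⟩
      intro w hw hd
      exact hn ⟨c, d, hcd, ⟨v1, hv1, h1⟩, w, hw, hd⟩
    · exact absurd ⟨c, d, hcd, ⟨v1, hv1, h1⟩, v2, hv2, h2⟩ hn

private theorem tr_uniq' {β : Type} {S : Finset (List β)} {v t t' : List β} {c c' : β}
    (h1 : t ++ [c] <+: v) (h2 : ∀ w ∈ S, ¬ t ++ [c] <+: w)
    (h1' : t' ++ [c'] <+: v) (h3' : ∃ w ∈ S, t' <+: w) : t'.length ≤ t.length := by
  by_contra hlt
  push Not at hlt
  obtain ⟨w, hw, hw'⟩ := h3'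
  have h4 : t' <+: v := (List.prefix_append _ _).trans h1'
  have h5 : t ++ [c] <+: t' := tr_pre h1 h4 (by
    rw [List.length_append, List.length_singleton]
    omega)
  exact h2 w hw (h5.trans hw')

private theorem tr_upper {β : Type} (S : Finset (List β)) : ∀ T : Finset (List β),
    (∀ t ∈ T, Br S t) → S.Nonempty → T.card + 1 ≤ S.card := by
  classical
  induction S using Finset.induction_on with
  | empty =>
    intro T _ h
    exact absurd h Finset.not_nonempty_empty
  | insert v S hv ih =>
    intro T hT _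
    rw [Finset.card_insert_of_notMem hv]
    rcases S.eq_empty_or_nonempty with hS | hS
    · subst hS
      have h0 : T = ∅ := by
        rw [Finset.eq_empty_iff_forall_notMem]
        intro t ht
        obtain ⟨c, d, hcd, ⟨v1, hv1, h1⟩, v2, hv2, h2⟩ := hT t ht
        rw [Finset.mem_insert] at hv1 hv2
        have e1 : v1 = v := by
          rcases hv1 with h | h
          · exact h
          · exact absurd h (Finset.notMem_empty _)
        have e2 : v2 = v := by
          rcases hv2 with h | h
          · exact h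
          · exact absurd h (Finset.notMem_empty _)
        subst e1
        subst e2
        exact hcd (tr_child h1 h2)
      subst h0
      exact le_rfl
    · have h1 := ih (T.filter fun t => Br S t) (fun t ht => (Finset.mem_filter.1 ht).2) hS
      have h2 : (T.filter fun t => ¬ Br S t).card ≤ 1 := by
        rw [Finset.card_le_one]
        intro t ht t' ht'
        rw [Finset.mem_filter] at ht ht'
        obtain ⟨c, a1, a2, a3⟩ := tr_new (hT t ht.1) ht.2 hv
        obtain ⟨c', b1, b2, b3⟩ := tr_new (hT t' ht'.1) ht'.2 hv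
        have l1 := tr_uniq' a1 a2 b1 b3
        have l2 := tr_uniq' b1 b2 a1 a3
        have p1 : t <+: t' := tr_pre ((List.prefix_append _ _).trans a1)
          ((List.prefix_append _ _).trans b1) l2
        exact p1.eq_of_length (le_antisymm l2 l1)
      have h3 := Finset.card_filter_add_card_filter_not (s := T) (fun t => Br S t)
      omega

theorem trie_upper {β : Type} (L : ℕ) (S T : Finset (List β)) (hL : ∀ v ∈ S, v.length = L)
    (hT : ∀ t ∈ T, ∃ c d : β, c ≠ d ∧ (∃ v ∈ S, t ++ [c] <+: v) ∧ ∃ v ∈ S, t ++ [d] <+: v)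
    (hS : S.Nonempty) : T.card + 1 ≤ S.card := tr_upper S T hT hS

private theorem tr_node {S : Finset (List Bool)} {L : ℕ} {v : List Bool} (hL : ∀ w ∈ S, w.length = L)
    (hvL : v.length = L) (hv : v ∉ S) (hS : S.Nonempty) :
    ∃ (t : List Bool) (c : Bool), t ++ [c] <+: v ∧ (∀ w ∈ S, ¬ t ++ [c] <+: w) ∧
      ∃ w ∈ S, t ++ [!c] <+: w := by
  classical
  have hP0 : ∃ w ∈ S, v.take 0 <+: w := by
    obtain ⟨w, hw⟩ := hS
    exact ⟨w, hw, by simp⟩
  set n := Nat.findGreatest (fun n => ∃ w ∈ S, v.take n <+: w) L with hn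
  have hPn : ∃ w ∈ S, v.take n <+: w :=
    Nat.findGreatest_spec (P := fun n => ∃ w ∈ S, v.take n <+: w) (Nat.zero_le L) hP0
  have hnL : n ≤ L := Nat.findGreatest_le L
  obtain ⟨w, hw, hwp⟩ := hPn
  have hlt : n < L := by
    rcases lt_or_eq_of_le hnL with h | h
    · exact h
    · exfalso
      rw [h, ← hvL, List.take_length] at hwp
      have e : v = w := hwp.eq_of_length (by rw [hvL, hL w hw])
      exact hv (e ▸ hw)
  have hmax : ∀ w ∈ S, ¬ v.take (n + 1) <+: w := by
    intro w' hw' hc
    have := Nat.le_findGreatest (P := fun n => ∃ w ∈ S, v.take n <+: w) (show n + 1 ≤ L from hlt)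
      ⟨w', hw', hc⟩
    omega
  have hnv : n < v.length := by omega
  have htake : v.take (n + 1) = v.take n ++ [v[n]] := by
    rw [List.take_add_one, List.getElem?_eq_getElem hnv]
    rfl
  refine ⟨v.take n, v[n], ?_, ?_, w, hw, ?_⟩
  · rw [← htake]
    exact List.take_prefix _ _
  · intro w' hw'
    rw [← htake]
    exact hmax w' hw'
  · obtain ⟨r, hr⟩ := hwp
    have hlr : 0 < r.length := by
      have := congrArg List.length hr
      rw [List.length_append, List.length_take, hL w hw] at this
      omega
    match r, hlr with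
    | d :: r', _ =>
      have hd : d ≠ v[n] := by
        intro hdc
        refine hmax w hw ⟨r', ?_⟩
        rw [htake, ← hr, hdc, List.append_assoc]
        rfl
      have hd' : d = !v[n] := by
        revert hd
        generalize v[n] = e
        cases d <;> cases e <;> simp
      refine ⟨r', ?_⟩
      rw [← hr, ← hd', List.append_assoc]
      rfl

theorem trie_lower (L : ℕ) (S : Finset (List Bool)) (hL : ∀ v ∈ S, v.length = L) :
    ∃ T : Finset (List Bool), S.card ≤ T.card + 1 ∧
      ∀ t ∈ T, (∃ v ∈ S, t ++ [true] <+: v) ∧ ∃ v ∈ S, t ++ [false] <+: v := by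
  classical
  induction S using Finset.induction_on with
  | empty => exact ⟨∅, by simp, by simp⟩
  | insert v S hv ih =>
    have hL' : ∀ w ∈ S, w.length = L := fun w hw => hL w (Finset.mem_insert_of_mem hw)
    have hvL : v.length = L := hL v (Finset.mem_insert_self _ _)
    rw [Finset.card_insert_of_notMem hv]
    rcases S.eq_empty_or_nonempty with hS | hS
    · subst hS
      exact ⟨∅, by simp, by simp⟩
    · obtain ⟨T, hT1, hT2⟩ := ih hL'
      obtain ⟨t, c, h1, h2, w, hw, h3⟩ := tr_node hL' hvL hv hS
      have htT : t ∉ T := by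
        intro ht
        obtain ⟨⟨w1, hw1, k1⟩, w2, hw2, k2⟩ := hT2 t ht
        cases c with
        | true => exact h2 w1 hw1 k1
        | false => exact h2 w2 hw2 k2
      refine ⟨insert t T, ?_, ?_⟩
      · rw [Finset.card_insert_of_notMem htT]
        omega
      · intro t' ht'
        rw [Finset.mem_insert] at ht'
        rcases ht' with rfl | ht'
        · cases c with
          | true => exact ⟨⟨v, Finset.mem_insert_self _ _, h1⟩, w, Finset.mem_insert_of_mem hw, h3⟩
          | false => exact ⟨⟨w, Finset.mem_insert_of_mem hw, h3⟩, v, Finset.mem_insert_self _ _, h1⟩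
        · obtain ⟨⟨w1, hw1, k1⟩, w2, hw2, k2⟩ := hT2 t' ht'
          exact ⟨⟨w1, Finset.mem_insert_of_mem hw1, k1⟩, w2, Finset.mem_insert_of_mem hw2, k2⟩

end Pool.Agent.H70.WE
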